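import Mathlib
import Pool.Agent.Lib_MP_112ba8_e.Defs

/-!
Definitions for the lower bound of the sixth moment of zeta.
-/

namespace Pool.Agent.SixthMoment

open Filter Topology MeasureTheory
open Pool.Agent.EvenMoment (cl Wgt Adm Ed cut hat)

/-! ### positive rationals -/

/-- Positive rationals `h / k`, written additively as exponent vectors over the primes. -/
abbrev QQ : Type := Nat.Primes →₀ ℤ

/-- `log (h k)` of the reduced fraction `h / k` -/
noncomputable def ln (q : QQ) : ℝ := q.sum fun p j => |(j : ℝ)| * Real.log ((p : ℕ) : ℝ)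

/-- `log (h / k)` -/
noncomputable def fr (q : QQ) : ℝ := q.sum fun p j => (j : ℝ) * Real.log ((p : ℕ) : ℝ)

/-- `exp (i t log (h / k))` -/
noncomputable def osc (q : QQ) (t : ℝ) : ℂ := Complex.exp (t * (fr q : ℝ) * Complex.I)

/-- `d_{1/2}(p^n) = binom(2n, n) / 4^n` -/
noncomputable def Cn (n : ℕ) : ℝ := (Nat.centralBinom n : ℝ) / 4 ^ n

/-- `u_j(p) = ∑_g C_{g+j} C_g p^{-g}` -/
noncomputable def uu (p j : ℕ) : ℝ := ∑' g : ℕ, Cn (g + j) * Cn g / (p : ℝ) ^ g

/-- local coefficient `u_j(p) / u_0(p)` -/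
noncomputable def cc (p j : ℕ) : ℝ := uu p j / uu p 0

/-- multiplicative coefficient -/
noncomputable def CC (q : QQ) : ℝ := q.prod fun p j => cc (p : ℕ) j.natAbs

lemma log_prime_pos (p : Nat.Primes) : 0 < Real.log ((p : ℕ) : ℝ) :=
  Real.log_pos (by exact_mod_cast p.2.one_lt)

lemma term_le_ln (q : QQ) (p : Nat.Primes) : |(q p : ℝ)| * Real.log ((p : ℕ) : ℝ) ≤ ln q := by
  by_cases hp : p ∈ q.support
  · unfold ln Finsupp.sum
    exact Finset.single_le_sum (f := fun p : Nat.Primes => |(q p : ℝ)| * Real.log ((p : ℕ) : ℝ))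
      (fun i _ => mul_nonneg (abs_nonneg _) (log_prime_pos i).le) hp
  · rw [Finsupp.notMem_support_iff.mp hp]
    simp only [Int.cast_zero, abs_zero, zero_mul]
    exact Finset.sum_nonneg fun i _ => mul_nonneg (abs_nonneg _) (log_prime_pos i).le

lemma finite_QQ (B : ℝ) : {q : QQ | ln q ≤ B}.Finite := by
  classical
  have hfin : {p : Nat.Primes | ((p : ℕ) : ℝ) ≤ Real.exp B}.Finite := by
    refine Set.Finite.of_finite_image (f := fun p : Nat.Primes => (p : ℕ)) ?_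
      (fun a _ b _ h => Subtype.ext h)
    refine (Set.finite_Iic ⌊Real.exp B⌋₊).subset ?_
    rintro _ ⟨p, hp, rfl⟩
    exact Nat.le_floor hp
  set N : ℤ := ⌈B / Real.log 2⌉ with hN
  refine Set.Finite.subset
    (Finset.finite_toSet (hfin.toFinset.finsupp (fun _ => Finset.Icc (-N) N))) ?_
  intro q hq
  have hq' : ln q ≤ B := hq
  rw [Finset.mem_coe, Finset.mem_finsupp_iff]
  constructor
  · intro p hp
    rw [Set.Finite.mem_toFinset, Set.mem_setOf_eq]
    have h1 := term_le_ln q p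
    have h2 : (1 : ℝ) ≤ |(q p : ℝ)| := by
      have : q p ≠ 0 := Finsupp.mem_support_iff.mp hp
      exact_mod_cast Int.one_le_abs this
    have h3 := log_prime_pos p
    have h4 : Real.log ((p : ℕ) : ℝ) ≤ B := by nlinarith
    have hp0 : (0 : ℝ) < ((p : ℕ) : ℝ) := by exact_mod_cast p.2.pos
    rwa [Real.log_le_iff_le_exp hp0] at h4
  · intro p _
    have h1 := term_le_ln q p
    have hl2 : 0 < Real.log 2 := Real.log_pos one_lt_two
    have h3 : Real.log 2 ≤ Real.log ((p : ℕ) : ℝ) :=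
      Real.log_le_log (by norm_num) (by exact_mod_cast p.2.two_le)
    have h4 : |(q p : ℝ)| * Real.log 2 ≤ B := by
      have := mul_le_mul_of_nonneg_left h3 (abs_nonneg (q p : ℝ))
      linarith
    have h5 : |(q p : ℝ)| ≤ B / Real.log 2 := by rwa [le_div_iff₀ hl2]
    have h6 : |(q p : ℝ)| ≤ (N : ℝ) := h5.trans (Int.le_ceil _)
    have h7 : |q p| ≤ N := by exact_mod_cast h6
    rw [Finset.mem_Icc]
    exact abs_le.mp h7

/-- the finite set of fractions with `log (h k) ≤ B` -/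
noncomputable def QS (B : ℝ) : Finset QQ := (finite_QQ B).toFinset

lemma mem_QS {B : ℝ} {q : QQ} : q ∈ QS B ↔ ln q ≤ B := by
  unfold QS
  rw [Set.Finite.mem_toFinset, Set.mem_setOf_eq]

/-! ### discrete sums over tuples with sum zero -/

/-- tuples of fractions with product one (sum zero) -/
abbrev TT (r : ℕ) : Type := {f : Fin r → QQ // ∑ i, f i = 0}

/-- vertex weight: `CC` for vertices of exponent `1/2` (`true`), `1` for exponent `1` (`false`) -/
noncomputable def vw (b : Bool) (q : QQ) : ℝ := if b then CC q else 1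

/-- exponent of a vertex -/
noncomputable def al (b : Bool) : ℝ := if b then 1 / 2 else 1

/-- weight of a tuple -/
noncomputable def wt {r : ℕ} (h : Fin r → Bool) (f : TT r) : ℝ :=
  (∏ i, vw (h i) (f.1 i)) * Real.exp (-((∑ i, ln (f.1 i)) / 2))

/-- observable: the size of a partial product -/
noncomputable def ob {r m : ℕ} (S : Fin m → Finset (Fin r)) (f : TT r) (κ : Fin m) : ℝ :=
  ln (∑ i ∈ S κ, f.1 i)

/-- the discrete functional -/
noncomputable def DS {r m : ℕ} (h : Fin r → Bool) (S : Fin m → Finset (Fin r))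
    (G : (Fin m → ℝ) → ℝ) (L : ℝ) : ℝ :=
  ∑' f : TT r, wt h f * G (fun κ => ob S f κ / L)

/-! ### the limit functional -/

/-- exponent of an edge -/
noncomputable def ke {r : ℕ} (h : Fin r → Bool) (e : Ed r) : ℝ := 2 * al (h e.1.1) * al (h e.1.2)

/-- sum of the exponents of all edges -/
noncomputable def kk {r : ℕ} (h : Fin r → Bool) : ℝ := ∑ e : Ed r, ke h e

/-- the edge `e` is cut by the vertex set `A` -/
def sepa {r : ℕ} (A : Finset (Fin r)) (e : Ed r) : Prop := ¬ (e.1.1 ∈ A ↔ e.1.2 ∈ A)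

instance {r : ℕ} (A : Finset (Fin r)) (e : Ed r) : Decidable (sepa A e) := by
  unfold sepa; infer_instance

/-- value of the observables in the limit -/
noncomputable def oy {r m : ℕ} (S : Fin m → Finset (Fin r)) (y : Ed r → ℝ) (κ : Fin m) : ℝ :=
  ∑ e : Ed r, if sepa (S κ) e then y e else 0

/-- Laplace variable of an edge -/
noncomputable def xe {r m : ℕ} (S : Fin m → Finset (Fin r)) (x : Fin m → ℝ) (e : Ed r) : ℝ :=
  ∑ κ, if sepa (S κ) e then x κ else 0

/-- density of the limit measure -/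
noncomputable def dens {r : ℕ} (h : Fin r → Bool) (y : Ed r → ℝ) : ℝ :=
  ∏ e : Ed r, (y e ^ (ke h e - 1) / Real.Gamma (ke h e))

/-- the limit functional -/
noncomputable def LS {r m : ℕ} (h : Fin r → Bool) (S : Fin m → Finset (Fin r))
    (G : (Fin m → ℝ) → ℝ) : ℝ :=
  ∫ y in {y : Ed r → ℝ | ∀ e, 0 < y e}, dens h y * G (oy S y)

/-! ### local factors -/

/-- integer vectors with sum zero -/
abbrev JZ (r : ℕ) : Type := {j : Fin r → ℤ // ∑ i, j i = 0}

/-- local vertex weight -/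
noncomputable def vp (b : Bool) (p n : ℕ) : ℝ := if b then cc p n else 1

/-- term of the local factor -/
noncomputable def lterm {r m : ℕ} (h : Fin r → Bool) (S : Fin m → Finset (Fin r)) (p : ℕ)
    (x : Fin m → ℝ) (j : JZ r) : ℝ :=
  (∏ i, vp (h i) p (j.1 i).natAbs) *
    (p : ℝ) ^ (-((∑ i, |(j.1 i : ℝ)|) / 2 + ∑ κ, x κ * |∑ i ∈ S κ, (j.1 i : ℝ)|))

/-- local factor -/
noncomputable def Fl {r m : ℕ} (h : Fin r → Bool) (S : Fin m → Finset (Fin r)) (p : ℕ)
    (x : Fin m → ℝ) : ℝ := ∑' j : JZ r, lterm h S p x j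

/-- local factor at `x = 0` -/
noncomputable def F0 {r : ℕ} (h : Fin r → Bool) (p : ℕ) : ℝ :=
  ∑' j : JZ r, (∏ i, vp (h i) p (j.1 i).natAbs) * (p : ℝ) ^ (-((∑ i, |(j.1 i : ℝ)|) / 2))

/-- the arithmetic constant -/
noncomputable def AR {r : ℕ} (h : Fin r → Bool) : ℝ :=
  Real.exp (∑' p : Nat.Primes, (Real.log (F0 h p) + kk h * Real.log (1 - 1 / ((p : ℕ) : ℝ))))

/-! ### the polynomials `V` and `R` -/

/-- coefficient of `V` -/
noncomputable def Vc (ω : ℝ → ℝ) (L : ℝ) (q : QQ) : ℝ :=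
  CC q * (ω (ln q / L) * Real.exp (-(ln q / 2)))

/-- the polynomial `V` -/
noncomputable def VV (ω : ℝ → ℝ) (θ L t : ℝ) : ℂ :=
  ∑ q ∈ QS (θ * L), ((Vc ω L q : ℝ) : ℂ) * osc q t

/-- convolution of `V` with a function of the size -/
noncomputable def cv (ω : ℝ → ℝ) (φ : ℝ → ℝ) (θ L : ℝ) (e : QQ) : ℝ :=
  ∑ v ∈ QS (θ * L), Vc ω L v * (Real.exp (-(ln (e - v) / 2)) * φ (ln (e - v) / L))

/-- the polynomial `R` -/
noncomputable def RR (ω χ : ℝ → ℝ) (θ ρ L t : ℝ) : ℂ :=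
  ∑ e ∈ QS (ρ * L), ((χ (ln e / L) * (L * cv ω (fun s => 1 - s) θ L e) : ℝ) : ℂ) * osc e t

/-- vertex types for `∫ |ζ|^2 V^4` -/
def hP : Fin 5 → Bool := ![false, true, true, true, true]

/-- observables for `∫ |ζ|^2 V^4` -/
def SP : Fin 5 → Finset (Fin 5) := fun i => {i}

/-- vertex types for `∫ |ζ|^2 R V` -/
def hZ : Fin 4 → Bool := ![false, true, false, true]

/-- observables for `∫ |ζ|^2 R V` -/
def SZ : Fin 5 → Finset (Fin 4) := ![{0}, {1}, {2}, {3}, {0, 1}]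

/-- test function for `∫ |ζ|^2 V^4` -/
noncomputable def GP (φ ω : ℝ → ℝ) (s : Fin 5 → ℝ) : ℝ :=
  φ (s 0) * (ω (s 1) * ω (s 2) * ω (s 3) * ω (s 4))

/-- test function for `∫ |ζ|^2 R V` -/
noncomputable def GZ (φ ψ ω χ : ℝ → ℝ) (s : Fin 5 → ℝ) : ℝ :=
  φ (s 0) * ψ (s 2) * (ω (s 1) * ω (s 3)) * χ (s 4)

/-- `(1 - s)` with a cut off -/
noncomputable def fc (s : ℝ) : ℝ := (1 - s) * cut s

/-- cut off for `R`: `1` for `s ≤ ρ - η`, `0` for `s ≥ ρ` -/
noncomputable def chi (ρ η s : ℝ) : ℝ := max 0 (min 1 ((ρ - s) / η))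

/-- `1 - w^2` over `1 + w^2` -/
noncomputable def tw (w : ℝ) : ℝ := (1 - w ^ 2) / (1 + w ^ 2)

/-- the rational function `1 / (1 + 1/t_1 + 1/t_2 + 1/t_3)` -/
noncomputable def q3 (a b c : ℝ) : ℝ := a * b * c / (a * b * c + a * b + a * c + b * c)

/-- the integrand `F` of `K6`; the pairs `(a,z)`, `(b,y)`, `(c,x)` are opposite edges of the
complete graph on four vertices -/
noncomputable def F6 (θ A a z b y c x : ℝ) : ℝ :=
  if a + b + c ≤ θ ∧ a + y + x ≤ θ ∧ z + b + x ≤ θ ∧ z + y + c ≤ θ then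
    (A + 2 * (a + z + b + y + c + x)) /
      (Real.pi ^ 3 * (Real.sqrt (a * z) * Real.sqrt (b * y) * Real.sqrt (c * x)))
  else 0

/-- the six-dimensional integral -/
noncomputable def K6 (θ A : ℝ) : ENNReal :=
  ∫⁻ a in Set.Ioi (0 : ℝ), ∫⁻ z in Set.Ioi (0 : ℝ), ∫⁻ b in Set.Ioi (0 : ℝ),
    ∫⁻ y in Set.Ioi (0 : ℝ), ∫⁻ c in Set.Ioi (0 : ℝ), ∫⁻ x in Set.Ioi (0 : ℝ),
      ENNReal.ofReal (F6 θ A a z b y c x)

/-- the inner integral over the three radial variables -/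
noncomputable def J3 (θ A c₁ c₂ c₃ : ℝ) : ENNReal :=
  ∫⁻ u in Set.Ioi (0 : ℝ), ∫⁻ v in Set.Ioi (0 : ℝ), ∫⁻ w in Set.Ioi (0 : ℝ),
    ENNReal.ofReal (if u * (1 + c₁) + v * (1 + c₂) + w * (1 + c₃) ≤ 2 * θ ∧
      u * (1 + c₁) + v * (1 - c₂) + w * (1 - c₃) ≤ 2 * θ ∧
      u * (1 - c₁) + v * (1 + c₂) + w * (1 - c₃) ≤ 2 * θ ∧
      u * (1 - c₁) + v * (1 - c₂) + w * (1 + c₃) ≤ 2 * θ then A + 2 * (u + v + w) else 0)

/-- lower bound integral for `Z` -/
noncomputable def Zn (θ lam r : ℝ) : ℝ :=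
  ∫ c in (0 : ℝ)..lam, (1 / Real.sqrt (Real.pi * c)) *
    ∫ b in (0 : ℝ)..(lam - c), ∫ b' in (0 : ℝ)..(lam - c), ∫ y in (0 : ℝ)..(r - b - b' - c),
      y * ((1 - (θ - c - b + b' + y)) * (1 - (θ - c - b' + b + y)))

end Pool.Agent.SixthMoment
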