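import Mathlib
import Pool.Agent.Lib_MP_112ba8_s.Defs

/-!
Piece A2: the coefficients `Cn`, `uu`, `cc`, `CC`.
-/

namespace Pool.Agent.SixthMoment

open Filter Topology MeasureTheory
open Pool.Agent.EvenMoment (cl Wgt Adm Ed cut hat)

theorem Cn_pos (n : ℕ) : 0 < Cn n := by
  unfold Cn
  have h : 0 < Nat.centralBinom n := Nat.centralBinom_pos n
  positivity

theorem Cn_zero : Cn 0 = 1 := by
  simp [Cn]

theorem coef_Cn_succ (n : ℕ) : ((n : ℝ) + 1) * Cn (n + 1) = ((n : ℝ) + 1 / 2) * Cn n := by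
  unfold Cn
  have h := Nat.succ_mul_centralBinom_succ n
  have h' : ((n : ℝ) + 1) * (Nat.centralBinom (n + 1) : ℝ) =
      2 * (2 * n + 1) * (Nat.centralBinom n : ℝ) := by exact_mod_cast h
  rw [pow_succ]
  field_simp
  linear_combination 2 * h'

theorem Cn_one : Cn 1 = 1 / 2 := by
  have h := coef_Cn_succ 0
  rw [Cn_zero] at h
  norm_num at h
  linarith

theorem Cn_anti : Antitone Cn := by
  refine antitone_nat_of_succ_le fun n => ?_
  have h := coef_Cn_succ n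
  have h1 := Cn_pos n
  have h2 : (0 : ℝ) < (n : ℝ) + 1 := by positivity
  by_contra hc
  push Not at hc
  nlinarith [mul_lt_mul_of_pos_left hc h2]

theorem Cn_le_one (n : ℕ) : Cn n ≤ 1 := by
  rw [← Cn_zero]
  exact Cn_anti (Nat.zero_le n)

theorem coef_conv_anti (n : ℕ) : ∑ x ∈ Finset.HasAntidiagonal.antidiagonal n, Cn x.1 * Cn x.2 = 1 := by
  induction n with
  | zero => simp [Cn_zero]
  | succ n ih =>
    have key : ∀ m : ℕ, ∑ x ∈ Finset.HasAntidiagonal.antidiagonal m, ((x.1 : ℕ) : ℝ) * (Cn x.1 * Cn x.2) =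
        (m : ℝ) / 2 * ∑ x ∈ Finset.HasAntidiagonal.antidiagonal m, Cn x.1 * Cn x.2 := by
      intro m
      have h1 : ∑ x ∈ Finset.HasAntidiagonal.antidiagonal m, ((x.1 : ℕ) : ℝ) * (Cn x.1 * Cn x.2) =
          ∑ x ∈ Finset.HasAntidiagonal.antidiagonal m, ((x.2 : ℕ) : ℝ) * (Cn x.1 * Cn x.2) := by
        rw [← Finset.Nat.sum_antidiagonal_swap]
        refine Finset.sum_congr rfl fun x _ => ?_
        simp only [Prod.fst_swap, Prod.snd_swap]
        ring
      have h2 : ∑ x ∈ Finset.HasAntidiagonal.antidiagonal m, ((x.1 : ℕ) : ℝ) * (Cn x.1 * Cn x.2) +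
          ∑ x ∈ Finset.HasAntidiagonal.antidiagonal m, ((x.2 : ℕ) : ℝ) * (Cn x.1 * Cn x.2) =
          (m : ℝ) * ∑ x ∈ Finset.HasAntidiagonal.antidiagonal m, Cn x.1 * Cn x.2 := by
        rw [← Finset.sum_add_distrib, Finset.mul_sum]
        refine Finset.sum_congr rfl fun x hx => ?_
        rw [Finset.HasAntidiagonal.mem_antidiagonal] at hx
        rw [← hx]
        push_cast
        ring
      linarith
    have h3 := key (n + 1)
    rw [Finset.Nat.sum_antidiagonal_succ (f := fun x : ℕ × ℕ => ((x.1 : ℕ) : ℝ) *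
      (Cn x.1 * Cn x.2))] at h3
    simp only [Nat.cast_zero, zero_mul, zero_add] at h3
    have h4 : ∑ x ∈ Finset.HasAntidiagonal.antidiagonal n, (((x.1 + 1 : ℕ) : ℝ) * (Cn (x.1 + 1) * Cn x.2)) =
        ((n : ℝ) + 1) / 2 := by
      have h5 : ∀ x ∈ Finset.HasAntidiagonal.antidiagonal n, (((x.1 + 1 : ℕ) : ℝ) * (Cn (x.1 + 1) * Cn x.2)) =
          ((x.1 : ℕ) : ℝ) * (Cn x.1 * Cn x.2) + 1 / 2 * (Cn x.1 * Cn x.2) := by
        intro x _
        have := coef_Cn_succ x.1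
        push_cast
        linear_combination Cn x.2 * this
      rw [Finset.sum_congr rfl h5, Finset.sum_add_distrib, key n, ← Finset.mul_sum, ih]
      ring
    rw [h4] at h3
    have h6 : ((n : ℝ) + 1) ≠ 0 := by positivity
    push_cast at h3
    field_simp at h3
    linarith

/-- convolution square of `C` is `1` -/
theorem Cn_conv (n : ℕ) : ∑ i ∈ Finset.range (n + 1), Cn i * Cn (n - i) = 1 := by
  rw [← coef_conv_anti n, Finset.Nat.sum_antidiagonal_eq_sum_range_succ (f := fun i j => Cn i * Cn j)]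

theorem coef_term_nonneg (p j g : ℕ) : 0 ≤ Cn (g + j) * Cn g / (p : ℝ) ^ g := by
  have h1 := (Cn_pos (g + j)).le
  have h2 := (Cn_pos g).le
  positivity

theorem coef_term_le {p : ℕ} (_ : 2 ≤ p) (j g : ℕ) :
    Cn (g + j) * Cn g / (p : ℝ) ^ g ≤ (1 / (p : ℝ)) ^ g := by
  rw [div_pow, one_pow]
  refine div_le_div_of_nonneg_right ?_ (by positivity)
  exact mul_le_one₀ (Cn_le_one _) (Cn_pos _).le (Cn_le_one _)

theorem coef_geo_summable {p : ℕ} (hp : 2 ≤ p) : Summable fun g : ℕ => (1 / (p : ℝ)) ^ g := by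
  have h : (2 : ℝ) ≤ p := by exact_mod_cast hp
  refine summable_geometric_of_lt_one (by positivity) ?_
  rw [div_lt_one (by linarith)]
  linarith

theorem uu_summable {p : ℕ} (hp : 2 ≤ p) (j : ℕ) :
    Summable fun g : ℕ => Cn (g + j) * Cn g / (p : ℝ) ^ g :=
  Summable.of_nonneg_of_le (coef_term_nonneg p j) (coef_term_le hp j) (coef_geo_summable hp)

theorem uu_pos {p : ℕ} (hp : 2 ≤ p) (j : ℕ) : 0 < uu p j := by
  refine (uu_summable hp j).tsum_pos (coef_term_nonneg p j) 0 ?_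
  rw [pow_zero, div_one]
  exact mul_pos (Cn_pos _) (Cn_pos _)

theorem coef_one_le_uu_zero {p : ℕ} (hp : 2 ≤ p) : 1 ≤ uu p 0 := by
  have h := (uu_summable hp 0).le_tsum 0 (fun g _ => coef_term_nonneg p 0 g)
  simpa [Cn_zero, uu] using h

theorem cc_zero {p : ℕ} (hp : 2 ≤ p) : cc p 0 = 1 := div_self (uu_pos hp 0).ne'

theorem cc_nonneg {p : ℕ} (hp : 2 ≤ p) (j : ℕ) : 0 ≤ cc p j :=
  div_nonneg (uu_pos hp j).le (uu_pos hp 0).le

theorem cc_le_one {p : ℕ} (hp : 2 ≤ p) (j : ℕ) : cc p j ≤ 1 := by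
  unfold cc
  rw [div_le_one (uu_pos hp 0)]
  refine (uu_summable hp j).tsum_le_tsum (fun g => ?_) (uu_summable hp 0)
  refine div_le_div_of_nonneg_right ?_ (by positivity)
  refine mul_le_mul_of_nonneg_right ?_ (Cn_pos _).le
  exact Cn_anti (by omega)

theorem cc_one_bound : ∃ K : ℝ, 0 < K ∧ ∀ p : ℕ, 2 ≤ p → |cc p 1 - 1 / 2| ≤ K / p := by
  refine ⟨2, two_pos, fun p hp => ?_⟩
  have hp' : (2 : ℝ) ≤ p := by exact_mod_cast hp
  have h0 := coef_one_le_uu_zero hp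
  have h1 : cc p 1 - 1 / 2 = (uu p 1 - 1 / 2 * uu p 0) / uu p 0 := by
    unfold cc
    field_simp
  have h2 : |uu p 1 - 1 / 2 * uu p 0| ≤ 2 / p := by
    have hs1 := uu_summable hp 1
    have hs0 := (uu_summable hp 0).mul_left (1 / 2)
    have h3 : uu p 1 - 1 / 2 * uu p 0 = ∑' g : ℕ, (Cn (g + 1) * Cn g / (p : ℝ) ^ g -
        1 / 2 * (Cn (g + 0) * Cn g / (p : ℝ) ^ g)) := by
      rw [hs1.tsum_sub hs0, tsum_mul_left]
      rfl
    have hs := hs1.sub hs0
    rw [h3, hs.tsum_eq_zero_add]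
    have h4 : Cn (0 + 1) * Cn 0 / (p : ℝ) ^ 0 - 1 / 2 * (Cn (0 + 0) * Cn 0 / (p : ℝ) ^ 0) = 0 := by
      simp [Cn_zero, Cn_one]
    rw [h4, zero_add]
    have h5 : Summable fun g : ℕ => (1 / (p : ℝ)) ^ (g + 1) :=
      (summable_nat_add_iff 1).2 (coef_geo_summable hp)
    have h6 : ∀ g : ℕ, ‖Cn (g + 1 + 1) * Cn (g + 1) / (p : ℝ) ^ (g + 1) -
        1 / 2 * (Cn (g + 1 + 0) * Cn (g + 1) / (p : ℝ) ^ (g + 1))‖ ≤ (1 / (p : ℝ)) ^ (g + 1) := by
      intro g
      have a1 := coef_term_nonneg p 1 (g + 1)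
      have a2 := coef_term_le hp 1 (g + 1)
      have b1 := coef_term_nonneg p 0 (g + 1)
      have b2 := coef_term_le hp 0 (g + 1)
      rw [Real.norm_eq_abs, abs_le]
      constructor <;> linarith
    have h7 := tsum_of_norm_bounded h5.hasSum h6
    rw [Real.norm_eq_abs] at h7
    refine h7.trans ?_
    have h8 : ∑' g : ℕ, (1 / (p : ℝ)) ^ (g + 1) = 1 / (p : ℝ) * (1 - 1 / (p : ℝ))⁻¹ := by
      simp_rw [pow_succ']
      rw [tsum_mul_left, tsum_geometric_of_lt_one (by positivity)]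
      rw [div_lt_one (by linarith)]
      linarith
    rw [h8]
    have h9 : (1 - 1 / (p : ℝ))⁻¹ ≤ 2 := by
      rw [inv_le_comm₀ _ two_pos]
      · have : 1 / (p : ℝ) ≤ 1 / 2 := one_div_le_one_div_of_le two_pos hp'
        linarith
      · rw [sub_pos, div_lt_one (by linarith)]
        linarith
    have h10 : (0 : ℝ) ≤ 1 / (p : ℝ) := by positivity
    calc 1 / (p : ℝ) * (1 - 1 / (p : ℝ))⁻¹ ≤ 1 / (p : ℝ) * 2 := mul_le_mul_of_nonneg_left h9 h10
      _ = 2 / p := by ring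
  rw [h1, abs_div, abs_of_pos (uu_pos hp 0), div_le_iff₀ (uu_pos hp 0)]
  have h11 : (0 : ℝ) ≤ 2 / p := by positivity
  nlinarith

theorem CC_nonneg (q : QQ) : 0 ≤ CC q :=
  Finset.prod_nonneg fun p _ => cc_nonneg p.2.two_le _

theorem CC_le_one (q : QQ) : CC q ≤ 1 :=
  Finset.prod_le_one (fun p _ => cc_nonneg p.2.two_le _) (fun p _ => cc_le_one p.2.two_le _)

theorem CC_neg (q : QQ) : CC (-q) = CC q := by
  unfold CC
  rw [Finsupp.prod_neg_index]
  · simp only [Int.natAbs_neg]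
  · intro p
    exact cc_zero p.2.two_le

end Pool.Agent.SixthMoment
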