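import Mathlib
import Pool.Agent.Lib_MP_112ba8_s.Defs
import Pool.Agent.Lib_MP_112ba8_s.Coef

/-!
Local factors of the Euler products (piece A4).
-/

namespace Pool.Agent.SixthMoment

open Filter Topology MeasureTheory
open Pool.Agent.EvenMoment (cl Wgt Adm Ed cut hat)

lemma a4_vp_nonneg (b : Bool) {p : ℕ} (hp : 2 ≤ p) (n : ℕ) : 0 ≤ vp b p n := by
  unfold vp
  split_ifs
  · exact cc_nonneg hp n
  · exact zero_le_one

lemma a4_vp_le_one (b : Bool) {p : ℕ} (hp : 2 ≤ p) (n : ℕ) : vp b p n ≤ 1 := by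
  unfold vp
  split_ifs
  · exact cc_le_one hp n
  · exact le_rfl

lemma a4_vp_zero (b : Bool) {p : ℕ} (hp : 2 ≤ p) : vp b p 0 = 1 := by
  unfold vp
  split_ifs
  · exact cc_zero hp
  · rfl

/-- the size of an integer vector -/
def a4N {r : ℕ} (j : Fin r → ℤ) : ℕ := ∑ i, (j i).natAbs

lemma a4_N_cast {r : ℕ} (j : Fin r → ℤ) : ((a4N j : ℕ) : ℝ) = ∑ i, |(j i : ℝ)| := by
  unfold a4N
  rw [Nat.cast_sum]
  refine Finset.sum_congr rfl fun i _ => ?_
  rw [Nat.cast_natAbs, Int.cast_abs]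

lemma a4_geom_int {a : ℝ} (h0 : 0 ≤ a) (h1 : a < 1) : Summable fun n : ℤ => a ^ n.natAbs := by
  refine Summable.of_nat_of_neg ?_ ?_
  · simpa using summable_geometric_of_lt_one h0 h1
  · simpa using summable_geometric_of_lt_one h0 h1

lemma a4_geom_pi {a : ℝ} (h0 : 0 ≤ a) (h1 : a < 1) :
    ∀ r : ℕ, Summable fun j : Fin r → ℤ => a ^ a4N j := by
  intro r
  induction r with
  | zero => exact Summable.of_finite
  | succ n ih =>
    have h := (a4_geom_int h0 h1).mul_of_nonneg ih (fun _ => pow_nonneg h0 _)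
      (fun _ => pow_nonneg h0 _)
    rw [← (Fin.consEquiv (fun _ : Fin (n + 1) => ℤ)).summable_iff]
    refine h.congr fun q => ?_
    rcases q with ⟨u, v⟩
    change a ^ u.natAbs * a ^ a4N v = a ^ a4N (Fin.cons u v : Fin (n + 1) → ℤ)
    unfold a4N
    rw [Fin.sum_univ_succ, pow_add]
    rfl

lemma a4_geom_JZ {a : ℝ} (h0 : 0 ≤ a) (h1 : a < 1) (r : ℕ) :
    Summable fun j : JZ r => a ^ a4N j.1 :=
  (a4_geom_pi h0 h1 r).comp_injective Subtype.val_injective

lemma a4_lterm_nonneg {r m : ℕ} (h : Fin r → Bool) (S : Fin m → Finset (Fin r)) {p : ℕ}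
    (hp : 2 ≤ p) (x : Fin m → ℝ) (j : JZ r) : 0 ≤ lterm h S p x j :=
  mul_nonneg (Finset.prod_nonneg fun i _ => a4_vp_nonneg _ hp _) (Real.rpow_nonneg (by positivity) _)

/-- `2^{-1/2}` -/
noncomputable def a4q : ℝ := (2 : ℝ) ^ (-(1 / 2 : ℝ))

lemma a4q_pos : 0 < a4q := Real.rpow_pos_of_pos two_pos _

lemma a4q_lt_one : a4q < 1 := Real.rpow_lt_one_of_one_lt_of_neg one_lt_two (by norm_num)

lemma a4q_pow (n : ℕ) : a4q ^ n = (2 : ℝ) ^ (-((n : ℝ) / 2)) := by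
  unfold a4q
  rw [← Real.rpow_natCast, ← Real.rpow_mul two_pos.le]
  congr 1
  ring

lemma a4_lterm_le' {r m : ℕ} (h : Fin r → Bool) (S : Fin m → Finset (Fin r)) {p : ℕ}
    (hp : 2 ≤ p) {x : Fin m → ℝ} (hx : ∀ κ, 0 ≤ x κ) (j : JZ r) :
    lterm h S p x j ≤ (p : ℝ) ^ (-((a4N j.1 : ℝ) / 2)) := by
  have hp1 : (1 : ℝ) ≤ p := by exact_mod_cast (by omega : 1 ≤ p)
  have h1 : ∏ i, vp (h i) p (j.1 i).natAbs ≤ 1 :=
    Finset.prod_le_one (fun i _ => a4_vp_nonneg _ hp _) (fun i _ => a4_vp_le_one _ hp _)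
  have h2 : 0 ≤ ∑ κ, x κ * |∑ i ∈ S κ, (j.1 i : ℝ)| :=
    Finset.sum_nonneg fun κ _ => mul_nonneg (hx κ) (abs_nonneg _)
  unfold lterm
  calc (∏ i, vp (h i) p (j.1 i).natAbs) *
      (p : ℝ) ^ (-((∑ i, |(j.1 i : ℝ)|) / 2 + ∑ κ, x κ * |∑ i ∈ S κ, (j.1 i : ℝ)|))
      ≤ 1 * (p : ℝ) ^ (-((∑ i, |(j.1 i : ℝ)|) / 2 + ∑ κ, x κ * |∑ i ∈ S κ, (j.1 i : ℝ)|)) :=
        mul_le_mul_of_nonneg_right h1 (Real.rpow_nonneg (by positivity) _)
    _ ≤ (p : ℝ) ^ (-((a4N j.1 : ℝ) / 2)) := by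
        rw [one_mul, a4_N_cast]
        exact Real.rpow_le_rpow_of_exponent_le hp1 (by linarith)

lemma a4_rpow_le {p : ℕ} (hp : 2 ≤ p) (n : ℕ) : (p : ℝ) ^ (-((n : ℝ) / 2)) ≤ a4q ^ n := by
  rw [a4q_pow]
  exact Real.rpow_le_rpow_of_nonpos two_pos (by exact_mod_cast hp)
    (by have : (0 : ℝ) ≤ n := Nat.cast_nonneg n
        linarith)

lemma a4_lterm_le {r m : ℕ} (h : Fin r → Bool) (S : Fin m → Finset (Fin r)) {p : ℕ}
    (hp : 2 ≤ p) {x : Fin m → ℝ} (hx : ∀ κ, 0 ≤ x κ) (j : JZ r) :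
    lterm h S p x j ≤ a4q ^ a4N j.1 :=
  (a4_lterm_le' h S hp hx j).trans (a4_rpow_le hp _)

theorem lterm_summable {r m : ℕ} (h : Fin r → Bool) (S : Fin m → Finset (Fin r)) {p : ℕ}
    (hp : 2 ≤ p) {x : Fin m → ℝ} (hx : ∀ κ, 0 ≤ x κ) : Summable (lterm h S p x) :=
  Summable.of_nonneg_of_le (a4_lterm_nonneg h S hp x) (a4_lterm_le h S hp hx)
    (a4_geom_JZ a4q_pos.le a4q_lt_one r)

theorem Fl_tendsto {r m : ℕ} (h : Fin r → Bool) (S : Fin m → Finset (Fin r)) {p : ℕ}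
    (hp : 2 ≤ p) {x : Fin m → ℝ} (hx : ∀ κ, 0 ≤ x κ) :
    Tendsto (fun L : ℝ => Fl h S p (fun κ => x κ / L)) atTop (𝓝 (F0 h p)) := by
  unfold Fl F0
  refine tendsto_tsum_of_dominated_convergence (a4_geom_JZ a4q_pos.le a4q_lt_one r)
    (fun j => ?_) ?_
  · unfold lterm
    refine Tendsto.const_mul _ ?_
    have hp0 : (0 : ℝ) < p := by exact_mod_cast (by omega : 0 < p)
    have h1 : Tendsto (fun L : ℝ => -((∑ i, |(j.1 i : ℝ)|) / 2 +
        ∑ κ, x κ / L * |∑ i ∈ S κ, (j.1 i : ℝ)|)) atTop (𝓝 (-((∑ i, |(j.1 i : ℝ)|) / 2))) := by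
      have h2 : Tendsto (fun L : ℝ => ∑ κ, x κ / L * |∑ i ∈ S κ, (j.1 i : ℝ)|) atTop
          (𝓝 (∑ κ : Fin m, 0 * |∑ i ∈ S κ, (j.1 i : ℝ)|)) :=
        tendsto_finsetSum _ fun κ _ =>
          (tendsto_const_nhds.div_atTop tendsto_id).mul_const _
      have h3 := (tendsto_const_nhds (x := (∑ i, |(j.1 i : ℝ)|) / 2)).add h2
      simp only [zero_mul, Finset.sum_const_zero, add_zero] at h3
      exact h3.neg
    exact Tendsto.rpow tendsto_const_nhds h1 (Or.inl hp0.ne')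
  · filter_upwards [eventually_ge_atTop (1 : ℝ)] with L hL j
    have hx' : ∀ κ, 0 ≤ x κ / L := fun κ => div_nonneg (hx κ) (by linarith)
    rw [Real.norm_of_nonneg (a4_lterm_nonneg h S hp _ j)]
    exact a4_lterm_le h S hp hx' j

/-! ### combinatorics of short vectors -/

/-- `e_i - e_k` -/
def a4d {r : ℕ} (i k : Fin r) : JZ r :=
  ⟨fun a => (if a = i then 1 else 0) - (if a = k then 1 else 0), by
    rw [Finset.sum_sub_distrib]
    simp⟩

lemma a4_pos_part {r : ℕ} (j : Fin r → ℤ) (hj : ∑ i, j i = 0) :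
    a4N j = 2 * ∑ i, (j i).toNat ∧ ∑ i, (j i).toNat = ∑ i, (-j i).toNat := by
  have h1 : ((∑ i, (j i).toNat : ℕ) : ℤ) - ((∑ i, (-j i).toNat : ℕ) : ℤ) = 0 := by
    rw [Nat.cast_sum, Nat.cast_sum, ← Finset.sum_sub_distrib, ← hj]
    refine Finset.sum_congr rfl fun i _ => ?_
    omega
  have h2 : a4N j = ∑ i, (j i).toNat + ∑ i, (-j i).toNat := by
    unfold a4N
    rw [← Finset.sum_add_distrib]
    refine Finset.sum_congr rfl fun i _ => ?_
    omega
  omega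

lemma a4_sum_one {r : ℕ} (f : Fin r → ℕ) (hf : ∑ i, f i = 1) :
    ∃ i, f i = 1 ∧ ∀ k, k ≠ i → f k = 0 := by
  classical
  have h1 : ∃ i, f i ≠ 0 := by
    by_contra hcon
    push Not at hcon
    rw [Finset.sum_eq_zero fun i _ => hcon i] at hf
    omega
  obtain ⟨i, hi⟩ := h1
  have h2 : f i + ∑ k ∈ Finset.univ.erase i, f k = 1 := by
    rw [Finset.add_sum_erase _ _ (Finset.mem_univ i), hf]
  have h3 : f i = 1 := by omega
  have h4 : ∑ k ∈ Finset.univ.erase i, f k = 0 := by omega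
  refine ⟨i, h3, fun k hk => ?_⟩
  exact (Finset.sum_eq_zero_iff.mp h4) k (Finset.mem_erase.mpr ⟨hk, Finset.mem_univ k⟩)

lemma a4_short {r : ℕ} (j : JZ r) (hj : a4N j.1 < 4) :
    j.1 = 0 ∨ ∃ i k, i ≠ k ∧ j = a4d i k := by
  obtain ⟨h1, h2⟩ := a4_pos_part j.1 j.2
  have h3 : ∑ i, (j.1 i).toNat = 0 ∨ ∑ i, (j.1 i).toNat = 1 := by omega
  rcases h3 with h3 | h3
  · left
    have h4 : a4N j.1 = 0 := by omega
    funext i
    have := (Finset.sum_eq_zero_iff.mp h4) i (Finset.mem_univ i)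
    simpa using this
  · right
    obtain ⟨i, hi, hi'⟩ := a4_sum_one _ h3
    obtain ⟨k, hk, hk'⟩ := a4_sum_one _ (h2 ▸ h3)
    have hik : i ≠ k := by
      rintro rfl
      omega
    refine ⟨i, k, hik, Subtype.ext (funext fun a => ?_)⟩
    change j.1 a = (if a = i then 1 else 0) - (if a = k then 1 else 0)
    by_cases ha : a = i
    · subst ha
      rw [if_pos rfl, if_neg hik]
      omega
    · rw [if_neg ha]
      have := hi' a ha
      by_cases hb : a = k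
      · subst hb
        rw [if_pos rfl]
        omega
      · rw [if_neg hb]
        have := hk' a hb
        omega

lemma a4_zero_N {r : ℕ} : a4N (0 : Fin r → ℤ) = 0 := by
  unfold a4N
  simp

/-- the short vectors -/
def a4phi {r : ℕ} : Option (Ed r × Bool) → JZ r
  | none => ⟨0, by simp⟩
  | some (e, true) => a4d e.1.1 e.1.2
  | some (e, false) => a4d e.1.2 e.1.1

lemma a4d_left {r : ℕ} {i k : Fin r} (hik : i ≠ k) : (a4d i k).1 i = 1 := by
  change (if i = i then (1 : ℤ) else 0) - (if i = k then 1 else 0) = 1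
  rw [if_pos rfl, if_neg hik]
  rfl

lemma a4d_eq_one {r : ℕ} {i k a : Fin r} (h : (a4d i k).1 a = 1) : a = i := by
  by_contra hne
  change (if a = i then (1 : ℤ) else 0) - (if a = k then 1 else 0) = 1 at h
  rw [if_neg hne] at h
  split_ifs at h <;> omega

lemma a4d_right {r : ℕ} {i k : Fin r} (hik : i ≠ k) : (a4d i k).1 k = -1 := by
  change (if k = i then (1 : ℤ) else 0) - (if k = k then 1 else 0) = -1
  rw [if_pos rfl, if_neg hik.symm]
  rfl

lemma a4d_eq_neg {r : ℕ} {i k a : Fin r} (h : (a4d i k).1 a = -1) : a = k := by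
  by_contra hne
  change (if a = i then (1 : ℤ) else 0) - (if a = k then 1 else 0) = -1 at h
  rw [if_neg hne] at h
  split_ifs at h <;> omega

lemma a4d_inj {r : ℕ} {i k i' k' : Fin r} (hik : i ≠ k) (h : a4d i k = a4d i' k') :
    i = i' ∧ k = k' := by
  constructor
  · have := a4d_left hik
    rw [h] at this
    exact a4d_eq_one this
  · have := a4d_right hik
    rw [h] at this
    exact a4d_eq_neg this

lemma a4d_ne_zero {r : ℕ} {i k : Fin r} (hik : i ≠ k) : (a4d i k).1 ≠ 0 := by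
  intro h
  have := a4d_left hik
  rw [h] at this
  simp at this

lemma a4phi_inj {r : ℕ} : Function.Injective (a4phi (r := r)) := by
  intro u v huv
  rcases u with _ | ⟨e, b⟩ <;> rcases v with _ | ⟨e', b'⟩
  · rfl
  · exfalso
    cases b' with
    | true => exact a4d_ne_zero (ne_of_lt e'.2) (congrArg Subtype.val huv).symm
    | false => exact a4d_ne_zero (ne_of_gt e'.2) (congrArg Subtype.val huv).symm
  · exfalso
    cases b with
    | true => exact a4d_ne_zero (ne_of_lt e.2) (congrArg Subtype.val huv)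
    | false => exact a4d_ne_zero (ne_of_gt e.2) (congrArg Subtype.val huv)
  · cases b with
    | true =>
      cases b' with
      | true =>
        obtain ⟨h1, h2⟩ := a4d_inj (ne_of_lt e.2) huv
        have : e = e' := Subtype.ext (Prod.ext h1 h2)
        rw [this]
      | false =>
        exfalso
        obtain ⟨h1, h2⟩ := a4d_inj (ne_of_lt e.2) huv
        have h3 := e.2
        have h4 := e'.2
        rw [h1, h2] at h3
        exact absurd h3 (not_lt.mpr h4.le)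
    | false =>
      cases b' with
      | true =>
        exfalso
        obtain ⟨h1, h2⟩ := a4d_inj (ne_of_gt e.2) huv
        have h3 := e.2
        have h4 := e'.2
        rw [h1, h2] at h3
        exact absurd h3 (not_lt.mpr h4.le)
      | false =>
        obtain ⟨h1, h2⟩ := a4d_inj (ne_of_gt e.2) huv
        have : e = e' := Subtype.ext (Prod.ext h2 h1)
        rw [this]

lemma a4_four_le {r : ℕ} (j : JZ r) (hj : ∀ u, a4phi u ≠ j) : 4 ≤ a4N j.1 := by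
  by_contra hcon
  push Not at hcon
  rcases a4_short j hcon with h | ⟨i, k, hik, h⟩
  · exact hj none (Subtype.ext h.symm)
  · rcases lt_or_gt_of_ne hik with hlt | hlt
    · exact hj (some (⟨(i, k), hlt⟩, true)) h.symm
    · exact hj (some (⟨(k, i), hlt⟩, false)) h.symm

lemma a4_lterm_zero {r m : ℕ} (h : Fin r → Bool) (S : Fin m → Finset (Fin r)) {p : ℕ}
    (hp : 2 ≤ p) (x : Fin m → ℝ) : lterm h S p x ⟨0, by simp⟩ = 1 := by
  unfold lterm
  simp [a4_vp_zero _ hp]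

lemma a4_lterm_edge {r m : ℕ} (h : Fin r → Bool) (S : Fin m → Finset (Fin r)) {p : ℕ}
    (hp : 2 ≤ p) (x : Fin m → ℝ) {i k : Fin r} (hik : i ≠ k) :
    lterm h S p x (a4d i k) = vp (h i) p 1 * vp (h k) p 1 *
      (p : ℝ) ^ (-(1 + ∑ κ, if ¬ (i ∈ S κ ↔ k ∈ S κ) then x κ else 0)) := by
  have hval : ∀ a, ((a4d i k).1 a : ℤ) = (if a = i then 1 else 0) - (if a = k then 1 else 0) :=
    fun a => rfl
  have h1 : ∏ a, vp (h a) p ((a4d i k).1 a).natAbs = vp (h i) p 1 * vp (h k) p 1 := by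
    rw [← Finset.prod_subset (Finset.subset_univ ({i, k} : Finset (Fin r))), Finset.prod_pair hik]
    · rw [a4d_left hik, a4d_right hik]
      rfl
    · intro a _ ha
      rw [Finset.mem_insert, Finset.mem_singleton, not_or] at ha
      rw [hval, if_neg ha.1, if_neg ha.2]
      exact a4_vp_zero _ hp
  have h2 : ∑ a, |((a4d i k).1 a : ℝ)| = 2 := by
    rw [← Finset.sum_subset (Finset.subset_univ ({i, k} : Finset (Fin r))), Finset.sum_pair hik]
    · rw [a4d_left hik, a4d_right hik]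
      norm_num
    · intro a _ ha
      rw [Finset.mem_insert, Finset.mem_singleton, not_or] at ha
      rw [hval, if_neg ha.1, if_neg ha.2]
      norm_num
  have h3 : ∀ κ, ∑ a ∈ S κ, ((a4d i k).1 a : ℝ) =
      (if i ∈ S κ then 1 else 0) - (if k ∈ S κ then 1 else 0) := by
    intro κ
    simp only [hval]
    push_cast
    rw [Finset.sum_sub_distrib, Finset.sum_ite_eq', Finset.sum_ite_eq']
  have h4 : ∀ κ, x κ * |∑ a ∈ S κ, ((a4d i k).1 a : ℝ)| =
      if ¬ (i ∈ S κ ↔ k ∈ S κ) then x κ else 0 := by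
    intro κ
    rw [h3]
    by_cases hi : i ∈ S κ <;> by_cases hk : k ∈ S κ <;> simp [hi, hk]
  unfold lterm
  rw [h1, h2, Finset.sum_congr rfl fun κ _ => h4 κ]
  norm_num

theorem Fl_expand {r m : ℕ} (h : Fin r → Bool) (S : Fin m → Finset (Fin r)) :
    ∃ K : ℝ, 0 < K ∧ ∀ p : ℕ, 2 ≤ p → ∀ x : Fin m → ℝ, (∀ κ, 0 ≤ x κ) →
      ∃ E : ℝ, 0 ≤ E ∧ E ≤ K / (p : ℝ) ^ 2 ∧ Fl h S p x = 1 + (∑ e : Ed r,
        2 * vp (h e.1.1) p 1 * vp (h e.1.2) p 1 * (p : ℝ) ^ (-(1 + xe S x e))) + E := by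
  classical
  have hsum := a4_geom_JZ a4q_pos.le a4q_lt_one r
  have hnn : 0 ≤ ∑' j : JZ r, a4q ^ a4N j.1 := tsum_nonneg fun j => pow_nonneg a4q_pos.le _
  refine ⟨4 * (∑' j : JZ r, a4q ^ a4N j.1) + 1, by positivity, fun p hp x hx => ?_⟩
  set s : Finset (JZ r) := Finset.univ.map ⟨a4phi, a4phi_inj⟩ with hs
  have hls := lterm_summable h S hp hx
  refine ⟨∑' j : ↥((s : Set (JZ r))ᶜ), lterm h S p x j,
    tsum_nonneg fun j => a4_lterm_nonneg h S hp x j.1, ?_, ?_⟩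
  · have hp0 : (0 : ℝ) < p := by exact_mod_cast (by omega : 0 < p)
    have hp2 : (0 : ℝ) < (p : ℝ) ^ 2 := by positivity
    have hb : ∀ j : ↥((s : Set (JZ r))ᶜ), lterm h S p x j ≤ 4 / (p : ℝ) ^ 2 * a4q ^ a4N j.1.1 := by
      intro j
      have h4 : 4 ≤ a4N j.1.1 := by
        refine a4_four_le j.1 fun u hu => j.2 ?_
        have hmem : (j.1 : JZ r) ∈ s := Finset.mem_map.mpr ⟨u, Finset.mem_univ u, hu⟩
        exact Finset.mem_coe.mpr hmem
      obtain ⟨n, hn⟩ := Nat.exists_eq_add_of_le h4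
      refine (a4_lterm_le' h S hp hx j.1).trans ?_
      rw [hn]
      have e1 : (p : ℝ) ^ (-(((4 + n : ℕ) : ℝ) / 2)) =
          (p : ℝ) ^ (-((n : ℝ) / 2)) / (p : ℝ) ^ 2 := by
        rw [← Real.rpow_natCast (p : ℝ) 2, ← Real.rpow_sub hp0]
        congr 1
        push_cast
        ring
      have e2 : a4q ^ (4 + n) = a4q ^ n / 4 := by
        rw [pow_add]
        have : a4q ^ 4 = 1 / 4 := by
          rw [a4q_pow]
          have : (-(((4 : ℕ) : ℝ) / 2)) = ((-2 : ℤ) : ℝ) := by norm_num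
          rw [this, Real.rpow_intCast]
          norm_num
        rw [this]
        ring
      rw [e1, e2]
      have := a4_rpow_le hp n
      calc (p : ℝ) ^ (-((n : ℝ) / 2)) / (p : ℝ) ^ 2 ≤ a4q ^ n / (p : ℝ) ^ 2 := by gcongr
        _ = 4 / (p : ℝ) ^ 2 * (a4q ^ n / 4) := by ring
    have hsub : Summable fun j : ↥((s : Set (JZ r))ᶜ) => 4 / (p : ℝ) ^ 2 * a4q ^ a4N j.1.1 :=
      (hsum.subtype _).mul_left _
    calc ∑' j : ↥((s : Set (JZ r))ᶜ), lterm h S p x j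
        ≤ ∑' j : ↥((s : Set (JZ r))ᶜ), 4 / (p : ℝ) ^ 2 * a4q ^ a4N j.1.1 :=
          Summable.tsum_le_tsum hb (hls.subtype _) hsub
      _ = 4 / (p : ℝ) ^ 2 * ∑' j : ↥((s : Set (JZ r))ᶜ), a4q ^ a4N j.1.1 := tsum_mul_left
      _ ≤ 4 / (p : ℝ) ^ 2 * ∑' j : JZ r, a4q ^ a4N j.1 := by
          refine mul_le_mul_of_nonneg_left ?_ (by positivity)
          exact Summable.tsum_subtype_le (fun j : JZ r => a4q ^ a4N j.1) _
            (fun j => pow_nonneg a4q_pos.le _) hsum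
      _ ≤ (4 * (∑' j : JZ r, a4q ^ a4N j.1) + 1) / (p : ℝ) ^ 2 := by
          rw [div_mul_eq_mul_div]
          gcongr
          linarith
  · have h1 := hls.sum_add_tsum_compl (s := s)
    unfold Fl
    rw [← h1]
    congr 1
    rw [hs, Finset.sum_map]
    change ∑ u : Option (Ed r × Bool), lterm h S p x (a4phi u) = _
    rw [Fintype.sum_option, Fintype.sum_prod_type]
    have e0 : lterm h S p x (a4phi none) = 1 := a4_lterm_zero h S hp x
    rw [e0]
    congr 1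
    refine Finset.sum_congr rfl fun e _ => ?_
    rw [Fintype.sum_bool]
    change lterm h S p x (a4d e.1.1 e.1.2) + lterm h S p x (a4d e.1.2 e.1.1) = _
    have hne : e.1.1 ≠ e.1.2 := ne_of_lt e.2
    rw [a4_lterm_edge h S hp x hne, a4_lterm_edge h S hp x hne.symm]
    have hx1 : ∑ κ, (if ¬ (e.1.1 ∈ S κ ↔ e.1.2 ∈ S κ) then x κ else 0) = xe S x e := by
      unfold xe sepa
      rfl
    have hx2 : ∑ κ, (if ¬ (e.1.2 ∈ S κ ↔ e.1.1 ∈ S κ) then x κ else 0) = xe S x e := by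
      rw [← hx1]
      refine Finset.sum_congr rfl fun κ _ => ?_
      by_cases ha : e.1.1 ∈ S κ <;> by_cases hb : e.1.2 ∈ S κ <;> simp [ha, hb]
    rw [hx1, hx2]
    ring

end Pool.Agent.SixthMoment
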