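import Pool.Agent.Lib_MP_112ba8_s.Defs

/-! # Euler product for sums over finitely supported functions on the primes -/

open Filter Topology Finset

namespace Pool.Agent.SixthMoment

theorem euler_finite {A : Type} [Zero A] (F : Nat.Primes → A → ℝ) (h1 : ∀ p, F p 0 = 1)
    (s : Finset Nat.Primes) (t : Nat.Primes → Finset A) :
    ∑ f ∈ s.finsupp t, f.prod F = ∏ p ∈ s, ∑ a ∈ t p, F p a := by
  classical
  unfold Finset.finsupp
  rw [Finset.sum_map, Finset.prod_sum]
  refine Finset.sum_congr (congrArg
    (fun i : DecidableEq Nat.Primes => @Finset.pi Nat.Primes (fun _ => A) i s t)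
    (Subsingleton.elim _ _)) fun g _ => ?_
  show (Finsupp.indicator s g).prod F = _
  rw [Finsupp.prod_indicator_index_eq_prod_attach g (fun a _ => h1 a)]

theorem euler_finsupp {A : Type} [Zero A] (F : Nat.Primes → A → ℝ) (h0 : ∀ p a, 0 ≤ F p a)
    (h1 : ∀ p, F p 0 = 1) (hs : ∀ p, Summable (F p))
    (hS : Summable fun p => (∑' a, F p a) - 1) :
    (Summable fun f : Nat.Primes →₀ A => f.prod F) ∧
    ∑' f : Nat.Primes →₀ A, f.prod F = Real.exp (∑' p, Real.log (∑' a, F p a)) := by
  classical
  have hZ1 : ∀ p, 1 ≤ ∑' a, F p a := by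
    intro p
    rw [← h1 p]
    exact (hs p).le_tsum 0 (fun a _ => h0 p a)
  have hZ0 : ∀ p, 0 < ∑' a, F p a := fun p => lt_of_lt_of_le one_pos (hZ1 p)
  have hlog0 : ∀ p, 0 ≤ Real.log (∑' a, F p a) := fun p => Real.log_nonneg (hZ1 p)
  have hlog : Summable fun p => Real.log (∑' a, F p a) := by
    refine Summable.of_nonneg_of_le hlog0 (fun p => ?_) hS
    exact Real.log_le_sub_one_of_pos (hZ0 p)
  have hprodexp : ∀ s : Finset Nat.Primes,
      ∏ p ∈ s, (∑' a, F p a) = Real.exp (∑ p ∈ s, Real.log (∑' a, F p a)) := by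
    intro s
    rw [Real.exp_sum]
    exact Finset.prod_congr rfl fun p _ => (Real.exp_log (hZ0 p)).symm
  have hnn : ∀ f : Nat.Primes →₀ A, 0 ≤ f.prod F := by
    intro f
    exact Finset.prod_nonneg fun p _ => h0 p _
  have hLUB : IsLUB (Set.range fun Φ : Finset (Nat.Primes →₀ A) => ∑ f ∈ Φ, f.prod F)
      (Real.exp (∑' p, Real.log (∑' a, F p a))) := by
    constructor
    · rintro _ ⟨Φ, rfl⟩
      show ∑ f ∈ Φ, f.prod F ≤ _
      have hsub : Φ ⊆ (Φ.biUnion fun f => f.support).finsupp
          (fun p => Φ.image fun f => f p) := by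
        intro f hf
        rw [Finset.mem_finsupp_iff]
        refine ⟨fun p hp => ?_, fun p _ => ?_⟩
        · exact Finset.mem_biUnion.2 ⟨f, hf, hp⟩
        · exact Finset.mem_image_of_mem _ hf
      calc ∑ f ∈ Φ, f.prod F
          ≤ ∑ f ∈ (Φ.biUnion fun f => f.support).finsupp (fun p => Φ.image fun f => f p),
              f.prod F := Finset.sum_le_sum_of_subset_of_nonneg hsub fun f _ _ => hnn f
        _ = ∏ p ∈ Φ.biUnion fun f => f.support, ∑ a ∈ Φ.image fun f => f p, F p a :=
            euler_finite F h1 _ _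
        _ ≤ ∏ p ∈ Φ.biUnion fun f => f.support, ∑' a, F p a := by
            apply Finset.prod_le_prod
            · intro p _
              exact Finset.sum_nonneg fun a _ => h0 p a
            · intro p _
              exact (hs p).sum_le_tsum _ fun a _ => h0 p a
        _ = Real.exp (∑ p ∈ Φ.biUnion fun f => f.support, Real.log (∑' a, F p a)) :=
            hprodexp _
        _ ≤ _ := by
            apply Real.exp_le_exp.2
            exact hlog.sum_le_tsum _ fun p _ => hlog0 p
    · intro b hb
      have hb' : ∀ Φ : Finset (Nat.Primes →₀ A), ∑ f ∈ Φ, f.prod F ≤ b := fun Φ => hb ⟨Φ, rfl⟩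
      have hstep : ∀ s : Finset Nat.Primes,
          Real.exp (∑ p ∈ s, Real.log (∑' a, F p a)) ≤ b := by
        intro s
        rw [← hprodexp]
        have hlim : Tendsto (fun t : Finset A => ∏ p ∈ s, ∑ a ∈ t, F p a) atTop
            (𝓝 (∏ p ∈ s, ∑' a, F p a)) :=
          tendsto_finsetProd _ fun p _ => (hs p).hasSum
        refine le_of_tendsto hlim (Eventually.of_forall fun t => ?_)
        rw [← euler_finite F h1 s (fun _ => t)]
        exact hb' _
      have hlim : Tendsto (fun s : Finset Nat.Primes =>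
          Real.exp (∑ p ∈ s, Real.log (∑' a, F p a))) atTop
          (𝓝 (Real.exp (∑' p, Real.log (∑' a, F p a)))) :=
        (Real.continuous_exp.tendsto _).comp hlog.hasSum
      exact le_of_tendsto hlim (Eventually.of_forall hstep)
  have hsum := hasSum_of_isLUB_of_nonneg _ hnn hLUB
  exact ⟨hsum.summable, hsum.tsum_eq⟩

end Pool.Agent.SixthMoment
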