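import Mathlib
import Pool.Agent.Lib_MP_112ba8_s.Defs
import Pool.Agent.Lib_MP_112ba8_s.Coef
import Pool.Agent.Lib_MP_112ba8_s.EulerF
import Pool.Agent.Lib_MP_112ba8_s.Local

/-!
Euler product over tuples of fractions.
-/

namespace Pool.Agent.SixthMoment

open Filter Topology MeasureTheory
open Pool.Agent.EvenMoment (cl Wgt Adm Ed cut hat)

/-! ### the equivalence between tuples and finitely supported vectors -/

instance a5_zeroJZ (r : ℕ) : Zero (JZ r) := ⟨⟨fun _ => 0, by simp⟩⟩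

lemma a5_zero_val (r : ℕ) (i : Fin r) : (0 : JZ r).1 i = 0 := rfl

/-- vector of exponents at a prime -/
def a5_vec {r : ℕ} (f : TT r) (p : Nat.Primes) : JZ r :=
  ⟨fun i => f.1 i p, by
    have h := f.2
    have h2 := DFunLike.congr_fun h p
    rw [Finsupp.finsetSum_apply] at h2
    simpa using h2⟩

lemma a5_vec_val {r : ℕ} (f : TT r) (p : Nat.Primes) (i : Fin r) :
    (a5_vec f p).1 i = f.1 i p := rfl

open Classical in
/-- the equivalence -/
noncomputable def a5_equiv (r : ℕ) : TT r ≃ (Nat.Primes →₀ JZ r) where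
  toFun f := Finsupp.onFinset (Finset.univ.biUnion fun i => (f.1 i).support) (a5_vec f) (by
    intro p hp
    by_contra hcon
    apply hp
    apply Subtype.ext
    funext i
    rw [a5_vec_val, a5_zero_val]
    by_contra hne
    exact hcon (Finset.mem_biUnion.mpr ⟨i, Finset.mem_univ _, Finsupp.mem_support_iff.mpr hne⟩))
  invFun g := ⟨fun i => Finsupp.onFinset g.support (fun p => (g p).1 i) (by
      intro p hp
      rw [Finsupp.mem_support_iff]
      intro h0
      apply hp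
      show (g p).1 i = 0
      rw [h0]
      rfl), by
      ext p
      rw [Finsupp.finsetSum_apply]
      simpa using (g p).2⟩
  left_inv f := by
    apply Subtype.ext
    funext i
    ext p
    rfl
  right_inv g := by
    ext p
    rfl

lemma a5_equiv_apply {r : ℕ} (f : TT r) (p : Nat.Primes) : a5_equiv r f p = a5_vec f p := rfl

lemma a5_equiv_symm_apply {r : ℕ} (g : Nat.Primes →₀ JZ r) (i : Fin r) (p : Nat.Primes) :
    ((a5_equiv r).symm g).1 i p = (g p).1 i := rfl

lemma a5_not_mem {r : ℕ} {g : Nat.Primes →₀ JZ r} {p : Nat.Primes} (hp : p ∉ g.support)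
    (i : Fin r) : (g p).1 i = 0 := by
  rw [Finsupp.notMem_support_iff.mp hp]; rfl

/-- `ln` of a partial sum -/
lemma a5_ln_sum {r : ℕ} (g : Nat.Primes →₀ JZ r) (A : Finset (Fin r)) :
    ln (∑ i ∈ A, ((a5_equiv r).symm g).1 i) =
      ∑ p ∈ g.support, |∑ i ∈ A, ((g p).1 i : ℝ)| * Real.log ((p : ℕ) : ℝ) := by
  classical
  unfold ln
  have hsub : (∑ i ∈ A, ((a5_equiv r).symm g).1 i).support ⊆ g.support := by
    intro p hp
    by_contra hcon
    rw [Finsupp.mem_support_iff, Finsupp.finsetSum_apply] at hp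
    apply hp
    exact Finset.sum_eq_zero fun i _ => a5_not_mem hcon i
  rw [Finsupp.sum_of_support_subset _ hsub _ (by simp)]
  refine Finset.sum_congr rfl fun p _ => ?_
  rw [Finsupp.finsetSum_apply]
  simp only [a5_equiv_symm_apply]
  push_cast
  rfl

lemma a5_ln_one {r : ℕ} (g : Nat.Primes →₀ JZ r) (i : Fin r) :
    ln (((a5_equiv r).symm g).1 i) =
      ∑ p ∈ g.support, |((g p).1 i : ℝ)| * Real.log ((p : ℕ) : ℝ) := by
  have h := a5_ln_sum g {i}
  simpa using h

lemma a5_vw {r : ℕ} (b : Bool) (g : Nat.Primes →₀ JZ r) (i : Fin r) :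
    vw b (((a5_equiv r).symm g).1 i) = ∏ p ∈ g.support, vp b p ((g p).1 i).natAbs := by
  classical
  unfold vw vp
  cases b with
  | false => simp
  | true =>
    simp only [if_true]
    unfold CC
    have hsub : (((a5_equiv r).symm g).1 i).support ⊆ g.support := by
      intro p hp
      by_contra hcon
      rw [Finsupp.mem_support_iff] at hp
      exact hp (a5_not_mem hcon i)
    rw [Finsupp.prod_of_support_subset _ hsub _ (by
      intro p _
      simpa using cc_zero p.2.two_le)]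
    rfl

/-- the weight is multiplicative -/
lemma a5_term {r m : ℕ} (h : Fin r → Bool) (S : Fin m → Finset (Fin r)) (x : Fin m → ℝ)
    (g : Nat.Primes →₀ JZ r) :
    wt h ((a5_equiv r).symm g) * Real.exp (-∑ κ, x κ * ob S ((a5_equiv r).symm g) κ) =
      g.prod (fun p j => lterm h S p x j) := by
  classical
  unfold wt ob Finsupp.prod lterm
  rw [Finset.prod_mul_distrib, mul_assoc]
  congr 1
  · rw [Finset.prod_comm]
    exact Finset.prod_congr rfl fun i _ => a5_vw (h i) g i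
  · rw [← Real.exp_add]
    have hr : ∀ p ∈ g.support,
        ((p : ℕ) : ℝ) ^ (-((∑ i, |((g p).1 i : ℝ)|) / 2 + ∑ κ, x κ * |∑ i ∈ S κ, ((g p).1 i : ℝ)|)) =
        Real.exp (Real.log ((p : ℕ) : ℝ) * (-((∑ i, |((g p).1 i : ℝ)|) / 2 +
          ∑ κ, x κ * |∑ i ∈ S κ, ((g p).1 i : ℝ)|))) := by
      intro p _
      rw [Real.rpow_def_of_pos (by exact_mod_cast p.2.pos)]
    rw [Finset.prod_congr rfl hr, ← Real.exp_sum]
    congr 1
    simp only [a5_ln_sum, a5_ln_one]
    rw [Finset.sum_comm]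
    simp only [Finset.mul_sum]
    rw [Finset.sum_comm (s := Finset.univ) (t := g.support)]
    rw [Finset.sum_div, ← Finset.sum_neg_distrib, ← Finset.sum_neg_distrib,
      ← Finset.sum_add_distrib]
    refine Finset.sum_congr rfl fun p _ => ?_
    rw [← Finset.sum_mul]
    have : ∑ κ, x κ * (|∑ i ∈ S κ, ((g p).1 i : ℝ)| * Real.log ((p : ℕ) : ℝ)) =
        (∑ κ, x κ * |∑ i ∈ S κ, ((g p).1 i : ℝ)|) * Real.log ((p : ℕ) : ℝ) := by
      rw [Finset.sum_mul]
      exact Finset.sum_congr rfl fun κ _ => by ring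
    rw [this]
    ring

lemma a5_vp_nonneg (b : Bool) {p : ℕ} (hp : 2 ≤ p) (n : ℕ) : 0 ≤ vp b p n := by
  unfold vp
  split
  · exact cc_nonneg hp n
  · norm_num

lemma a5_vp_le_one (b : Bool) {p : ℕ} (hp : 2 ≤ p) (n : ℕ) : vp b p n ≤ 1 := by
  unfold vp
  split
  · exact cc_le_one hp n
  · norm_num

lemma a5_vp_zero (b : Bool) {p : ℕ} (hp : 2 ≤ p) : vp b p 0 = 1 := by
  unfold vp
  split
  · exact cc_zero hp
  · rfl

lemma a5_lterm_nonneg {r m : ℕ} (h : Fin r → Bool) (S : Fin m → Finset (Fin r)) {p : ℕ}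
    (hp : 2 ≤ p) (x : Fin m → ℝ) (j : JZ r) : 0 ≤ lterm h S p x j := by
  unfold lterm
  exact mul_nonneg (Finset.prod_nonneg fun i _ => a5_vp_nonneg (h i) hp _)
    (Real.rpow_nonneg (by positivity) _)

lemma a5_lterm_zero {r m : ℕ} (h : Fin r → Bool) (S : Fin m → Finset (Fin r)) {p : ℕ}
    (hp : 2 ≤ p) (x : Fin m → ℝ) : lterm h S p x (0 : JZ r) = 1 := by
  unfold lterm
  simp [a5_zero_val, a5_vp_zero _ hp]

lemma a5_xe_pos {r m : ℕ} {S : Fin m → Finset (Fin r)} {x : Fin m → ℝ}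
    (hx : ∀ κ, 0 < x κ) (hS : ∀ e : Ed r, ∃ κ, sepa (S κ) e) (e : Ed r) : 0 < xe S x e := by
  unfold xe
  obtain ⟨κ, hκ⟩ := hS e
  refine Finset.sum_pos' (fun i _ => ?_) ⟨κ, Finset.mem_univ _, ?_⟩
  · split
    · exact (hx i).le
    · exact le_refl _
  · rw [if_pos hκ]; exact hx κ

lemma a5_summable {r m : ℕ} (h : Fin r → Bool) (S : Fin m → Finset (Fin r)) {x : Fin m → ℝ}
    (hx : ∀ κ, 0 < x κ) (hS : ∀ e : Ed r, ∃ κ, sepa (S κ) e) :
    Summable fun p : Nat.Primes => Fl h S p x - 1 := by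
  obtain ⟨K, hK, hexp⟩ := Fl_expand h S
  have hsum : Summable fun p : Nat.Primes =>
      (∑ e : Ed r, 2 * ((p : ℕ) : ℝ) ^ (-(1 + xe S x e))) + K * ((p : ℕ) : ℝ) ^ (-2 : ℝ) := by
    refine Summable.add ?_ ?_
    · refine summable_sum fun e _ => ?_
      refine Summable.mul_left _ ?_
      rw [Nat.Primes.summable_rpow]
      linarith [a5_xe_pos hx hS e]
    · refine Summable.mul_left _ ?_
      rw [Nat.Primes.summable_rpow]
      norm_num
  refine Summable.of_nonneg_of_le (fun p => ?_) (fun p => ?_) hsum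
  · obtain ⟨E, hE0, -, hF⟩ := hexp p p.2.two_le x (fun κ => (hx κ).le)
    rw [hF]
    have : 0 ≤ ∑ e : Ed r, 2 * vp (h e.1.1) p 1 * vp (h e.1.2) p 1 *
        ((p : ℕ) : ℝ) ^ (-(1 + xe S x e)) := by
      refine Finset.sum_nonneg fun e _ => ?_
      exact mul_nonneg (mul_nonneg (mul_nonneg (by norm_num) (a5_vp_nonneg _ p.2.two_le _))
        (a5_vp_nonneg _ p.2.two_le _)) (Real.rpow_nonneg (by positivity) _)
    linarith
  · obtain ⟨E, -, hE, hF⟩ := hexp p p.2.two_le x (fun κ => (hx κ).le)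
    rw [hF]
    have h1 : ∑ e : Ed r, 2 * vp (h e.1.1) p 1 * vp (h e.1.2) p 1 *
        ((p : ℕ) : ℝ) ^ (-(1 + xe S x e)) ≤ ∑ e : Ed r, 2 * ((p : ℕ) : ℝ) ^ (-(1 + xe S x e)) := by
      refine Finset.sum_le_sum fun e _ => ?_
      refine mul_le_mul_of_nonneg_right ?_ (Real.rpow_nonneg (by positivity) _)
      have ha := a5_vp_nonneg (h e.1.1) p.2.two_le 1
      have hb := a5_vp_nonneg (h e.1.2) p.2.two_le 1
      have ha' := a5_vp_le_one (h e.1.1) p.2.two_le 1
      have hb' := a5_vp_le_one (h e.1.2) p.2.two_le 1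
      nlinarith
    have h2 : K * ((p : ℕ) : ℝ) ^ (-2 : ℝ) = K / ((p : ℕ) : ℝ) ^ 2 := by
      rw [Real.rpow_neg (by positivity), div_eq_mul_inv]
      norm_num
    rw [h2]
    linarith

/-- Euler product over tuples -/
theorem DT_euler {r m : ℕ} (h : Fin r → Bool) (S : Fin m → Finset (Fin r)) {x : Fin m → ℝ}
    (hx : ∀ κ, 0 < x κ) (hS : ∀ e : Ed r, ∃ κ, sepa (S κ) e) :
    (Summable fun f : TT r => wt h f * Real.exp (-∑ κ, x κ * ob S f κ)) ∧
    ∑' f : TT r, wt h f * Real.exp (-∑ κ, x κ * ob S f κ) =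
      Real.exp (∑' p : Nat.Primes, Real.log (Fl h S p x)) := by
  obtain ⟨h1, h2⟩ := euler_finsupp (A := JZ r) (fun p j => lterm h S p x j)
    (fun p j => a5_lterm_nonneg h S p.2.two_le x j) (fun p => a5_lterm_zero h S p.2.two_le x)
    (fun p => lterm_summable h S p.2.two_le fun κ => (hx κ).le) (a5_summable h S hx hS)
  have hfun : (fun f : TT r => wt h f * Real.exp (-∑ κ, x κ * ob S f κ)) ∘ (a5_equiv r).symm =
      fun g : Nat.Primes →₀ JZ r => g.prod (fun p j => lterm h S p x j) := by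
    funext g
    exact a5_term h S x g
  constructor
  · rw [← Equiv.summable_iff (a5_equiv r).symm, hfun]
    exact h1
  · rw [← Equiv.tsum_eq (a5_equiv r).symm (fun f : TT r => wt h f *
      Real.exp (-∑ κ, x κ * ob S f κ))]
    have := congrArg (fun F => ∑' g, F g) hfun
    simp only [Function.comp_apply] at this
    rw [this, h2]
    rfl

end Pool.Agent.SixthMoment
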