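import Pool.Agent.Lib_MP_112ba8_s.Defs
import Pool.Agent.Lib_MP_112ba8_s.Coef
import Pool.Agent.Lib_MP_112ba8_s.Local
import Pool.Agent.Lib_MP_112ba8_s.Tuple
import Pool.Agent.Lib_MP_112ba8.PrimeSums

/-!
Limit of the discrete Laplace transform.
-/

namespace Pool.Agent.SixthMoment

open Filter Topology MeasureTheory
open Pool.Agent.EvenMoment (cl Wgt Adm Ed cut hat)
open Pool.Agent.ZetaMoment (Ps Ps_summable Ps_tendsto C0 Dr Dr_summable primes_summable
  rpow_neg_le_inv)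

lemma a6_al_nonneg (b : Bool) : 0 ≤ al b := by
  cases b <;> simp [al]

lemma a6_al_le (b : Bool) : al b ≤ 1 := by
  cases b <;> norm_num [al]

lemma a6_vp_nonneg (b : Bool) {p : ℕ} (hp : 2 ≤ p) (n : ℕ) : 0 ≤ vp b p n := by
  cases b
  · simp [vp]
  · simpa [vp] using cc_nonneg hp n

lemma a6_vp_le (b : Bool) {p : ℕ} (hp : 2 ≤ p) (n : ℕ) : vp b p n ≤ 1 := by
  cases b
  · simp [vp]
  · simpa [vp] using cc_le_one hp n

lemma a6_vp_al : ∃ K : ℝ, 0 < K ∧ ∀ p : ℕ, 2 ≤ p → ∀ b : Bool, |vp b p 1 - al b| ≤ K / p := by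
  obtain ⟨K, hK, h⟩ := cc_one_bound
  refine ⟨K, hK, fun p hp b => ?_⟩
  cases b
  · simp only [vp, al, Bool.false_eq_true, if_false, sub_self, abs_zero]
    positivity
  · simpa [vp, al] using h p hp

lemma a6_coef {a b u v K : ℝ} (hu0 : 0 ≤ u) (hu1 : u ≤ 1) (hb0 : 0 ≤ b)
    (hb1 : b ≤ 1) (h1 : |u - a| ≤ K) (h2 : |v - b| ≤ K) :
    |2 * u * v - 2 * a * b| ≤ 4 * K := by
  have e : 2 * u * v - 2 * a * b = 2 * (u * (v - b) + b * (u - a)) := by ring
  rw [e, abs_mul, abs_two]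
  have h3 : |u * (v - b)| ≤ K := by
    rw [abs_mul, abs_of_nonneg hu0]
    nlinarith [abs_nonneg (v - b)]
  have h4 : |b * (u - a)| ≤ K := by
    rw [abs_mul, abs_of_nonneg hb0]
    nlinarith [abs_nonneg (u - a)]
  have h5 := abs_add_le (u * (v - b)) (b * (u - a))
  linarith

lemma a6_log {y : ℝ} (hy : 0 ≤ y) : |Real.log (1 + y) - y| ≤ y ^ 2 := by
  have hlog1 : Real.log (1 + y) ≤ y := by
    have := Real.log_le_sub_one_of_pos (show 0 < 1 + y by linarith)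
    linarith
  have hlog2 : y - y ^ 2 ≤ Real.log (1 + y) := by
    have h1 := Real.one_sub_inv_le_log_of_pos (show 0 < 1 + y by linarith)
    refine le_trans ?_ h1
    have h2 : 1 - (1 + y)⁻¹ = y / (1 + y) := by
      have : (1 + y) ≠ 0 := by linarith
      field_simp
      ring
    rw [h2, le_div_iff₀ (by linarith)]
    nlinarith [pow_nonneg hy 3]
  rw [abs_le]
  constructor
  · linarith
  · linarith [sq_nonneg y]

lemma a6_xe_nonneg {r m : ℕ} (S : Fin m → Finset (Fin r)) {x : Fin m → ℝ} (hx : ∀ κ, 0 ≤ x κ)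
    (e : Ed r) : 0 ≤ xe S x e :=
  Finset.sum_nonneg fun κ _ => by split_ifs <;> first | exact hx κ | exact le_rfl

lemma a6_xe_pos {r m : ℕ} (S : Fin m → Finset (Fin r)) {x : Fin m → ℝ} (hx : ∀ κ, 0 < x κ)
    (e : Ed r) (he : ∃ κ, sepa (S κ) e) : 0 < xe S x e := by
  obtain ⟨κ, hκ⟩ := he
  refine Finset.sum_pos' (fun κ _ => ?_) ⟨κ, Finset.mem_univ _, ?_⟩
  · split_ifs <;> first | exact (hx κ).le | exact le_rfl
  · rw [if_pos hκ]; exact hx κ

lemma a6_xe_div {r m : ℕ} (S : Fin m → Finset (Fin r)) (x : Fin m → ℝ) (L : ℝ) (e : Ed r) :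
    xe S (fun κ => x κ / L) e = xe S x e / L := by
  unfold xe
  rw [Finset.sum_div]
  refine Finset.sum_congr rfl fun κ _ => ?_
  split_ifs <;> simp

lemma a6_ke_nonneg {r : ℕ} (h : Fin r → Bool) (e : Ed r) : 0 ≤ ke h e :=
  mul_nonneg (mul_nonneg (by norm_num) (a6_al_nonneg _)) (a6_al_nonneg _)

/-- remainder of the logarithm of the local factor -/
noncomputable def a6T {r m : ℕ} (h : Fin r → Bool) (S : Fin m → Finset (Fin r)) (x : Fin m → ℝ)
    (p : ℕ) : ℝ := Real.log (Fl h S p x) - ∑ e : Ed r, ke h e * (p : ℝ) ^ (-(1 + xe S x e))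

lemma a6_bound {r m : ℕ} (h : Fin r → Bool) (S : Fin m → Finset (Fin r)) :
    ∃ K : ℝ, 0 < K ∧ ∀ p : ℕ, p.Prime → ∀ x : Fin m → ℝ, (∀ κ, 0 ≤ x κ) →
      1 ≤ Fl h S p x ∧ |a6T h S x p| ≤ K * (1 / (p : ℝ) ^ 2) := by
  obtain ⟨K, hK, hexp⟩ := Fl_expand h S
  obtain ⟨K₁, hK₁, hal⟩ := a6_vp_al
  set N : ℝ := (Fintype.card (Ed r) : ℝ) with hN
  have hN0 : 0 ≤ N := by positivity
  refine ⟨K + (2 * N + K) ^ 2 + 4 * N * K₁, by positivity, ?_⟩
  intro p hp x hx
  have hp2 : 2 ≤ p := hp.two_le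
  have hp1 : (1 : ℝ) ≤ p := by exact_mod_cast hp.one_lt.le
  have hp0 : (0 : ℝ) < p := by linarith
  obtain ⟨E, hE0, hE1, hE⟩ := hexp p hp2 x hx
  set U : ℝ := ∑ e : Ed r, 2 * vp (h e.1.1) p 1 * vp (h e.1.2) p 1 *
    (p : ℝ) ^ (-(1 + xe S x e)) with hU
  have hpow : ∀ e : Ed r, (p : ℝ) ^ (-(1 + xe S x e)) ≤ 1 / p := fun e =>
    rpow_neg_le_inv hp (by linarith [a6_xe_nonneg S hx e])
  have hpow0 : ∀ e : Ed r, 0 ≤ (p : ℝ) ^ (-(1 + xe S x e)) := fun e => by positivity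
  have hU0 : 0 ≤ U := Finset.sum_nonneg fun e _ =>
    mul_nonneg (mul_nonneg (mul_nonneg (by norm_num) (a6_vp_nonneg _ hp2 _))
      (a6_vp_nonneg _ hp2 _)) (hpow0 e)
  have hU1 : U ≤ 2 * N / p := by
    calc U ≤ ∑ e : Ed r, 2 / (p : ℝ) := by
          refine Finset.sum_le_sum fun e _ => ?_
          have h1 := a6_vp_nonneg (h e.1.1) hp2 1
          have h2 := a6_vp_le (h e.1.1) hp2 1
          have h3 := a6_vp_nonneg (h e.1.2) hp2 1
          have h4 := a6_vp_le (h e.1.2) hp2 1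
          have h5 : 2 * vp (h e.1.1) p 1 * vp (h e.1.2) p 1 ≤ 2 := by nlinarith
          calc _ ≤ 2 * (1 / (p : ℝ)) := by
                refine mul_le_mul h5 (hpow e) (hpow0 e) (by norm_num)
            _ = _ := by ring
      _ = _ := by
          rw [Finset.sum_const, Finset.card_univ, nsmul_eq_mul, ← hN]
          ring
  have hFl : Fl h S p x = 1 + (U + E) := by rw [hE]; ring
  have hy0 : 0 ≤ U + E := by linarith
  refine ⟨by rw [hFl]; linarith, ?_⟩
  have hE2 : K / (p : ℝ) ^ 2 ≤ K / p := by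
    apply div_le_div_of_nonneg_left hK.le hp0
    nlinarith
  have hy1 : U + E ≤ (2 * N + K) / p := by
    rw [add_div]; linarith
  have hy2 : (U + E) ^ 2 ≤ (2 * N + K) ^ 2 / (p : ℝ) ^ 2 := by
    rw [← div_pow]; gcongr
  have hlog := a6_log hy0
  have hdiff : |U - ∑ e : Ed r, ke h e * (p : ℝ) ^ (-(1 + xe S x e))| ≤
      4 * N * K₁ / (p : ℝ) ^ 2 := by
    rw [hU, ← Finset.sum_sub_distrib]
    refine (Finset.abs_sum_le_sum_abs _ _).trans ?_
    calc _ ≤ ∑ e : Ed r, 4 * (K₁ / p) * (1 / (p : ℝ)) := by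
          refine Finset.sum_le_sum fun e _ => ?_
          rw [← sub_mul, abs_mul, abs_of_nonneg (hpow0 e)]
          refine mul_le_mul ?_ (hpow e) (hpow0 e) (by positivity)
          exact a6_coef (a6_vp_nonneg _ hp2 _) (a6_vp_le _ hp2 _) (a6_al_nonneg _)
            (a6_al_le _) (hal p hp2 _) (hal p hp2 _)
      _ = _ := by
          rw [Finset.sum_const, Finset.card_univ, nsmul_eq_mul, ← hN]
          ring
  have e1 : a6T h S x p = (Real.log (1 + (U + E)) - (U + E)) + E +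
      (U - ∑ e : Ed r, ke h e * (p : ℝ) ^ (-(1 + xe S x e))) := by
    rw [a6T, hFl]; ring
  rw [e1]
  have e2 : (K + (2 * N + K) ^ 2 + 4 * N * K₁) * (1 / (p : ℝ) ^ 2) =
      K / (p : ℝ) ^ 2 + (2 * N + K) ^ 2 / (p : ℝ) ^ 2 + 4 * N * K₁ / (p : ℝ) ^ 2 := by ring
  rw [e2]
  refine (abs_add_le _ _).trans (add_le_add ((abs_add_le _ _).trans ?_) hdiff)
  rw [abs_of_nonneg hE0]
  linarith

lemma a6_summable {r m : ℕ} (h : Fin r → Bool) (S : Fin m → Finset (Fin r)) {x : Fin m → ℝ}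
    (hx : ∀ κ, 0 ≤ x κ) : Summable fun p : Nat.Primes => a6T h S x p := by
  obtain ⟨K, -, hb⟩ := a6_bound h S
  exact Summable.of_norm_bounded (primes_summable.mul_left K) fun p => by
    rw [Real.norm_eq_abs]; exact (hb p p.2 x hx).2

/-- the limit of `a6T` -/
noncomputable def a6I {r : ℕ} (h : Fin r → Bool) (p : ℕ) : ℝ :=
  Real.log (F0 h p) - kk h * (1 / (p : ℝ))

lemma a6_F0_pos {r m : ℕ} (h : Fin r → Bool) (S : Fin m → Finset (Fin r)) {p : ℕ}
    (hp : p.Prime) : 1 ≤ F0 h p := by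
  obtain ⟨K, -, hb⟩ := a6_bound h S
  have ht := Fl_tendsto h S hp.two_le (x := fun _ => 0) (fun _ => le_rfl)
  refine ge_of_tendsto ht ?_
  filter_upwards with L
  exact (hb p hp _ fun κ => by simp).1

lemma a6_pow_tendsto (z : ℝ) {p : ℕ} (hp : p.Prime) :
    Tendsto (fun L : ℝ => (p : ℝ) ^ (-(1 + z / L))) atTop (𝓝 (1 / (p : ℝ))) := by
  have hp0 : (p : ℝ) ≠ 0 := by exact_mod_cast hp.ne_zero
  have h2 : Tendsto (fun L : ℝ => -(1 + z / L)) atTop (𝓝 (-(1 + 0))) :=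
    (tendsto_const_nhds.add (tendsto_const_nhds.div_atTop tendsto_id)).neg
  have h3 := (tendsto_const_nhds (x := (p : ℝ)) (f := (atTop : Filter ℝ))).rpow h2 (Or.inl hp0)
  have h4 : (p : ℝ) ^ (-(1 + 0) : ℝ) = 1 / (p : ℝ) := by
    rw [add_zero, Real.rpow_neg_one, one_div]
  rwa [h4] at h3

lemma a6T_tendsto {r m : ℕ} (h : Fin r → Bool) (S : Fin m → Finset (Fin r)) {x : Fin m → ℝ}
    (hx : ∀ κ, 0 ≤ x κ) {p : ℕ} (hp : p.Prime) :
    Tendsto (fun L : ℝ => a6T h S (fun κ => x κ / L) p) atTop (𝓝 (a6I h p)) := by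
  unfold a6T a6I
  refine Tendsto.sub ((Fl_tendsto h S hp.two_le hx).log ?_) ?_
  · have := a6_F0_pos h S hp
    linarith
  · have : kk h * (1 / (p : ℝ)) = ∑ e : Ed r, ke h e * (1 / (p : ℝ)) := by
      rw [kk, Finset.sum_mul]
    rw [this]
    refine tendsto_finsetSum _ fun e _ => ?_
    simp only [a6_xe_div]
    exact tendsto_const_nhds.mul (a6_pow_tendsto _ hp)

lemma a6I_bound {r m : ℕ} (h : Fin r → Bool) (S : Fin m → Finset (Fin r)) :
    ∃ K : ℝ, 0 < K ∧ ∀ p : ℕ, p.Prime → |a6I h p| ≤ K * (1 / (p : ℝ) ^ 2) := by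
  obtain ⟨K, hK, hb⟩ := a6_bound h S
  refine ⟨K, hK, fun p hp => ?_⟩
  have ht := (a6T_tendsto h S (x := fun _ => 0) (fun _ => le_rfl) hp).abs
  refine le_of_tendsto ht ?_
  filter_upwards with L
  exact (hb p hp _ fun κ => by simp).2

lemma a6I_summable {r m : ℕ} (h : Fin r → Bool) (S : Fin m → Finset (Fin r)) :
    Summable fun p : Nat.Primes => a6I h p := by
  obtain ⟨K, -, hb⟩ := a6I_bound h S
  exact Summable.of_norm_bounded (primes_summable.mul_left K) fun p => by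
    rw [Real.norm_eq_abs]; exact hb p p.2

lemma a6_AR {r m : ℕ} (h : Fin r → Bool) (S : Fin m → Finset (Fin r)) :
    AR h = Real.exp (∑' p : Nat.Primes, a6I h p + kk h * C0) := by
  rw [AR]
  congr 1
  have hC : Summable fun p : Nat.Primes =>
      (Real.log (1 - 1 / ((p : ℕ) : ℝ)) + 1 / ((p : ℕ) : ℝ)) := by
    refine (Dr_summable (s := 0) le_rfl).congr fun p => ?_
    rw [add_zero, Real.rpow_neg_one, one_div]
  rw [C0, ← tsum_mul_left, ← (a6I_summable h S).tsum_add (hC.mul_left _)]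
  refine tsum_congr fun p => ?_
  rw [a6I]
  ring

lemma a6_log_sum {r m : ℕ} (h : Fin r → Bool) (S : Fin m → Finset (Fin r)) {x : Fin m → ℝ}
    (hx : ∀ κ, 0 < x κ) (hS : ∀ e : Ed r, ∃ κ, sepa (S κ) e) :
    ∑' p : Nat.Primes, Real.log (Fl h S p x) =
      ∑' p : Nat.Primes, a6T h S x p + ∑ e : Ed r, ke h e * Ps (xe S x e) := by
  have h1 : ∀ e : Ed r, Summable fun p : Nat.Primes =>
      ke h e * ((p : ℕ) : ℝ) ^ (-(1 + xe S x e)) :=
    fun e => (Ps_summable (a6_xe_pos S hx e (hS e))).mul_left _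
  have h2 : Summable fun p : Nat.Primes =>
      ∑ e : Ed r, ke h e * ((p : ℕ) : ℝ) ^ (-(1 + xe S x e)) := summable_sum fun e _ => h1 e
  have h3 : ∑ e : Ed r, ke h e * Ps (xe S x e) =
      ∑' p : Nat.Primes, ∑ e : Ed r, ke h e * ((p : ℕ) : ℝ) ^ (-(1 + xe S x e)) := by
    rw [Summable.tsum_finsetSum fun e _ => h1 e]
    refine Finset.sum_congr rfl fun e _ => ?_
    rw [Ps, tsum_mul_left]
  rw [h3, ← (a6_summable h S fun κ => (hx κ).le).tsum_add h2]
  refine tsum_congr fun p => ?_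
  rw [a6T]
  ring

theorem GL_tendsto {r m : ℕ} (h : Fin r → Bool) (S : Fin m → Finset (Fin r)) {x : Fin m → ℝ}
    (hx : ∀ κ, 0 < x κ) (hS : ∀ e : Ed r, ∃ κ, sepa (S κ) e) :
    Tendsto (fun L : ℝ => (∑' f : TT r, wt h f * Real.exp (-∑ κ, x κ / L * ob S f κ)) / L ^ kk h)
      atTop (𝓝 (AR h * ∏ e : Ed r, xe S x e ^ (-ke h e))) := by
  obtain ⟨K, hK, hb⟩ := a6_bound h S
  have hT : Tendsto (fun L : ℝ => ∑' p : Nat.Primes, a6T h S (fun κ => x κ / L) p) atTop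
      (𝓝 (∑' p : Nat.Primes, a6I h p)) := by
    refine tendsto_tsum_of_dominated_convergence (primes_summable.mul_left K) (fun p => ?_) ?_
    · exact a6T_tendsto h S (fun κ => (hx κ).le) p.2
    · filter_upwards [eventually_gt_atTop (0 : ℝ)] with L hL p
      rw [Real.norm_eq_abs]
      exact (hb p p.2 _ fun κ => div_nonneg (hx κ).le hL.le).2
  have hP : Tendsto (fun L : ℝ => ∑ e : Ed r, ke h e * (Ps (xe S x e / L) - Real.log L)) atTop
      (𝓝 (∑ e : Ed r, ke h e * (C0 - Real.log (xe S x e)))) :=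
    tendsto_finsetSum _ fun e _ => (Ps_tendsto (a6_xe_pos S hx e (hS e))).const_mul _
  have hlim := (Real.continuous_exp.tendsto _).comp (hT.add hP)
  have hval : Real.exp (∑' p : Nat.Primes, a6I h p +
      ∑ e : Ed r, ke h e * (C0 - Real.log (xe S x e))) =
      AR h * ∏ e : Ed r, xe S x e ^ (-ke h e) := by
    have e1 : ∏ e : Ed r, xe S x e ^ (-ke h e) =
        Real.exp (∑ e : Ed r, (-(ke h e * Real.log (xe S x e)))) := by
      rw [Real.exp_sum]
      refine Finset.prod_congr rfl fun e _ => ?_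
      rw [Real.rpow_def_of_pos (a6_xe_pos S hx e (hS e))]
      congr 1
      ring
    rw [a6_AR h S, e1, ← Real.exp_add]
    congr 1
    rw [kk, Finset.sum_mul, add_assoc, ← Finset.sum_add_distrib]
    congr 1
    refine Finset.sum_congr rfl fun e _ => ?_
    ring
  rw [hval] at hlim
  refine hlim.congr' ?_
  filter_upwards [eventually_gt_atTop (0 : ℝ)] with L hL
  have hxL : ∀ κ, 0 < x κ / L := fun κ => div_pos (hx κ) hL
  have hE := (DT_euler h S hxL hS).2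
  rw [hE, a6_log_sum h S hxL hS]
  simp only [Function.comp_apply, a6_xe_div]
  rw [Real.rpow_def_of_pos hL, ← Real.exp_sub]
  congr 1
  rw [kk, Finset.mul_sum]
  have e3 : ∑ e : Ed r, ke h e * (Ps (xe S x e / L) - Real.log L) =
      ∑ e : Ed r, ke h e * Ps (xe S x e / L) - ∑ e : Ed r, Real.log L * ke h e := by
    rw [← Finset.sum_sub_distrib]
    refine Finset.sum_congr rfl fun e _ => ?_
    ring
  rw [e3]
  ring

end Pool.Agent.SixthMoment
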