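import Mathlib
import Pool.Agent.Lib_MP_112ba8_s.Defs
import Pool.Agent.Lib_MP_112ba8_e.LapC

/-!
Laplace transform of the limit measure.
-/

namespace Pool.Agent.SixthMoment

open Filter Topology MeasureTheory
open Pool.Agent.EvenMoment (cl Wgt Adm Ed cut hat)

lemma b2_al_pos (b : Bool) : 0 < al b := by
  unfold al
  split <;> norm_num

lemma b2_ke_pos {r : ℕ} (h : Fin r → Bool) (e : Ed r) : 0 < ke h e := by
  unfold ke
  exact mul_pos (mul_pos two_pos (b2_al_pos _)) (b2_al_pos _)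

lemma b2_sum_oy {r m : ℕ} (S : Fin m → Finset (Fin r)) (x : Fin m → ℝ) (y : Ed r → ℝ) :
    ∑ κ, x κ * oy S y κ = ∑ e : Ed r, xe S x e * y e := by
  unfold oy xe
  simp_rw [Finset.mul_sum, Finset.sum_mul]
  rw [Finset.sum_comm]
  refine Finset.sum_congr rfl fun e _ => Finset.sum_congr rfl fun κ _ => ?_
  split <;> simp

lemma b2_xe_pos {r m : ℕ} {S : Fin m → Finset (Fin r)} {x : Fin m → ℝ}
    (hx : ∀ κ, 0 < x κ) (hS : ∀ e : Ed r, ∃ κ, sepa (S κ) e) (e : Ed r) : 0 < xe S x e := by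
  unfold xe
  obtain ⟨κ, hκ⟩ := hS e
  refine Finset.sum_pos' (fun i _ => ?_) ⟨κ, Finset.mem_univ _, ?_⟩
  · split
    · exact (hx i).le
    · exact le_refl _
  · rw [if_pos hκ]; exact hx κ

lemma b2_prod {r m : ℕ} (h : Fin r → Bool) (S : Fin m → Finset (Fin r)) (x : Fin m → ℝ)
    (y : Ed r → ℝ) :
    dens h y * Real.exp (-∑ κ, x κ * oy S y κ) =
      ∏ e : Ed r, (y e ^ (ke h e - 1) / Real.Gamma (ke h e) * Real.exp (-(xe S x e * y e))) := by
  unfold dens
  rw [Finset.prod_mul_distrib, ← Real.exp_sum, b2_sum_oy, ← Finset.sum_neg_distrib]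

lemma b2_one_dim {a b : ℝ} (ha : 0 < a) (hb : 0 < b) :
    IntegrableOn (fun t : ℝ => t ^ (a - 1) / Real.Gamma a * Real.exp (-(b * t))) (Set.Ioi 0) ∧
      ∫ t in Set.Ioi (0 : ℝ), t ^ (a - 1) / Real.Gamma a * Real.exp (-(b * t)) = b ^ (-a) := by
  have h1 := integrableOn_rpow_mul_exp_neg_mul_rpow (p := 1) (s := a - 1) (by linarith) one_pos hb
  have h2 := Real.integral_rpow_mul_exp_neg_mul_Ioi (a := a) (r := b) ha hb
  have hG : 0 < Real.Gamma a := Real.Gamma_pos_of_pos ha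
  have hfun : (fun t : ℝ => t ^ (a - 1) / Real.Gamma a * Real.exp (-(b * t))) =
      fun t : ℝ => (Real.Gamma a)⁻¹ * (t ^ (a - 1) * Real.exp (-(b * t))) := by
    funext t
    rw [div_eq_mul_inv]
    ring
  constructor
  · rw [hfun]
    refine Integrable.const_mul ?_ _
    refine h1.congr_fun (fun t _ => ?_) measurableSet_Ioi
    simp
  · rw [hfun, integral_const_mul, h2]
    rw [one_div, Real.inv_rpow hb.le, Real.rpow_neg hb.le]
    field_simp

theorem LS_exp_integrable {r m : ℕ} (h : Fin r → Bool) (S : Fin m → Finset (Fin r))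
    {x : Fin m → ℝ} (hx : ∀ κ, 0 < x κ) (hS : ∀ e : Ed r, ∃ κ, sepa (S κ) e) :
    IntegrableOn (fun y : Ed r → ℝ => dens h y * Real.exp (-∑ κ, x κ * oy S y κ))
      {y : Ed r → ℝ | ∀ e, 0 < y e} := by
  unfold IntegrableOn
  rw [Pool.Agent.EvenMoment.restrict_eq]
  simp_rw [b2_prod]
  exact Integrable.fintype_prod (f := fun (e : Ed r) (t : ℝ) =>
    t ^ (ke h e - 1) / Real.Gamma (ke h e) * Real.exp (-(xe S x e * t)))
    (fun e => (b2_one_dim (b2_ke_pos h e) (b2_xe_pos hx hS e)).1)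

theorem LS_exp {r m : ℕ} (h : Fin r → Bool) (S : Fin m → Finset (Fin r)) {x : Fin m → ℝ}
    (hx : ∀ κ, 0 < x κ) (hS : ∀ e : Ed r, ∃ κ, sepa (S κ) e) :
    ∫ y in {y : Ed r → ℝ | ∀ e, 0 < y e}, dens h y * Real.exp (-∑ κ, x κ * oy S y κ) =
      ∏ e : Ed r, xe S x e ^ (-ke h e) := by
  rw [Pool.Agent.EvenMoment.restrict_eq]
  simp_rw [b2_prod]
  rw [integral_fintype_prod_eq_prod (fun (e : Ed r) (t : ℝ) =>
    t ^ (ke h e - 1) / Real.Gamma (ke h e) * Real.exp (-(xe S x e * t)))]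
  exact Finset.prod_congr rfl fun e _ => (b2_one_dim (b2_ke_pos h e) (b2_xe_pos hx hS e)).2

lemma b2_measurable_dens {r : ℕ} (h : Fin r → Bool) : Measurable (dens h) := by
  unfold dens
  refine Finset.measurable_fun_prod _ fun e _ => ?_
  exact ((measurable_pi_apply e).pow_const _).div_const _

lemma b2_continuous_oy {r m : ℕ} (S : Fin m → Finset (Fin r)) :
    Continuous (fun y : Ed r → ℝ => oy S y) := by
  refine continuous_pi fun κ => ?_
  unfold oy
  refine continuous_finsetSum _ fun e _ => ?_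
  split
  · exact continuous_apply e
  · exact continuous_const

lemma b2_oy_nonneg {r m : ℕ} (S : Fin m → Finset (Fin r)) {y : Ed r → ℝ} (hy : ∀ e, 0 < y e)
    (κ : Fin m) : 0 ≤ oy S y κ := by
  unfold oy
  refine Finset.sum_nonneg fun e _ => ?_
  split
  · exact (hy e).le
  · exact le_refl _

lemma b2_dens_nonneg {r : ℕ} (h : Fin r → Bool) {y : Ed r → ℝ} (hy : ∀ e, 0 < y e) :
    0 ≤ dens h y := by
  unfold dens
  refine Finset.prod_nonneg fun e _ => ?_
  exact div_nonneg (Real.rpow_nonneg (hy e).le _) (Real.Gamma_pos_of_pos (b2_ke_pos h e)).le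

/-- a continuous function vanishing for large coordinates is dominated by an exponential -/
lemma b2_bound {m : ℕ} {G : (Fin m → ℝ) → ℝ} (hG : Continuous G) (B : ℝ)
    (hB : ∀ s, (∃ κ, B ≤ s κ) → G s = 0) :
    ∃ C : ℝ, 0 ≤ C ∧ ∀ s : Fin m → ℝ, (∀ κ, 0 ≤ s κ) →
      |G s| ≤ C * Real.exp (-∑ κ, 1 * s κ) := by
  have hcomp : IsCompact (Set.pi Set.univ (fun _ : Fin m => Set.Icc (0 : ℝ) B)) :=
    isCompact_univ_pi fun _ => isCompact_Icc
  obtain ⟨C, hC⟩ := hcomp.exists_bound_of_continuousOn hG.continuousOn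
  refine ⟨max C 0 * Real.exp (∑ _κ : Fin m, B), by positivity, fun s hs => ?_⟩
  by_cases hbig : ∃ κ, B ≤ s κ
  · rw [hB s hbig, abs_zero]
    positivity
  · push Not at hbig
    have h1 : ‖G s‖ ≤ C := hC s (fun κ _ => ⟨hs κ, (hbig κ).le⟩)
    rw [Real.norm_eq_abs] at h1
    have h2 : |G s| ≤ max C 0 := h1.trans (le_max_left _ _)
    have h3 : (1 : ℝ) ≤ Real.exp (∑ _κ : Fin m, B) * Real.exp (-∑ κ, 1 * s κ) := by
      rw [← Real.exp_add]
      apply Real.one_le_exp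
      have : ∑ κ, 1 * s κ ≤ ∑ _κ : Fin m, B :=
        Finset.sum_le_sum fun κ _ => by rw [one_mul]; exact (hbig κ).le
      linarith
    calc |G s| ≤ max C 0 * 1 := by rw [mul_one]; exact h2
      _ ≤ max C 0 * (Real.exp (∑ _κ : Fin m, B) * Real.exp (-∑ κ, 1 * s κ)) :=
          mul_le_mul_of_nonneg_left h3 (le_max_right _ _)
      _ = _ := by ring

theorem LS_integrable {r m : ℕ} (h : Fin r → Bool) (S : Fin m → Finset (Fin r))
    (hS : ∀ e : Ed r, ∃ κ, sepa (S κ) e) {G : (Fin m → ℝ) → ℝ} (hG : Continuous G) (B : ℝ)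
    (hB : ∀ s, (∃ κ, B ≤ s κ) → G s = 0) :
    IntegrableOn (fun y : Ed r → ℝ => dens h y * G (oy S y)) {y : Ed r → ℝ | ∀ e, 0 < y e} := by
  obtain ⟨C, hC0, hC⟩ := b2_bound hG B hB
  have hmeasS : MeasurableSet {y : Ed r → ℝ | ∀ e, 0 < y e} := by
    rw [Pool.Agent.EvenMoment.set_eq_pi]
    exact MeasurableSet.univ_pi fun _ => measurableSet_Ioi
  have hint := (LS_exp_integrable h S (x := fun _ => 1) (fun _ => one_pos) hS).const_mul C
  refine Integrable.mono' hint ?_ ?_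
  · exact ((b2_measurable_dens h).mul
      (hG.comp (b2_continuous_oy S)).measurable).aestronglyMeasurable
  · refine (ae_restrict_iff' hmeasS).mpr (Eventually.of_forall fun y hy => ?_)
    rw [norm_mul, Real.norm_eq_abs, Real.norm_eq_abs, abs_of_nonneg (b2_dens_nonneg h hy)]
    have h1 := hC (oy S y) (b2_oy_nonneg S hy)
    calc dens h y * |G (oy S y)| ≤ dens h y * (C * Real.exp (-∑ κ, 1 * oy S y κ)) :=
          mul_le_mul_of_nonneg_left h1 (b2_dens_nonneg h hy)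
      _ = C * (dens h y * Real.exp (-∑ κ, 1 * oy S y κ)) := by ring

end Pool.Agent.SixthMoment
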