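import Pool.Agent.Lib_MP_112ba8_s.Defs

/-!
Exponent vectors of positive rationals: basic properties of `ln`, `fr`, `osc`.
-/

namespace Pool.Agent.SixthMoment

open Filter Topology MeasureTheory

theorem ln_nonneg (q : QQ) : 0 ≤ ln q := by
  unfold ln Finsupp.sum
  exact Finset.sum_nonneg fun i _ => mul_nonneg (abs_nonneg _) (log_prime_pos i).le

theorem ln_zero : ln 0 = 0 := by
  unfold ln
  exact Finsupp.sum_zero_index

theorem ln_neg (q : QQ) : ln (-q) = ln q := by
  unfold ln
  rw [Finsupp.sum_neg_index (by intro p; simp)]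
  refine Finsupp.sum_congr fun p _ => ?_
  push_cast
  rw [abs_neg]

theorem ln_add_le (a b : QQ) : ln (a + b) ≤ ln a + ln b := by
  classical
  have hab : ln (a + b) = ∑ p ∈ a.support ∪ b.support,
      |(((a + b) p : ℤ) : ℝ)| * Real.log ((p : ℕ) : ℝ) :=
    Finsupp.sum_of_support_subset _ Finsupp.support_add _ (by intro p _; simp)
  have ha : ln a = ∑ p ∈ a.support ∪ b.support,
      |((a p : ℤ) : ℝ)| * Real.log ((p : ℕ) : ℝ) :=
    Finsupp.sum_of_support_subset _ Finset.subset_union_left _ (by intro p _; simp)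
  have hb : ln b = ∑ p ∈ a.support ∪ b.support,
      |((b p : ℤ) : ℝ)| * Real.log ((p : ℕ) : ℝ) :=
    Finsupp.sum_of_support_subset _ Finset.subset_union_right _ (by intro p _; simp)
  rw [hab, ha, hb, ← Finset.sum_add_distrib]
  refine Finset.sum_le_sum fun p _ => ?_
  rw [← add_mul]
  refine mul_le_mul_of_nonneg_right ?_ (log_prime_pos p).le
  rw [Finsupp.add_apply]
  push_cast
  exact abs_add_le _ _

theorem ln_pos {q : QQ} (hq : q ≠ 0) : 0 < ln q := by
  obtain ⟨p, hp⟩ : ∃ p, q p ≠ 0 := by
    by_contra h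
    push Not at h
    exact hq (Finsupp.ext h)
  refine lt_of_lt_of_le ?_ (term_le_ln q p)
  refine mul_pos (abs_pos.mpr ?_) (log_prime_pos p)
  exact_mod_cast hp

theorem fr_zero : fr 0 = 0 := by
  unfold fr
  exact Finsupp.sum_zero_index

theorem fr_neg (q : QQ) : fr (-q) = -fr q := by
  unfold fr
  rw [Finsupp.sum_neg_index (by intro p; simp)]
  unfold Finsupp.sum
  rw [← Finset.sum_neg_distrib]
  refine Finset.sum_congr rfl fun p _ => ?_
  push_cast
  ring

theorem fr_add (a b : QQ) : fr (a + b) = fr a + fr b := by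
  unfold fr
  refine Finsupp.sum_add_index' (by intro p; simp) ?_
  intro p x y
  push_cast
  ring

theorem osc_zero (t : ℝ) : osc 0 t = 1 := by
  unfold osc
  rw [fr_zero]
  simp

theorem osc_add (a b : QQ) (t : ℝ) : osc (a + b) t = osc a t * osc b t := by
  unfold osc
  rw [fr_add, ← Complex.exp_add]
  congr 1
  push_cast
  ring

theorem osc_norm (q : QQ) (t : ℝ) : ‖osc q t‖ = 1 := by
  unfold osc
  rw [← Complex.ofReal_mul]
  exact Complex.norm_exp_ofReal_mul_I _

theorem osc_conj (q : QQ) (t : ℝ) : (starRingEnd ℂ) (osc q t) = osc (-q) t := by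
  unfold osc
  rw [← Complex.exp_conj, fr_neg]
  congr 1
  rw [map_mul, map_mul, Complex.conj_ofReal, Complex.conj_ofReal, Complex.conj_I]
  push_cast
  ring

theorem osc_cont (q : QQ) : Continuous (osc q) := by
  unfold osc
  fun_prop

private theorem log_prod_pow (q : QQ) (e : Nat.Primes → ℕ) :
    Real.log ((∏ p ∈ q.support, ((p : ℕ)) ^ (e p) : ℕ) : ℝ) =
      ∑ p ∈ q.support, (e p : ℝ) * Real.log ((p : ℕ) : ℝ) := by
  push_cast
  rw [Real.log_prod]
  · refine Finset.sum_congr rfl fun p _ => ?_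
    rw [Real.log_pow]
  · intro p _
    have : (0 : ℝ) < ((p : ℕ) : ℝ) := by exact_mod_cast p.2.pos
    positivity

/-- the fraction -/
theorem exists_frac (q : QQ) : ∃ h k : ℕ, 0 < h ∧ 0 < k ∧ Nat.Coprime h k ∧
    ln q = Real.log ((h : ℝ) * k) ∧ fr q = Real.log h - Real.log k ∧ (q ≠ 0 → h ≠ k) := by
  classical
  set h : ℕ := ∏ p ∈ q.support, ((p : ℕ)) ^ (q p).toNat with hh
  set k : ℕ := ∏ p ∈ q.support, ((p : ℕ)) ^ (-q p).toNat with hk
  have hh0 : 0 < h := Finset.prod_pos fun p _ => pow_pos p.2.pos _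
  have hk0 : 0 < k := Finset.prod_pos fun p _ => pow_pos p.2.pos _
  have hlogh := log_prod_pow q (fun p => (q p).toNat)
  have hlogk := log_prod_pow q (fun p => (-q p).toNat)
  have hcop : Nat.Coprime h k := by
    refine Nat.Coprime.prod_left fun p _ => Nat.Coprime.prod_right fun p' _ => ?_
    by_cases hpp : p = p'
    · subst hpp
      rcases le_total 0 (q p) with h0 | h0
      · have : (-q p).toNat = 0 := Int.toNat_of_nonpos (by omega)
        rw [this, pow_zero]
        exact Nat.coprime_one_right _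
      · have : (q p).toNat = 0 := Int.toNat_of_nonpos h0
        rw [this, pow_zero]
        exact Nat.coprime_one_left _
    · refine Nat.Coprime.pow _ _ ?_
      rw [Nat.coprime_primes p.2 p'.2]
      exact fun h => hpp (Subtype.ext h)
  have hln : ln q = Real.log ((h : ℝ) * k) := by
    rw [Real.log_mul (by positivity) (by positivity), hh, hk, hlogh, hlogk,
      ← Finset.sum_add_distrib]
    unfold ln Finsupp.sum
    refine Finset.sum_congr rfl fun p _ => ?_
    rw [← add_mul]
    refine congrArg (fun x : ℝ => x * Real.log ((p : ℕ) : ℝ)) ?_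
    have h1 : ((q p).toNat : ℤ) + ((-q p).toNat : ℤ) = |q p| := by
      rcases le_total 0 (q p) with h0 | h0
      · rw [Int.toNat_of_nonneg h0, Int.toNat_of_nonpos (by omega), abs_of_nonneg h0]
        simp
      · rw [Int.toNat_of_nonpos h0, Int.toNat_of_nonneg (by omega), abs_of_nonpos h0]
        simp
    have h2 : (((q p).toNat : ℤ) : ℝ) + (((-q p).toNat : ℤ) : ℝ) = ((|q p| : ℤ) : ℝ) := by
      rw [← h1]; push_cast; ring
    rw [Int.cast_abs] at h2
    show |((q p : ℤ) : ℝ)| = _
    rw [← h2]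
    push_cast
    ring
  have hfr : fr q = Real.log h - Real.log k := by
    rw [hh, hk, hlogh, hlogk, ← Finset.sum_sub_distrib]
    unfold fr Finsupp.sum
    refine Finset.sum_congr rfl fun p _ => ?_
    rw [← sub_mul]
    refine congrArg (fun x : ℝ => x * Real.log ((p : ℕ) : ℝ)) ?_
    have h1 : ((q p).toNat : ℤ) - ((-q p).toNat : ℤ) = q p := by
      rcases le_total 0 (q p) with h0 | h0
      · rw [Int.toNat_of_nonneg h0, Int.toNat_of_nonpos (by omega)]
        simp
      · rw [Int.toNat_of_nonpos h0, Int.toNat_of_nonneg (by omega)]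
        simp
    have h2 : (((q p).toNat : ℤ) : ℝ) - (((-q p).toNat : ℤ) : ℝ) = ((q p : ℤ) : ℝ) := by
      rw [← Int.cast_sub, h1]
    show ((q p : ℤ) : ℝ) = _
    rw [← h2]
    push_cast
    ring
  refine ⟨h, k, hh0, hk0, hcop, hln, hfr, fun hq hhk => ?_⟩
  rw [← hhk] at hcop
  have h1 : h = 1 := (Nat.coprime_self h).mp hcop
  have h2 := ln_pos hq
  rw [hln, ← hhk, h1] at h2
  simp at h2

/-- gap between different fractions -/
theorem fr_gap {q : QQ} (hq : q ≠ 0) : Real.exp (-(ln q / 2)) / 2 ≤ |fr q| := by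
  obtain ⟨h, k, hh, hk, -, hln, hfr, hne⟩ := exists_frac q
  have hne := hne hq
  have hh1 : (1 : ℝ) ≤ h := by exact_mod_cast hh
  have hk1 : (1 : ℝ) ≤ k := by exact_mod_cast hk
  -- a statement for ordered pairs
  have key : ∀ a b : ℝ, 1 ≤ b → b + 1 ≤ a → Real.exp (-(Real.log (a * b) / 2)) / 2 ≤
      Real.log a - Real.log b := by
    intro a b hb hab
    have ha : 0 < a := by linarith
    have hb0 : 0 < b := by linarith
    have hE : Real.exp (-(Real.log (a * b) / 2)) ≤ 1 / b := by
      have hsq : Real.exp (-(Real.log (a * b) / 2)) ^ 2 ≤ (1 / b) ^ 2 := by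
        rw [← Real.exp_nat_mul]
        have : ((2 : ℕ) : ℝ) * -(Real.log (a * b) / 2) = -Real.log (a * b) := by
          push_cast; ring
        rw [this, Real.exp_neg, Real.exp_log (by positivity), one_div, inv_pow]
        refine inv_anti₀ (by positivity) ?_
        nlinarith
      exact le_of_sq_le_sq hsq (by positivity)
    have hlog : 1 / (2 * b) ≤ Real.log a - Real.log b := by
      rw [← Real.log_div ha.ne' hb0.ne']
      have h1 := Real.one_sub_inv_le_log_of_pos (x := a / b) (by positivity)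
      have h2 : (a / b)⁻¹ ≤ b / (b + 1) := by
        rw [inv_div]
        exact div_le_div_of_nonneg_left hb0.le (by linarith) hab
      have h3 : 1 - b / (b + 1) = 1 / (b + 1) := by
        field_simp
        ring
      have h4 : 1 / (2 * b) ≤ 1 / (b + 1) :=
        one_div_le_one_div_of_le (by linarith) (by linarith)
      linarith
    calc Real.exp (-(Real.log (a * b) / 2)) / 2 ≤ (1 / b) / 2 := by linarith
      _ = 1 / (2 * b) := by field_simp
      _ ≤ _ := hlog
  rcases lt_or_gt_of_ne hne with hlt | hlt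
  · have h1 : (h : ℝ) + 1 ≤ k := by exact_mod_cast hlt
    have h2 := key k h hh1 h1
    rw [hln, hfr, abs_sub_comm, mul_comm]
    exact h2.trans (le_abs_self _)
  · have h1 : (k : ℝ) + 1 ≤ h := by exact_mod_cast hlt
    have h2 := key h k hk1 h1
    rw [hln, hfr]
    exact h2.trans (le_abs_self _)

theorem card_QS_le {B : ℝ} (hB : 0 ≤ B) : ((QS B).card : ℝ) ≤ Real.exp (2 * B) := by
  classical
  choose h k hh hk _ hln hfr _ using exists_frac
  have hinj : Function.Injective (fun q : QQ => (h q, k q)) := by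
    intro q q' hqq
    by_contra hne
    simp only [Prod.mk.injEq] at hqq
    have h1 : fr q = fr q' := by rw [hfr, hfr, hqq.1, hqq.2]
    have h2 : q + -q' ≠ 0 := by
      intro h3
      apply hne
      have := sub_eq_zero.mp (show q - q' = 0 by rw [sub_eq_add_neg]; exact h3)
      exact this
    have h3 := fr_gap h2
    rw [fr_add, fr_neg, h1, add_neg_cancel, abs_zero] at h3
    have := Real.exp_pos (-(ln (q + -q') / 2))
    linarith
  set M := ⌊Real.exp B⌋₊ with hM
  have hsub : (QS B).image (fun q : QQ => (h q, k q)) ⊆ Finset.Icc 1 M ×ˢ Finset.Icc 1 M := by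
    intro x hx
    obtain ⟨q, hq, rfl⟩ := Finset.mem_image.mp hx
    have hq' := mem_QS.mp hq
    have h0 : (0 : ℝ) < h q := by exact_mod_cast hh q
    have h0' : (0 : ℝ) < k q := by exact_mod_cast hk q
    have h1 : (1 : ℝ) ≤ h q := by exact_mod_cast hh q
    have h1' : (1 : ℝ) ≤ k q := by exact_mod_cast hk q
    have h2 : (h q : ℝ) * k q ≤ Real.exp B := by
      rw [hln] at hq'
      rwa [Real.log_le_iff_le_exp (by positivity)] at hq'
    rw [Finset.mem_product, Finset.mem_Icc, Finset.mem_Icc]
    refine ⟨⟨hh q, Nat.le_floor ?_⟩, ⟨hk q, Nat.le_floor ?_⟩⟩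
    · nlinarith
    · nlinarith
  have h1 : (QS B).card ≤ M * M := by
    rw [← Finset.card_image_of_injective _ hinj]
    refine (Finset.card_le_card hsub).trans ?_
    rw [Finset.card_product]
    simp
  have h2 : (M : ℝ) ≤ Real.exp B := Nat.floor_le (Real.exp_pos B).le
  have h3 : ((QS B).card : ℝ) ≤ (M : ℝ) * M := by exact_mod_cast h1
  have h4 : Real.exp (2 * B) = Real.exp B * Real.exp B := by
    rw [← Real.exp_add]; ring_nf
  rw [h4]
  have h5 : (0 : ℝ) ≤ M := Nat.cast_nonneg _
  nlinarith [Real.exp_pos B]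

end Pool.Agent.SixthMoment
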