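import Pool.Agent.Lib_MP_112ba8_s.Defs

/-!
# B1: Laplace transforms determine the limit of continuous functions (Stone-Weierstrass)
-/

namespace Pool.Agent.SixthMoment

open Filter Topology MeasureTheory

namespace WeakAbs

variable {m : ℕ}

/-- the point of the cube with coordinates `exp (- s i)` -/
noncomputable def cu (s : Fin m → ℝ) : Fin m → unitInterval :=
  fun i => ⟨Real.exp (-(max (s i) 0)), (Real.exp_pos _).le, Real.exp_le_one_iff.mpr (by simp)⟩

theorem cu_cont : Continuous (cu : (Fin m → ℝ) → Fin m → unitInterval) := by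
  unfold cu
  apply continuous_pi
  intro i
  apply Continuous.subtype_mk
  fun_prop

theorem cu_val {s : Fin m → ℝ} {i : Fin m} (h : 0 ≤ s i) : ((cu s i : unitInterval) : ℝ) =
    Real.exp (-(s i)) := by
  unfold cu
  simp only [max_eq_left h]

/-- the test function attached to a continuous function on the cube -/
noncomputable def gf (F : C(Fin m → unitInterval, ℝ)) (s : Fin m → ℝ) : ℝ :=
  Real.exp (-∑ i, s i) * F (cu s)

theorem gf_cont (F : C(Fin m → unitInterval, ℝ)) : Continuous (gf F) := by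
  unfold gf
  exact (by fun_prop : Continuous fun s : Fin m → ℝ => Real.exp (-∑ i, s i)).mul
    (F.continuous.comp cu_cont)

theorem gf_abs_le (F : C(Fin m → unitInterval, ℝ)) (s : Fin m → ℝ) :
    |gf F s| ≤ ‖F‖ * Real.exp (-∑ i, s i) := by
  unfold gf
  rw [abs_mul, abs_of_pos (Real.exp_pos _), mul_comm]
  exact mul_le_mul_of_nonneg_right (F.norm_coe_le_norm _) (Real.exp_pos _).le

/-- coordinate functions -/
noncomputable def coord (i : Fin m) : C(Fin m → unitInterval, ℝ) :=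
  ⟨fun u => (u i : ℝ), by fun_prop⟩

/-- monomials -/
noncomputable def mono (n : Fin m → ℕ) : C(Fin m → unitInterval, ℝ) := ∏ i, coord i ^ n i

theorem mono_apply (n : Fin m → ℕ) (u : Fin m → unitInterval) :
    mono n u = ∏ i, (u i : ℝ) ^ n i := by
  unfold mono
  rw [ContinuousMap.coe_prod, Finset.prod_apply]
  rfl

theorem gf_mono (n : Fin m → ℕ) {s : Fin m → ℝ} (hs : ∀ i, 0 ≤ s i) :
    gf (mono n) s = Real.exp (-∑ i, (1 + (n i : ℝ)) * s i) := by
  unfold gf
  rw [mono_apply]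
  have h : ∀ i, ((cu s i : unitInterval) : ℝ) ^ n i = Real.exp (-((n i : ℝ) * s i)) := by
    intro i
    rw [cu_val (hs i), ← Real.exp_nat_mul]
    congr 1; ring
  rw [Finset.prod_congr rfl fun i _ => h i, ← Real.exp_sum, ← Real.exp_add]
  congr 1
  rw [Finset.sum_neg_distrib, ← neg_add, ← Finset.sum_add_distrib]
  congr 1
  apply Finset.sum_congr rfl
  intro i _
  ring

theorem mono_closure (F : C(Fin m → unitInterval, ℝ))
    (h : F ∈ Submonoid.closure (Set.range (coord : Fin m → _))) : ∃ n, F = mono n := by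
  induction h using Submonoid.closure_induction with
  | mem x hx =>
    obtain ⟨i, rfl⟩ := hx
    classical
    refine ⟨Pi.single i 1, ?_⟩
    unfold mono
    rw [Finset.prod_eq_single i]
    · simp
    · intro j _ hj
      simp [Pi.single_eq_of_ne hj]
    · simp
  | one => exact ⟨0, by simp [mono]⟩
  | mul x y _ _ hx hy =>
    obtain ⟨n, rfl⟩ := hx
    obtain ⟨m, rfl⟩ := hy
    refine ⟨n + m, ?_⟩
    unfold mono
    rw [← Finset.prod_mul_distrib]
    apply Finset.prod_congr rfl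
    intro i _
    rw [Pi.add_apply, pow_add]

/-- the data of the statement -/
structure Dat (m : ℕ) (F : Type) (Y : Type) [MeasurableSpace Y] where
  w : F → ℝ
  hw : ∀ f, 0 ≤ w f
  s : F → Fin m → ℝ
  hs : ∀ f κ, 0 ≤ s f κ
  μ : Measure Y
  ρ : Y → ℝ
  hρ : Measurable ρ
  hρ0 : ∀ᵐ y ∂μ, 0 ≤ ρ y
  σ : Y → Fin m → ℝ
  hσm : Measurable σ
  hσ : ∀ᵐ y ∂μ, ∀ κ, 0 ≤ σ y κ
  a : ℝ
  K : ℝ
  h1 : ∀ x : Fin m → ℝ, (∀ κ, 0 < x κ) → Summable fun f => w f * Real.exp (-∑ κ, x κ * s f κ)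
  h2 : ∀ x : Fin m → ℝ, (∀ κ, 0 < x κ) →
    Integrable (fun y => ρ y * Real.exp (-∑ κ, x κ * σ y κ)) μ
  h3 : ∀ x : Fin m → ℝ, (∀ κ, 0 < x κ) →
    Tendsto (fun L : ℝ => (∑' f, w f * Real.exp (-∑ κ, x κ / L * s f κ)) / L ^ K) atTop
      (𝓝 (a * ∫ y, ρ y * Real.exp (-∑ κ, x κ * σ y κ) ∂μ))

variable {F₀ : Type} {Y : Type} [MeasurableSpace Y] (d : Dat m F₀ Y)

/-- discrete functional -/
noncomputable def DF (G : (Fin m → ℝ) → ℝ) (L : ℝ) : ℝ :=
  ∑' f, d.w f * G (fun κ => d.s f κ / L)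

/-- limit functional -/
noncomputable def LF (G : (Fin m → ℝ) → ℝ) : ℝ := ∫ y, d.ρ y * G (d.σ y) ∂d.μ

theorem summable_one {L : ℝ} (hL : 0 < L) :
    Summable fun f => d.w f * Real.exp (-∑ κ, d.s f κ / L) := by
  have h := d.h1 (fun _ => 1 / L) (fun _ => by positivity)
  refine h.congr fun f => ?_
  congr 3
  apply Finset.sum_congr rfl
  intro i _
  ring

theorem summable_gf (F : C(Fin m → unitInterval, ℝ)) {L : ℝ} (hL : 0 < L) :
    Summable fun f => d.w f * gf F (fun κ => d.s f κ / L) := by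
  refine Summable.of_norm_bounded ((summable_one d hL).mul_left ‖F‖) fun q => ?_
  rw [Real.norm_eq_abs, abs_mul, abs_of_nonneg (d.hw q)]
  calc d.w q * |gf F fun i => d.s q i / L|
      ≤ d.w q * (‖F‖ * Real.exp (-∑ i, d.s q i / L)) :=
        mul_le_mul_of_nonneg_left (gf_abs_le F _) (d.hw q)
    _ = ‖F‖ * (d.w q * Real.exp (-∑ i, d.s q i / L)) := by ring

theorem DF_add (F F' : C(Fin m → unitInterval, ℝ)) {L : ℝ} (hL : 0 < L) :
    DF d (gf (F + F')) L = DF d (gf F) L + DF d (gf F') L := by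
  unfold DF
  rw [← (summable_gf d F hL).tsum_add (summable_gf d F' hL)]
  congr 1
  funext q
  simp only [gf, ContinuousMap.add_apply]
  ring

theorem DF_smul (a : ℝ) (F : C(Fin m → unitInterval, ℝ)) (L : ℝ) :
    DF d (gf (a • F)) L = a * DF d (gf F) L := by
  unfold DF
  rw [← tsum_mul_left]
  congr 1
  funext q
  simp only [gf, ContinuousMap.smul_apply, smul_eq_mul]
  ring

theorem DF_abs_le (F : C(Fin m → unitInterval, ℝ)) {L : ℝ} (hL : 0 < L) :
    |DF d (gf F) L| ≤ ‖F‖ * DF d (gf 1) L := by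
  have h1 : |DF d (gf F) L| ≤ ∑' q, ‖d.w q * gf F (fun i => d.s q i / L)‖ := by
    rw [← Real.norm_eq_abs]
    exact norm_tsum_le_tsum_norm (summable_gf d F hL).norm
  have h2 : ∑' q, ‖d.w q * gf F (fun i => d.s q i / L)‖ ≤
      ∑' q, ‖F‖ * (d.w q * gf 1 (fun i => d.s q i / L)) := by
    apply Summable.tsum_le_tsum _ (summable_gf d F hL).norm ((summable_gf d 1 hL).mul_left _)
    intro q
    rw [Real.norm_eq_abs, abs_mul, abs_of_nonneg (d.hw q)]
    have h3 : gf (1 : C(Fin m → unitInterval, ℝ)) (fun i => d.s q i / L) =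
        Real.exp (-∑ i, d.s q i / L) := by simp [gf]
    rw [h3]
    calc d.w q * |gf F fun i => d.s q i / L|
        ≤ d.w q * (‖F‖ * Real.exp (-∑ i, d.s q i / L)) :=
          mul_le_mul_of_nonneg_left (gf_abs_le F _) (d.hw q)
      _ = ‖F‖ * (d.w q * Real.exp (-∑ i, d.s q i / L)) := by ring
  rw [tsum_mul_left] at h2
  exact h1.trans h2

theorem integrable_gf (F : C(Fin m → unitInterval, ℝ)) :
    Integrable (fun y => d.ρ y * gf F (d.σ y)) d.μ := by
  have h := (d.h2 (fun _ => 1) (fun _ => one_pos)).const_mul ‖F‖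
  refine Integrable.mono h ?_ ?_
  · have hc : Measurable (fun y => d.ρ y * gf F (d.σ y)) :=
      d.hρ.mul ((gf_cont F).measurable.comp d.hσm)
    exact hc.aestronglyMeasurable
  · filter_upwards [d.hρ0] with y hp
    rw [norm_mul, norm_mul, norm_mul, Real.norm_of_nonneg hp, Real.norm_eq_abs (gf F (d.σ y)),
      norm_norm, Real.norm_of_nonneg (Real.exp_pos _).le]
    have h1 := gf_abs_le F (d.σ y)
    simp only [one_mul]
    calc d.ρ y * |gf F (d.σ y)| ≤ d.ρ y * (‖F‖ * Real.exp (-∑ i, d.σ y i)) :=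
          mul_le_mul_of_nonneg_left h1 hp
      _ = ‖F‖ * (d.ρ y * Real.exp (-∑ i, d.σ y i)) := by ring

theorem LF_add (F F' : C(Fin m → unitInterval, ℝ)) :
    LF d (gf (F + F')) = LF d (gf F) + LF d (gf F') := by
  unfold LF
  rw [← integral_add (integrable_gf d F) (integrable_gf d F')]
  congr 1
  funext y
  simp only [gf, ContinuousMap.add_apply]
  ring

theorem LF_smul (a : ℝ) (F : C(Fin m → unitInterval, ℝ)) :
    LF d (gf (a • F)) = a * LF d (gf F) := by
  unfold LF
  rw [← integral_const_mul]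
  congr 1
  funext y
  simp only [gf, ContinuousMap.smul_apply, smul_eq_mul]
  ring

theorem LF_abs_le (F : C(Fin m → unitInterval, ℝ)) :
    |LF d (gf F)| ≤ ‖F‖ * LF d (gf 1) := by
  unfold LF
  rw [← integral_const_mul, ← Real.norm_eq_abs]
  refine norm_integral_le_of_norm_le ((integrable_gf d 1).const_mul _) ?_
  filter_upwards [d.hρ0] with y hp
  rw [norm_mul, Real.norm_of_nonneg hp, Real.norm_eq_abs]
  have h3 : gf (1 : C(Fin m → unitInterval, ℝ)) (d.σ y) = Real.exp (-∑ i, d.σ y i) := by simp [gf]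
  rw [h3]
  calc d.ρ y * |gf F (d.σ y)| ≤ d.ρ y * (‖F‖ * Real.exp (-∑ i, d.σ y i)) :=
        mul_le_mul_of_nonneg_left (gf_abs_le F (d.σ y)) hp
    _ = ‖F‖ * (d.ρ y * Real.exp (-∑ i, d.σ y i)) := by ring

/-- the statement for a function on the cube -/
def Goo (F : C(Fin m → unitInterval, ℝ)) : Prop :=
  Tendsto (fun L : ℝ => DF d (gf F) L / L ^ d.K) atTop (𝓝 (d.a * LF d (gf F)))

theorem Goo.add {F F' : C(Fin m → unitInterval, ℝ)} (h : Goo d F) (h' : Goo d F') :
    Goo d (F + F') := by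
  unfold Goo at *
  rw [LF_add, mul_add]
  refine (h.add h').congr' ?_
  filter_upwards [eventually_gt_atTop 0] with L hL
  rw [DF_add d F F' hL, add_div]

theorem Goo.smul {F : C(Fin m → unitInterval, ℝ)} (h : Goo d F) (a : ℝ) : Goo d (a • F) := by
  unfold Goo at *
  rw [LF_smul, mul_left_comm]
  refine (h.const_mul a).congr fun L => ?_
  rw [DF_smul, mul_div_assoc]

theorem goo_mono (n : Fin m → ℕ) : Goo d (mono n) := by
  unfold Goo
  have hx : ∀ i, (0 : ℝ) < 1 + (n i : ℝ) := fun i => by positivity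
  have h1 := d.h3 _ hx
  have h2 : LF d (gf (mono n)) = ∫ y, d.ρ y * Real.exp (-∑ κ, (1 + (n κ : ℝ)) * d.σ y κ) ∂d.μ := by
    unfold LF
    apply integral_congr_ae
    filter_upwards [d.hσ] with y hy
    rw [gf_mono n hy]
  rw [h2]
  refine h1.congr' ?_
  filter_upwards [eventually_gt_atTop 0] with L hL
  congr 1
  unfold DF
  congr 1
  funext q
  rw [gf_mono n (fun i => div_nonneg (d.hs _ _) hL.le)]
  congr 3
  apply Finset.sum_congr rfl
  intro i _
  ring

theorem goo_adjoin (F : C(Fin m → unitInterval, ℝ))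
    (h : F ∈ Algebra.adjoin ℝ (Set.range (coord : Fin m → _))) : Goo d F := by
  rw [← Subalgebra.mem_toSubmodule, Algebra.adjoin_eq_span] at h
  induction h using Submodule.span_induction with
  | mem x hx =>
    obtain ⟨n, rfl⟩ := mono_closure x hx
    exact goo_mono d n
  | zero =>
    have := (goo_mono d 0).smul d 0
    rwa [zero_smul] at this
  | add x y _ _ hx hy => exact hx.add d hy
  | smul a x _ hx => exact hx.smul d a

theorem gf_sub_goo {F F' : C(Fin m → unitInterval, ℝ)} {L : ℝ} (hL : 0 < L) :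
    DF d (gf F) L = DF d (gf (F - F')) L + DF d (gf F') L := by
  rw [← DF_add d (F - F') F' hL, sub_add_cancel]

theorem goo_all (F : C(Fin m → unitInterval, ℝ)) : Goo d F := by
  have hsep : (Algebra.adjoin ℝ
      (Set.range (coord : Fin m → C(Fin m → unitInterval, ℝ)))).SeparatesPoints := by
    intro u v huv
    obtain ⟨i, hi⟩ := Function.ne_iff.mp huv
    refine ⟨coord i, ⟨coord i, Algebra.subset_adjoin ⟨i, rfl⟩, rfl⟩, ?_⟩
    intro h
    exact hi (Subtype.ext h)
  have htop := ContinuousMap.subalgebra_topologicalClosure_eq_top_of_separatesPoints _ hsep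
  have hF : F ∈ (Algebra.adjoin ℝ
      (Set.range (coord : Fin m → C(Fin m → unitInterval, ℝ)))).topologicalClosure := by
    rw [htop]; trivial
  have hF' : F ∈ closure ((Algebra.adjoin ℝ
      (Set.range (coord : Fin m → C(Fin m → unitInterval, ℝ))) :
      Set C(Fin m → unitInterval, ℝ))) := hF
  rw [Metric.mem_closure_iff] at hF'
  -- the bound
  have h1 : Goo d (1 : C(Fin m → unitInterval, ℝ)) := by
    have := goo_mono d 0
    have e : mono (0 : Fin m → ℕ) = 1 := by simp [mono]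
    rwa [e] at this
  set C := |d.a * LF d (gf (1 : C(Fin m → unitInterval, ℝ)))| + 1 with hC
  have hCpos : 0 < C := by positivity
  have hbd : ∀ᶠ L in atTop, DF d (gf (1 : C(Fin m → unitInterval, ℝ))) L / L ^ d.K ≤ C := by
    have := (h1.eventually (gt_mem_nhds (lt_of_le_of_lt (le_abs_self _) (lt_add_one _))))
    filter_upwards [this] with L hL
    exact hL.le
  unfold Goo
  rw [Metric.tendsto_atTop]
  intro ε hε
  set D := |d.a| * |LF d (gf (1 : C(Fin m → unitInterval, ℝ)))| with hD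
  have hD0 : 0 ≤ D := by positivity
  set η := ε / (3 * (C + D + 1)) with hη
  have hη0 : 0 < η := by positivity
  obtain ⟨F', hF'A, hdist⟩ := hF' η hη0
  have hnorm : ‖F - F'‖ < η := by rwa [← dist_eq_norm]
  have hgo := goo_adjoin d F' hF'A
  unfold Goo at hgo
  rw [Metric.tendsto_atTop] at hgo
  obtain ⟨L₁, hL₁⟩ := hgo (ε / 3) (by positivity)
  obtain ⟨L₂, hL₂⟩ := (eventually_atTop.mp hbd)
  refine ⟨max (max L₁ L₂) 1, fun L hL => ?_⟩
  have hLpos : 0 < L := lt_of_lt_of_le one_pos (le_trans (le_max_right _ _) hL)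
  have g1 := hL₁ L (le_trans (le_trans (le_max_left _ _) (le_max_left _ _)) hL)
  have g2 := hL₂ L (le_trans (le_trans (le_max_right _ _) (le_max_left _ _)) hL)
  rw [Real.dist_eq] at g1 ⊢
  have hLp : 0 < L ^ d.K := Real.rpow_pos_of_pos hLpos _
  have e1 : |DF d (gf (F - F')) L / L ^ d.K| ≤ η * C := by
    rw [abs_div, abs_of_pos hLp]
    calc |DF d (gf (F - F')) L| / L ^ d.K
        ≤ (‖F - F'‖ * DF d (gf 1) L) / L ^ d.K :=
          div_le_div_of_nonneg_right (DF_abs_le d _ hLpos) hLp.le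
      _ = ‖F - F'‖ * (DF d (gf 1) L / L ^ d.K) := by rw [mul_div_assoc]
      _ ≤ ‖F - F'‖ * C := mul_le_mul_of_nonneg_left g2 (norm_nonneg _)
      _ ≤ η * C := mul_le_mul_of_nonneg_right hnorm.le hCpos.le
  have e2 : |d.a * LF d (gf (F - F'))| ≤ η * D := by
    rw [abs_mul]
    calc |d.a| * |LF d (gf (F - F'))| ≤ |d.a| * (‖F - F'‖ * LF d (gf 1)) :=
          mul_le_mul_of_nonneg_left (LF_abs_le d _) (abs_nonneg _)
      _ ≤ |d.a| * (‖F - F'‖ * |LF d (gf (1 : C(Fin m → unitInterval, ℝ)))|) :=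
          mul_le_mul_of_nonneg_left (mul_le_mul_of_nonneg_left (le_abs_self _) (norm_nonneg _))
            (abs_nonneg _)
      _ = ‖F - F'‖ * D := by rw [hD]; ring
      _ ≤ η * D := mul_le_mul_of_nonneg_right hnorm.le hD0
  have e3 : LF d (gf F) = LF d (gf (F - F')) + LF d (gf F') := by
    rw [← LF_add, sub_add_cancel]
  rw [gf_sub_goo d (F := F) (F' := F') hLpos, e3, add_div, mul_add]
  have e4 : η * (C + D + 1) = ε / 3 := by
    rw [hη]
    field_simp
  have e5 : η * C + η * D < ε / 3 := by nlinarith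
  have a1 := abs_le.mp e1
  have a2 := abs_le.mp e2
  have a3 := abs_lt.mp g1
  rw [abs_lt]
  constructor <;> linarith [a1.1, a1.2, a2.1, a2.2, a3.1, a3.2]

theorem final {G : (Fin m → ℝ) → ℝ} (hG : Continuous G) (B : ℝ)
    (hB : ∀ s, (∃ i, B ≤ s i) → G s = 0) :
    Tendsto (fun L : ℝ => DF d G L / L ^ d.K) atTop (𝓝 (d.a * LF d G)) := by
  have hBp := Real.exp_pos (-B)
  have hmax : ∀ x : ℝ, 0 < max x (Real.exp (-B)) := fun x => lt_of_lt_of_le hBp (le_max_right _ _)
  set F : C(Fin m → unitInterval, ℝ) :=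
    ⟨fun u => G (fun i => -Real.log (max (u i : ℝ) (Real.exp (-B)))) *
      ∏ i, (max (u i : ℝ) (Real.exp (-B)))⁻¹, by
      apply Continuous.mul
      · apply hG.comp
        apply continuous_pi
        intro i
        apply Continuous.neg
        apply Continuous.log
        · fun_prop
        · intro u; exact (hmax _).ne'
      · apply continuous_finsetProd
        intro i _
        apply Continuous.inv₀
        · fun_prop
        · intro u; exact (hmax _).ne'⟩ with hF
  have key : ∀ s : Fin m → ℝ, (∀ i, 0 ≤ s i) → gf F s = G s := by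
    intro s hs
    have hval : ∀ i, ((cu s i : unitInterval) : ℝ) = Real.exp (-(s i)) := fun i => cu_val (hs i)
    show Real.exp (-∑ i, s i) *
      (G (fun i => -Real.log (max ((cu s i : unitInterval) : ℝ) (Real.exp (-B)))) *
      ∏ i, (max ((cu s i : unitInterval) : ℝ) (Real.exp (-B)))⁻¹) = G s
    simp only [hval]
    by_cases h : ∃ i, B ≤ s i
    · rw [hB s h]
      obtain ⟨i, hi⟩ := h
      rw [hB _ ⟨i, ?_⟩]
      · ring
      · rw [max_eq_right (Real.exp_le_exp.mpr (by linarith)), Real.log_exp]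
        linarith
    · push Not at h
      have hm : ∀ i, max (Real.exp (-(s i))) (Real.exp (-B)) = Real.exp (-(s i)) := fun i =>
        max_eq_left (Real.exp_le_exp.mpr (by linarith [h i]))
      simp only [hm, Real.log_exp, neg_neg]
      rw [Finset.prod_inv_distrib, ← Real.exp_sum, Finset.sum_neg_distrib]
      have h0 := (Real.exp_pos (-∑ i, s i)).ne'
      field_simp
  have h := goo_all d F
  unfold Goo at h
  have hLF : LF d (gf F) = LF d G := by
    unfold LF
    apply integral_congr_ae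
    filter_upwards [d.hσ] with y hy
    rw [key _ hy]
  rw [hLF] at h
  refine h.congr' ?_
  filter_upwards [eventually_gt_atTop 0] with L hL
  congr 1
  unfold DF
  congr 1
  funext q
  rw [key _ (fun i => div_nonneg (d.hs _ _) hL.le)]

end WeakAbs

open WeakAbs in
theorem weak_of_laplace {m : ℕ} (hm : 0 < m) {F : Type} (w : F → ℝ) (hw : ∀ f, 0 ≤ w f)
    (s : F → Fin m → ℝ) (hs : ∀ f κ, 0 ≤ s f κ) {Y : Type} [MeasurableSpace Y] (μ : Measure Y)
    (ρ : Y → ℝ) (hρ : Measurable ρ) (hρ0 : ∀ᵐ y ∂μ, 0 ≤ ρ y)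
    (σ : Y → Fin m → ℝ) (hσm : Measurable σ) (hσ : ∀ᵐ y ∂μ, ∀ κ, 0 ≤ σ y κ) (a K : ℝ)
    (h1 : ∀ x : Fin m → ℝ, (∀ κ, 0 < x κ) → Summable fun f => w f * Real.exp (-∑ κ, x κ * s f κ))
    (h2 : ∀ x : Fin m → ℝ, (∀ κ, 0 < x κ) →
      Integrable (fun y => ρ y * Real.exp (-∑ κ, x κ * σ y κ)) μ)
    (h3 : ∀ x : Fin m → ℝ, (∀ κ, 0 < x κ) →
      Tendsto (fun L : ℝ => (∑' f, w f * Real.exp (-∑ κ, x κ / L * s f κ)) / L ^ K) atTop
        (𝓝 (a * ∫ y, ρ y * Real.exp (-∑ κ, x κ * σ y κ) ∂μ)))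
    {G : (Fin m → ℝ) → ℝ} (hG : Continuous G) (B : ℝ) (hB : ∀ s, (∃ κ, B ≤ s κ) → G s = 0) :
    Tendsto (fun L : ℝ => (∑' f, w f * G (fun κ => s f κ / L)) / L ^ K) atTop
      (𝓝 (a * ∫ y, ρ y * G (σ y) ∂μ)) := by
  have _ := hm
  exact final ⟨w, hw, s, hs, μ, ρ, hρ, hρ0, σ, hσm, hσ, a, K, h1, h2, h3⟩ hG B hB

end Pool.Agent.SixthMoment
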