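import Mathlib
import Pool.Agent.Lib_MP_112ba8_s.Defs
import Pool.Agent.Lib_MP_112ba8_s.QBasic
import Pool.Agent.Lib_MP_112ba8_s.Coef
import Pool.Agent.Lib_MP_112ba8_s.Tuple
import Pool.Agent.Lib_MP_112ba8_s.Limit
import Pool.Agent.Lib_MP_112ba8_s.WeakAbs
import Pool.Agent.Lib_MP_112ba8_s.LSexp

/-!
Limits of the discrete functionals.
-/

namespace Pool.Agent.SixthMoment

open Filter Topology MeasureTheory
open Pool.Agent.EvenMoment (cl Wgt Adm Ed cut hat)

/-! ### B3 -/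

lemma al_pos (b : Bool) : 0 < al b := by cases b <;> simp [al]

lemma ke_pos {r : ℕ} (h : Fin r → Bool) (e : Ed r) : 0 < ke h e := by
  unfold ke
  have := al_pos (h e.1.1)
  have := al_pos (h e.1.2)
  positivity

lemma vw_nonneg (b : Bool) (q : QQ) : 0 ≤ vw b q := by
  cases b <;> simp [vw, CC_nonneg]

lemma wt_nonneg {r : ℕ} (h : Fin r → Bool) (f : TT r) : 0 ≤ wt h f :=
  mul_nonneg (Finset.prod_nonneg fun _ _ => vw_nonneg _ _) (Real.exp_pos _).le

lemma ob_nonneg {r m : ℕ} (S : Fin m → Finset (Fin r)) (f : TT r) (κ : Fin m) : 0 ≤ ob S f κ :=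
  ln_nonneg _

lemma measurableSet_pos (r : ℕ) : MeasurableSet {y : Ed r → ℝ | ∀ e, 0 < y e} := by
  have : {y : Ed r → ℝ | ∀ e, 0 < y e} = ⋂ e, {y | 0 < y e} := by ext; simp
  rw [this]
  exact MeasurableSet.iInter fun e => measurableSet_lt measurable_const (measurable_pi_apply e)

lemma dens_nonneg {r : ℕ} (h : Fin r → Bool) {y : Ed r → ℝ} (hy : ∀ e, 0 < y e) :
    0 ≤ dens h y :=
  Finset.prod_nonneg fun e _ => div_nonneg (Real.rpow_nonneg (hy e).le _)
    (Real.Gamma_pos_of_pos (ke_pos h e)).le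

lemma dens_measurable {r : ℕ} (h : Fin r → Bool) : Measurable (dens h) := by
  unfold dens
  refine Finset.measurable_prod _ fun e _ => ?_
  exact ((measurable_pi_apply e).pow_const _).div_const _

lemma oy_nonneg {r m : ℕ} (S : Fin m → Finset (Fin r)) {y : Ed r → ℝ} (hy : ∀ e, 0 < y e)
    (κ : Fin m) : 0 ≤ oy S y κ :=
  Finset.sum_nonneg fun e _ => by split_ifs; exacts [(hy e).le, le_rfl]

lemma oy_measurable {r m : ℕ} (S : Fin m → Finset (Fin r)) :
    Measurable (oy S : (Ed r → ℝ) → Fin m → ℝ) := by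
  refine measurable_pi_lambda _ fun κ => ?_
  unfold oy
  refine Finset.measurable_sum _ fun e _ => ?_
  split_ifs
  · exact measurable_pi_apply e
  · exact measurable_const

/-- a continuous function vanishing outside a box is bounded by an exponential on the orthant -/
lemma box_bound {m : ℕ} {G : (Fin m → ℝ) → ℝ} (hG : Continuous G) (B : ℝ)
    (hB : ∀ s, (∃ κ, B ≤ s κ) → G s = 0) :
    ∃ C : ℝ, 0 ≤ C ∧ ∀ s : Fin m → ℝ, (∀ κ, 0 ≤ s κ) → |G s| ≤ C * Real.exp (-∑ κ, s κ) := by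
  obtain ⟨C, hC⟩ := (isCompact_univ_pi (fun _ : Fin m => isCompact_Icc (a := (0 : ℝ))
    (b := max B 0))).exists_bound_of_continuousOn hG.continuousOn
  refine ⟨|C| * Real.exp (m * max B 0), by positivity, fun s hs => ?_⟩
  by_cases h : ∃ κ, B ≤ s κ
  · rw [hB s h, abs_zero]; positivity
  · push Not at h
    have h1 : |G s| ≤ C := by
      have := hC s (fun κ _ => ⟨hs κ, (h κ).le.trans (le_max_left _ _)⟩)
      rwa [Real.norm_eq_abs] at this
    have h2 : ∑ κ, s κ ≤ m * max B 0 := by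
      calc ∑ κ, s κ ≤ ∑ _κ : Fin m, max B 0 :=
            Finset.sum_le_sum fun κ _ => (h κ).le.trans (le_max_left _ _)
        _ = _ := by simp
    rw [mul_assoc, ← Real.exp_add]
    have h3 : (1 : ℝ) ≤ Real.exp (m * max B 0 + -∑ κ, s κ) := by
      rw [← Real.exp_zero]; exact Real.exp_le_exp.mpr (by linarith)
    have h4 := abs_nonneg C
    calc |G s| ≤ |C| := h1.trans (le_abs_self _)
      _ = |C| * 1 := (mul_one _).symm
      _ ≤ _ := mul_le_mul_of_nonneg_left h3 h4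

theorem DS_summable {r m : ℕ} (h : Fin r → Bool) (S : Fin m → Finset (Fin r)) (hm : 0 < m)
    (hS : ∀ e : Ed r, ∃ κ, sepa (S κ) e) {G : (Fin m → ℝ) → ℝ} (hG : Continuous G) (B : ℝ)
    (hB : ∀ s, (∃ κ, B ≤ s κ) → G s = 0) {L : ℝ} (hL : 0 < L) :
    Summable fun f : TT r => wt h f * G (fun κ => ob S f κ / L) := by
  obtain ⟨C, hC0, hC⟩ := box_bound hG B hB
  have h1 := (DT_euler h S (x := fun _ => 1 / L) (fun _ => by positivity) hS).1
  refine Summable.of_norm_bounded (h1.mul_left C) fun f => ?_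
  rw [norm_mul, Real.norm_of_nonneg (wt_nonneg h f), Real.norm_eq_abs]
  have h2 := hC (fun κ => ob S f κ / L) (fun κ => div_nonneg (ob_nonneg S f κ) hL.le)
  have h3 : ∑ κ, ob S f κ / L = ∑ κ, 1 / L * ob S f κ :=
    Finset.sum_congr rfl fun κ _ => by ring
  rw [h3] at h2
  calc wt h f * |G fun κ => ob S f κ / L| ≤ wt h f * (C * Real.exp (-∑ κ, 1 / L * ob S f κ)) :=
        mul_le_mul_of_nonneg_left h2 (wt_nonneg h f)
    _ = _ := by ring

theorem DS_tendsto {r m : ℕ} (h : Fin r → Bool) (S : Fin m → Finset (Fin r)) (hm : 0 < m)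
    (hS : ∀ e : Ed r, ∃ κ, sepa (S κ) e) {G : (Fin m → ℝ) → ℝ} (hG : Continuous G) (B : ℝ)
    (hB : ∀ s, (∃ κ, B ≤ s κ) → G s = 0) :
    Tendsto (fun L : ℝ => DS h S G L / L ^ kk h) atTop (𝓝 (AR h * LS h S G)) := by
  have hae : ∀ᵐ y ∂(volume.restrict {y : Ed r → ℝ | ∀ e, 0 < y e}), ∀ e, 0 < y e :=
    ae_restrict_mem (measurableSet_pos r)
  refine weak_of_laplace hm (wt h) (wt_nonneg h) (ob S) (ob_nonneg S)
    (volume.restrict {y : Ed r → ℝ | ∀ e, 0 < y e}) (dens h) (dens_measurable h) ?_ (oy S)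
    (oy_measurable S) ?_ (AR h) (kk h) (fun x hx => (DT_euler h S hx hS).1)
    (fun x hx => LS_exp_integrable h S hx hS) (fun x hx => ?_) hG B hB
  · filter_upwards [hae] with y hy using dens_nonneg h hy
  · filter_upwards [hae] with y hy using oy_nonneg S hy
  · rw [LS_exp h S hx hS]
    exact GL_tendsto h S hx hS

end Pool.Agent.SixthMoment
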