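import Pool.Agent.Lib_MP_112ba8_s.Defs
import Pool.Agent.Lib_MP_112ba8_e.ShellD

/-!
Piece E1: upper bound of the ten-dimensional shell integral by a six-dimensional one.
-/

set_option autoImplicit false

namespace Pool.Agent.SixthMoment

open Filter Topology MeasureTheory
open Pool.Agent.EvenMoment (cl Wgt Adm Ed cut hat hl)

/-! ### general measure theory -/

theorem e1_cons (n : ℕ) (a : ℝ) :
    Measurable (fun r : Fin n → ℝ => (Fin.cons a r : Fin (n + 1) → ℝ)) := by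
  rw [measurable_pi_iff]
  intro i
  refine Fin.cases ?_ (fun i => ?_) i
  · simp
  · simp only [Fin.cons_succ]
    exact measurable_pi_apply i

/-- one step of Tonelli -/
theorem e1_step (n : ℕ) {g : (Fin (n + 1) → ℝ) → ENNReal} (hg : Measurable g) :
    ∫⁻ r, g r ∂(Measure.pi (fun _ : Fin (n + 1) => hl)) =
      ∫⁻ a in Set.Ioi (0 : ℝ), ∫⁻ r, g (Fin.cons a r) ∂(Measure.pi (fun _ : Fin n => hl)) := by
  have hmp := (measurePreserving_piFinSuccAbove (fun _ : Fin (n + 1) => hl) 0).symm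
  have hcons : ∀ p : ℝ × (Fin n → ℝ), (MeasurableEquiv.piFinSuccAbove (fun _ : Fin (n + 1) => ℝ)
      0).symm p = Fin.cons p.1 p.2 := by
    intro p
    exact Fin.insertNth_zero' p.1 p.2
  rw [← hmp.lintegral_comp hg]
  have h1 : Measurable (fun p : ℝ × (Fin n → ℝ) =>
      g ((MeasurableEquiv.piFinSuccAbove (fun _ : Fin (n + 1) => ℝ) 0).symm p)) :=
    hg.comp (MeasurableEquiv.measurable _)
  refine (lintegral_prod _ h1.aemeasurable).trans ?_
  simp only [hcons]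
  rfl

theorem e1_prod (n : ℕ) (h : Fin n → ℝ → ENNReal) (hm : ∀ i, Measurable (h i)) :
    ∫⁻ r, ∏ i, h i (r i) ∂(Measure.pi (fun _ : Fin n => hl)) =
      ∏ i, ∫⁻ s in Set.Ioi (0 : ℝ), h i s := by
  induction n with
  | zero =>
    rw [Measure.pi_of_empty (fun _ : Fin 0 => hl)]
    simp
  | succ n ih =>
    have hmeas : Measurable (fun r : Fin (n + 1) → ℝ => ∏ i, h i (r i)) :=
      Finset.measurable_prod _ fun i _ => (hm i).comp (measurable_pi_apply i)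
    rw [e1_step n hmeas, Fin.prod_univ_succ]
    have h1 : ∀ a : ℝ, ∫⁻ r, ∏ i, h i ((Fin.cons a r : Fin (n + 1) → ℝ) i)
        ∂(Measure.pi (fun _ : Fin n => hl)) =
        h 0 a * ∏ i : Fin n, ∫⁻ s in Set.Ioi (0 : ℝ), h i.succ s := by
      intro a
      rw [← ih (fun i => h i.succ) (fun i => hm i.succ), ← lintegral_const_mul]
      · refine lintegral_congr fun r => ?_
        rw [Fin.prod_univ_succ]
        simp
      · exact Finset.measurable_prod _ fun i _ => (hm i.succ).comp (measurable_pi_apply i)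
    simp only [h1]
    rw [lintegral_mul_const _ (hm 0)]

theorem e1_ofReal_integral_le {α : Type} [MeasurableSpace α] {μ : Measure α} (f : α → ℝ) :
    ENNReal.ofReal (∫ x, f x ∂μ) ≤ ∫⁻ x, ENNReal.ofReal (f x) ∂μ := by
  by_cases hf : Integrable f μ
  · rw [integral_eq_lintegral_pos_part_sub_lintegral_neg_part hf]
    refine (ENNReal.ofReal_le_ofReal (sub_le_self _ ENNReal.toReal_nonneg)).trans ?_
    exact ENNReal.ofReal_toReal_le
  · rw [integral_undef hf]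
    simp

/-! ### the edges -/

/-- the edges of the complete graph on five vertices -/
def e1_edf : Fin 10 → Ed 5 :=
  ![⟨(1, 2), by decide⟩, ⟨(3, 4), by decide⟩, ⟨(1, 3), by decide⟩, ⟨(2, 4), by decide⟩,
    ⟨(1, 4), by decide⟩, ⟨(2, 3), by decide⟩, ⟨(0, 1), by decide⟩, ⟨(0, 2), by decide⟩,
    ⟨(0, 3), by decide⟩, ⟨(0, 4), by decide⟩]

theorem e1_edf_bij : Function.Bijective e1_edf :=
  (Fintype.bijective_iff_injective_and_card _).2 ⟨by decide, by decide⟩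

noncomputable def e1_ede : Fin 10 ≃ Ed 5 := Equiv.ofBijective e1_edf e1_edf_bij

/-- the integrand in ten variables -/
noncomputable def e1_f (G : (Fin 5 → ℝ) → ℝ) (r : Fin 10 → ℝ) : ℝ :=
  (∏ j, (r j ^ (ke hP (e1_edf j) - 1) / Real.Gamma (ke hP (e1_edf j)))) *
    G (fun i => ∑ j, if sepa (SP i) (e1_edf j) then r j else 0)

theorem e1_LS_pi (G : (Fin 5 → ℝ) → ℝ) :
    LS hP SP G = ∫ r, e1_f G r ∂(Measure.pi (fun _ : Fin 10 => hl)) := by
  have h1 : LS hP SP G = ∫ y, dens hP y * G (oy SP y) ∂(Measure.pi (fun _ : Ed 5 => hl)) := by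
    unfold LS
    have h2 : {y : Ed 5 → ℝ | ∀ e, 0 < y e} = Set.univ.pi (fun _ => Set.Ioi (0 : ℝ)) := by
      ext y; simp
    rw [h2, volume_pi, Measure.restrict_pi_pi]
    rfl
  rw [h1]
  have hmp := measurePreserving_piCongrLeft (fun _ : Ed 5 => hl) e1_ede
  rw [← hmp.integral_comp' (g := fun y : Ed 5 → ℝ => dens hP y * G (oy SP y))]
  refine integral_congr_ae (Eventually.of_forall fun r => ?_)
  have h3 : ∀ j : Fin 10,
      (MeasurableEquiv.piCongrLeft (fun _ : Ed 5 => ℝ) e1_ede) r (e1_ede j) = r j := by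
    intro j
    exact Equiv.piCongrLeft_apply_apply (fun _ : Ed 5 => ℝ) e1_ede r j
  set y : Ed 5 → ℝ := (MeasurableEquiv.piCongrLeft (fun _ : Ed 5 => ℝ) e1_ede) r with hy
  show dens hP y * G (oy SP y) = e1_f G r
  unfold e1_f
  congr 1
  · unfold dens
    rw [← Equiv.prod_comp e1_ede]
    refine Finset.prod_congr rfl fun j _ => ?_
    rw [h3 j]
    rfl
  · congr 1
    funext i
    unfold oy
    rw [← Equiv.sum_comp e1_ede]
    refine Finset.sum_congr rfl fun j _ => ?_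
    rw [h3 j]
    rfl

/-! ### explicit form of the integrand -/

theorem e1_ke (j : Fin 10) : ke hP (e1_edf j) = if j.1 < 6 then 1 / 2 else 1 := by
  have h0 : hP 0 = false := rfl
  have h1 : hP 1 = true := rfl
  have h2 : hP 2 = true := rfl
  have h3 : hP 3 = true := rfl
  have h4 : hP 4 = true := rfl
  fin_cases j <;> norm_num [ke, al, e1_edf, h0, h1, h2, h3, h4]

theorem e1_half {x : ℝ} (hx : 0 < x) :
    x ^ ((1 / 2 : ℝ) - 1) / Real.Gamma (1 / 2) = 1 / (Real.sqrt Real.pi * Real.sqrt x) := by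
  rw [Real.Gamma_one_half_eq, show ((1 / 2 : ℝ) - 1) = -(1 / 2) by norm_num,
    Real.rpow_neg hx.le, ← Real.sqrt_eq_rpow]
  have h1 : 0 < Real.sqrt x := Real.sqrt_pos.mpr hx
  have h2 : 0 < Real.sqrt Real.pi := Real.sqrt_pos.mpr Real.pi_pos
  field_simp

theorem e1_dens {r : Fin 10 → ℝ} (hr : ∀ i, 0 < r i) :
    ∏ j, (r j ^ (ke hP (e1_edf j) - 1) / Real.Gamma (ke hP (e1_edf j))) =
      1 / (Real.pi ^ 3 * (Real.sqrt (r 0 * r 1) * Real.sqrt (r 2 * r 3) *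
        Real.sqrt (r 4 * r 5))) := by
  have h1 : ∀ j : Fin 10, r j ^ (ke hP (e1_edf j) - 1) / Real.Gamma (ke hP (e1_edf j)) =
      if j.1 < 6 then 1 / (Real.sqrt Real.pi * Real.sqrt (r j)) else 1 := by
    intro j
    rw [e1_ke]
    split_ifs with h
    · exact e1_half (hr j)
    · simp
  simp only [h1]
  rw [Real.sqrt_mul (hr 0).le, Real.sqrt_mul (hr 2).le, Real.sqrt_mul (hr 4).le]
  have hpi : Real.pi ^ 3 = Real.sqrt Real.pi ^ 6 := by
    rw [show Real.sqrt Real.pi ^ 6 = (Real.sqrt Real.pi ^ 2) ^ 3 by ring,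
      Real.sq_sqrt Real.pi_pos.le]
  rw [hpi]
  have h2 : 0 < Real.sqrt Real.pi := Real.sqrt_pos.mpr Real.pi_pos
  have h3 : ∀ i, 0 < Real.sqrt (r i) := fun i => Real.sqrt_pos.mpr (hr i)
  have e0 := h3 0
  have e1 := h3 1
  have e2 := h3 2
  have e3 := h3 3
  have e4 := h3 4
  have e5 := h3 5
  simp [Fin.prod_univ_succ]
  field_simp

theorem e1_obs (r : Fin 10 → ℝ) :
    (fun i => ∑ j, if sepa (SP i) (e1_edf j) then r j else 0) =
      ![r 6 + r 7 + r 8 + r 9, r 6 + (r 0 + r 2 + r 4), r 7 + (r 0 + r 3 + r 5),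
        r 8 + (r 1 + r 2 + r 5), r 9 + (r 1 + r 3 + r 4)] := by
  funext i
  fin_cases i <;> simp [Fin.sum_univ_succ, e1_edf, sepa, SP] <;> ring

/-! ### the pointwise bound -/

theorem e1_hat_shift_le {θ δ : ℝ} (hδ : 0 < δ) (σ : ℝ) :
    ∫⁻ s in Set.Ioi (0 : ℝ), ENNReal.ofReal (hat θ δ (s + σ)) ≤ ENNReal.ofReal (δ / 2) := by
  refine (setLIntegral_le_lintegral _ _).trans ?_
  rw [lintegral_add_right_eq_self (fun s => ENNReal.ofReal (hat θ δ s)) σ,
    ← ofReal_integral_eq_lintegral_ofReal (Pool.Agent.EvenMoment.ShD.hat_integrable hδ)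
      (Eventually.of_forall fun s => Pool.Agent.EvenMoment.ShD.hat_nonneg θ δ s),
    Pool.Agent.EvenMoment.ShD.hat_integral hδ]

theorem e1_fc_le {A s : ℝ} (h0 : 0 ≤ 1 - s) (h1 : 1 - s ≤ A) : fc s ≤ A := by
  unfold fc cut
  have : max 0 (min 1 (2 - s)) = 1 := by
    rw [min_eq_left (by linarith), max_eq_right (by norm_num)]
  rw [this, mul_one]
  exact h1

theorem e1_point {θ δ : ℝ} (hδ : 0 < δ) (hθ : 4 * θ < 1) {r : Fin 10 → ℝ} (hr : ∀ i, 0 < r i) :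
    e1_f (GP fc (hat θ δ)) r ≤ F6 θ (1 - 4 * (θ - δ)) (r 0) (r 1) (r 2) (r 3) (r 4) (r 5) *
      (hat θ δ (r 6 + (r 0 + r 2 + r 4)) * hat θ δ (r 7 + (r 0 + r 3 + r 5)) *
        hat θ δ (r 8 + (r 1 + r 2 + r 5)) * hat θ δ (r 9 + (r 1 + r 3 + r 4))) := by
  unfold e1_f
  rw [e1_dens hr, e1_obs]
  have hG : GP fc (hat θ δ) ![r 6 + r 7 + r 8 + r 9, r 6 + (r 0 + r 2 + r 4),
      r 7 + (r 0 + r 3 + r 5), r 8 + (r 1 + r 2 + r 5), r 9 + (r 1 + r 3 + r 4)] =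
      fc (r 6 + r 7 + r 8 + r 9) *
      (hat θ δ (r 6 + (r 0 + r 2 + r 4)) * hat θ δ (r 7 + (r 0 + r 3 + r 5)) *
        hat θ δ (r 8 + (r 1 + r 2 + r 5)) * hat θ δ (r 9 + (r 1 + r 3 + r 4))) := rfl
  rw [hG]
  by_cases h1 : hat θ δ (r 6 + (r 0 + r 2 + r 4)) = 0
  · rw [h1]; simp
  by_cases h2 : hat θ δ (r 7 + (r 0 + r 3 + r 5)) = 0
  · rw [h2]; simp
  by_cases h3 : hat θ δ (r 8 + (r 1 + r 2 + r 5)) = 0
  · rw [h3]; simp
  by_cases h4 : hat θ δ (r 9 + (r 1 + r 3 + r 4)) = 0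
  · rw [h4]; simp
  obtain ⟨l1, u1⟩ := Pool.Agent.EvenMoment.ShD.hat_supp hδ h1
  obtain ⟨l2, u2⟩ := Pool.Agent.EvenMoment.ShD.hat_supp hδ h2
  obtain ⟨l3, u3⟩ := Pool.Agent.EvenMoment.ShD.hat_supp hδ h3
  obtain ⟨l4, u4⟩ := Pool.Agent.EvenMoment.ShD.hat_supp hδ h4
  have p0 := hr 0
  have p1 := hr 1
  have p2 := hr 2
  have p3 := hr 3
  have p4 := hr 4
  have p5 := hr 5
  have p6 := hr 6
  have p7 := hr 7
  have p8 := hr 8
  have p9 := hr 9
  have hc : r 0 + r 2 + r 4 ≤ θ ∧ r 0 + r 3 + r 5 ≤ θ ∧ r 1 + r 2 + r 5 ≤ θ ∧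
      r 1 + r 3 + r 4 ≤ θ := ⟨by linarith, by linarith, by linarith, by linarith⟩
  have hF : F6 θ (1 - 4 * (θ - δ)) (r 0) (r 1) (r 2) (r 3) (r 4) (r 5) =
      (1 - 4 * (θ - δ) + 2 * (r 0 + r 1 + r 2 + r 3 + r 4 + r 5)) /
      (Real.pi ^ 3 * (Real.sqrt (r 0 * r 1) * Real.sqrt (r 2 * r 3) *
        Real.sqrt (r 4 * r 5))) := by
    unfold F6
    rw [if_pos hc]
  have hfc : fc (r 6 + r 7 + r 8 + r 9) ≤
      1 - 4 * (θ - δ) + 2 * (r 0 + r 1 + r 2 + r 3 + r 4 + r 5) :=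
    e1_fc_le (by linarith) (by linarith)
  rw [hF, ← mul_assoc]
  refine mul_le_mul_of_nonneg_right ?_ ?_
  · rw [div_mul_eq_mul_div, one_mul]
    refine div_le_div_of_nonneg_right hfc ?_
    positivity
  · have n := Pool.Agent.EvenMoment.ShD.hat_nonneg θ δ
    exact mul_nonneg (mul_nonneg (mul_nonneg (n _) (n _)) (n _)) (n _)

theorem e1_F6_meas (θ A : ℝ) : Measurable (fun r : Fin 10 → ℝ =>
    F6 θ A (r 0) (r 1) (r 2) (r 3) (r 4) (r 5)) := by
  unfold F6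
  refine Measurable.ite ?_ ?_ measurable_const
  · have h : ∀ i j k : Fin 10, MeasurableSet {r : Fin 10 → ℝ | r i + r j + r k ≤ θ} := by
      intro i j k
      exact measurableSet_le (by fun_prop) measurable_const
    exact (h 0 2 4).inter ((h 0 3 5).inter ((h 1 2 5).inter (h 1 3 4)))
  · fun_prop

/-- the majorant -/
noncomputable def e1_g (θ δ A : ℝ) (r : Fin 10 → ℝ) : ENNReal :=
  ENNReal.ofReal (F6 θ A (r 0) (r 1) (r 2) (r 3) (r 4) (r 5)) *
    ∏ i : Fin 4, ENNReal.ofReal (hat θ δ ((![r 6, r 7, r 8, r 9] : Fin 4 → ℝ) i +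
      (![r 0 + r 2 + r 4, r 0 + r 3 + r 5, r 1 + r 2 + r 5, r 1 + r 3 + r 4] : Fin 4 → ℝ) i))

theorem e1_g_meas (θ δ A : ℝ) : Measurable (e1_g θ δ A) := by
  unfold e1_g
  refine (ENNReal.measurable_ofReal.comp (e1_F6_meas θ A)).mul ?_
  refine Finset.measurable_prod _ fun i _ => ?_
  have hc := Pool.Agent.EvenMoment.ShD.hat_cont θ δ
  refine ENNReal.measurable_ofReal.comp (hc.measurable.comp ?_)
  fin_cases i
  · show Measurable fun r : Fin 10 → ℝ => r 6 + (r 0 + r 2 + r 4)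
    fun_prop
  · show Measurable fun r : Fin 10 → ℝ => r 7 + (r 0 + r 3 + r 5)
    fun_prop
  · show Measurable fun r : Fin 10 → ℝ => r 8 + (r 1 + r 2 + r 5)
    fun_prop
  · show Measurable fun r : Fin 10 → ℝ => r 9 + (r 1 + r 3 + r 4)
    fun_prop

theorem e1_point' {θ δ : ℝ} (hδ : 0 < δ) (hθ : 4 * θ < 1) {r : Fin 10 → ℝ} (hr : ∀ i, 0 < r i) :
    ENNReal.ofReal (e1_f (GP fc (hat θ δ)) r) ≤ e1_g θ δ (1 - 4 * (θ - δ)) r := by
  refine (ENNReal.ofReal_le_ofReal (e1_point hδ hθ hr)).trans ?_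
  have n := Pool.Agent.EvenMoment.ShD.hat_nonneg θ δ
  rw [ENNReal.ofReal_mul' (mul_nonneg (mul_nonneg (mul_nonneg (n _) (n _)) (n _)) (n _)),
    ENNReal.ofReal_mul (mul_nonneg (mul_nonneg (n _) (n _)) (n _)),
    ENNReal.ofReal_mul (mul_nonneg (n _) (n _)), ENNReal.ofReal_mul (n _)]
  unfold e1_g
  rw [Fin.prod_univ_four]
  rfl

theorem e1_inner {θ δ : ℝ} (hδ : 0 < δ) (F : ENNReal) (σ : Fin 4 → ℝ) :
    ∫⁻ r, F * ∏ i : Fin 4, ENNReal.ofReal (hat θ δ (r i + σ i))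
      ∂(Measure.pi (fun _ : Fin 4 => hl)) ≤ ENNReal.ofReal ((δ / 2) ^ 4) * F := by
  have hc := Pool.Agent.EvenMoment.ShD.hat_cont θ δ
  have hm : ∀ i : Fin 4, Measurable fun s : ℝ => ENNReal.ofReal (hat θ δ (s + σ i)) := by
    intro i
    exact ENNReal.measurable_ofReal.comp (hc.measurable.comp (by fun_prop))
  have hmm : Measurable (fun r : Fin 4 → ℝ =>
      ∏ i : Fin 4, ENNReal.ofReal (hat θ δ (r i + σ i))) :=
    Finset.measurable_prod _ fun i _ => (hm i).comp (measurable_pi_apply i)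
  rw [lintegral_const_mul _ hmm,
    e1_prod 4 (fun i s => ENNReal.ofReal (hat θ δ (s + σ i))) hm, mul_comm]
  refine mul_le_mul_left ?_ _
  refine (Finset.prod_le_prod' fun i _ => e1_hat_shift_le hδ (σ i)).trans ?_
  rw [Finset.prod_const, ← ENNReal.ofReal_pow (by positivity)]
  simp

/-! ### E1 -/

theorem LS_P_le_K6 {θ δ : ℝ} (hδ : 0 < δ) (hδθ : δ < θ) (hθ : 4 * θ < 1) :
    ENNReal.ofReal (LS hP SP (GP fc (hat θ δ))) ≤
      ENNReal.ofReal ((δ / 2) ^ 4) * K6 θ (1 - 4 * (θ - δ)) := by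
  rw [e1_LS_pi]
  refine (e1_ofReal_integral_le _).trans ?_
  set A := 1 - 4 * (θ - δ) with hA
  have h1 : ∫⁻ r, ENNReal.ofReal (e1_f (GP fc (hat θ δ)) r)
      ∂(Measure.pi (fun _ : Fin 10 => hl)) ≤
      ∫⁻ r, e1_g θ δ A r ∂(Measure.pi (fun _ : Fin 10 => hl)) := by
    refine lintegral_mono_ae ?_
    filter_upwards [Pool.Agent.EvenMoment.ae_hl_pos (Fin 10)] with r hr
    exact e1_point' hδ hθ hr
  refine h1.trans ?_
  have hm0 := e1_g_meas θ δ A
  rw [e1_step 9 hm0]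
  unfold K6
  simp only [← lintegral_const_mul' _ _ (ENNReal.ofReal_ne_top (r := (δ / 2) ^ 4))]
  refine lintegral_mono fun a => ?_
  have hm1 := hm0.comp (e1_cons 9 a)
  refine (e1_step 8 hm1).trans_le ?_
  refine lintegral_mono fun z => ?_
  have hm2 := hm1.comp (e1_cons 8 z)
  refine (e1_step 7 hm2).trans_le ?_
  refine lintegral_mono fun b => ?_
  have hm3 := hm2.comp (e1_cons 7 b)
  refine (e1_step 6 hm3).trans_le ?_
  refine lintegral_mono fun y => ?_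
  have hm4 := hm3.comp (e1_cons 6 y)
  refine (e1_step 5 hm4).trans_le ?_
  refine lintegral_mono fun c => ?_
  have hm5 := hm4.comp (e1_cons 5 c)
  refine (e1_step 4 hm5).trans_le ?_
  refine lintegral_mono fun x => ?_
  refine le_trans (le_of_eq ?_) (e1_inner (θ := θ) hδ (ENNReal.ofReal (F6 θ A a z b y c x))
    ![a + b + c, a + y + x, z + b + x, z + y + c])
  refine lintegral_congr fun r => ?_
  show e1_g θ δ A (Fin.cons a (Fin.cons z (Fin.cons b (Fin.cons y (Fin.cons c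
    (Fin.cons x r : Fin 5 → ℝ) : Fin 6 → ℝ) : Fin 7 → ℝ) : Fin 8 → ℝ) : Fin 9 → ℝ) :
      Fin 10 → ℝ) = _
  unfold e1_g
  rw [Fin.prod_univ_four, Fin.prod_univ_four]
  rfl

end Pool.Agent.SixthMoment
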