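import Mathlib
import Pool.Agent.Lib_MP_112ba8_s.Defs
import Pool.Agent.Lib_MP_112ba8_s.Coef

/-!
The local identity: sums over integer vectors with sum zero as sums of squares of coefficients.
-/

namespace Pool.Agent.SixthMoment

open Filter Topology MeasureTheory
open scoped ENNReal

/-- product of sums over functions, in `[0, ∞]` -/
theorem prod_tsum_pi : ∀ (r : ℕ) {α : Type} (f : Fin r → α → ℝ≥0∞),
    ∏ i, ∑' g : α, f i g = ∑' g : Fin r → α, ∏ i, f i (g i) := by
  intro r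
  induction r with
  | zero =>
    intro α f
    simp
  | succ r ih =>
    intro α f
    rw [Fin.prod_univ_succ, ih (fun i => f i.succ),
      ← (Fin.consEquiv (fun _ : Fin (r + 1) => α)).tsum_eq, ENNReal.tsum_prod', ← ENNReal.tsum_mul_right]
    refine tsum_congr fun a => ?_
    rw [← ENNReal.tsum_mul_left]
    refine tsum_congr fun g => ?_
    rw [Fin.prod_univ_succ]
    simp

/-- `(m, n) ↦ (m - n, min m n)` -/
def zn : ℕ × ℕ ≃ ℤ × ℕ where
  toFun c := ((c.1 : ℤ) - c.2, min c.1 c.2)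
  invFun d := (d.2 + d.1.toNat, d.2 + (-d.1).toNat)
  left_inv := by
    rintro ⟨m, n⟩
    simp only [Prod.mk.injEq]
    omega
  right_inv := by
    rintro ⟨j, g⟩
    simp only [Prod.mk.injEq]
    omega

theorem zn_term (b : ℕ → ℝ≥0∞) (y : ℝ≥0∞) (c : ℕ × ℕ) :
    b ((zn c).2 + (zn c).1.natAbs) * b (zn c).2 * y ^ (2 * (zn c).2 + (zn c).1.natAbs) =
      (b c.1 * y ^ c.1) * (b c.2 * y ^ c.2) := by
  obtain ⟨m, n⟩ := c
  rcases le_total m n with h | h
  · have h1 : (zn (m, n)).2 = m := by simp [zn, h]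
    have h2 : (zn (m, n)).1.natAbs = n - m := by
      simp only [zn, Equiv.coe_fn_mk]
      omega
    rw [h1, h2, show m + (n - m) = n by omega, show 2 * m + (n - m) = m + n by omega, pow_add]
    ring
  · have h1 : (zn (m, n)).2 = n := by simp [zn, h]
    have h2 : (zn (m, n)).1.natAbs = m - n := by
      simp only [zn, Equiv.coe_fn_mk]
      omega
    rw [h1, h2, show n + (m - n) = m by omega, show 2 * n + (m - n) = m + n by omega, pow_add]
    ring

/-- coefficients of the product -/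
noncomputable def BB {r : ℕ} (b : Fin r → ℕ → ℝ≥0∞) (N : ℕ) : ℝ≥0∞ :=
  ∑' m : Fin r → ℕ, if ∑ i, m i = N then ∏ i, b i (m i) else 0

theorem main_identity {r : ℕ} (b : Fin r → ℕ → ℝ≥0∞) (y : ℝ≥0∞) :
    ∑' j : JZ r, ∏ i, (∑' g : ℕ, b i (g + (j.1 i).natAbs) * b i g * y ^ (2 * g + (j.1 i).natAbs)) =
      ∑' N : ℕ, BB b N ^ 2 * (y ^ N) ^ 2 := by
  classical
  set T : Fin r → ℤ → ℕ → ℝ≥0∞ := fun i j g => b i (g + j.natAbs) * b i g * y ^ (2 * g + j.natAbs)
    with hT
  -- left side as a sum over pairs of functions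
  have h1 : ∑' j : JZ r, ∏ i, (∑' g : ℕ, T i (j.1 i) g) =
      ∑' j : Fin r → ℤ, ∑' g : Fin r → ℕ, if ∑ i, j i = 0 then ∏ i, T i (j i) (g i) else 0 := by
    refine (tsum_subtype {j : Fin r → ℤ | ∑ i, j i = 0}
      (fun j => ∏ i, (∑' g : ℕ, T i (j i) g))).trans ?_
    refine tsum_congr fun j => ?_
    by_cases hj : ∑ i, j i = 0
    · rw [Set.indicator_of_mem (by exact hj), prod_tsum_pi]
      simp only [if_pos hj]
    · rw [Set.indicator_of_notMem (by exact hj)]
      simp only [if_neg hj, tsum_zero]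
  have h2 : (∑' j : Fin r → ℤ, ∑' g : Fin r → ℕ,
      if ∑ i, j i = 0 then ∏ i, T i (j i) (g i) else 0) =
      ∑' m : Fin r → ℕ, ∑' n : Fin r → ℕ, if ∑ i, m i = ∑ i, n i then
        (∏ i, b i (m i) * y ^ (m i)) * (∏ i, b i (n i) * y ^ (n i)) else 0 := by
    rw [← ENNReal.tsum_prod (f := fun (j : Fin r → ℤ) (g : Fin r → ℕ) =>
        if ∑ i, j i = 0 then ∏ i, T i (j i) (g i) else 0),
      ← ENNReal.tsum_prod (f := fun (m : Fin r → ℕ) (n : Fin r → ℕ) => if ∑ i, m i = ∑ i, n i then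
        (∏ i, b i (m i) * y ^ (m i)) * (∏ i, b i (n i) * y ^ (n i)) else 0)]
    let e : (Fin r → ℕ) × (Fin r → ℕ) ≃ (Fin r → ℤ) × (Fin r → ℕ) :=
      (Equiv.arrowProdEquivProdArrow (Fin r) (fun _ => ℕ) (fun _ => ℕ)).symm.trans
        ((Equiv.arrowCongr (Equiv.refl (Fin r)) zn).trans
          (Equiv.arrowProdEquivProdArrow (Fin r) (fun _ => ℤ) (fun _ => ℕ)))
    rw [← e.tsum_eq]
    refine tsum_congr fun c => ?_
    obtain ⟨m, n⟩ := c
    have he1 : ∀ i, (e (m, n)).1 i = (zn (m i, n i)).1 := fun i => rfl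
    have he2 : ∀ i, (e (m, n)).2 i = (zn (m i, n i)).2 := fun i => rfl
    have hs : (∑ i, (e (m, n)).1 i = 0) ↔ (∑ i, m i = ∑ i, n i) := by
      simp_rw [he1]
      simp only [zn, Equiv.coe_fn_mk]
      rw [Finset.sum_sub_distrib, sub_eq_zero]
      exact_mod_cast Iff.rfl
    by_cases hmn : ∑ i, m i = ∑ i, n i
    · simp only [if_pos hmn, if_pos (hs.mpr hmn)]
      rw [← Finset.prod_mul_distrib]
      refine Finset.prod_congr rfl fun i _ => ?_
      rw [he1, he2, hT]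
      exact zn_term (b i) y (m i, n i)
    · simp only [if_neg hmn, if_neg (fun h => hmn (hs.mp h))]
  have h3 : (∑' m : Fin r → ℕ, ∑' n : Fin r → ℕ, if ∑ i, m i = ∑ i, n i then
        (∏ i, b i (m i) * y ^ (m i)) * (∏ i, b i (n i) * y ^ (n i)) else 0) =
      ∑' N : ℕ, BB b N ^ 2 * (y ^ N) ^ 2 := by
    have h4 : ∀ m n : Fin r → ℕ, (if ∑ i, m i = ∑ i, n i then
        (∏ i, b i (m i) * y ^ (m i)) * (∏ i, b i (n i) * y ^ (n i)) else 0) =
        ∑' N : ℕ, ((if ∑ i, m i = N then ∏ i, b i (m i) else 0) * y ^ N) *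
          ((if ∑ i, n i = N then ∏ i, b i (n i) else 0) * y ^ N) := by
      intro m n
      rw [tsum_eq_single (∑ i, m i)]
      · by_cases hmn : ∑ i, m i = ∑ i, n i
        · rw [if_pos hmn, if_pos rfl, if_pos hmn.symm, Finset.prod_mul_distrib,
            Finset.prod_mul_distrib, Finset.prod_pow_eq_pow_sum, Finset.prod_pow_eq_pow_sum, ← hmn]
        · rw [if_neg hmn, if_pos rfl, if_neg (fun h => hmn h.symm)]
          simp
      · intro N hN
        rw [if_neg (fun h => hN h.symm)]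
        simp
    simp_rw [h4]
    have h5 : ∀ m : Fin r → ℕ, (∑' n : Fin r → ℕ, ∑' N : ℕ,
        ((if ∑ i, m i = N then ∏ i, b i (m i) else 0) * y ^ N) *
          ((if ∑ i, n i = N then ∏ i, b i (n i) else 0) * y ^ N)) =
        ∑' N : ℕ, ((if ∑ i, m i = N then ∏ i, b i (m i) else 0) * y ^ N) * (BB b N * y ^ N) := by
      intro m
      rw [ENNReal.tsum_comm]
      refine tsum_congr fun N => ?_
      rw [ENNReal.tsum_mul_left, ENNReal.tsum_mul_right, BB]
    simp_rw [h5]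
    rw [ENNReal.tsum_comm]
    refine tsum_congr fun N => ?_
    rw [ENNReal.tsum_mul_right, ENNReal.tsum_mul_right, ← BB]
    ring
  rw [h1, h2, h3]

/-- local generating function -/
noncomputable def bb (t : Bool) (n : ℕ) : ℝ := if t then Cn n else 1

theorem bb_nonneg (t : Bool) (n : ℕ) : 0 ≤ bb t n := by
  unfold bb
  split_ifs
  · exact (Cn_pos n).le
  · exact zero_le_one

theorem coeff_prod_bb {r : ℕ} (h : Fin r → Bool) (hsum : ∑ i, al (h i) = 3) (N : ℕ) :
    PowerSeries.coeff N (∏ i, PowerSeries.mk (bb (h i))) = ((N + 2).choose 2 : ℝ) := by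
  have h1 : PowerSeries.mk (bb true) * PowerSeries.mk (bb true) = PowerSeries.mk (1 : ℕ → ℝ) := by
    ext n
    rw [PowerSeries.coeff_mul, PowerSeries.coeff_mk]
    simp only [PowerSeries.coeff_mk]
    rw [Finset.Nat.sum_antidiagonal_eq_sum_range_succ (fun i j => bb true i * bb true j)]
    simpa [bb] using Cn_conv n
  have h2 : ∀ i, PowerSeries.mk (bb (h i)) =
      PowerSeries.mk (bb true) ^ (if h i then 1 else 2 : ℕ) := by
    intro i
    cases h i
    · simp only [Bool.false_eq_true, if_false]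
      rw [pow_two, h1]
      ext n
      simp [bb]
    · simp
  have h3 : ∑ i, (if h i then 1 else 2 : ℕ) = 6 := by
    have h4 : ((∑ i, (if h i then 1 else 2 : ℕ) : ℕ) : ℝ) = 2 * ∑ i, al (h i) := by
      push_cast
      rw [Finset.mul_sum]
      refine Finset.sum_congr rfl fun i _ => ?_
      unfold al
      split_ifs <;> norm_num
    rw [hsum] at h4
    exact_mod_cast (by rw [h4]; norm_num : ((∑ i, (if h i then 1 else 2 : ℕ) : ℕ) : ℝ) = 6)
  have h5 : ∏ i, PowerSeries.mk (bb (h i)) = PowerSeries.mk (1 : ℕ → ℝ) ^ (2 + 1) := by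
    rw [Finset.prod_congr rfl fun i _ => h2 i, Finset.prod_pow_eq_pow_sum, h3, ← h1, ← pow_two,
      ← pow_mul]
  rw [h5, PowerSeries.mk_one_pow_eq_mk_choose_add, PowerSeries.coeff_mk, Nat.add_comm 2 N]

theorem BB_eq {r : ℕ} (h : Fin r → Bool) (hsum : ∑ i, al (h i) = 3) (N : ℕ) :
    BB (fun i n => ENNReal.ofReal (bb (h i) n)) N = ENNReal.ofReal ((N + 2).choose 2 : ℝ) := by
  classical
  unfold BB
  rw [tsum_eq_sum (s := (Finset.finsuppAntidiag Finset.univ N).image
    (fun l : Fin r →₀ ℕ => (l : Fin r → ℕ)))]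
  · rw [Finset.sum_image (fun l₁ _ l₂ _ h => DFunLike.coe_injective h),
      ← coeff_prod_bb h hsum N, PowerSeries.coeff_prod, ENNReal.ofReal_sum_of_nonneg]
    · refine Finset.sum_congr rfl fun l hl => ?_
      have h1 : ∑ i, l i = N := (Finset.mem_finsuppAntidiag.mp hl).1
      rw [if_pos h1, ENNReal.ofReal_prod_of_nonneg (fun i _ => by
        rw [PowerSeries.coeff_mk]; exact bb_nonneg _ _)]
      refine Finset.prod_congr rfl fun i _ => ?_
      rw [PowerSeries.coeff_mk]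
    · intro l _
      refine Finset.prod_nonneg fun i _ => ?_
      rw [PowerSeries.coeff_mk]
      exact bb_nonneg _ _
  · intro m hm
    refine if_neg fun h1 => hm ?_
    rw [Finset.mem_image]
    refine ⟨Finsupp.equivFunOnFinite.symm m, ?_, rfl⟩
    rw [Finset.mem_finsuppAntidiag]
    exact ⟨h1, Finset.subset_univ _⟩

/-- the local factor at one vertex -/
theorem vertex_identity {p : ℕ} (hp : p.Prime) (t : Bool) (n : ℕ) :
    ENNReal.ofReal ((if t then uu p 0 else 1 / (1 - 1 / (p : ℝ))) * vp t p n *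
      (p : ℝ) ^ (-((n : ℝ) / 2))) =
    ∑' g : ℕ, ENNReal.ofReal (bb t (g + n)) * ENNReal.ofReal (bb t g) *
      ENNReal.ofReal ((p : ℝ) ^ (-(1 / 2 : ℝ))) ^ (2 * g + n) := by
  have hp2 : 2 ≤ p := hp.two_le
  have hp0 : (0 : ℝ) < p := by exact_mod_cast hp.pos
  have hp1 : (1 : ℝ) < p := by exact_mod_cast hp.one_lt
  have hy0 : 0 ≤ (p : ℝ) ^ (-(1 / 2 : ℝ)) := Real.rpow_nonneg hp0.le _
  have hy2 : ∀ g : ℕ, ((p : ℝ) ^ (-(1 / 2 : ℝ))) ^ (2 * g + n) =
      1 / (p : ℝ) ^ g * (p : ℝ) ^ (-((n : ℝ) / 2)) := by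
    intro g
    rw [← Real.rpow_natCast, ← Real.rpow_mul hp0.le, one_div ((p : ℝ) ^ g),
      ← Real.rpow_natCast (p : ℝ) g, ← Real.rpow_neg hp0.le, ← Real.rpow_add hp0]
    congr 1
    push_cast
    ring
  have hsummable : Summable fun g : ℕ => bb t (g + n) * bb t g / (p : ℝ) ^ g := by
    cases t
    · simp only [bb, Bool.false_eq_true, if_false]
      have := summable_geometric_of_lt_one (r := 1 / (p : ℝ)) (by positivity)
        (by rw [div_lt_one hp0]; exact hp1)
      refine this.congr fun g => ?_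
      rw [one_div_pow]
      ring
    · simpa [bb] using uu_summable hp2 n
  have htsum : ∑' g : ℕ, bb t (g + n) * bb t g / (p : ℝ) ^ g =
      (if t then uu p 0 else 1 / (1 - 1 / (p : ℝ))) * vp t p n := by
    cases t
    · simp only [bb, vp, Bool.false_eq_true, if_false]
      have := tsum_geometric_of_lt_one (r := 1 / (p : ℝ)) (by positivity)
        (by rw [div_lt_one hp0]; exact hp1)
      rw [mul_one, mul_one, one_div (1 - 1 / (p : ℝ)), ← this]
      refine tsum_congr fun g => ?_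
      rw [one_div_pow]
    · simp only [bb, vp, if_true]
      rw [cc, mul_div_cancel₀ _ (uu_pos hp2 0).ne']
      rfl
  have h1 : ∀ g : ℕ, ENNReal.ofReal (bb t (g + n)) * ENNReal.ofReal (bb t g) *
      ENNReal.ofReal ((p : ℝ) ^ (-(1 / 2 : ℝ))) ^ (2 * g + n) =
      ENNReal.ofReal (bb t (g + n) * bb t g / (p : ℝ) ^ g * (p : ℝ) ^ (-((n : ℝ) / 2))) := by
    intro g
    rw [← ENNReal.ofReal_pow hy0, ← ENNReal.ofReal_mul (bb_nonneg _ _),
      ← ENNReal.ofReal_mul (mul_nonneg (bb_nonneg _ _) (bb_nonneg _ _)), hy2]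
    congr 1
    ring
  simp_rw [h1]
  rw [← ENNReal.ofReal_tsum_of_nonneg, tsum_mul_right, htsum]
  · intro g
    have := bb_nonneg t g
    have := bb_nonneg t (g + n)
    positivity
  · exact hsummable.mul_right _

theorem local_identity {r : ℕ} (h : Fin r → Bool) (hsum : ∑ i, al (h i) = 3) {p : ℕ}
    (hp : p.Prime) :
    F0 h p * ∏ i, (if h i then uu p 0 else 1 / (1 - 1 / (p : ℝ))) =
      ∑' m : ℕ, ((m + 2).choose m : ℝ) ^ 2 / (p : ℝ) ^ m := by
  have hp2 : 2 ≤ p := hp.two_le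
  have hp0 : (0 : ℝ) < p := by exact_mod_cast hp.pos
  have hp1 : (1 : ℝ) < p := by exact_mod_cast hp.one_lt
  have hy0 : 0 ≤ (p : ℝ) ^ (-(1 / 2 : ℝ)) := Real.rpow_nonneg hp0.le _
  have hu : ∀ n, 0 ≤ uu p n := fun n => (uu_pos hp2 n).le
  have hN : ∀ t : Bool, 0 ≤ (if t then uu p 0 else 1 / (1 - 1 / (p : ℝ))) := by
    intro t
    split_ifs
    · exact hu 0
    · have : 1 / (p : ℝ) ≤ 1 := by rw [div_le_one hp0]; exact hp1.le
      exact div_nonneg zero_le_one (by linarith)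
  have hv : ∀ (t : Bool) (n : ℕ), 0 ≤ vp t p n := by
    intro t n
    unfold vp cc
    split_ifs
    · exact div_nonneg (hu _) (hu _)
    · exact zero_le_one
  have hmain := main_identity (fun i n => ENNReal.ofReal (bb (h i) n))
    (ENNReal.ofReal ((p : ℝ) ^ (-(1 / 2 : ℝ))))
  have hL : ∀ j : JZ r, ENNReal.ofReal ((∏ i, vp (h i) p (j.1 i).natAbs) *
      (p : ℝ) ^ (-((∑ i, |(j.1 i : ℝ)|) / 2)) *
        ∏ i, (if h i then uu p 0 else 1 / (1 - 1 / (p : ℝ)))) =
      ∏ i, (∑' g : ℕ, ENNReal.ofReal (bb (h i) (g + (j.1 i).natAbs)) * ENNReal.ofReal (bb (h i) g) *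
        ENNReal.ofReal ((p : ℝ) ^ (-(1 / 2 : ℝ))) ^ (2 * g + (j.1 i).natAbs)) := by
    intro j
    simp_rw [← vertex_identity hp]
    rw [← ENNReal.ofReal_prod_of_nonneg (fun i _ => mul_nonneg (mul_nonneg (hN _) (hv _ _))
      (Real.rpow_nonneg hp0.le _)), Finset.prod_mul_distrib, Finset.prod_mul_distrib,
      ← Real.rpow_sum_of_pos hp0]
    congr 1
    have h1 : -((∑ i, |(j.1 i : ℝ)|) / 2) = ∑ i, -((((j.1 i).natAbs : ℕ) : ℝ) / 2) := by
      rw [Finset.sum_neg_distrib, Finset.sum_div]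
      congr 1
      refine Finset.sum_congr rfl fun i _ => ?_
      rw [Nat.cast_natAbs, Int.cast_abs]
    rw [h1]
    ring
  have hR : ∀ N : ℕ, BB (fun i n => ENNReal.ofReal (bb (h i) n)) N ^ 2 *
      (ENNReal.ofReal ((p : ℝ) ^ (-(1 / 2 : ℝ))) ^ N) ^ 2 =
      ENNReal.ofReal (((N + 2).choose N : ℝ) ^ 2 / (p : ℝ) ^ N) := by
    intro N
    rw [BB_eq h hsum N, ← ENNReal.ofReal_pow hy0, ← ENNReal.ofReal_pow (by positivity),
      ← ENNReal.ofReal_pow (by positivity), ← ENNReal.ofReal_mul (by positivity)]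
    congr 1
    have h1 : (((p : ℝ) ^ (-(1 / 2 : ℝ))) ^ N) ^ 2 = 1 / (p : ℝ) ^ N := by
      rw [← pow_mul, ← Real.rpow_natCast, ← Real.rpow_mul hp0.le, one_div ((p : ℝ) ^ N),
        ← Real.rpow_natCast (p : ℝ) N, ← Real.rpow_neg hp0.le]
      congr 1
      push_cast
      ring
    rw [h1, Nat.choose_symm_add]
    ring
  rw [tsum_congr fun j => (hL j).symm, tsum_congr hR] at hmain
  have h1 := congrArg ENNReal.toReal hmain
  rw [ENNReal.tsum_toReal_eq (fun _ => ENNReal.ofReal_ne_top),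
    ENNReal.tsum_toReal_eq (fun _ => ENNReal.ofReal_ne_top)] at h1
  unfold F0
  rw [← tsum_mul_right]
  refine Eq.trans ?_ (h1.trans ?_)
  · refine tsum_congr fun j => ?_
    rw [ENNReal.toReal_ofReal]
    exact mul_nonneg (mul_nonneg (Finset.prod_nonneg fun i _ => hv _ _) (Real.rpow_nonneg hp0.le _))
      (Finset.prod_nonneg fun i _ => hN _)
  · refine tsum_congr fun N => ?_
    rw [ENNReal.toReal_ofReal (by positivity)]

end Pool.Agent.SixthMoment
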