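import Pool.Agent.Lib_MP_112ba8_s.Defs
import Pool.Agent.Lib_MP_112ba8_s.QBasic
import Pool.Agent.Lib_MP_112ba8_s.Coef

/-!
Reality, continuity and symmetry of the polynomials `V` and `R`.
-/

namespace Pool.Agent.SixthMoment

open Filter Topology MeasureTheory
open Pool.Agent.EvenMoment (cl Wgt Adm Ed cut hat)

lemma c4_mem_neg {B : ℝ} {q : QQ} : -q ∈ QS B ↔ q ∈ QS B := by
  rw [mem_QS, mem_QS, ln_neg]

/-- substitution `q -> -q` in a sum over `QS B` -/
lemma c4_sum_neg {M : Type} [AddCommMonoid M] (B : ℝ) (F : QQ → M) :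
    ∑ q ∈ QS B, F (-q) = ∑ q ∈ QS B, F q := by
  refine Finset.sum_bij (fun q _ => -q) ?_ ?_ ?_ ?_
  · intro q hq
    exact c4_mem_neg.mpr hq
  · intro a _ b _ h
    exact neg_injective h
  · intro q hq
    exact ⟨-q, c4_mem_neg.mpr hq, neg_neg q⟩
  · intro q _
    rfl

/-- a cosine polynomial with even real coefficients is real -/
lemma c4_real (B : ℝ) (a : QQ → ℝ) (ha : ∀ q, a (-q) = a q) (t : ℝ) :
    (∑ q ∈ QS B, ((a q : ℝ) : ℂ) * osc q t).im = 0 := by
  rw [← Complex.conj_eq_iff_im, map_sum]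
  rw [← c4_sum_neg B (fun q => ((a q : ℝ) : ℂ) * osc q t)]
  refine Finset.sum_congr rfl fun q _ => ?_
  rw [map_mul, Complex.conj_ofReal, osc_conj, ha]

lemma c4_Vc_neg (ω : ℝ → ℝ) (L : ℝ) (q : QQ) : Vc ω L (-q) = Vc ω L q := by
  unfold Vc
  rw [CC_neg, ln_neg]

theorem VV_real (ω : ℝ → ℝ) (θ L t : ℝ) : (VV ω θ L t).im = 0 := by
  unfold VV
  exact c4_real _ _ (c4_Vc_neg ω L) t

theorem cv_neg (ω φ : ℝ → ℝ) (θ L : ℝ) (e : QQ) : cv ω φ θ L (-e) = cv ω φ θ L e := by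
  unfold cv
  rw [← c4_sum_neg (θ * L) (fun v => Vc ω L v *
    (Real.exp (-(ln (-e - v) / 2)) * φ (ln (-e - v) / L)))]
  refine Finset.sum_congr rfl fun v _ => ?_
  rw [c4_Vc_neg, show -e - -v = -(e - v) by abel, ln_neg]

theorem RR_real (ω χ : ℝ → ℝ) (θ ρ L t : ℝ) : (RR ω χ θ ρ L t).im = 0 := by
  unfold RR
  exact c4_real _ (fun e => χ (ln e / L) * (L * cv ω (fun s => 1 - s) θ L e))
    (fun e => by rw [ln_neg, cv_neg]) t

theorem VV_cont (ω : ℝ → ℝ) (θ L : ℝ) : Continuous (VV ω θ L) := by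
  unfold VV
  exact continuous_finsetSum _ fun q _ => continuous_const.mul (osc_cont q)

theorem RR_cont (ω χ : ℝ → ℝ) (θ ρ L : ℝ) : Continuous (RR ω χ θ ρ L) := by
  unfold RR
  exact continuous_finsetSum _ fun q _ => continuous_const.mul (osc_cont q)

/-- crude bound for the coefficients of `R` -/
theorem cv_le {ω : ℝ → ℝ} {θ ρ : ℝ} (hθ : 0 < θ) (hρ : 0 < ρ) (hρθ : ρ + θ < 1) {W : ℝ}
    (hW : ∀ s, 0 ≤ s → |ω s| ≤ W) {L : ℝ} (hL : 0 < L) {e : QQ} (he : e ∈ QS (ρ * L)) :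
    |cv ω (fun s => 1 - s) θ L e| ≤ W * Real.exp (2 * L) := by
  have hW0 : 0 ≤ W := (abs_nonneg _).trans (hW 0 le_rfl)
  have hterm : ∀ v ∈ QS (θ * L), |Vc ω L v *
      (Real.exp (-(ln (e - v) / 2)) * (1 - ln (e - v) / L))| ≤ W := by
    intro v hv
    rw [mem_QS] at hv he
    have h1 : |Vc ω L v| ≤ W := by
      unfold Vc
      rw [abs_mul, abs_mul, abs_of_nonneg (CC_nonneg v), abs_of_pos (Real.exp_pos _)]
      have a1 : Real.exp (-(ln v / 2)) ≤ 1 := by
        rw [Real.exp_le_one_iff]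
        linarith [ln_nonneg v]
      have a2 := hW (ln v / L) (div_nonneg (ln_nonneg v) hL.le)
      have a3 : |ω (ln v / L)| * Real.exp (-(ln v / 2)) ≤ W * 1 :=
        mul_le_mul a2 a1 (Real.exp_pos _).le hW0
      have a4 : CC v * (|ω (ln v / L)| * Real.exp (-(ln v / 2))) ≤ 1 * (W * 1) :=
        mul_le_mul (CC_le_one v) a3 (by positivity) zero_le_one
      linarith
    have h2 : |Real.exp (-(ln (e - v) / 2)) * (1 - ln (e - v) / L)| ≤ 1 := by
      have b0 := ln_nonneg (e - v)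
      have b1 : ln (e - v) ≤ (ρ + θ) * L := by
        rw [sub_eq_add_neg]
        have := ln_add_le e (-v)
        rw [ln_neg] at this
        linarith
      have b2 : ln (e - v) / L ≤ 1 := by
        rw [div_le_one hL]
        nlinarith
      have b3 : 0 ≤ ln (e - v) / L := div_nonneg b0 hL.le
      rw [abs_mul, abs_of_pos (Real.exp_pos _), abs_of_nonneg (by linarith)]
      have b4 : Real.exp (-(ln (e - v) / 2)) ≤ 1 := by
        rw [Real.exp_le_one_iff]
        linarith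
      have := mul_le_mul b4 (show 1 - ln (e - v) / L ≤ 1 by linarith) (by linarith) zero_le_one
      linarith
    rw [abs_mul]
    have := mul_le_mul h1 h2 (abs_nonneg _) hW0
    linarith
  unfold cv
  calc |∑ v ∈ QS (θ * L), Vc ω L v *
        (Real.exp (-(ln (e - v) / 2)) * (1 - ln (e - v) / L))|
      ≤ ∑ v ∈ QS (θ * L), |Vc ω L v *
        (Real.exp (-(ln (e - v) / 2)) * (1 - ln (e - v) / L))| :=
        Finset.abs_sum_le_sum_abs _ _
    _ ≤ ∑ _v ∈ QS (θ * L), W := Finset.sum_le_sum hterm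
    _ = (QS (θ * L)).card * W := by rw [Finset.sum_const, nsmul_eq_mul]
    _ ≤ Real.exp (2 * (θ * L)) * W :=
        mul_le_mul_of_nonneg_right (card_QS_le (by positivity)) hW0
    _ ≤ Real.exp (2 * L) * W := by
        refine mul_le_mul_of_nonneg_right (Real.exp_le_exp.mpr ?_) hW0
        nlinarith
    _ = W * Real.exp (2 * L) := mul_comm _ _

end Pool.Agent.SixthMoment
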