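import Pool.Agent.Lib_MP_112ba8_s.QBasic
import Pool.Agent.Lib_MP_112ba8_e.Diag
import Pool.Agent.Lib_MP_112ba8_e.Twisted

/-!
# Piece C1: oscillating integrals over fractions
-/

namespace Pool.Agent.SixthMoment

open Filter Topology MeasureTheory
open Pool.Agent.EvenMoment (cl Wgt Adm Ed cut hat)

theorem osc_small {w : ℝ → ℝ} (hw : Wgt w) {ε : ℝ} (hε : 0 < ε) (A : ℕ) :
    ∃ C T₀ : ℝ, 0 < C ∧ 1 ≤ T₀ ∧ ∀ T : ℝ, T₀ ≤ T → ∀ q : QQ, q ≠ 0 →
      ln q ≤ (2 - ε) * Real.log T →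
      ‖(1 / T : ℂ) * ∫ t : ℝ, (w (t / T) : ℂ) * osc q t‖ ≤ C / T ^ A := by
  obtain ⟨B, hB⟩ := exists_nat_ge ((A : ℝ) * (2 / ε))
  obtain ⟨C, hC, hdec⟩ := Pool.Agent.EvenMoment.osc_decay hw B
  refine ⟨C * 2 ^ B, 1, by positivity, le_rfl, fun T hT q hq hle => ?_⟩
  have hT0 : 0 < T := by linarith
  have hL : 0 ≤ Real.log T := Real.log_nonneg hT
  have hgap := fr_gap hq
  have hu0 : 0 < |fr q| := lt_of_lt_of_le (by positivity) hgap
  have h1 := hdec T hT0 (fr q) (abs_pos.mp hu0)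
  have h2 : ∫ t : ℝ, (w (t / T) : ℂ) * osc q t =
      ∫ t : ℝ, (w (t / T) : ℂ) * Complex.exp (t * (fr q : ℝ) * Complex.I) := rfl
  rw [h2, norm_mul]
  have h3 : ‖(1 / T : ℂ)‖ = 1 / T := by
    rw [norm_div, norm_one, Complex.norm_real, Real.norm_of_nonneg hT0.le]
  rw [h3]
  have h4 : Real.exp (ε / 2 * Real.log T) / 2 ≤ T * |fr q| := by
    have h5 : T * (Real.exp (-(ln q / 2)) / 2) ≤ T * |fr q| :=
      mul_le_mul_of_nonneg_left hgap hT0.le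
    refine le_trans ?_ h5
    have h6 : T = Real.exp (Real.log T) := (Real.exp_log hT0).symm
    have h7 : Real.exp (ε / 2 * Real.log T) ≤ T * Real.exp (-(ln q / 2)) := by
      conv_rhs => rw [h6]
      rw [← Real.exp_add]
      apply Real.exp_le_exp.mpr
      nlinarith
    linarith
  have hpos : 0 < T * |fr q| := by positivity
  have h8 : (T * |fr q|)⁻¹ ^ B ≤ 2 ^ B * (Real.exp (ε / 2 * Real.log T))⁻¹ ^ B := by
    rw [← mul_pow]
    apply pow_le_pow_left₀ (by positivity)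
    rw [inv_le_comm₀ hpos (by positivity)]
    refine le_trans (le_of_eq ?_) h4
    rw [mul_inv, inv_inv]
    ring
  have h9 : T ^ A ≤ Real.exp (ε / 2 * Real.log T) ^ B := by
    rw [← Real.exp_nat_mul, ← Real.exp_log hT0, ← Real.exp_nat_mul, Real.log_exp]
    apply Real.exp_le_exp.mpr
    have h10 : (A : ℝ) ≤ B * (ε / 2) := by
      have h11 := mul_le_mul_of_nonneg_right hB (by positivity : 0 ≤ ε / 2)
      have h12 : (A : ℝ) * (2 / ε) * (ε / 2) = A := by field_simp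
      linarith
    nlinarith
  calc 1 / T * ‖∫ t : ℝ, (w (t / T) : ℂ) * Complex.exp (t * (fr q : ℝ) * Complex.I)‖
      ≤ 1 / T * (C * T * (T * |fr q|)⁻¹ ^ B) :=
        mul_le_mul_of_nonneg_left h1 (by positivity)
    _ = C * (T * |fr q|)⁻¹ ^ B := by field_simp
    _ ≤ C * (2 ^ B * (Real.exp (ε / 2 * Real.log T))⁻¹ ^ B) :=
        mul_le_mul_of_nonneg_left h8 hC.le
    _ = C * 2 ^ B / Real.exp (ε / 2 * Real.log T) ^ B := by
        rw [inv_pow]; ring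
    _ ≤ C * 2 ^ B / T ^ A := by
        apply div_le_div_of_nonneg_left (by positivity) (by positivity) h9

theorem osc_one {w : ℝ → ℝ} (hw : Wgt w) {T : ℝ} (hT : 0 < T) :
    (1 / T : ℂ) * ∫ t : ℝ, (w (t / T) : ℂ) * osc 0 t = ((∫ x, w x : ℝ) : ℂ) := by
  have _ := hw
  have h1 : ∀ t : ℝ, (w (t / T) : ℂ) * osc 0 t = ((w (t / T) : ℝ) : ℂ) := by
    intro t
    rw [osc_zero, mul_one]
  simp_rw [h1]
  rw [integral_complex_ofReal, Measure.integral_comp_div, abs_of_pos hT, smul_eq_mul]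
  have : (T : ℂ) ≠ 0 := by exact_mod_cast hT.ne'
  push_cast
  field_simp

theorem zeta_osc {w : ℝ → ℝ} (hw : Wgt w) {ε : ℝ} (hε : 0 < ε) (hε1 : ε < 1) :
    ∃ C T₀ : ℝ, 0 < C ∧ 1 ≤ T₀ ∧ ∀ T : ℝ, T₀ ≤ T → ∀ q : QQ, ln q ≤ (1 - ε) * Real.log T →
      ‖(1 / T : ℂ) * (∫ t : ℝ, (w (t / T) * ‖riemannZeta (cl t)‖ ^ 2 : ℝ) * osc q t) -
        (((∫ x, w x) * ((Real.log T - ln q) * Real.exp (-(ln q / 2))) : ℝ) : ℂ)‖ ≤
        C * Real.exp (-(ln q / 2)) := by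
  obtain ⟨C, T₀, hC, hT₀, htw⟩ := Pool.Agent.EvenMoment.twisted hw hε hε1
  refine ⟨C, T₀, hC, hT₀, fun T hT q hq => ?_⟩
  have hT0 : 0 < T := by linarith
  obtain ⟨h, k, hh, hk, hc, hln, hfr, -⟩ := exists_frac q
  have hh0 : (0 : ℝ) < h := by exact_mod_cast hh
  have hk0 : (0 : ℝ) < k := by exact_mod_cast hk
  have hle : (h : ℝ) * k ≤ T ^ (1 - ε) := by
    rw [Real.rpow_def_of_pos hT0, ← Real.exp_log (mul_pos hh0 hk0), ← hln]
    apply Real.exp_le_exp.mpr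
    linarith
  have h1 := htw T hT h k hh hk hc hle
  have hsq : Real.sqrt ((h : ℝ) * k) = Real.exp (ln q / 2) := by
    rw [hln, ← Real.exp_log (Real.sqrt_pos.mpr (mul_pos hh0 hk0)), Real.log_sqrt
      (mul_pos hh0 hk0).le]
  have hinv : Real.exp (-(ln q / 2)) = (Real.sqrt ((h : ℝ) * k))⁻¹ := by
    rw [Real.exp_neg, hsq]
  have hspos : 0 < Real.sqrt ((h : ℝ) * k) := Real.sqrt_pos.mpr (mul_pos hh0 hk0)
  have h2 : ∫ t : ℝ, ((w (t / T) * ‖riemannZeta (cl t)‖ ^ 2 : ℝ) : ℂ) * osc q t =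
      ∫ t : ℝ, ((w (t / T) * ‖riemannZeta (cl t)‖ ^ 2 : ℝ) : ℂ) *
        Complex.exp (t * (Real.log h - Real.log k : ℝ) * Complex.I) := by
    unfold osc
    rw [hfr]
  rw [h2]
  set I := ∫ t : ℝ, ((w (t / T) * ‖riemannZeta (cl t)‖ ^ 2 : ℝ) : ℂ) *
        Complex.exp (t * (Real.log h - Real.log k : ℝ) * Complex.I) with hI
  rw [← hln] at h1
  have h3 : (1 / T : ℂ) * I -
      (((∫ x, w x) * ((Real.log T - ln q) * Real.exp (-(ln q / 2))) : ℝ) : ℂ) =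
      (1 / T : ℂ) * (I - (((∫ x, w x) * T * (Real.log T - ln q) /
        Real.sqrt ((h : ℝ) * k) : ℝ) : ℂ)) := by
    rw [mul_sub, hinv]
    congr 1
    have hTc : (T : ℂ) ≠ 0 := by exact_mod_cast hT0.ne'
    push_cast
    field_simp
  rw [h3, norm_mul]
  have h4 : ‖(1 / T : ℂ)‖ = 1 / T := by
    rw [norm_div, norm_one, Complex.norm_real, Real.norm_of_nonneg hT0.le]
  rw [h4]
  calc 1 / T * ‖I - (((∫ x, w x) * T * (Real.log T - ln q) / Real.sqrt ((h : ℝ) * k) : ℝ) : ℂ)‖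
      ≤ 1 / T * (C * (T / Real.sqrt ((h : ℝ) * k))) :=
        mul_le_mul_of_nonneg_left h1 (by positivity)
    _ = C * Real.exp (-(ln q / 2)) := by
        rw [hinv]
        field_simp

end Pool.Agent.SixthMoment
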