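import Pool.Agent.Lib_MP_112ba8_s.Defs
import Pool.Agent.Lib_MP_112ba8_s.LSexp
import Pool.Agent.Lib_MP_112ba8_e.ShellD

/-!
Piece E6: lower bound of the six-dimensional shell integral for `∫ |ζ|^2 R V` by `Zn`.
-/

set_option autoImplicit false

namespace Pool.Agent.SixthMoment

open Filter Topology MeasureTheory Set
open Pool.Agent.EvenMoment (cl Wgt Adm Ed cut hat)

namespace ShZ

/-! ### general facts -/

lemma ofReal_integral_le {α : Type*} [MeasurableSpace α] (μ : Measure α) (f : α → ℝ) :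
    ENNReal.ofReal (∫ x, f x ∂μ) ≤ ∫⁻ x, ENNReal.ofReal (f x) ∂μ := by
  by_cases hf : Integrable f μ
  · rw [integral_eq_lintegral_pos_part_sub_lintegral_neg_part hf]
    have h1 : (∫⁻ x, ENNReal.ofReal (f x) ∂μ).toReal -
        (∫⁻ x, ENNReal.ofReal (-f x) ∂μ).toReal ≤ (∫⁻ x, ENNReal.ofReal (f x) ∂μ).toReal := by
      have := ENNReal.toReal_nonneg (a := ∫⁻ x, ENNReal.ofReal (-f x) ∂μ)
      linarith
    exact (ENNReal.ofReal_le_ofReal h1).trans ENNReal.ofReal_toReal_le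
  · rw [integral_undef hf]
    simp

lemma lint_mono_set {s : Set ℝ} (hs : MeasurableSet s) {F G : ℝ → ENNReal}
    (h : ∀ x ∈ s, F x ≤ G x) : ∫⁻ x in s, F x ≤ ∫⁻ x, G x :=
  (setLIntegral_mono' hs h).trans (setLIntegral_le_lintegral _ _)

lemma lint_succ {n : ℕ} {F : (Fin (n + 1) → ℝ) → ENNReal} (hF : Measurable F) :
    ∫⁻ p, F p = ∫⁻ x : ℝ, ∫⁻ p : Fin n → ℝ, F (Fin.cons x p) := by
  have h1 := (volume_preserving_piFinSuccAbove (fun _ : Fin (n + 1) => ℝ) 0).symm.lintegral_comp hF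
  rw [← h1, Measure.volume_eq_prod, lintegral_prod]
  · refine lintegral_congr fun x => lintegral_congr fun y => ?_
    congr 1
    exact Fin.insertNth_zero' x y
  · exact (hF.comp (MeasurableEquiv.measurable _)).aemeasurable

lemma lint_one {F : (Fin 1 → ℝ) → ENNReal} (hF : Measurable F) :
    ∫⁻ p, F p = ∫⁻ x : ℝ, F ![x] := by
  rw [lint_succ hF]
  refine lintegral_congr fun x => ?_
  rw [Measure.volume_pi_eq_dirac (default : Fin 0 → ℝ), lintegral_dirac]
  congr 1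
  funext i
  fin_cases i
  rfl

lemma lint_six {F : (Fin 6 → ℝ) → ENNReal} (hF : Measurable F) :
    ∫⁻ p, F p = ∫⁻ c : ℝ, ∫⁻ b : ℝ, ∫⁻ b' : ℝ, ∫⁻ y : ℝ, ∫⁻ f : ℝ, ∫⁻ g : ℝ,
      F ![c, b, b', y, f, g] := by
  have hc : ∀ (n : ℕ) (x : ℝ), Measurable fun p : Fin n → ℝ =>
      (Fin.cons x p : Fin (n + 1) → ℝ) := by
    intro n x
    refine measurable_pi_lambda _ fun i => ?_
    refine Fin.cases ?_ (fun j => ?_) i
    · simp only [Fin.cons_zero]; exact measurable_const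
    · simp only [Fin.cons_succ]; exact measurable_pi_apply j
  rw [lint_succ hF]
  refine lintegral_congr fun c => ?_
  rw [lint_succ (F := fun p => F (Fin.cons c p)) (hF.comp (hc _ _))]
  refine lintegral_congr fun b => ?_
  rw [lint_succ (F := fun p => F (Fin.cons c (Fin.cons b p)))
    (hF.comp ((hc _ _).comp (hc _ _)))]
  refine lintegral_congr fun b' => ?_
  rw [lint_succ (F := fun p => F (Fin.cons c (Fin.cons b (Fin.cons b' p))))
    (hF.comp ((hc _ _).comp ((hc _ _).comp (hc _ _))))]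
  refine lintegral_congr fun y => ?_
  rw [lint_succ (F := fun p => F (Fin.cons c (Fin.cons b (Fin.cons b' (Fin.cons y p)))))
    (hF.comp ((hc _ _).comp ((hc _ _).comp ((hc _ _).comp (hc _ _)))))]
  refine lintegral_congr fun f => ?_
  rw [lint_one (F := fun p => F (Fin.cons c (Fin.cons b (Fin.cons b' (Fin.cons y (Fin.cons f p))))))
    (hF.comp ((hc _ _).comp ((hc _ _).comp ((hc _ _).comp ((hc _ _).comp (hc _ _))))))]
  rfl

/-! ### the change of variables -/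

/-- the edges of the complete graph on four vertices, in the order of integration -/
def edF : Fin 6 → Ed 4 :=
  ![⟨(1, 3), by decide⟩, ⟨(1, 2), by decide⟩, ⟨(0, 3), by decide⟩, ⟨(0, 2), by decide⟩,
    ⟨(0, 1), by decide⟩, ⟨(2, 3), by decide⟩]

/-- the same as an equivalence -/
noncomputable def edE : Fin 6 ≃ Ed 4 := Equiv.ofBijective edF (by decide)

/-- the change of variables -/
noncomputable def YY : (Fin 6 → ℝ) ≃ᵐ (Ed 4 → ℝ) :=
  MeasurableEquiv.piCongrLeft (fun _ : Ed 4 => ℝ) edE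

lemma YY_mp : MeasurePreserving YY volume volume :=
  volume_measurePreserving_piCongrLeft (fun _ : Ed 4 => ℝ) edE

lemma YY_ap (p : Fin 6 → ℝ) (i : Fin 6) : YY p (edE i) = p i := by
  unfold YY
  rw [MeasurableEquiv.coe_piCongrLeft, Equiv.piCongrLeft_apply_apply]

lemma forall_ed (P : Ed 4 → Prop) : (∀ e, P e) ↔ ∀ i, P (edE i) :=
  ⟨fun h i => h _, fun h e => by
    obtain ⟨i, rfl⟩ := edE.surjective e
    exact h i⟩

lemma sum_ed (F : Ed 4 → ℝ) : ∑ e, F e = F (edE 0) + F (edE 1) + F (edE 2) + F (edE 3) +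
    F (edE 4) + F (edE 5) := by
  rw [← Equiv.sum_comp edE, Fin.sum_univ_six]

lemma prod_ed (F : Ed 4 → ℝ) : ∏ e, F e = F (edE 0) * F (edE 1) * F (edE 2) * F (edE 3) *
    F (edE 4) * F (edE 5) := by
  rw [← Equiv.prod_comp edE, Fin.prod_univ_six]

lemma ed0 : (edE 0).1 = (1, 3) := rfl
lemma ed1 : (edE 1).1 = (1, 2) := rfl
lemma ed2 : (edE 2).1 = (0, 3) := rfl
lemma ed3 : (edE 3).1 = (0, 2) := rfl
lemma ed4 : (edE 4).1 = (0, 1) := rfl
lemma ed5 : (edE 5).1 = (2, 3) := rfl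

/-- the observables in the new variables: `p = (c, b, b', y, f, g)` -/
lemma oy_YY (p : Fin 6 → ℝ) : oy SZ (YY p) =
    ![p 4 + p 3 + p 2, p 4 + p 1 + p 0, p 5 + p 3 + p 1, p 5 + p 2 + p 0,
      p 3 + p 1 + p 2 + p 0] := by
  funext κ
  unfold oy
  rw [sum_ed]
  simp only [YY_ap]
  fin_cases κ
  · simp [sepa, SZ, ed0, ed1, ed2, ed3, ed4, ed5]
    ring
  · simp [sepa, SZ, ed0, ed1, ed2, ed3, ed4, ed5]
    ring
  · simp [sepa, SZ, ed0, ed1, ed2, ed3, ed4, ed5]
    ring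
  · simp [sepa, SZ, ed0, ed1, ed2, ed3, ed4, ed5]
    ring
  · simp [sepa, SZ, ed0, ed1, ed2, ed3, ed4, ed5]
    ring

/-- the density in the new variables -/
lemma dens_YY {p : Fin 6 → ℝ} (hp : ∀ i, 0 < p i) :
    dens hZ (YY p) = p 3 * (1 / Real.sqrt (Real.pi * p 0)) := by
  unfold dens
  rw [prod_ed]
  simp only [YY_ap]
  have k0 : ke hZ (edE 0) = 1 / 2 := by
    simp [ke, ed0, hZ, al]
  have k1 : ke hZ (edE 1) = 1 := by
    simp [ke, ed1, hZ, al]
  have k2 : ke hZ (edE 2) = 1 := by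
    simp [ke, ed2, hZ, al]
  have k3 : ke hZ (edE 3) = 2 := by
    simp [ke, ed3, hZ, al]
  have k4 : ke hZ (edE 4) = 1 := by
    simp [ke, ed4, hZ, al]
  have k5 : ke hZ (edE 5) = 1 := by
    simp [ke, ed5, hZ, al]
  rw [k0, k1, k2, k3, k4, k5]
  have h2 : Real.Gamma 2 = 1 := Real.Gamma_two
  rw [h2, Real.Gamma_one, Real.Gamma_one_half_eq]
  have e1 : (1 : ℝ) - 1 = 0 := by norm_num
  have e2 : (2 : ℝ) - 1 = 1 := by norm_num
  have e3 : (1 / 2 : ℝ) - 1 = -(1 / 2) := by norm_num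
  rw [e1, e2, e3, Real.rpow_zero, Real.rpow_zero, Real.rpow_zero, Real.rpow_zero, Real.rpow_one,
    Real.rpow_neg (hp 0).le, ← Real.sqrt_eq_rpow, Real.sqrt_mul Real.pi_pos.le]
  have hs : 0 < Real.sqrt (p 0) := Real.sqrt_pos.mpr (hp 0)
  have hs2 : 0 < Real.sqrt Real.pi := Real.sqrt_pos.mpr Real.pi_pos
  field_simp

/-! ### the lower bound of the integrand -/

/-- the test integrand -/
noncomputable def HH (θ δ r : ℝ) (p : Fin 6 → ℝ) : ENNReal :=
  if 0 < p 0 ∧ p 0 ≤ θ - δ ∧ 0 < p 1 ∧ p 1 ≤ θ - δ - p 0 ∧ 0 < p 2 ∧ p 2 ≤ θ - δ - p 0 ∧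
      0 < p 3 ∧ p 3 ≤ r - p 1 - p 2 - p 0 then
    ENNReal.ofReal ((1 / Real.sqrt (Real.pi * p 0)) *
      (p 3 * ((1 - (θ - p 0 - p 1 + p 2 + p 3)) * (1 - (θ - p 0 - p 2 + p 1 + p 3)))) *
      (hat θ δ (p 4 + p 1 + p 0) * hat θ δ (p 5 + p 2 + p 0)))
  else 0

lemma HH_meas (θ δ r : ℝ) : Measurable (HH θ δ r) := by
  have hm := fun i : Fin 6 => measurable_pi_apply (X := fun _ : Fin 6 => ℝ) i
  have hh : Measurable (hat θ δ) := (Pool.Agent.EvenMoment.ShD.hat_cont θ δ).measurable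
  unfold HH
  refine Measurable.ite ?_ ?_ measurable_const
  · refine MeasurableSet.inter (measurableSet_lt measurable_const (hm 0)) ?_
    refine MeasurableSet.inter (measurableSet_le (hm 0) measurable_const) ?_
    refine MeasurableSet.inter (measurableSet_lt measurable_const (hm 1)) ?_
    refine MeasurableSet.inter (measurableSet_le (hm 1) (by fun_prop)) ?_
    refine MeasurableSet.inter (measurableSet_lt measurable_const (hm 2)) ?_
    refine MeasurableSet.inter (measurableSet_le (hm 2) (by fun_prop)) ?_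
    refine MeasurableSet.inter (measurableSet_lt measurable_const (hm 3)) ?_
    exact measurableSet_le (hm 3) (by fun_prop)
  · refine ENNReal.measurable_ofReal.comp ?_
    have h1 : Measurable fun p : Fin 6 → ℝ => 1 / Real.sqrt (Real.pi * p 0) := by fun_prop
    have h2 : Measurable fun p : Fin 6 → ℝ =>
      p 3 * ((1 - (θ - p 0 - p 1 + p 2 + p 3)) * (1 - (θ - p 0 - p 2 + p 1 + p 3))) := by fun_prop
    have h3 : Measurable fun p : Fin 6 → ℝ => hat θ δ (p 4 + p 1 + p 0) :=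
      hh.comp (by fun_prop)
    have h4 : Measurable fun p : Fin 6 → ℝ => hat θ δ (p 5 + p 2 + p 0) :=
      hh.comp (by fun_prop)
    exact (h1.mul h2).mul (h3.mul h4)

lemma fc_eq {s : ℝ} (hs : s ≤ 1) : fc s = 1 - s := by
  unfold fc cut
  rw [min_eq_left (by linarith), max_eq_right (by norm_num), mul_one]

lemma chi_eq {ρ η s : ℝ} (hη : 0 < η) (hs : s ≤ ρ - η) : chi ρ η s = 1 := by
  unfold chi
  have : 1 ≤ (ρ - s) / η := by
    rw [le_div_iff₀ hη]; linarith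
  rw [min_eq_left this, max_eq_right (by norm_num)]

lemma chi_nonneg (ρ η s : ℝ) : 0 ≤ chi ρ η s := le_max_left _ _

lemma chi_supp {ρ η s : ℝ} (hη : 0 < η) (h : chi ρ η s ≠ 0) : s < ρ := by
  by_contra hc
  push Not at hc
  apply h
  unfold chi
  have : (ρ - s) / η ≤ 0 := div_nonpos_of_nonpos_of_nonneg (by linarith) hη.le
  rw [max_eq_left]
  exact (min_le_right _ _).trans this

/-- the integrand is nonnegative -/
lemma G_nonneg {θ δ ρ η : ℝ} (hδ : 0 < δ) (hη : 0 < η) (hρθ : ρ + θ < 1)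
    {p : Fin 6 → ℝ} (hp : ∀ i, 0 < p i) :
    0 ≤ GZ fc fc (hat θ δ) (chi ρ η) (oy SZ (YY p)) := by
  rw [oy_YY]
  simp only [GZ, Matrix.cons_val_zero, Matrix.cons_val_one, Matrix.cons_val]
  have h0 := hp 0
  have h1 := hp 1
  have h2 := hp 2
  have h3 := hp 3
  have h4 := hp 4
  have h5 := hp 5
  by_cases c1 : hat θ δ (p 4 + p 1 + p 0) = 0
  · simp [c1]
  by_cases c2 : hat θ δ (p 5 + p 2 + p 0) = 0
  · simp [c2]
  by_cases c3 : chi ρ η (p 3 + p 1 + p 2 + p 0) = 0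
  · simp [c3]
  have d1 := Pool.Agent.EvenMoment.ShD.hat_supp hδ c1
  have d2 := Pool.Agent.EvenMoment.ShD.hat_supp hδ c2
  have d3 := chi_supp hη c3
  have f1 : 0 ≤ fc (p 4 + p 3 + p 2) := by
    rw [fc_eq (by linarith)]; linarith
  have f2 : 0 ≤ fc (p 5 + p 3 + p 1) := by
    rw [fc_eq (by linarith)]; linarith
  have f3 := Pool.Agent.EvenMoment.ShD.hat_nonneg θ δ (p 4 + p 1 + p 0)
  have f4 := Pool.Agent.EvenMoment.ShD.hat_nonneg θ δ (p 5 + p 2 + p 0)
  have f5 := chi_nonneg ρ η (p 3 + p 1 + p 2 + p 0)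
  exact mul_nonneg (mul_nonneg (mul_nonneg f1 f2) (mul_nonneg f3 f4)) f5

/-- pointwise comparison -/
lemma HH_le {θ δ ρ η : ℝ} (hδ : 0 < δ) (hη : 0 < η) (hρθ : ρ + θ < 1) (p : Fin 6 → ℝ) :
    HH θ δ (ρ - η) p ≤ {p : Fin 6 → ℝ | ∀ i, 0 < p i}.indicator
      (fun p => ENNReal.ofReal (dens hZ (YY p) * GZ fc fc (hat θ δ) (chi ρ η) (oy SZ (YY p)))) p := by
  unfold HH
  split_ifs with hc
  · obtain ⟨a1, a2, a3, a4, a5, a6, a7, a8⟩ := hc
    by_cases c1 : hat θ δ (p 4 + p 1 + p 0) = 0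
    · simp [c1]
    by_cases c2 : hat θ δ (p 5 + p 2 + p 0) = 0
    · simp [c2]
    have d1 := Pool.Agent.EvenMoment.ShD.hat_supp hδ c1
    have d2 := Pool.Agent.EvenMoment.ShD.hat_supp hδ c2
    have hp : ∀ i, 0 < p i := by
      intro i
      fin_cases i
      · exact a1
      · exact a3
      · exact a5
      · exact a7
      · show 0 < p 4
        linarith
      · show 0 < p 5
        linarith
    rw [Set.indicator_of_mem (by exact hp)]
    refine ENNReal.ofReal_le_ofReal ?_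
    rw [dens_YY hp, oy_YY]
    simp only [GZ, Matrix.cons_val_zero, Matrix.cons_val_one, Matrix.cons_val]
    rw [chi_eq hη (by linarith), fc_eq (by linarith), fc_eq (by linarith), mul_one]
    have hs : 0 ≤ 1 / Real.sqrt (Real.pi * p 0) := by positivity
    have f3 := Pool.Agent.EvenMoment.ShD.hat_nonneg θ δ (p 4 + p 1 + p 0)
    have f4 := Pool.Agent.EvenMoment.ShD.hat_nonneg θ δ (p 5 + p 2 + p 0)
    have g1 : (1 - (θ - p 0 - p 1 + p 2 + p 3)) * (1 - (θ - p 0 - p 2 + p 1 + p 3)) ≤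
        (1 - (p 4 + p 3 + p 2)) * (1 - (p 5 + p 3 + p 1)) := by
      apply mul_le_mul
      · linarith
      · linarith
      · linarith
      · linarith
    have g2 := mul_le_mul_of_nonneg_left g1 a7.le
    have g3 := mul_le_mul_of_nonneg_left g2 hs
    have g4 := mul_le_mul_of_nonneg_right g3 (mul_nonneg f3 f4)
    calc _ ≤ _ := g4
      _ = _ := by ring
  · exact zero_le

/-! ### the integral of the test integrand -/

lemma hat_lint {θ δ : ℝ} (hδ : 0 < δ) (s : ℝ) :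
    ∫⁻ f : ℝ, ENNReal.ofReal (hat θ δ (f + s)) = ENNReal.ofReal (δ / 2) := by
  rw [lintegral_add_right_eq_self (fun f => ENNReal.ofReal (hat θ δ f)) s,
    ← ofReal_integral_eq_lintegral_ofReal (Pool.Agent.EvenMoment.ShD.hat_integrable hδ)
      (Eventually.of_forall fun x => Pool.Agent.EvenMoment.ShD.hat_nonneg θ δ x),
    Pool.Agent.EvenMoment.ShD.hat_integral hδ]

lemma hat2_lint {θ δ : ℝ} (hδ : 0 < δ) {A : ℝ} (hA : 0 ≤ A) (s t s' t' : ℝ) :
    ∫⁻ f : ℝ, ∫⁻ g : ℝ, ENNReal.ofReal (A * (hat θ δ (f + s + t) * hat θ δ (g + s' + t'))) =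
      ENNReal.ofReal A * (ENNReal.ofReal (δ / 2) * ENNReal.ofReal (δ / 2)) := by
  have h1 : ∀ f g : ℝ, ENNReal.ofReal (A * (hat θ δ (f + s + t) * hat θ δ (g + s' + t'))) =
      ENNReal.ofReal A * (ENNReal.ofReal (hat θ δ (f + (s + t))) *
        ENNReal.ofReal (hat θ δ (g + (s' + t')))) := by
    intro f g
    rw [ENNReal.ofReal_mul hA, ENNReal.ofReal_mul (Pool.Agent.EvenMoment.ShD.hat_nonneg _ _ _),
      add_assoc, add_assoc]
  simp_rw [h1]
  simp_rw [lintegral_const_mul' _ _ ENNReal.ofReal_ne_top]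
  rw [hat_lint hδ, lintegral_mul_const' _ _ ENNReal.ofReal_ne_top, hat_lint hδ]

lemma lint_HH {θ δ r : ℝ} (hδ : 0 < δ) (hδθ : δ < θ) (hr : 2 * θ < r) :
    ENNReal.ofReal ((δ / 2) ^ 2 * Zn θ (θ - δ) r) ≤ ∫⁻ p, HH θ δ r p := by
  rw [lint_six (HH_meas θ δ r)]
  unfold Zn
  rw [← intervalIntegral.integral_const_mul, intervalIntegral.integral_of_le (by linarith)]
  refine (ofReal_integral_le _ _).trans ?_
  refine lint_mono_set measurableSet_Ioc fun c hc => ?_
  have hs : 0 ≤ 1 / Real.sqrt (Real.pi * c) := by positivity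
  rw [← mul_assoc, ← intervalIntegral.integral_const_mul,
    intervalIntegral.integral_of_le (by linarith [hc.2])]
  refine (ofReal_integral_le _ _).trans ?_
  refine lint_mono_set measurableSet_Ioc fun b hb => ?_
  rw [← intervalIntegral.integral_const_mul,
    intervalIntegral.integral_of_le (by linarith [hc.2])]
  refine (ofReal_integral_le _ _).trans ?_
  refine lint_mono_set measurableSet_Ioc fun b' hb' => ?_
  rw [← intervalIntegral.integral_const_mul,
    intervalIntegral.integral_of_le (by linarith [hc.1, hb.2, hb'.2])]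
  refine (ofReal_integral_le _ _).trans ?_
  refine lint_mono_set measurableSet_Ioc fun y hy => ?_
  have hcond : 0 < c ∧ c ≤ θ - δ ∧ 0 < b ∧ b ≤ θ - δ - c ∧ 0 < b' ∧ b' ≤ θ - δ - c ∧
      0 < y ∧ y ≤ r - b - b' - c := ⟨hc.1, hc.2, hb.1, hb.2, hb'.1, hb'.2, hy.1, hy.2⟩
  have hH : ∀ f g : ℝ, HH θ δ r ![c, b, b', y, f, g] =
      ENNReal.ofReal ((1 / Real.sqrt (Real.pi * c)) *
      (y * ((1 - (θ - c - b + b' + y)) * (1 - (θ - c - b' + b + y)))) *
      (hat θ δ (f + b + c) * hat θ δ (g + b' + c))) := by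
    intro f g
    unfold HH
    simp only [Matrix.cons_val_zero, Matrix.cons_val_one, Matrix.cons_val]
    rw [if_pos hcond]
  simp_rw [hH]
  by_cases hA : 0 ≤ (1 / Real.sqrt (Real.pi * c)) *
      (y * ((1 - (θ - c - b + b' + y)) * (1 - (θ - c - b' + b + y))))
  · rw [hat2_lint hδ hA, ← ENNReal.ofReal_mul (by linarith), ← ENNReal.ofReal_mul hA]
    refine ENNReal.ofReal_le_ofReal (le_of_eq ?_)
    ring
  · push Not at hA
    have : (δ / 2) ^ 2 * (1 / Real.sqrt (Real.pi * c)) *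
      (y * ((1 - (θ - c - b + b' + y)) * (1 - (θ - c - b' + b + y)))) ≤ 0 := by
      rw [mul_assoc]
      exact mul_nonpos_of_nonneg_of_nonpos (by positivity) hA.le
    rw [ENNReal.ofReal_of_nonpos this]
    exact zero_le

end ShZ

open ShZ in
theorem LS_Z_ge_aux {θ δ ρ η : ℝ} (hδ : 0 < δ) (hδθ : δ < θ) (hη : 0 < η) (hρθ : ρ + θ < 1)
    (hr : 2 * θ < ρ - η)
    (hint : IntegrableOn (fun y : Ed 4 → ℝ => dens hZ y *
      GZ fc fc (hat θ δ) (chi ρ η) (oy SZ y)) {y : Ed 4 → ℝ | ∀ e, 0 < y e}) :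
    (δ / 2) ^ 2 * Zn θ (θ - δ) (ρ - η) ≤ LS hZ SZ (GZ fc fc (hat θ δ) (chi ρ η)) := by
  have hS : MeasurableSet {y : Ed 4 → ℝ | ∀ e, 0 < y e} := by
    rw [Set.ofPred_forall]
    exact MeasurableSet.iInter fun e => measurableSet_lt measurable_const (measurable_pi_apply e)
  have hpre : YY ⁻¹' {y : Ed 4 → ℝ | ∀ e, 0 < y e} = {p : Fin 6 → ℝ | ∀ i, 0 < p i} := by
    ext p
    simp only [Set.mem_preimage, Set.mem_ofPred_eq]
    rw [forall_ed]
    simp only [YY_ap]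
  have hS' : MeasurableSet {p : Fin 6 → ℝ | ∀ i, 0 < p i} := by
    rw [← hpre]
    exact YY.measurable hS
  have hnn : ∀ p : Fin 6 → ℝ, p ∈ {p : Fin 6 → ℝ | ∀ i, 0 < p i} →
      0 ≤ dens hZ (YY p) * GZ fc fc (hat θ δ) (chi ρ η) (oy SZ (YY p)) := by
    intro p hp
    refine mul_nonneg ?_ (G_nonneg hδ hη hρθ hp)
    rw [dens_YY hp]
    have := hp 3
    positivity
  have h1 : LS hZ SZ (GZ fc fc (hat θ δ) (chi ρ η)) =
      ∫ p in {p : Fin 6 → ℝ | ∀ i, 0 < p i},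
        dens hZ (YY p) * GZ fc fc (hat θ δ) (chi ρ η) (oy SZ (YY p)) := by
    unfold LS
    rw [← hpre, ← YY_mp.setIntegral_preimage_emb YY.measurableEmbedding]
  have hint' : IntegrableOn (fun p : Fin 6 → ℝ =>
      dens hZ (YY p) * GZ fc fc (hat θ δ) (chi ρ η) (oy SZ (YY p)))
      {p : Fin 6 → ℝ | ∀ i, 0 < p i} := by
    rw [← hpre]
    exact (YY_mp.integrableOn_comp_preimage YY.measurableEmbedding).mpr hint
  have h2 : ENNReal.ofReal (LS hZ SZ (GZ fc fc (hat θ δ) (chi ρ η))) =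
      ∫⁻ p in {p : Fin 6 → ℝ | ∀ i, 0 < p i}, ENNReal.ofReal
        (dens hZ (YY p) * GZ fc fc (hat θ δ) (chi ρ η) (oy SZ (YY p))) := by
    rw [h1]
    exact ofReal_integral_eq_lintegral_ofReal hint'
      ((ae_restrict_iff' hS').mpr (Eventually.of_forall hnn))
  have h3 : 0 ≤ LS hZ SZ (GZ fc fc (hat θ δ) (chi ρ η)) := by
    rw [h1]
    exact setIntegral_nonneg hS' hnn
  rw [← ENNReal.ofReal_le_ofReal_iff h3, h2]
  refine (lint_HH hδ hδθ hr).trans ?_
  rw [← lintegral_indicator hS']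
  exact lintegral_mono fun p => HH_le hδ hη hρθ p

theorem LS_Z_ge {θ δ ρ η : ℝ} (hδ : 0 < δ) (hδθ : δ < θ) (hη : 0 < η) (hρθ : ρ + θ < 1)
    (hr : 2 * θ < ρ - η) :
    (δ / 2) ^ 2 * Zn θ (θ - δ) (ρ - η) ≤ LS hZ SZ (GZ fc fc (hat θ δ) (chi ρ η)) := by
  refine LS_Z_ge_aux hδ hδθ hη hρθ hr ?_
  refine LS_integrable hZ SZ (by decide) ?_ 2 ?_
  · have h1 : Continuous fc := by unfold fc cut; fun_prop
    have h2 : Continuous (hat θ δ) := Pool.Agent.EvenMoment.ShD.hat_cont θ δ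
    have h3 : Continuous (chi ρ η) := by unfold chi; fun_prop
    unfold GZ
    exact ((((h1.comp (continuous_apply 0)).mul (h1.comp (continuous_apply 2)))).mul
      ((h2.comp (continuous_apply 1)).mul (h2.comp (continuous_apply 3)))).mul
      (h3.comp (continuous_apply 4))
  · rintro s ⟨κ, hκ⟩
    have f : ∀ t : ℝ, 2 ≤ t → fc t = 0 := by
      intro t ht
      unfold fc cut
      rw [max_eq_left ((min_le_right _ _).trans (by linarith)), mul_zero]
    have g : ∀ t : ℝ, 2 ≤ t → hat θ δ t = 0 := by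
      intro t ht
      by_contra hc
      have := (Pool.Agent.EvenMoment.ShD.hat_supp hδ hc).2
      linarith
    have k : ∀ t : ℝ, 2 ≤ t → chi ρ η t = 0 := by
      intro t ht
      by_contra hc
      have := ShZ.chi_supp hη hc
      linarith
    unfold GZ
    fin_cases κ
    · rw [f (s 0) hκ]; ring
    · rw [g (s 1) hκ]; ring
    · rw [f (s 2) hκ]; ring
    · rw [g (s 3) hκ]; ring
    · rw [k (s 4) hκ]; ring

end Pool.Agent.SixthMoment
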