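import Mathlib
import Pool.Agent.Lib_MP_112ba8_s.Defs

/-!
Piece E2: three polar substitutions in `K6`.
-/

namespace Pool.Agent.SixthMoment

open Filter Topology MeasureTheory Set

/-- image of the angle interval -/
theorem e2_image {u : ℝ} (hu : 0 < u) :
    (fun ψ : ℝ => u * Real.cos ψ ^ 2) '' Ioo 0 (Real.pi / 2) = Ioo 0 u := by
  ext a
  constructor
  · rintro ⟨ψ, ⟨h0, h1⟩, rfl⟩
    have hc : 0 < Real.cos ψ := Real.cos_pos_of_mem_Ioo ⟨by linarith, h1⟩
    have hs : 0 < Real.sin ψ := Real.sin_pos_of_pos_of_lt_pi h0 (by linarith [Real.pi_pos])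
    have h2 := Real.sin_sq_add_cos_sq ψ
    constructor
    · positivity
    · have : Real.cos ψ ^ 2 < 1 := by nlinarith [pow_pos hs 2]
      simpa using mul_lt_mul_of_pos_left this hu
  · rintro ⟨h0, h1⟩
    refine ⟨Real.arccos (Real.sqrt (a / u)), ⟨?_, ?_⟩, ?_⟩
    · rw [Real.arccos_pos]
      rw [Real.sqrt_lt' one_pos, one_pow, div_lt_one hu]
      exact h1
    · rw [Real.arccos_lt_pi_div_two]
      exact Real.sqrt_pos.2 (by positivity)
    · have h2 : 0 ≤ a / u := by positivity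
      have h3 : a / u ≤ 1 := by
        rw [div_le_one hu]
        exact h1.le
      simp only
      rw [Real.cos_arccos (by linarith [Real.sqrt_nonneg (a / u)])
        (Real.sqrt_le_one.2 h3), Real.sq_sqrt h2]
      field_simp

theorem e2_injOn {u : ℝ} (hu : 0 < u) :
    InjOn (fun ψ : ℝ => u * Real.cos ψ ^ 2) (Ioo 0 (Real.pi / 2)) := by
  intro x hx y hy h
  have h1 : Real.cos x ^ 2 = Real.cos y ^ 2 := mul_left_cancel₀ hu.ne' h
  have hcx : 0 < Real.cos x := Real.cos_pos_of_mem_Ioo ⟨by linarith [hx.1, Real.pi_pos], hx.2⟩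
  have hcy : 0 < Real.cos y := Real.cos_pos_of_mem_Ioo ⟨by linarith [hy.1, Real.pi_pos], hy.2⟩
  have h2 : Real.cos x = Real.cos y := by
    rwa [pow_left_inj₀ hcx.le hcy.le two_ne_zero] at h1
  exact Real.injOn_cos ⟨hx.1.le, by linarith [hx.2, Real.pi_pos]⟩
    ⟨hy.1.le, by linarith [hy.2, Real.pi_pos]⟩ h2

/-- one-dimensional substitution -/
theorem e2_sub {u : ℝ} (hu : 0 < u) (g : ℝ → ENNReal) :
    ∫⁻ a in Ioo 0 u, g a =
      ∫⁻ ψ in Ioo 0 (Real.pi / 2), ENNReal.ofReal (2 * u * Real.cos ψ * Real.sin ψ) *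
        g (u * Real.cos ψ ^ 2) := by
  have hd : ∀ ψ ∈ Ioo (0 : ℝ) (Real.pi / 2), HasDerivWithinAt (fun ψ : ℝ => u * Real.cos ψ ^ 2)
      (u * (2 * Real.cos ψ * (-Real.sin ψ))) (Ioo 0 (Real.pi / 2)) ψ := by
    intro ψ _
    have h1 : HasDerivAt (fun ψ : ℝ => u * Real.cos ψ ^ 2)
        (u * (2 * Real.cos ψ * (-Real.sin ψ))) ψ := by
      have h2 := ((Real.hasDerivAt_cos ψ).fun_pow 2).const_mul u
      simpa using h2
    exact h1.hasDerivWithinAt
  rw [← e2_image hu, lintegral_image_eq_lintegral_abs_deriv_mul measurableSet_Ioo hd (e2_injOn hu)]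
  refine setLIntegral_congr_fun measurableSet_Ioo fun ψ hψ => ?_
  have hc : 0 < Real.cos ψ := Real.cos_pos_of_mem_Ioo ⟨by linarith [hψ.1, Real.pi_pos], hψ.2⟩
  have hs : 0 < Real.sin ψ := Real.sin_pos_of_pos_of_lt_pi hψ.1 (by linarith [Real.pi_pos, hψ.2])
  congr 2
  have : u * (2 * Real.cos ψ * (-Real.sin ψ)) = -(2 * u * Real.cos ψ * Real.sin ψ) := by ring
  rw [this, abs_neg, abs_of_pos (by positivity)]

/-- the polar substitution -/
theorem e2_polar (Φ : ℝ × ℝ → ENNReal) (hΦ : Measurable Φ) :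
    ∫⁻ a in Ioi (0 : ℝ), ∫⁻ z in Ioi (0 : ℝ), ENNReal.ofReal (1 / (Real.pi * Real.sqrt (a * z))) *
      Φ (a, z) = ENNReal.ofReal (2 / Real.pi) * ∫⁻ ψ in Ioo (0 : ℝ) (Real.pi / 2),
        ∫⁻ u in Ioi (0 : ℝ), Φ (u * Real.cos ψ ^ 2, u * Real.sin ψ ^ 2) := by
  set g : ℝ × ℝ → ENNReal := fun p =>
    ENNReal.ofReal (1 / (Real.pi * Real.sqrt (p.1 * p.2))) * Φ p with hg
  have hgm : Measurable g := by
    apply Measurable.mul _ hΦ
    apply ENNReal.measurable_ofReal.comp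
    exact measurable_const.div (measurable_const.mul
      (Real.continuous_sqrt.measurable.comp (measurable_fst.mul measurable_snd)))
  set G : ℝ × ℝ → ENNReal := (Ioi (0 : ℝ) ×ˢ Ioi (0 : ℝ)).indicator g with hG
  have hGm : Measurable G := hgm.indicator (measurableSet_Ioi.prod measurableSet_Ioi)
  -- full integrals
  have h1 : ∫⁻ a in Ioi (0 : ℝ), ∫⁻ z in Ioi (0 : ℝ),
      ENNReal.ofReal (1 / (Real.pi * Real.sqrt (a * z))) * Φ (a, z) = ∫⁻ a, ∫⁻ z, G (a, z) := by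
    rw [← lintegral_indicator measurableSet_Ioi]
    refine lintegral_congr fun a => ?_
    by_cases ha : a ∈ Ioi (0 : ℝ)
    · rw [indicator_of_mem ha, ← lintegral_indicator measurableSet_Ioi]
      refine lintegral_congr fun z => ?_
      by_cases hz : z ∈ Ioi (0 : ℝ)
      · rw [indicator_of_mem hz, hG, indicator_of_mem (by exact ⟨ha, hz⟩)]
      · rw [indicator_of_notMem hz, hG, indicator_of_notMem (fun h => hz h.2)]
    · rw [indicator_of_notMem ha]
      have : ∀ z, G (a, z) = 0 := fun z => by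
        rw [hG, indicator_of_notMem (fun h => ha h.1)]
      simp [this]
  -- translation
  have h2 : ∫⁻ a, ∫⁻ z, G (a, z) = ∫⁻ a, ∫⁻ u, G (a, u - a) := by
    refine lintegral_congr fun a => ?_
    exact (lintegral_sub_right_eq_self (fun z => G (a, z)) a).symm
  have h3 : ∫⁻ a, ∫⁻ u, G (a, u - a) = ∫⁻ u, ∫⁻ a, G (a, u - a) := by
    apply lintegral_lintegral_swap
    apply Measurable.aemeasurable
    exact hGm.comp (measurable_fst.prodMk (measurable_snd.sub measurable_fst))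
  have h4 : ∫⁻ u, ∫⁻ a, G (a, u - a) = ∫⁻ u in Ioi (0 : ℝ), ∫⁻ ψ in Ioo (0 : ℝ) (Real.pi / 2),
      ENNReal.ofReal (2 / Real.pi) * Φ (u * Real.cos ψ ^ 2, u * Real.sin ψ ^ 2) := by
    rw [← lintegral_indicator measurableSet_Ioi]
    refine lintegral_congr fun u => ?_
    by_cases hu : u ∈ Ioi (0 : ℝ)
    · have hu' : 0 < u := hu
      rw [indicator_of_mem hu]
      have e1 : ∫⁻ a, G (a, u - a) = ∫⁻ a in Ioo 0 u, g (a, u - a) := by
        rw [← lintegral_indicator measurableSet_Ioo]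
        refine lintegral_congr fun a => ?_
        by_cases ha : a ∈ Ioo 0 u
        · rw [indicator_of_mem ha, hG, indicator_of_mem (by exact ⟨ha.1, sub_pos.2 ha.2⟩)]
        · rw [indicator_of_notMem ha, hG, indicator_of_notMem]
          rintro ⟨h5, h6⟩
          exact ha ⟨h5, sub_pos.1 h6⟩
      rw [e1, e2_sub hu']
      refine setLIntegral_congr_fun measurableSet_Ioo fun ψ hψ => ?_
      have hc : 0 < Real.cos ψ := Real.cos_pos_of_mem_Ioo ⟨by linarith [hψ.1, Real.pi_pos], hψ.2⟩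
      have hs : 0 < Real.sin ψ :=
        Real.sin_pos_of_pos_of_lt_pi hψ.1 (by linarith [Real.pi_pos, hψ.2])
      have e2 : u - u * Real.cos ψ ^ 2 = u * Real.sin ψ ^ 2 := by
        have := Real.sin_sq_add_cos_sq ψ
        nlinarith
      simp only [hg]
      rw [e2, ← mul_assoc, ← ENNReal.ofReal_mul (by positivity)]
      congr 2
      have e3 : Real.sqrt (u * Real.cos ψ ^ 2 * (u * Real.sin ψ ^ 2)) =
          u * Real.cos ψ * Real.sin ψ := by
        rw [show u * Real.cos ψ ^ 2 * (u * Real.sin ψ ^ 2) = (u * Real.cos ψ * Real.sin ψ) ^ 2 by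
          ring]
        exact Real.sqrt_sq (by positivity)
      rw [e3]
      have := Real.pi_pos
      field_simp
    · rw [indicator_of_notMem hu]
      have : ∀ a, G (a, u - a) = 0 := fun a => by
        rw [hG, indicator_of_notMem]
        rintro ⟨h5, h6⟩
        apply hu
        have h5' : 0 < a := h5
        have h6' : 0 < u - a := h6
        change 0 < u
        linarith
      simp [this]
  rw [h1, h2, h3, h4, lintegral_lintegral_swap, ← lintegral_const_mul' _ _ ENNReal.ofReal_ne_top]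
  · refine lintegral_congr fun ψ => ?_
    rw [lintegral_const_mul' _ _ ENNReal.ofReal_ne_top]
  · apply Measurable.aemeasurable
    apply Measurable.const_mul
    apply hΦ.comp
    exact (measurable_fst.mul ((Real.continuous_cos.measurable.comp measurable_snd).pow_const 2)).prodMk
      (measurable_fst.mul ((Real.continuous_sin.measurable.comp measurable_snd).pow_const 2))


/-! ### the three substitutions -/

/-- the numerator of `F6` -/
noncomputable def e2_H (θ A a z b y c x : ℝ) : ENNReal :=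
  ENNReal.ofReal (if a + b + c ≤ θ ∧ a + y + x ≤ θ ∧ z + b + x ≤ θ ∧ z + y + c ≤ θ then
    A + 2 * (a + z + b + y + c + x) else 0)

theorem e2_H_measurable (θ A : ℝ) : Measurable fun p : (ℝ × ℝ) × (ℝ × ℝ) × (ℝ × ℝ) =>
    e2_H θ A p.1.1 p.1.2 p.2.1.1 p.2.1.2 p.2.2.1 p.2.2.2 := by
  unfold e2_H
  apply ENNReal.measurable_ofReal.comp
  refine Measurable.ite ?_ (by fun_prop) measurable_const
  have m1 : MeasurableSet {p : (ℝ × ℝ) × (ℝ × ℝ) × (ℝ × ℝ) | p.1.1 + p.2.1.1 + p.2.2.1 ≤ θ} :=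
    measurableSet_le (by fun_prop) measurable_const
  have m2 : MeasurableSet {p : (ℝ × ℝ) × (ℝ × ℝ) × (ℝ × ℝ) | p.1.1 + p.2.1.2 + p.2.2.2 ≤ θ} :=
    measurableSet_le (by fun_prop) measurable_const
  have m3 : MeasurableSet {p : (ℝ × ℝ) × (ℝ × ℝ) × (ℝ × ℝ) | p.1.2 + p.2.1.1 + p.2.2.2 ≤ θ} :=
    measurableSet_le (by fun_prop) measurable_const
  have m4 : MeasurableSet {p : (ℝ × ℝ) × (ℝ × ℝ) × (ℝ × ℝ) | p.1.2 + p.2.1.2 + p.2.2.1 ≤ θ} :=
    measurableSet_le (by fun_prop) measurable_const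
  exact m1.inter (m2.inter (m3.inter m4))

theorem e2_F6 {θ A a z b y c x : ℝ} (ha : 0 < a) (hz : 0 < z) (hb : 0 < b) (hy : 0 < y)
    (hc : 0 < c) (hx : 0 < x) : ENNReal.ofReal (F6 θ A a z b y c x) =
      ENNReal.ofReal (1 / (Real.pi * Real.sqrt (a * z))) *
        (ENNReal.ofReal (1 / (Real.pi * Real.sqrt (b * y))) *
          (ENNReal.ofReal (1 / (Real.pi * Real.sqrt (c * x))) * e2_H θ A a z b y c x)) := by
  have hpi := Real.pi_pos
  have h1 : 0 < Real.sqrt (a * z) := Real.sqrt_pos.2 (mul_pos ha hz)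
  have h2 : 0 < Real.sqrt (b * y) := Real.sqrt_pos.2 (mul_pos hb hy)
  have h3 : 0 < Real.sqrt (c * x) := Real.sqrt_pos.2 (mul_pos hc hx)
  unfold F6 e2_H
  rw [← ENNReal.ofReal_mul (by positivity), ← ENNReal.ofReal_mul (by positivity),
    ← ENNReal.ofReal_mul (by positivity)]
  congr 1
  split_ifs
  · field_simp
  · simp


/-- the integrand in polar coordinates -/
noncomputable def e2_P (θ A : ℝ) (α β γ u v w : ℝ) : ENNReal :=
  e2_H θ A (u * Real.cos α ^ 2) (u * Real.sin α ^ 2) (v * Real.cos β ^ 2) (v * Real.sin β ^ 2)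
    (w * Real.cos γ ^ 2) (w * Real.sin γ ^ 2)

theorem e2_P_measurable (θ A : ℝ) {X : Type} [MeasurableSpace X] {α β γ u v w : X → ℝ}
    (hα : Measurable α) (hβ : Measurable β) (hγ : Measurable γ) (hu : Measurable u)
    (hv : Measurable v) (hw : Measurable w) :
    Measurable fun x => e2_P θ A (α x) (β x) (γ x) (u x) (v x) (w x) := by
  unfold e2_P
  exact (e2_H_measurable θ A).comp (by fun_prop : Measurable fun x =>
    (((u x * Real.cos (α x) ^ 2, u x * Real.sin (α x) ^ 2),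
      (v x * Real.cos (β x) ^ 2, v x * Real.sin (β x) ^ 2),
      (w x * Real.cos (γ x) ^ 2, w x * Real.sin (γ x) ^ 2)) : (ℝ × ℝ) × (ℝ × ℝ) × (ℝ × ℝ)))

theorem e2_P_eq (θ A α β γ u v w : ℝ) : e2_P θ A α β γ u v w =
    ENNReal.ofReal (if u * (1 + Real.cos (2 * α)) + v * (1 + Real.cos (2 * β)) +
        w * (1 + Real.cos (2 * γ)) ≤ 2 * θ ∧
      u * (1 + Real.cos (2 * α)) + v * (1 - Real.cos (2 * β)) +
        w * (1 - Real.cos (2 * γ)) ≤ 2 * θ ∧
      u * (1 - Real.cos (2 * α)) + v * (1 + Real.cos (2 * β)) +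
        w * (1 - Real.cos (2 * γ)) ≤ 2 * θ ∧
      u * (1 - Real.cos (2 * α)) + v * (1 - Real.cos (2 * β)) +
        w * (1 + Real.cos (2 * γ)) ≤ 2 * θ then A + 2 * (u + v + w) else 0) := by
  unfold e2_P e2_H
  rw [Real.cos_two_mul, Real.cos_two_mul, Real.cos_two_mul, Real.sin_sq, Real.sin_sq, Real.sin_sq]
  congr 1
  refine if_congr ?_ (by ring) rfl
  refine and_congr ?_ (and_congr ?_ (and_congr ?_ ?_)) <;>
    (constructor <;> intro h <;> linarith)


theorem e2_H_comp (θ A : ℝ) {X : Type} [MeasurableSpace X] {a z b y c x : X → ℝ}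
    (ha : Measurable a) (hz : Measurable z) (hb : Measurable b) (hy : Measurable y)
    (hc : Measurable c) (hx : Measurable x) :
    Measurable fun t => e2_H θ A (a t) (z t) (b t) (y t) (c t) (x t) :=
  (e2_H_measurable θ A).comp (by fun_prop : Measurable fun t =>
    (((a t, z t), (b t, y t), (c t, x t)) : (ℝ × ℝ) × (ℝ × ℝ) × (ℝ × ℝ)))

/-- three substitutions, before exchanging the order of integration -/
theorem e2_three (θ A : ℝ) : K6 θ A = ENNReal.ofReal (2 / Real.pi) *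
    (ENNReal.ofReal (2 / Real.pi) * (ENNReal.ofReal (2 / Real.pi) *
      ∫⁻ α in Ioo (0 : ℝ) (Real.pi / 2), ∫⁻ u in Ioi (0 : ℝ),
        ∫⁻ β in Ioo (0 : ℝ) (Real.pi / 2), ∫⁻ v in Ioi (0 : ℝ),
          ∫⁻ γ in Ioo (0 : ℝ) (Real.pi / 2), ∫⁻ w in Ioi (0 : ℝ), e2_P θ A α β γ u v w)) := by
  set C := ENNReal.ofReal (2 / Real.pi) with hC
  have hCt : C ≠ ⊤ := ENNReal.ofReal_ne_top
  -- innermost pair
  let J : ℝ × ℝ → ℝ × ℝ → ENNReal := fun p q =>
    ∫⁻ γ in Ioo (0 : ℝ) (Real.pi / 2), ∫⁻ w in Ioi (0 : ℝ),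
      e2_H θ A p.1 p.2 q.1 q.2 (w * Real.cos γ ^ 2) (w * Real.sin γ ^ 2)
  have hJm : Measurable fun t : (ℝ × ℝ) × (ℝ × ℝ) => J t.1 t.2 := by
    apply Measurable.lintegral_prod_right' (f := fun t : ((ℝ × ℝ) × (ℝ × ℝ)) × ℝ =>
      ∫⁻ w in Ioi (0 : ℝ), e2_H θ A t.1.1.1 t.1.1.2 t.1.2.1 t.1.2.2 (w * Real.cos t.2 ^ 2)
        (w * Real.sin t.2 ^ 2))
    apply Measurable.lintegral_prod_right' (f := fun t : (((ℝ × ℝ) × (ℝ × ℝ)) × ℝ) × ℝ =>
      e2_H θ A t.1.1.1.1 t.1.1.1.2 t.1.1.2.1 t.1.1.2.2 (t.2 * Real.cos t.1.2 ^ 2)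
        (t.2 * Real.sin t.1.2 ^ 2))
    apply e2_H_comp <;> fun_prop
  let I : ℝ × ℝ → ENNReal := fun p =>
    ∫⁻ β in Ioo (0 : ℝ) (Real.pi / 2), ∫⁻ v in Ioi (0 : ℝ),
      J p (v * Real.cos β ^ 2, v * Real.sin β ^ 2)
  have hIm : Measurable I := by
    apply Measurable.lintegral_prod_right' (f := fun t : (ℝ × ℝ) × ℝ =>
      ∫⁻ v in Ioi (0 : ℝ), J t.1 (v * Real.cos t.2 ^ 2, v * Real.sin t.2 ^ 2))
    apply Measurable.lintegral_prod_right' (f := fun t : ((ℝ × ℝ) × ℝ) × ℝ =>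
      J t.1.1 (t.2 * Real.cos t.1.2 ^ 2, t.2 * Real.sin t.1.2 ^ 2))
    exact hJm.comp (by fun_prop : Measurable fun t : ((ℝ × ℝ) × ℝ) × ℝ =>
      ((t.1.1, (t.2 * Real.cos t.1.2 ^ 2, t.2 * Real.sin t.1.2 ^ 2)) : (ℝ × ℝ) × (ℝ × ℝ)))
  have h3 : ∀ p q : ℝ × ℝ, ∫⁻ c in Ioi (0 : ℝ), ∫⁻ x in Ioi (0 : ℝ),
      ENNReal.ofReal (1 / (Real.pi * Real.sqrt (c * x))) * e2_H θ A p.1 p.2 q.1 q.2 c x =
      C * J p q := by
    intro p q
    exact e2_polar (fun t => e2_H θ A p.1 p.2 q.1 q.2 t.1 t.2)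
      (by apply e2_H_comp <;> fun_prop)
  have h2 : ∀ p : ℝ × ℝ, ∫⁻ b in Ioi (0 : ℝ), ∫⁻ y in Ioi (0 : ℝ),
      ENNReal.ofReal (1 / (Real.pi * Real.sqrt (b * y))) * (C * J p (b, y)) =
      C * (C * I p) := by
    intro p
    rw [e2_polar (fun t => C * J p t) ((hJm.comp measurable_prodMk_left).const_mul C)]
    congr 1
    rw [← lintegral_const_mul' _ _ hCt]
    refine lintegral_congr fun β => ?_
    rw [lintegral_const_mul' _ _ hCt]
  have h1 : ∫⁻ a in Ioi (0 : ℝ), ∫⁻ z in Ioi (0 : ℝ),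
      ENNReal.ofReal (1 / (Real.pi * Real.sqrt (a * z))) * (C * (C * I (a, z))) =
      C * (C * (C * ∫⁻ α in Ioo (0 : ℝ) (Real.pi / 2), ∫⁻ u in Ioi (0 : ℝ),
        I (u * Real.cos α ^ 2, u * Real.sin α ^ 2))) := by
    rw [e2_polar (fun t => C * (C * I t)) ((hIm.const_mul C).const_mul C)]
    congr 1
    rw [← lintegral_const_mul' _ _ hCt, ← lintegral_const_mul' _ _ hCt]
    refine lintegral_congr fun α => ?_
    rw [lintegral_const_mul' _ _ hCt, lintegral_const_mul' _ _ hCt]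
  refine Eq.trans ?_ h1
  unfold K6
  refine setLIntegral_congr_fun measurableSet_Ioi fun a ha => ?_
  refine setLIntegral_congr_fun measurableSet_Ioi fun z hz => ?_
  change ∫⁻ b in Ioi (0 : ℝ), ∫⁻ y in Ioi (0 : ℝ), ∫⁻ c in Ioi (0 : ℝ), ∫⁻ x in Ioi (0 : ℝ),
    ENNReal.ofReal (F6 θ A a z b y c x) = _
  rw [← h2, ← lintegral_const_mul' _ _ ENNReal.ofReal_ne_top]
  refine setLIntegral_congr_fun measurableSet_Ioi fun b hb => ?_
  change ∫⁻ y in Ioi (0 : ℝ), ∫⁻ c in Ioi (0 : ℝ), ∫⁻ x in Ioi (0 : ℝ),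
    ENNReal.ofReal (F6 θ A a z b y c x) = _
  rw [← lintegral_const_mul' _ _ ENNReal.ofReal_ne_top]
  refine setLIntegral_congr_fun measurableSet_Ioi fun y hy => ?_
  change ∫⁻ c in Ioi (0 : ℝ), ∫⁻ x in Ioi (0 : ℝ),
    ENNReal.ofReal (F6 θ A a z b y c x) = _
  rw [← h3, ← lintegral_const_mul' _ _ ENNReal.ofReal_ne_top,
    ← lintegral_const_mul' _ _ ENNReal.ofReal_ne_top]
  refine setLIntegral_congr_fun measurableSet_Ioi fun c hc => ?_
  change ∫⁻ x in Ioi (0 : ℝ), ENNReal.ofReal (F6 θ A a z b y c x) = _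
  rw [← lintegral_const_mul' _ _ ENNReal.ofReal_ne_top,
    ← lintegral_const_mul' _ _ ENNReal.ofReal_ne_top]
  refine setLIntegral_congr_fun measurableSet_Ioi fun x hx => ?_
  exact e2_F6 ha hz hb hy hc hx

theorem K6_eq (θ A : ℝ) : K6 θ A = ENNReal.ofReal ((2 / Real.pi) ^ 3) *
    ∫⁻ a in Set.Ioo (0 : ℝ) (Real.pi / 2), ∫⁻ b in Set.Ioo (0 : ℝ) (Real.pi / 2),
      ∫⁻ c in Set.Ioo (0 : ℝ) (Real.pi / 2),
        J3 θ A (Real.cos (2 * a)) (Real.cos (2 * b)) (Real.cos (2 * c)) := by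
  have hpi := Real.pi_pos
  rw [e2_three, ← mul_assoc, ← mul_assoc, ← ENNReal.ofReal_mul (by positivity),
    ← ENNReal.ofReal_mul (by positivity), show 2 / Real.pi * (2 / Real.pi) * (2 / Real.pi) =
      (2 / Real.pi) ^ 3 by ring]
  congr 1
  refine lintegral_congr fun α => ?_
  -- swap `u` and `β`
  rw [lintegral_lintegral_swap]
  · refine lintegral_congr fun β => ?_
    -- swap `v` and `γ`
    have e1 : ∀ u : ℝ, ∫⁻ v in Ioi (0 : ℝ), ∫⁻ γ in Ioo (0 : ℝ) (Real.pi / 2),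
        ∫⁻ w in Ioi (0 : ℝ), e2_P θ A α β γ u v w =
        ∫⁻ γ in Ioo (0 : ℝ) (Real.pi / 2), ∫⁻ v in Ioi (0 : ℝ),
        ∫⁻ w in Ioi (0 : ℝ), e2_P θ A α β γ u v w := by
      intro u
      apply lintegral_lintegral_swap
      apply Measurable.aemeasurable
      apply Measurable.lintegral_prod_right' (f := fun t : (ℝ × ℝ) × ℝ =>
        e2_P θ A α β t.1.2 u t.1.1 t.2)
      apply e2_P_measurable <;> fun_prop
    simp_rw [e1]
    -- swap `u` and `γ`
    rw [lintegral_lintegral_swap]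
    · refine lintegral_congr fun γ => ?_
      unfold J3
      refine lintegral_congr fun u => ?_
      refine lintegral_congr fun v => ?_
      refine lintegral_congr fun w => ?_
      exact e2_P_eq θ A α β γ u v w
    · apply Measurable.aemeasurable
      apply Measurable.lintegral_prod_right' (f := fun t : (ℝ × ℝ) × ℝ =>
        ∫⁻ w in Ioi (0 : ℝ), e2_P θ A α β t.1.2 t.1.1 t.2 w)
      apply Measurable.lintegral_prod_right' (f := fun t : ((ℝ × ℝ) × ℝ) × ℝ =>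
        e2_P θ A α β t.1.1.2 t.1.1.1 t.1.2 t.2)
      apply e2_P_measurable <;> fun_prop
  · apply Measurable.aemeasurable
    apply Measurable.lintegral_prod_right' (f := fun t : (ℝ × ℝ) × ℝ =>
      ∫⁻ γ in Ioo (0 : ℝ) (Real.pi / 2), ∫⁻ w in Ioi (0 : ℝ),
        e2_P θ A α t.1.2 γ t.1.1 t.2 w)
    apply Measurable.lintegral_prod_right' (f := fun t : ((ℝ × ℝ) × ℝ) × ℝ =>
      ∫⁻ w in Ioi (0 : ℝ), e2_P θ A α t.1.1.2 t.2 t.1.1.1 t.1.2 w)
    apply Measurable.lintegral_prod_right' (f := fun t : (((ℝ × ℝ) × ℝ) × ℝ) × ℝ =>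
      e2_P θ A α t.1.1.1.2 t.1.2 t.1.1.1.1 t.1.1.2 t.2)
    apply e2_P_measurable <;> fun_prop

end Pool.Agent.SixthMoment
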