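import Mathlib
import Pool.Agent.Lib_MP_112ba8_s.Defs

/-!
Piece E3: the polytope integrals `J3`.
-/

namespace Pool.Agent.SixthMoment

open Filter Topology MeasureTheory

theorem J3_flip12 (θ A a b c : ℝ) : J3 θ A (-a) (-b) c = J3 θ A a b c := by
  unfold J3
  congr 1 with u; congr 1 with v; congr 1 with w; congr 1
  simp only [sub_neg_eq_add, ← sub_eq_add_neg]
  exact if_congr (by tauto) rfl rfl

theorem J3_flip13 (θ A a b c : ℝ) : J3 θ A (-a) b (-c) = J3 θ A a b c := by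
  unfold J3
  congr 1 with u; congr 1 with v; congr 1 with w; congr 1
  simp only [sub_neg_eq_add, ← sub_eq_add_neg]
  exact if_congr (by tauto) rfl rfl

theorem J3_flip23 (θ A a b c : ℝ) : J3 θ A a (-b) (-c) = J3 θ A a b c := by
  unfold J3
  congr 1 with u; congr 1 with v; congr 1 with w; congr 1
  simp only [sub_neg_eq_add, ← sub_eq_add_neg]
  exact if_congr (by tauto) rfl rfl

lemma e3_one {f F : ℝ → ℝ} (hF : ∀ x, HasDerivAt F (f x) x) (hf : Continuous f) {R : ℝ}
    (hR : 0 ≤ R) (h0 : ∀ x, 0 ≤ x → x ≤ R → 0 ≤ f x) :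
    ∫⁻ x in Set.Ioi (0 : ℝ), ENNReal.ofReal (if x ≤ R then f x else 0) =
      ENNReal.ofReal (F R - F 0) := by
  have h1 : ∫⁻ x in Set.Ioi (0 : ℝ), ENNReal.ofReal (if x ≤ R then f x else 0) =
      ∫⁻ x in Set.Ioc (0 : ℝ) R, ENNReal.ofReal (f x) := by
    rw [← lintegral_indicator measurableSet_Ioi, ← lintegral_indicator measurableSet_Ioc]
    congr 1 with x
    by_cases hx : 0 < x <;> by_cases hx2 : x ≤ R <;> simp [Set.indicator, hx, hx2]
  rw [h1, ← intervalIntegral.integral_eq_sub_of_hasDerivAt (fun x _ => hF x)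
    (hf.intervalIntegrable 0 R), intervalIntegral.integral_of_le hR,
    ofReal_integral_eq_lintegral_ofReal]
  · exact (hf.integrableOn_Icc (a := 0) (b := R)).mono_set Set.Ioc_subset_Icc_self
  · rw [EventuallyLE, ae_restrict_iff' measurableSet_Ioc]
    exact Eventually.of_forall fun x hx => h0 x hx.1.le hx.2

lemma e3_simplex {α β γ S A b1 b2 b3 : ℝ} (hα : 0 < α) (hβ : 0 < β) (hγ : 0 < γ) (hS : 0 ≤ S)
    (hA : 0 ≤ A) (h1 : 0 ≤ b1) (h2 : 0 ≤ b2) (h3 : 0 ≤ b3) :
    ∫⁻ u in Set.Ioi (0 : ℝ), ∫⁻ v in Set.Ioi (0 : ℝ), ∫⁻ w in Set.Ioi (0 : ℝ),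
      ENNReal.ofReal (if α * u + β * v + γ * w ≤ S then
        A + 2 * (b1 * u + b2 * v + b3 * w) else 0) =
      ENNReal.ofReal (S ^ 3 / (6 * α * β * γ) * (A + S / 2 * (b1 / α + b2 / β + b3 / γ))) := by
  have s1 : ∀ u ∈ Set.Ioi (0 : ℝ), ∀ v ∈ Set.Ioi (0 : ℝ),
      ∫⁻ w in Set.Ioi (0 : ℝ), ENNReal.ofReal (if α * u + β * v + γ * w ≤ S then
        A + 2 * (b1 * u + b2 * v + b3 * w) else 0) =
      ENNReal.ofReal (if v ≤ (S - α * u) / β then
        (A + 2 * (b1 * u + b2 * v)) * ((S - α * u - β * v) / γ) +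
          b3 * ((S - α * u - β * v) / γ) ^ 2 else 0) := by
    intro u hu v hv
    simp only [Set.mem_Ioi] at hu hv
    by_cases hc : v ≤ (S - α * u) / β
    · rw [if_pos hc]
      rw [le_div_iff₀ hβ] at hc
      have hR : 0 ≤ (S - α * u - β * v) / γ := div_nonneg (by linarith) hγ.le
      have key := e3_one (f := fun w => A + 2 * (b1 * u + b2 * v + b3 * w))
        (F := fun w => (A + 2 * (b1 * u + b2 * v)) * w + b3 * w ^ 2)
        (fun x => by
          have := ((hasDerivAt_id x).const_mul (A + 2 * (b1 * u + b2 * v))).add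
            (((hasDerivAt_id x).pow 2).const_mul b3)
          refine this.congr_deriv ?_
          simp only [id]; push_cast; ring) (by fun_prop) hR
        (fun x hx _ => by positivity)
      have hcongr : ∀ w : ℝ, (α * u + β * v + γ * w ≤ S) ↔ (w ≤ (S - α * u - β * v) / γ) := by
        intro w
        rw [le_div_iff₀ hγ]
        constructor <;> intro h <;> linarith
      simp only [hcongr]
      rw [key]
      congr 1
      ring
    · rw [if_neg hc]
      rw [le_div_iff₀ hβ, not_le] at hc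
      rw [ENNReal.ofReal_zero, ← lintegral_zero (μ := volume.restrict (Set.Ioi (0 : ℝ)))]
      refine setLIntegral_congr_fun measurableSet_Ioi fun w hw => ?_
      simp only [Set.mem_Ioi] at hw
      have : ¬ (α * u + β * v + γ * w ≤ S) := by nlinarith
      simp only [if_neg this, ENNReal.ofReal_zero]
  have s2 : ∀ u ∈ Set.Ioi (0 : ℝ),
      ∫⁻ v in Set.Ioi (0 : ℝ), ENNReal.ofReal (if v ≤ (S - α * u) / β then
        (A + 2 * (b1 * u + b2 * v)) * ((S - α * u - β * v) / γ) +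
          b3 * ((S - α * u - β * v) / γ) ^ 2 else 0) =
      ENNReal.ofReal (if u ≤ S / α then
        (A + 2 * (b1 * u)) * ((S - α * u) ^ 2 / (2 * β * γ)) +
          b2 * ((S - α * u) ^ 3 / (3 * β ^ 2 * γ)) + b3 * ((S - α * u) ^ 3 / (3 * β * γ ^ 2))
        else 0) := by
    intro u hu
    simp only [Set.mem_Ioi] at hu
    by_cases hc : u ≤ S / α
    · rw [if_pos hc]
      rw [le_div_iff₀ hα] at hc
      have hR : 0 ≤ (S - α * u) / β := div_nonneg (by linarith) hβ.le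
      have key := e3_one (f := fun v => (A + 2 * (b1 * u + b2 * v)) * ((S - α * u - β * v) / γ) +
          b3 * ((S - α * u - β * v) / γ) ^ 2)
        (F := fun v => -((A + 2 * (b1 * u + b2 * v)) * ((S - α * u - β * v) ^ 2 / (2 * β * γ))) -
          b2 * ((S - α * u - β * v) ^ 3 / (3 * β ^ 2 * γ)) -
          b3 * ((S - α * u - β * v) ^ 3 / (3 * β * γ ^ 2)))
        (fun x => by
          have hy : HasDerivAt (fun v : ℝ => S - α * u - β * v) (-β) x := by
            simpa using ((hasDerivAt_id x).const_mul β).const_sub (S - α * u)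
          have hz : HasDerivAt (fun v : ℝ => A + 2 * (b1 * u + b2 * v)) (2 * b2) x := by
            have := (((hasDerivAt_id x).const_mul b2).const_add (b1 * u)).const_mul 2
            simpa using this.const_add A
          have := (((hz.mul ((hy.pow 2).div_const (2 * β * γ))).neg).sub
            (((hy.pow 3).div_const (3 * β ^ 2 * γ)).const_mul b2)).sub
            (((hy.pow 3).div_const (3 * β * γ ^ 2)).const_mul b3)
          refine this.congr_deriv ?_
          simp only [Nat.cast_ofNat, Pi.pow_apply]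
          field_simp
          ring) (by fun_prop) hR
        (fun x hx hx2 => by
          rw [le_div_iff₀ hβ] at hx2
          have : 0 ≤ (S - α * u - β * x) := by linarith
          positivity)
      rw [key]
      congr 1
      have : S - α * u - β * ((S - α * u) / β) = 0 := by field_simp; ring
      rw [this]
      ring
    · rw [if_neg hc]
      rw [le_div_iff₀ hα, not_le] at hc
      rw [ENNReal.ofReal_zero, ← lintegral_zero (μ := volume.restrict (Set.Ioi (0 : ℝ)))]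
      refine setLIntegral_congr_fun measurableSet_Ioi fun v hv => ?_
      simp only [Set.mem_Ioi] at hv
      have : ¬ (v ≤ (S - α * u) / β) := by rw [le_div_iff₀ hβ]; nlinarith
      simp only [if_neg this, ENNReal.ofReal_zero]
  have e1 : ∫⁻ u in Set.Ioi (0 : ℝ), ∫⁻ v in Set.Ioi (0 : ℝ), ∫⁻ w in Set.Ioi (0 : ℝ),
      ENNReal.ofReal (if α * u + β * v + γ * w ≤ S then
        A + 2 * (b1 * u + b2 * v + b3 * w) else 0) =
      ∫⁻ u in Set.Ioi (0 : ℝ), ENNReal.ofReal (if u ≤ S / α then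
        (A + 2 * (b1 * u)) * ((S - α * u) ^ 2 / (2 * β * γ)) +
          b2 * ((S - α * u) ^ 3 / (3 * β ^ 2 * γ)) + b3 * ((S - α * u) ^ 3 / (3 * β * γ ^ 2))
        else 0) := by
    refine setLIntegral_congr_fun measurableSet_Ioi fun u hu => ?_
    rw [← s2 u hu]
    exact setLIntegral_congr_fun measurableSet_Ioi fun v hv => s1 u hu v hv
  rw [e1]
  have hR : 0 ≤ S / α := div_nonneg hS hα.le
  have key := e3_one (f := fun u => (A + 2 * (b1 * u)) * ((S - α * u) ^ 2 / (2 * β * γ)) +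
          b2 * ((S - α * u) ^ 3 / (3 * β ^ 2 * γ)) + b3 * ((S - α * u) ^ 3 / (3 * β * γ ^ 2)))
    (F := fun u => -((A + 2 * (b1 * u)) * ((S - α * u) ^ 3 / (6 * α * β * γ))) -
      b1 * ((S - α * u) ^ 4 / (12 * α ^ 2 * β * γ)) -
      b2 * ((S - α * u) ^ 4 / (12 * α * β ^ 2 * γ)) -
      b3 * ((S - α * u) ^ 4 / (12 * α * β * γ ^ 2)))
    (fun x => by
      have hy : HasDerivAt (fun v : ℝ => S - α * v) (-α) x := by
        simpa using ((hasDerivAt_id x).const_mul α).const_sub S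
      have hz : HasDerivAt (fun v : ℝ => A + 2 * (b1 * v)) (2 * b1) x := by
        have := ((hasDerivAt_id x).const_mul b1).const_mul 2
        simpa using this.const_add A
      have := ((((hz.mul ((hy.pow 3).div_const (6 * α * β * γ))).neg).sub
        (((hy.pow 4).div_const (12 * α ^ 2 * β * γ)).const_mul b1)).sub
        (((hy.pow 4).div_const (12 * α * β ^ 2 * γ)).const_mul b2)).sub
        (((hy.pow 4).div_const (12 * α * β * γ ^ 2)).const_mul b3)
      refine this.congr_deriv ?_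
      simp only [Nat.cast_ofNat, Pi.pow_apply]
      field_simp
      ring) (by fun_prop) hR
    (fun x hx hx2 => by
      rw [le_div_iff₀ hα] at hx2
      have : 0 ≤ (S - α * x) := by linarith
      positivity)
  rw [key]
  congr 1
  have : S - α * (S / α) = 0 := by field_simp; ring
  rw [this]
  field_simp
  ring


lemma e3_simplex_le {α β γ S A b1 b2 b3 : ℝ} (hα : 0 < α) (hβ : 0 < β) (hγ : 0 < γ) (hS : 0 ≤ S)
    (hA : 0 ≤ A) (h1 : 0 ≤ b1) (h2 : 0 ≤ b2) (h3 : 0 ≤ b3) {G : ℝ → ℝ → ℝ → ENNReal}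
    (hG : ∀ u v w, 0 < u → 0 < v → 0 < w → G u v w ≤
      ENNReal.ofReal (if α * u + β * v + γ * w ≤ S then
        A + 2 * (b1 * u + b2 * v + b3 * w) else 0)) :
    ∫⁻ u in Set.Ioi (0 : ℝ), ∫⁻ v in Set.Ioi (0 : ℝ), ∫⁻ w in Set.Ioi (0 : ℝ), G u v w ≤
      ENNReal.ofReal (S ^ 3 / (6 * α * β * γ) * (A + S / 2 * (b1 / α + b2 / β + b3 / γ))) := by
  rw [← e3_simplex hα hβ hγ hS hA h1 h2 h3]
  refine setLIntegral_mono' measurableSet_Ioi fun u hu => ?_
  refine setLIntegral_mono' measurableSet_Ioi fun v hv => ?_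
  exact setLIntegral_mono' measurableSet_Ioi fun w hw => hG u v w hu hv hw

theorem J3_pos {θ A a b c : ℝ} (hθ : 0 < θ) (hA : 0 ≤ A) (ha : 0 < a) (hb : 0 < b) (hc : 0 < c)
    (ha1 : a < 1) (hb1 : b < 1) (hc1 : c < 1) :
    J3 θ A a b c ≤ ENNReal.ofReal (4 / 3 * θ ^ 3 / ((1 + a) * (1 + b) * (1 + c)) *
      (A + θ * (1 / (1 + a) + 1 / (1 + b) + 1 / (1 + c)))) := by
  unfold J3
  have h := e3_simplex_le (α := 1 + a) (β := 1 + b) (γ := 1 + c) (S := 2 * θ) (A := A) (b1 := 1)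
    (b2 := 1) (b3 := 1) (by positivity) (by positivity) (by positivity) (by positivity) hA
    zero_le_one zero_le_one zero_le_one (G := fun u v w =>
      ENNReal.ofReal (if u * (1 + a) + v * (1 + b) + w * (1 + c) ≤ 2 * θ ∧
      u * (1 + a) + v * (1 - b) + w * (1 - c) ≤ 2 * θ ∧
      u * (1 - a) + v * (1 + b) + w * (1 - c) ≤ 2 * θ ∧
      u * (1 - a) + v * (1 - b) + w * (1 + c) ≤ 2 * θ then A + 2 * (u + v + w) else 0))
    (fun u v w hu hv hw => by
      by_cases hh : u * (1 + a) + v * (1 + b) + w * (1 + c) ≤ 2 * θ ∧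
        u * (1 + a) + v * (1 - b) + w * (1 - c) ≤ 2 * θ ∧
        u * (1 - a) + v * (1 + b) + w * (1 - c) ≤ 2 * θ ∧
        u * (1 - a) + v * (1 - b) + w * (1 + c) ≤ 2 * θ
      · have h2 : (1 + a) * u + (1 + b) * v + (1 + c) * w ≤ 2 * θ := by linarith [hh.1]
        simp only [if_pos hh, if_pos h2, one_mul]
        exact le_rfl
      · simp only [if_neg hh, ENNReal.ofReal_zero]
        exact zero_le)
  refine h.trans (le_of_eq ?_)
  congr 1
  field_simp
  ring

/-- shift of the variable -/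
lemma e3_shift {H : ℝ → ENNReal} {s : ℝ} (hs : 0 ≤ s) (hH : ∀ x, x < s → H x = 0) :
    ∫⁻ v in Set.Ioi (0 : ℝ), H v = ∫⁻ v in Set.Ioi (0 : ℝ), H (v + s) := by
  rw [← lintegral_indicator measurableSet_Ioi, ← lintegral_indicator measurableSet_Ioi,
    ← lintegral_add_right_eq_self _ s]
  refine lintegral_congr_ae ?_
  have h0 : ∀ᵐ v : ℝ, v ≠ 0 := by
    rw [ae_iff]
    simp
  filter_upwards [h0] with v hv
  rcases lt_or_gt_of_ne hv with h | h
  · have h1 : v ∉ Set.Ioi (0 : ℝ) := by simp [h.le]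
    rw [Set.indicator_of_notMem h1]
    by_cases h2 : v + s ∈ Set.Ioi (0 : ℝ)
    · rw [Set.indicator_of_mem h2]
      exact hH _ (by linarith)
    · rw [Set.indicator_of_notMem h2]
  · have h1 : v ∈ Set.Ioi (0 : ℝ) := h
    have h2 : v + s ∈ Set.Ioi (0 : ℝ) := by
      simp only [Set.mem_Ioi] at h1 ⊢
      linarith
    rw [Set.indicator_of_mem h1, Set.indicator_of_mem h2]

/-- one third of the integrand for negative cosines: `a u` is minimal -/
noncomputable def e3_G (θ A a b c u v w : ℝ) : ENNReal :=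
  ENNReal.ofReal (if a * u ≤ b * v ∧ a * u ≤ c * w ∧
    u * (1 - a) + v * (1 + b) + w * (1 + c) ≤ 2 * θ then A + 2 * (u + v + w) else 0)

lemma e3_G_meas (θ A a b c : ℝ) :
    Measurable (fun x : ℝ × ℝ × ℝ => e3_G θ A a b c x.1 x.2.1 x.2.2) := by
  unfold e3_G
  refine ENNReal.measurable_ofReal.comp (Measurable.ite ?_ (by fun_prop) measurable_const)
  have h1 : MeasurableSet {x : ℝ × ℝ × ℝ | a * x.1 ≤ b * x.2.1} :=
    measurableSet_le (by fun_prop) (by fun_prop)
  have h2 : MeasurableSet {x : ℝ × ℝ × ℝ | a * x.1 ≤ c * x.2.2} :=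
    measurableSet_le (by fun_prop) (by fun_prop)
  have h3 : MeasurableSet {x : ℝ × ℝ × ℝ |
      x.1 * (1 - a) + x.2.1 * (1 + b) + x.2.2 * (1 + c) ≤ 2 * θ} :=
    measurableSet_le (by fun_prop) (by fun_prop)
  exact h1.inter (h2.inter h3)

lemma e3_key {θ A a b c : ℝ} (hθ : 0 < θ) (hA : 0 ≤ A) (ha : 0 < a) (hb : 0 < b) (hc : 0 < c) :
    ∫⁻ u in Set.Ioi (0 : ℝ), ∫⁻ v in Set.Ioi (0 : ℝ), ∫⁻ w in Set.Ioi (0 : ℝ),
      e3_G θ A a b c u v w ≤
      ENNReal.ofReal (4 / 3 * θ ^ 3 * (q3 a b c / (a * (1 + b) * (1 + c))) *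
        (A + θ * (1 - q3 a b c + 1 / (1 + b) + 1 / (1 + c)))) := by
  have hq : 0 < q3 a b c := by unfold q3; positivity
  have e1 : ∫⁻ u in Set.Ioi (0 : ℝ), ∫⁻ v in Set.Ioi (0 : ℝ), ∫⁻ w in Set.Ioi (0 : ℝ),
      e3_G θ A a b c u v w =
      ∫⁻ u in Set.Ioi (0 : ℝ), ∫⁻ v in Set.Ioi (0 : ℝ), ∫⁻ w in Set.Ioi (0 : ℝ),
      e3_G θ A a b c u (v + a * u / b) (w + a * u / c) := by
    refine setLIntegral_congr_fun measurableSet_Ioi fun u hu => ?_
    simp only [Set.mem_Ioi] at hu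
    have hs1 : 0 ≤ a * u / b := by positivity
    have hs2 : 0 ≤ a * u / c := by positivity
    have r1 : ∫⁻ v in Set.Ioi (0 : ℝ), ∫⁻ w in Set.Ioi (0 : ℝ), e3_G θ A a b c u v w =
        ∫⁻ v in Set.Ioi (0 : ℝ), ∫⁻ w in Set.Ioi (0 : ℝ), e3_G θ A a b c u (v + a * u / b) w := by
      refine e3_shift (H := fun v => ∫⁻ w in Set.Ioi (0 : ℝ), e3_G θ A a b c u v w) hs1 ?_
      intro v hv
      rw [lt_div_iff₀ hb] at hv
      have : ∀ w, e3_G θ A a b c u v w = 0 := by
        intro w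
        unfold e3_G
        rw [if_neg, ENNReal.ofReal_zero]
        intro hh
        nlinarith [hh.1]
      simp only [this, lintegral_zero]
    rw [r1]
    refine setLIntegral_congr_fun measurableSet_Ioi fun v hv => ?_
    refine e3_shift (H := fun w => e3_G θ A a b c u (v + a * u / b) w) hs2 ?_
    intro w hw
    rw [lt_div_iff₀ hc] at hw
    unfold e3_G
    rw [if_neg, ENNReal.ofReal_zero]
    intro hh
    nlinarith [hh.2.1]
  rw [e1]
  have h := e3_simplex_le (α := a / q3 a b c) (β := 1 + b) (γ := 1 + c) (S := 2 * θ) (A := A)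
    (b1 := 1 + a / b + a / c) (b2 := 1) (b3 := 1) (by positivity) (by positivity) (by positivity)
    (by positivity) hA (by positivity) zero_le_one zero_le_one
    (G := fun u v w => e3_G θ A a b c u (v + a * u / b) (w + a * u / c))
    (fun u v w hu hv hw => by
      simp only [e3_G]
      by_cases hh : a * u ≤ b * (v + a * u / b) ∧ a * u ≤ c * (w + a * u / c) ∧
          u * (1 - a) + (v + a * u / b) * (1 + b) + (w + a * u / c) * (1 + c) ≤ 2 * θ
      · have h2 : a / q3 a b c * u + (1 + b) * v + (1 + c) * w ≤ 2 * θ := by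
          have h3 := hh.2.2
          have h4 : a / q3 a b c * u + (1 + b) * v + (1 + c) * w =
              u * (1 - a) + (v + a * u / b) * (1 + b) + (w + a * u / c) * (1 + c) := by
            unfold q3
            field_simp
            ring
          rw [h4]
          exact h3
        rw [if_pos hh, if_pos h2]
        apply le_of_eq
        congr 1
        ring
      · rw [if_neg hh, ENNReal.ofReal_zero]
        exact zero_le)
  refine h.trans (le_of_eq ?_)
  congr 1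
  have hq1 : 1 - q3 a b c = (1 + a / b + a / c) / (a / q3 a b c) := by
    unfold q3
    field_simp
    ring
  rw [hq1]
  field_simp
  ring

lemma e3_swap {G : ℝ → ℝ → ℝ → ENNReal} (hG : Measurable fun x : ℝ × ℝ × ℝ => G x.1 x.2.1 x.2.2) :
    ∫⁻ u in Set.Ioi (0 : ℝ), ∫⁻ v in Set.Ioi (0 : ℝ), ∫⁻ w in Set.Ioi (0 : ℝ), G u v w =
    ∫⁻ v in Set.Ioi (0 : ℝ), ∫⁻ u in Set.Ioi (0 : ℝ), ∫⁻ w in Set.Ioi (0 : ℝ), G u v w := by
  rw [lintegral_lintegral_swap]
  refine Measurable.aemeasurable ?_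
  have h1 : Measurable (fun p : (ℝ × ℝ) × ℝ => G p.1.1 p.1.2 p.2) :=
    hG.comp (by fun_prop : Measurable fun p : (ℝ × ℝ) × ℝ => (p.1.1, p.1.2, p.2))
  exact h1.lintegral_prod_right'

lemma e3_swap2 {G : ℝ → ℝ → ℝ → ENNReal} (hG : Measurable fun x : ℝ × ℝ × ℝ => G x.1 x.2.1 x.2.2) :
    ∫⁻ u in Set.Ioi (0 : ℝ), ∫⁻ v in Set.Ioi (0 : ℝ), ∫⁻ w in Set.Ioi (0 : ℝ), G u v w =
    ∫⁻ u in Set.Ioi (0 : ℝ), ∫⁻ w in Set.Ioi (0 : ℝ), ∫⁻ v in Set.Ioi (0 : ℝ), G u v w := by
  refine setLIntegral_congr_fun measurableSet_Ioi fun u hu => ?_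
  refine lintegral_lintegral_swap ?_
  refine Measurable.aemeasurable ?_
  exact hG.comp (by fun_prop : Measurable fun p : ℝ × ℝ => (u, p.1, p.2))

theorem J3_neg {θ A a b c : ℝ} (hθ : 0 < θ) (hA : 0 ≤ A) (ha : 0 < a) (hb : 0 < b) (hc : 0 < c)
    (ha1 : a < 1) (hb1 : b < 1) (hc1 : c < 1) :
    J3 θ A (-a) (-b) (-c) ≤ ENNReal.ofReal (4 / 3 * θ ^ 3 / ((1 + a) * (1 + b) * (1 + c)) *
      (A * (1 + 2 * q3 a b c) + θ * ((1 + 2 * q3 a b c) * (1 / (1 + a) + 1 / (1 + b) + 1 / (1 + c)) +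
        2 * q3 a b c * (1 - q3 a b c)))) := by
  have hq : 0 < q3 a b c := by unfold q3; positivity
  have hq1 : q3 a b c < 1 := by
    unfold q3
    rw [div_lt_one (by positivity)]
    nlinarith [mul_pos ha hb, mul_pos ha hc, mul_pos hb hc]
  have m1 : Measurable (fun x : ℝ × ℝ × ℝ => e3_G θ A a b c x.1 x.2.1 x.2.2) :=
    e3_G_meas θ A a b c
  have m2 : Measurable (fun x : ℝ × ℝ × ℝ => e3_G θ A b a c x.2.1 x.1 x.2.2) :=
    (e3_G_meas θ A b a c).comp
      (by fun_prop : Measurable fun p : ℝ × ℝ × ℝ => (p.2.1, p.1, p.2.2))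
  have m3 : Measurable (fun x : ℝ × ℝ × ℝ => e3_G θ A c a b x.2.2 x.1 x.2.1) :=
    (e3_G_meas θ A c a b).comp
      (by fun_prop : Measurable fun p : ℝ × ℝ × ℝ => (p.2.2, p.1, p.2.1))
  have hle : J3 θ A (-a) (-b) (-c) ≤
      ∫⁻ u in Set.Ioi (0 : ℝ), ∫⁻ v in Set.Ioi (0 : ℝ), ∫⁻ w in Set.Ioi (0 : ℝ),
        (e3_G θ A a b c u v w + (e3_G θ A b a c v u w + e3_G θ A c a b w u v)) := by
    unfold J3
    refine setLIntegral_mono' measurableSet_Ioi fun u hu => ?_
    refine setLIntegral_mono' measurableSet_Ioi fun v hv => ?_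
    refine setLIntegral_mono' measurableSet_Ioi fun w hw => ?_
    simp only [Set.mem_Ioi] at hu hv hw
    split_ifs with hh
    · obtain ⟨h1, h2, h3, h4⟩ := hh
      rcases le_total (a * u) (b * v) with h5 | h5
      · rcases le_total (a * u) (c * w) with h6 | h6
        · refine le_trans (le_of_eq ?_) (le_self_add)
          unfold e3_G
          rw [if_pos ⟨h5, h6, by linarith⟩]
        · refine le_trans (le_trans (le_of_eq ?_) (le_add_self)) (le_add_self)
          unfold e3_G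
          rw [if_pos ⟨h6, h6.trans h5, by linarith⟩]
          congr 1; ring
      · rcases le_total (b * v) (c * w) with h6 | h6
        · refine le_trans (le_trans (le_of_eq ?_) (le_self_add)) (le_add_self)
          unfold e3_G
          rw [if_pos ⟨h5, h6, by linarith⟩]
          congr 1; ring
        · refine le_trans (le_trans (le_of_eq ?_) (le_add_self)) (le_add_self)
          unfold e3_G
          rw [if_pos ⟨h6.trans h5, h6, by linarith⟩]
          congr 1; ring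
    · rw [ENNReal.ofReal_zero]
      exact zero_le
  have hadd : ∀ {G H : ℝ → ℝ → ℝ → ENNReal},
      Measurable (fun x : ℝ × ℝ × ℝ => G x.1 x.2.1 x.2.2) →
      ∫⁻ u in Set.Ioi (0 : ℝ), ∫⁻ v in Set.Ioi (0 : ℝ), ∫⁻ w in Set.Ioi (0 : ℝ),
        (G u v w + H u v w) =
      (∫⁻ u in Set.Ioi (0 : ℝ), ∫⁻ v in Set.Ioi (0 : ℝ), ∫⁻ w in Set.Ioi (0 : ℝ), G u v w) +
      (∫⁻ u in Set.Ioi (0 : ℝ), ∫⁻ v in Set.Ioi (0 : ℝ), ∫⁻ w in Set.Ioi (0 : ℝ), H u v w) := by
    intro G H hG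
    have h1 : Measurable (fun p : (ℝ × ℝ) × ℝ => G p.1.1 p.1.2 p.2) :=
      hG.comp (by fun_prop : Measurable fun p : (ℝ × ℝ) × ℝ => (p.1.1, p.1.2, p.2))
    have h2 : Measurable (fun p : ℝ × ℝ => ∫⁻ w in Set.Ioi (0 : ℝ), G p.1 p.2 w) :=
      h1.lintegral_prod_right'
    have h3 : Measurable (fun u : ℝ => ∫⁻ v in Set.Ioi (0 : ℝ), ∫⁻ w in Set.Ioi (0 : ℝ),
        G u v w) := h2.lintegral_prod_right'
    rw [← lintegral_add_left h3]
    refine lintegral_congr fun u => ?_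
    have h4 : Measurable (fun v : ℝ => ∫⁻ w in Set.Ioi (0 : ℝ), G u v w) :=
      h2.comp (by fun_prop : Measurable fun v : ℝ => (u, v))
    rw [← lintegral_add_left h4]
    refine lintegral_congr fun v => ?_
    have h5 : Measurable (fun w : ℝ => G u v w) :=
      hG.comp (by fun_prop : Measurable fun w : ℝ => (u, v, w))
    rw [← lintegral_add_left h5]
  refine hle.trans ?_
  rw [hadd m1, hadd m2]
  have k1 := e3_key (θ := θ) (A := A) hθ hA ha hb hc
  have k2 : ∫⁻ u in Set.Ioi (0 : ℝ), ∫⁻ v in Set.Ioi (0 : ℝ), ∫⁻ w in Set.Ioi (0 : ℝ),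
      e3_G θ A b a c v u w ≤
      ENNReal.ofReal (4 / 3 * θ ^ 3 * (q3 b a c / (b * (1 + a) * (1 + c))) *
        (A + θ * (1 - q3 b a c + 1 / (1 + a) + 1 / (1 + c)))) := by
    rw [e3_swap m2]
    exact e3_key (θ := θ) (A := A) hθ hA hb ha hc
  have m3' : Measurable (fun x : ℝ × ℝ × ℝ => e3_G θ A c a b x.2.1 x.1 x.2.2) :=
    (e3_G_meas θ A c a b).comp
      (by fun_prop : Measurable fun p : ℝ × ℝ × ℝ => (p.2.1, p.1, p.2.2))
  have k3 : ∫⁻ u in Set.Ioi (0 : ℝ), ∫⁻ v in Set.Ioi (0 : ℝ), ∫⁻ w in Set.Ioi (0 : ℝ),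
      e3_G θ A c a b w u v ≤
      ENNReal.ofReal (4 / 3 * θ ^ 3 * (q3 c a b / (c * (1 + a) * (1 + b))) *
        (A + θ * (1 - q3 c a b + 1 / (1 + a) + 1 / (1 + b)))) := by
    rw [e3_swap2 m3, e3_swap m3']
    exact e3_key (θ := θ) (A := A) hθ hA hc ha hb
  refine (add_le_add k1 (add_le_add k2 k3)).trans ?_
  have p1 : 0 ≤ 4 / 3 * θ ^ 3 * (q3 a b c / (a * (1 + b) * (1 + c))) *
        (A + θ * (1 - q3 a b c + 1 / (1 + b) + 1 / (1 + c))) := by
    have : 0 ≤ 1 - q3 a b c + 1 / (1 + b) + 1 / (1 + c) := by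
      have := sub_pos.mpr hq1
      positivity
    positivity
  have s1 : q3 b a c = q3 a b c := by unfold q3; congr 1 <;> ring
  have s2 : q3 c a b = q3 a b c := by unfold q3; congr 1 <;> ring
  rw [s1, s2]
  have p2 : 0 ≤ 4 / 3 * θ ^ 3 * (q3 a b c / (b * (1 + a) * (1 + c))) *
        (A + θ * (1 - q3 a b c + 1 / (1 + a) + 1 / (1 + c))) := by
    have : 0 ≤ 1 - q3 a b c + 1 / (1 + a) + 1 / (1 + c) := by
      have := sub_pos.mpr hq1
      positivity
    positivity
  have p3 : 0 ≤ 4 / 3 * θ ^ 3 * (q3 a b c / (c * (1 + a) * (1 + b))) *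
        (A + θ * (1 - q3 a b c + 1 / (1 + a) + 1 / (1 + b))) := by
    have : 0 ≤ 1 - q3 a b c + 1 / (1 + a) + 1 / (1 + b) := by
      have := sub_pos.mpr hq1
      positivity
    positivity
  rw [← ENNReal.ofReal_add p2 p3, ← ENNReal.ofReal_add p1 (add_nonneg p2 p3)]
  apply le_of_eq
  congr 1
  have hI : q3 a b c * (1 / a + 1 / b + 1 / c) = 1 - q3 a b c := by
    unfold q3
    field_simp
    ring
  have t1 : q3 a b c / (a * (1 + b) * (1 + c)) =
      (q3 a b c + q3 a b c * (1 / a)) / ((1 + a) * (1 + b) * (1 + c)) := by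
    field_simp
    ring
  have t2 : q3 a b c / (b * (1 + a) * (1 + c)) =
      (q3 a b c + q3 a b c * (1 / b)) / ((1 + a) * (1 + b) * (1 + c)) := by
    field_simp
    ring
  have t3 : q3 a b c / (c * (1 + a) * (1 + b)) =
      (q3 a b c + q3 a b c * (1 / c)) / ((1 + a) * (1 + b) * (1 + c)) := by
    field_simp
    ring
  have g1 : (1 + 1 / a) * (1 / (1 + a)) = 1 / a := by
    field_simp
    ring
  have g2 : (1 + 1 / b) * (1 / (1 + b)) = 1 / b := by
    field_simp
    ring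
  have g3 : (1 + 1 / c) * (1 / (1 + c)) = 1 / c := by
    field_simp
    ring
  rw [t1, t2, t3]
  linear_combination (4 / 3 * θ ^ 3 / ((1 + a) * (1 + b) * (1 + c))) *
    (A + θ * (1 - q3 a b c + (1 / (1 + a) + 1 / (1 + b) + 1 / (1 + c))) - θ) * hI -
    (4 / 3 * θ ^ 3 / ((1 + a) * (1 + b) * (1 + c))) * θ * q3 a b c * (g1 + g2 + g3)

end Pool.Agent.SixthMoment
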