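import Mathlib
import Pool.Agent.Lib_MP_112ba8_s.Defs
import Pool.Agent.Lib_MP_112ba8_s.Polar
import Pool.Agent.Lib_MP_112ba8_s.Polytope

/-!
Piece E4: the bound for the six-dimensional integral, from the polar form (E2) and the bounds for
the three-dimensional polytope integrals (E3).
-/

namespace Pool.Agent.SixthMoment

open Filter Topology MeasureTheory


/-! ### the substitution -/

lemma e4_cos (w : ℝ) : Real.cos (2 * Real.arctan w) = tw w := by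
  rw [Real.cos_two_mul, Real.cos_sq_arctan]
  unfold tw
  have h : (1 + w ^ 2) ≠ 0 := by positivity
  field_simp
  ring

lemma e4_cos' (w : ℝ) : Real.cos (2 * (Real.pi / 2 - Real.arctan w)) = -tw w := by
  rw [show 2 * (Real.pi / 2 - Real.arctan w) = Real.pi - 2 * Real.arctan w by ring,
    Real.cos_pi_sub, e4_cos]

lemma e4_sub (f : ℝ → ENNReal) :
    ∫⁻ a in Set.Ioo (0 : ℝ) (Real.pi / 2), f (Real.cos (2 * a)) ≤
      ∫⁻ w in Set.Ioo (0 : ℝ) 1, ENNReal.ofReal (1 / (1 + w ^ 2)) * (f (tw w) + f (-tw w)) := by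
  have hA : ∫⁻ a in Real.arctan '' Set.Ioo (0 : ℝ) 1, f (Real.cos (2 * a)) =
      ∫⁻ w in Set.Ioo (0 : ℝ) 1, ENNReal.ofReal (1 / (1 + w ^ 2)) * f (tw w) := by
    rw [lintegral_image_eq_lintegral_abs_deriv_mul measurableSet_Ioo
      (fun x _ => (Real.hasDerivAt_arctan x).hasDerivWithinAt) Real.arctan_injective.injOn]
    refine lintegral_congr fun w => ?_
    rw [e4_cos, abs_of_nonneg (by positivity)]
  have hB : ∫⁻ a in (fun w => Real.pi / 2 - Real.arctan w) '' Set.Ioo (0 : ℝ) 1,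
      f (Real.cos (2 * a)) =
      ∫⁻ w in Set.Ioo (0 : ℝ) 1, ENNReal.ofReal (1 / (1 + w ^ 2)) * f (-tw w) := by
    rw [lintegral_image_eq_lintegral_abs_deriv_mul measurableSet_Ioo
      (fun x _ => ((Real.hasDerivAt_arctan x).const_sub (Real.pi / 2)).hasDerivWithinAt)
      (fun x _ y _ hxy => Real.arctan_injective (by simpa using hxy))]
    refine lintegral_congr fun w => ?_
    rw [e4_cos', abs_neg, abs_of_nonneg (by positivity)]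
  have hsub : Set.Ioo (0 : ℝ) (Real.pi / 2) ⊆ Real.arctan '' Set.Ioo (0 : ℝ) 1 ∪
      ((fun w => Real.pi / 2 - Real.arctan w) '' Set.Ioo (0 : ℝ) 1 ∪ {Real.pi / 4}) := by
    intro a ha
    obtain ⟨ha0, ha1⟩ := ha
    rcases lt_trichotomy a (Real.pi / 4) with h | h | h
    · left
      refine ⟨Real.tan a, ⟨Real.tan_pos_of_pos_of_lt_pi_div_two ha0 ha1, ?_⟩,
        Real.arctan_tan (by linarith) ha1⟩
      rw [← Real.tan_pi_div_four]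
      exact Real.tan_lt_tan_of_nonneg_of_lt_pi_div_two ha0.le (by linarith) h
    · right; right; exact h
    · right; left
      refine ⟨Real.tan (Real.pi / 2 - a), ⟨Real.tan_pos_of_pos_of_lt_pi_div_two (by linarith)
        (by linarith), ?_⟩, ?_⟩
      · rw [← Real.tan_pi_div_four]
        exact Real.tan_lt_tan_of_nonneg_of_lt_pi_div_two (by linarith) (by linarith [Real.pi_pos])
          (by linarith)
      · simp only
        rw [Real.arctan_tan (by linarith) (by linarith)]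
        ring
  calc ∫⁻ a in Set.Ioo (0 : ℝ) (Real.pi / 2), f (Real.cos (2 * a))
      ≤ ∫⁻ a in Real.arctan '' Set.Ioo (0 : ℝ) 1 ∪
        ((fun w => Real.pi / 2 - Real.arctan w) '' Set.Ioo (0 : ℝ) 1 ∪ {Real.pi / 4}),
          f (Real.cos (2 * a)) := lintegral_mono_set hsub
    _ ≤ (∫⁻ a in Real.arctan '' Set.Ioo (0 : ℝ) 1, f (Real.cos (2 * a))) +
        ((∫⁻ a in (fun w => Real.pi / 2 - Real.arctan w) '' Set.Ioo (0 : ℝ) 1,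
          f (Real.cos (2 * a))) + ∫⁻ a in {Real.pi / 4}, f (Real.cos (2 * a))) := by
        refine (lintegral_union_le _ _ _).trans ?_
        gcongr
        exact lintegral_union_le _ _ _
    _ = (∫⁻ w in Set.Ioo (0 : ℝ) 1, ENNReal.ofReal (1 / (1 + w ^ 2)) * f (tw w)) +
        ∫⁻ w in Set.Ioo (0 : ℝ) 1, ENNReal.ofReal (1 / (1 + w ^ 2)) * f (-tw w) := by
        rw [hA, hB]
        simp
    _ ≤ _ := by
        refine (le_lintegral_add _ _).trans ?_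
        refine lintegral_mono fun w => ?_
        rw [mul_add]

/-! ### from iterated lower integrals to iterated integrals -/

lemma e4_bdd {g : ℝ → ℝ} (hg : Measurable g) {M : ℝ} (h0 : ∀ x ∈ Set.Ioo (0 : ℝ) 1, 0 ≤ g x)
    (h1 : ∀ x ∈ Set.Ioo (0 : ℝ) 1, g x ≤ M) :
    IntegrableOn g (Set.Ioo (0 : ℝ) 1) := by
  refine Measure.integrableOn_of_bounded (M := M) (by simp) hg.aestronglyMeasurable ?_
  refine (ae_restrict_iff' measurableSet_Ioo).2 (Eventually.of_forall fun x hx => ?_)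
  rw [Real.norm_eq_abs, abs_of_nonneg (h0 x hx)]
  exact h1 x hx

lemma e4_int (g : ℝ → ℝ) : ∫ x in (0 : ℝ)..1, g x = ∫ x in Set.Ioo (0 : ℝ) 1, g x := by
  rw [intervalIntegral.integral_of_le zero_le_one, integral_Ioc_eq_integral_Ioo]

lemma e4_one {g : ℝ → ℝ} (hg : Measurable g) {M : ℝ} (h0 : ∀ x ∈ Set.Ioo (0 : ℝ) 1, 0 ≤ g x)
    (h1 : ∀ x ∈ Set.Ioo (0 : ℝ) 1, g x ≤ M) :
    ∫⁻ x in Set.Ioo (0 : ℝ) 1, ENNReal.ofReal (g x) = ENNReal.ofReal (∫ x in (0 : ℝ)..1, g x) := by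
  rw [e4_int, ofReal_integral_eq_lintegral_ofReal (e4_bdd hg h0 h1)]
  exact (ae_restrict_iff' measurableSet_Ioo).2 (Eventually.of_forall fun x hx => h0 x hx)

lemma e4_int_nonneg {g : ℝ → ℝ} (h0 : ∀ x ∈ Set.Ioo (0 : ℝ) 1, 0 ≤ g x) :
    0 ≤ ∫ x in (0 : ℝ)..1, g x := by
  rw [e4_int]
  exact setIntegral_nonneg measurableSet_Ioo h0

lemma e4_int_le {g : ℝ → ℝ} (hg : Measurable g) {M : ℝ} (h0 : ∀ x ∈ Set.Ioo (0 : ℝ) 1, 0 ≤ g x)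
    (h1 : ∀ x ∈ Set.Ioo (0 : ℝ) 1, g x ≤ M) : ∫ x in (0 : ℝ)..1, g x ≤ M := by
  rw [e4_int]
  have h2 : ∫ x in Set.Ioo (0 : ℝ) 1, g x ≤ ∫ _x in Set.Ioo (0 : ℝ) 1, M := by
    refine setIntegral_mono_on (e4_bdd hg h0 h1) ?_ measurableSet_Ioo h1
    simp
  simpa using h2

lemma e4_iter {v : ℝ → ℝ → ℝ → ℝ}
    (hv : Measurable (fun p : (ℝ × ℝ) × ℝ => v p.1.1 p.1.2 p.2)) {M : ℝ}
    (h0 : ∀ a ∈ Set.Ioo (0 : ℝ) 1, ∀ b ∈ Set.Ioo (0 : ℝ) 1, ∀ c ∈ Set.Ioo (0 : ℝ) 1, 0 ≤ v a b c)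
    (h1 : ∀ a ∈ Set.Ioo (0 : ℝ) 1, ∀ b ∈ Set.Ioo (0 : ℝ) 1, ∀ c ∈ Set.Ioo (0 : ℝ) 1,
      v a b c ≤ M) :
    ∫⁻ a in Set.Ioo (0 : ℝ) 1, ∫⁻ b in Set.Ioo (0 : ℝ) 1, ∫⁻ c in Set.Ioo (0 : ℝ) 1,
        ENNReal.ofReal (v a b c) =
      ENNReal.ofReal (∫ a in (0 : ℝ)..1, ∫ b in (0 : ℝ)..1, ∫ c in (0 : ℝ)..1, v a b c) := by
  have m1 : Measurable (fun p : ℝ × ℝ => ∫ c in (0 : ℝ)..1, v p.1 p.2 c) := by
    simp only [e4_int]
    exact (StronglyMeasurable.integral_prod_right' hv.stronglyMeasurable).measurable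
  have m2 : Measurable (fun a : ℝ => ∫ b in (0 : ℝ)..1, ∫ c in (0 : ℝ)..1, v a b c) := by
    have := (StronglyMeasurable.integral_prod_right' (ν := volume.restrict (Set.Ioo (0 : ℝ) 1))
      m1.stronglyMeasurable).measurable
    simpa only [e4_int (fun b => ∫ c in (0 : ℝ)..1, v _ b c)] using this
  have hv3 : ∀ a b : ℝ, Measurable (v a b) := fun a b =>
    hv.comp (g := fun p : (ℝ × ℝ) × ℝ => v p.1.1 p.1.2 p.2)
      ((measurable_const (a := (a, b))).prodMk measurable_id)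
  have hv2 : ∀ a : ℝ, Measurable (fun b => ∫ c in (0 : ℝ)..1, v a b c) := fun a =>
    m1.comp ((measurable_const (a := a)).prodMk measurable_id)
  have s1 : ∀ a ∈ Set.Ioo (0 : ℝ) 1, ∀ b ∈ Set.Ioo (0 : ℝ) 1,
      ∫⁻ c in Set.Ioo (0 : ℝ) 1, ENNReal.ofReal (v a b c) =
        ENNReal.ofReal (∫ c in (0 : ℝ)..1, v a b c) := fun a ha b hb =>
    e4_one (hv3 a b) (h0 a ha b hb) (h1 a ha b hb)
  have n1 : ∀ a ∈ Set.Ioo (0 : ℝ) 1, ∀ b ∈ Set.Ioo (0 : ℝ) 1,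
      0 ≤ ∫ c in (0 : ℝ)..1, v a b c := fun a ha b hb => e4_int_nonneg (h0 a ha b hb)
  have b1 : ∀ a ∈ Set.Ioo (0 : ℝ) 1, ∀ b ∈ Set.Ioo (0 : ℝ) 1,
      ∫ c in (0 : ℝ)..1, v a b c ≤ M := fun a ha b hb =>
    e4_int_le (hv3 a b) (h0 a ha b hb) (h1 a ha b hb)
  have s2 : ∀ a ∈ Set.Ioo (0 : ℝ) 1,
      ∫⁻ b in Set.Ioo (0 : ℝ) 1, ∫⁻ c in Set.Ioo (0 : ℝ) 1, ENNReal.ofReal (v a b c) =
        ENNReal.ofReal (∫ b in (0 : ℝ)..1, ∫ c in (0 : ℝ)..1, v a b c) := by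
    intro a ha
    rw [setLIntegral_congr_fun measurableSet_Ioo (fun b hb => s1 a ha b hb)]
    exact e4_one (hv2 a) (n1 a ha) (b1 a ha)
  rw [setLIntegral_congr_fun measurableSet_Ioo (fun a ha => s2 a ha)]
  exact e4_one m2 (fun a ha => e4_int_nonneg (n1 a ha))
    (fun a ha => e4_int_le (hv2 a) (n1 a ha) (b1 a ha))

/-! ### the pointwise bound -/

lemma e4_tw_pos {w : ℝ} (h0 : 0 < w) (h1 : w < 1) : 0 < tw w := by
  unfold tw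
  apply div_pos <;> nlinarith

lemma e4_tw_lt {w : ℝ} (h0 : 0 < w) : tw w < 1 := by
  unfold tw
  rw [div_lt_one (by positivity)]
  nlinarith [pow_pos h0 2]

lemma e4_one_add_tw (w : ℝ) : 1 + tw w = 2 / (1 + w ^ 2) := by
  unfold tw
  have h : (1 + w ^ 2) ≠ 0 := by positivity
  field_simp
  ring

lemma e4_q_nonneg {a b c : ℝ} (ha : 0 < a) (hb : 0 < b) (hc : 0 < c) : 0 ≤ q3 a b c := by
  unfold q3; positivity

lemma e4_q_le {a b c : ℝ} (ha : 0 < a) (hb : 0 < b) (hc : 0 < c) : q3 a b c ≤ 1 := by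
  unfold q3
  rw [div_le_one (by positivity)]
  have := mul_pos ha hb
  have := mul_pos ha hc
  have := mul_pos hb hc
  linarith

/-- the final integrand -/
noncomputable def e4G (θ A a b c : ℝ) : ℝ :=
  4 / 3 * θ ^ 3 * ((A + θ * ((3 + a ^ 2 + b ^ 2 + c ^ 2) / 2)) +
    q3 (tw a) (tw b) (tw c) * (A + θ + θ * ((3 + a ^ 2 + b ^ 2 + c ^ 2) / 2)))

/-- the sum of the four sign choices in the first two variables -/
noncomputable def e4S (K : ℝ → ℝ → ℝ → ENNReal) (a b s : ℝ) : ENNReal :=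
  (K (tw a) (tw b) s + K (-tw a) (tw b) s) + (K (tw a) (-tw b) s + K (-tw a) (-tw b) s)

/-- the real number identity behind the pointwise bound -/
lemma e4_real (θ A a b c q : ℝ) :
    1 / (1 + a ^ 2) * (1 / (1 + b ^ 2) * (1 / (1 + c ^ 2) * (4 *
      (4 / 3 * θ ^ 3 / (2 / (1 + a ^ 2) * (2 / (1 + b ^ 2)) * (2 / (1 + c ^ 2))) *
      (A + θ * (1 / (2 / (1 + a ^ 2)) + 1 / (2 / (1 + b ^ 2)) + 1 / (2 / (1 + c ^ 2)))) +
      4 / 3 * θ ^ 3 / (2 / (1 + a ^ 2) * (2 / (1 + b ^ 2)) * (2 / (1 + c ^ 2))) *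
      (A * (1 + 2 * q) + θ * ((1 + 2 * q) * (1 / (2 / (1 + a ^ 2)) + 1 / (2 / (1 + b ^ 2)) +
      1 / (2 / (1 + c ^ 2))) + 2 * q * (1 - q))))))) =
      4 / 3 * θ ^ 3 * ((A + θ * ((3 + a ^ 2 + b ^ 2 + c ^ 2) / 2)) +
      q * (A + θ + θ * ((3 + a ^ 2 + b ^ 2 + c ^ 2) / 2)) - θ * q ^ 2) := by
  have h1 : (1 + a ^ 2) ≠ 0 := by positivity
  have h2 : (1 + b ^ 2) ≠ 0 := by positivity
  have h3 : (1 + c ^ 2) ≠ 0 := by positivity
  field_simp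
  ring

lemma e4_abs {u v w X Y Z : ℝ} (hu : 0 ≤ u) (hv : 0 ≤ v) (hw : 0 ≤ w) (hX : 0 ≤ X) (hY : 0 ≤ Y)
    {J N : ENNReal} (hJ : J ≤ ENNReal.ofReal X) (hN : N ≤ ENNReal.ofReal Y)
    (hZ : u * (v * (w * (4 * (X + Y)))) ≤ Z) :
    ENNReal.ofReal u * (ENNReal.ofReal v * (ENNReal.ofReal w * (4 * (J + N)))) ≤
      ENNReal.ofReal Z := by
  have h1 : (4 : ENNReal) * (J + N) ≤ ENNReal.ofReal (4 * (X + Y)) := by
    rw [ENNReal.ofReal_mul (by norm_num), ENNReal.ofReal_add hX hY, ENNReal.ofReal_ofNat]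
    exact mul_le_mul_right (add_le_add hJ hN) _
  have h2 : ENNReal.ofReal w * (4 * (J + N)) ≤ ENNReal.ofReal (w * (4 * (X + Y))) := by
    rw [ENNReal.ofReal_mul hw]
    exact mul_le_mul_right h1 _
  have h3 : ENNReal.ofReal v * (ENNReal.ofReal w * (4 * (J + N))) ≤
      ENNReal.ofReal (v * (w * (4 * (X + Y)))) := by
    rw [ENNReal.ofReal_mul hv]
    exact mul_le_mul_right h2 _
  calc ENNReal.ofReal u * (ENNReal.ofReal v * (ENNReal.ofReal w * (4 * (J + N))))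
      ≤ ENNReal.ofReal (u * (v * (w * (4 * (X + Y))))) := by
        rw [ENNReal.ofReal_mul hu]
        exact mul_le_mul_right h3 _
    _ ≤ ENNReal.ofReal Z := ENNReal.ofReal_le_ofReal hZ

lemma e4_sum (θ A a b c : ℝ) : e4S (J3 θ A) a b (tw c) + e4S (J3 θ A) a b (-tw c) =
    4 * (J3 θ A (tw a) (tw b) (tw c) + J3 θ A (-tw a) (-tw b) (-tw c)) := by
  have e1 : J3 θ A (tw a) (tw b) (-tw c) = J3 θ A (-tw a) (-tw b) (-tw c) :=
    (J3_flip12 θ A _ _ _).symm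
  have e2 : J3 θ A (tw a) (-tw b) (tw c) = J3 θ A (-tw a) (-tw b) (-tw c) := by
    have := J3_flip13 θ A (tw a) (-tw b) (tw c)
    exact this.symm
  have e3 : J3 θ A (tw a) (-tw b) (-tw c) = J3 θ A (tw a) (tw b) (tw c) := J3_flip23 θ A _ _ _
  have e4 : J3 θ A (-tw a) (tw b) (tw c) = J3 θ A (-tw a) (-tw b) (-tw c) :=
    (J3_flip23 θ A _ _ _).symm
  have e5 : J3 θ A (-tw a) (tw b) (-tw c) = J3 θ A (tw a) (tw b) (tw c) := J3_flip13 θ A _ _ _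
  have e6 : J3 θ A (-tw a) (-tw b) (tw c) = J3 θ A (tw a) (tw b) (tw c) := J3_flip12 θ A _ _ _
  unfold e4S
  rw [e1, e2, e3, e4, e5, e6]
  ring

lemma e4_point {θ A a b c : ℝ} (hθ : 0 < θ) (hA : 0 ≤ A) (ha : a ∈ Set.Ioo (0 : ℝ) 1)
    (hb : b ∈ Set.Ioo (0 : ℝ) 1) (hc : c ∈ Set.Ioo (0 : ℝ) 1) :
    ENNReal.ofReal (1 / (1 + a ^ 2)) * (ENNReal.ofReal (1 / (1 + b ^ 2)) *
      (ENNReal.ofReal (1 / (1 + c ^ 2)) *
        (e4S (J3 θ A) a b (tw c) + e4S (J3 θ A) a b (-tw c)))) ≤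
      ENNReal.ofReal (e4G θ A a b c) := by
  rw [e4_sum]
  have ta := e4_tw_pos ha.1 ha.2
  have tb := e4_tw_pos hb.1 hb.2
  have tc := e4_tw_pos hc.1 hc.2
  have hq0 := e4_q_nonneg ta tb tc
  have hq1 := e4_q_le ta tb tc
  have hJ := J3_pos hθ hA ta tb tc (e4_tw_lt ha.1) (e4_tw_lt hb.1) (e4_tw_lt hc.1)
  have hN := J3_neg hθ hA ta tb tc (e4_tw_lt ha.1) (e4_tw_lt hb.1) (e4_tw_lt hc.1)
  rw [e4_one_add_tw, e4_one_add_tw, e4_one_add_tw] at hJ hN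
  refine e4_abs (by positivity) (by positivity) (by positivity) ?_ ?_ hJ hN ?_
  · positivity
  · have : 0 ≤ 1 - q3 (tw a) (tw b) (tw c) := by linarith
    positivity
  · rw [e4_real]
    unfold e4G
    have h4 : 0 ≤ 4 / 3 * θ ^ 3 := by positivity
    refine mul_le_mul_of_nonneg_left ?_ h4
    have : 0 ≤ θ * q3 (tw a) (tw b) (tw c) ^ 2 := by positivity
    linarith

/-! ### assembly -/

/-- one substituted integral -/
noncomputable def e4T (f : ℝ → ENNReal) : ENNReal :=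
  ∫⁻ w in Set.Ioo (0 : ℝ) 1, ENNReal.ofReal (1 / (1 + w ^ 2)) * (f (tw w) + f (-tw w))

lemma e4T_add (f g : ℝ → ENNReal) : e4T f + e4T g ≤ e4T (fun s => f s + g s) := by
  unfold e4T
  refine (le_lintegral_add _ _).trans (lintegral_mono fun w => ?_)
  change ENNReal.ofReal (1 / (1 + w ^ 2)) * (f (tw w) + f (-tw w)) +
    ENNReal.ofReal (1 / (1 + w ^ 2)) * (g (tw w) + g (-tw w)) ≤
    ENNReal.ofReal (1 / (1 + w ^ 2)) * (f (tw w) + g (tw w) + (f (-tw w) + g (-tw w)))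
  apply le_of_eq
  ring

lemma e4T_mono {f g : ℝ → ENNReal} (h : ∀ s, f s ≤ g s) : e4T f ≤ e4T g :=
  lintegral_mono fun _ => mul_le_mul_right (add_le_add (h _) (h _)) _

lemma e4_gen (K : ℝ → ℝ → ℝ → ENNReal) :
    ∫⁻ a in Set.Ioo (0 : ℝ) (Real.pi / 2), ∫⁻ b in Set.Ioo (0 : ℝ) (Real.pi / 2),
      ∫⁻ c in Set.Ioo (0 : ℝ) (Real.pi / 2),
        K (Real.cos (2 * a)) (Real.cos (2 * b)) (Real.cos (2 * c)) ≤
    e4T (fun s1 => e4T (fun s2 => e4T (K s1 s2))) := by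
  calc ∫⁻ a in Set.Ioo (0 : ℝ) (Real.pi / 2), ∫⁻ b in Set.Ioo (0 : ℝ) (Real.pi / 2),
      ∫⁻ c in Set.Ioo (0 : ℝ) (Real.pi / 2),
        K (Real.cos (2 * a)) (Real.cos (2 * b)) (Real.cos (2 * c))
      ≤ ∫⁻ a in Set.Ioo (0 : ℝ) (Real.pi / 2), ∫⁻ b in Set.Ioo (0 : ℝ) (Real.pi / 2),
        e4T (K (Real.cos (2 * a)) (Real.cos (2 * b))) :=
        lintegral_mono fun a => lintegral_mono fun b => e4_sub _
    _ ≤ ∫⁻ a in Set.Ioo (0 : ℝ) (Real.pi / 2), e4T (fun s2 => e4T (K (Real.cos (2 * a)) s2)) :=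
        lintegral_mono fun a => e4_sub (fun s2 => e4T (K (Real.cos (2 * a)) s2))
    _ ≤ _ := e4_sub (fun s1 => e4T (fun s2 => e4T (K s1 s2)))

lemma e4_gen2 (K : ℝ → ℝ → ℝ → ENNReal) :
    e4T (fun s1 => e4T (fun s2 => e4T (K s1 s2))) ≤
    ∫⁻ a in Set.Ioo (0 : ℝ) 1, ∫⁻ b in Set.Ioo (0 : ℝ) 1, ∫⁻ c in Set.Ioo (0 : ℝ) 1,
      ENNReal.ofReal (1 / (1 + a ^ 2)) * (ENNReal.ofReal (1 / (1 + b ^ 2)) *
        (ENNReal.ofReal (1 / (1 + c ^ 2)) * (e4S K a b (tw c) + e4S K a b (-tw c)))) := by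
  have hb : ∀ a b : ℝ, (e4T (K (tw a) (tw b)) + e4T (K (-tw a) (tw b))) +
      (e4T (K (tw a) (-tw b)) + e4T (K (-tw a) (-tw b))) ≤ e4T (e4S K a b) := fun a b =>
    (add_le_add (e4T_add _ _) (e4T_add _ _)).trans (e4T_add _ _)
  have ha : ∀ a : ℝ, e4T (fun s2 => e4T (K (tw a) s2)) + e4T (fun s2 => e4T (K (-tw a) s2)) ≤
      ∫⁻ b in Set.Ioo (0 : ℝ) 1, ENNReal.ofReal (1 / (1 + b ^ 2)) * e4T (e4S K a b) := fun a =>
    (e4T_add _ _).trans (lintegral_mono fun b => mul_le_mul_right (hb a b) _)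
  refine lintegral_mono fun a => ?_
  refine (mul_le_mul_right (ha a) _).trans ?_
  rw [← lintegral_const_mul' _ _ ENNReal.ofReal_ne_top]
  refine lintegral_mono fun b => ?_
  unfold e4T
  rw [lintegral_const_mul' _ _ ENNReal.ofReal_ne_top,
    lintegral_const_mul' _ _ ENNReal.ofReal_ne_top]

lemma e4_reduce {θ A : ℝ} (hθ : 0 < θ) (hA : 0 ≤ A) :
    ∫⁻ a in Set.Ioo (0 : ℝ) (Real.pi / 2), ∫⁻ b in Set.Ioo (0 : ℝ) (Real.pi / 2),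
      ∫⁻ c in Set.Ioo (0 : ℝ) (Real.pi / 2),
        J3 θ A (Real.cos (2 * a)) (Real.cos (2 * b)) (Real.cos (2 * c)) ≤
    ∫⁻ a in Set.Ioo (0 : ℝ) 1, ∫⁻ b in Set.Ioo (0 : ℝ) 1, ∫⁻ c in Set.Ioo (0 : ℝ) 1,
        ENNReal.ofReal (e4G θ A a b c) := by
  refine ((e4_gen (J3 θ A)).trans (e4_gen2 (J3 θ A))).trans ?_
  exact setLIntegral_mono' measurableSet_Ioo fun a ha =>
    setLIntegral_mono' measurableSet_Ioo fun b hb =>
    setLIntegral_mono' measurableSet_Ioo fun c hc => e4_point hθ hA ha hb hc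

lemma e4_split {u v : ℝ → ℝ → ℝ → ENNReal}
    (hu : Measurable (fun p : (ℝ × ℝ) × ℝ => u p.1.1 p.1.2 p.2)) {k : ENNReal} (hk : k ≠ ⊤) :
    ∫⁻ a in Set.Ioo (0 : ℝ) 1, ∫⁻ b in Set.Ioo (0 : ℝ) 1, ∫⁻ c in Set.Ioo (0 : ℝ) 1,
        k * (u a b c + v a b c) =
      k * ((∫⁻ a in Set.Ioo (0 : ℝ) 1, ∫⁻ b in Set.Ioo (0 : ℝ) 1, ∫⁻ c in Set.Ioo (0 : ℝ) 1,
        u a b c) + ∫⁻ a in Set.Ioo (0 : ℝ) 1, ∫⁻ b in Set.Ioo (0 : ℝ) 1,
          ∫⁻ c in Set.Ioo (0 : ℝ) 1, v a b c) := by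
  have hmc : ∀ a b : ℝ, Measurable (fun c => u a b c) := fun a b =>
    hu.comp (f := fun c : ℝ => ((a, b), c)) (by fun_prop)
  have hmU1 : Measurable (fun p : ℝ × ℝ => ∫⁻ c in Set.Ioo (0 : ℝ) 1, u p.1 p.2 c) :=
    hu.lintegral_prod_right'
  have hmb : ∀ a : ℝ, Measurable (fun b => ∫⁻ c in Set.Ioo (0 : ℝ) 1, u a b c) := fun a =>
    hmU1.comp (f := fun b : ℝ => (a, b)) (by fun_prop)
  have hma : Measurable (fun a : ℝ => ∫⁻ b in Set.Ioo (0 : ℝ) 1, ∫⁻ c in Set.Ioo (0 : ℝ) 1,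
      u a b c) := hmU1.lintegral_prod_right'
  have e1 : ∀ a b : ℝ, ∫⁻ c in Set.Ioo (0 : ℝ) 1, k * (u a b c + v a b c) =
      k * ((∫⁻ c in Set.Ioo (0 : ℝ) 1, u a b c) + ∫⁻ c in Set.Ioo (0 : ℝ) 1, v a b c) := by
    intro a b
    rw [lintegral_const_mul' _ _ hk, lintegral_add_left (hmc a b)]
  have e2 : ∀ a : ℝ, ∫⁻ b in Set.Ioo (0 : ℝ) 1, ∫⁻ c in Set.Ioo (0 : ℝ) 1,
      k * (u a b c + v a b c) = k * ((∫⁻ b in Set.Ioo (0 : ℝ) 1, ∫⁻ c in Set.Ioo (0 : ℝ) 1,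
        u a b c) + ∫⁻ b in Set.Ioo (0 : ℝ) 1, ∫⁻ c in Set.Ioo (0 : ℝ) 1, v a b c) := by
    intro a
    rw [lintegral_congr (fun b => e1 a b), lintegral_const_mul' _ _ hk,
      lintegral_add_left (hmb a)]
  rw [lintegral_congr (fun a => e2 a), lintegral_const_mul' _ _ hk, lintegral_add_left hma]

/-- the two summands of the final integrand -/
noncomputable def e4u (θ A a b c : ℝ) : ℝ := A + θ * ((3 + a ^ 2 + b ^ 2 + c ^ 2) / 2)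

/-- the two summands of the final integrand -/
noncomputable def e4v (θ A a b c : ℝ) : ℝ :=
  q3 (tw a) (tw b) (tw c) * (A + θ + θ * ((3 + a ^ 2 + b ^ 2 + c ^ 2) / 2))

lemma e4_meas (θ A : ℝ) : Measurable (fun p : (ℝ × ℝ) × ℝ => e4v θ A p.1.1 p.1.2 p.2) := by
  unfold e4v q3 tw
  fun_prop

lemma e4_measu (θ A : ℝ) : Measurable (fun p : (ℝ × ℝ) × ℝ => e4u θ A p.1.1 p.1.2 p.2) := by
  unfold e4u
  fun_prop

lemma e4_sq {a : ℝ} (ha : a ∈ Set.Ioo (0 : ℝ) 1) : a ^ 2 ≤ 1 := by nlinarith [ha.1, ha.2]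

lemma e4v_nonneg {θ A : ℝ} (hθ : 0 < θ) (hA : 0 ≤ A) : ∀ a ∈ Set.Ioo (0 : ℝ) 1,
    ∀ b ∈ Set.Ioo (0 : ℝ) 1, ∀ c ∈ Set.Ioo (0 : ℝ) 1, 0 ≤ e4v θ A a b c := by
  intro a ha b hb c hc
  have := e4_q_nonneg (e4_tw_pos ha.1 ha.2) (e4_tw_pos hb.1 hb.2) (e4_tw_pos hc.1 hc.2)
  unfold e4v
  positivity

lemma e4v_le {θ A : ℝ} (hθ : 0 < θ) (hA : 0 ≤ A) : ∀ a ∈ Set.Ioo (0 : ℝ) 1,
    ∀ b ∈ Set.Ioo (0 : ℝ) 1, ∀ c ∈ Set.Ioo (0 : ℝ) 1,
    e4v θ A a b c ≤ 1 * (A + θ + θ * ((3 + 1 + 1 + 1) / 2)) := by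
  intro a ha b hb c hc
  have h0 := e4_q_nonneg (e4_tw_pos ha.1 ha.2) (e4_tw_pos hb.1 hb.2) (e4_tw_pos hc.1 hc.2)
  have h1 := e4_q_le (e4_tw_pos ha.1 ha.2) (e4_tw_pos hb.1 hb.2) (e4_tw_pos hc.1 hc.2)
  have h2 := e4_sq ha
  have h3 := e4_sq hb
  have h4 := e4_sq hc
  unfold e4v
  gcongr

lemma e4u_nonneg {θ A : ℝ} (hθ : 0 < θ) (hA : 0 ≤ A) (a b c : ℝ) : 0 ≤ e4u θ A a b c := by
  unfold e4u; positivity

lemma e4u_le {θ A : ℝ} (hθ : 0 < θ) : ∀ a ∈ Set.Ioo (0 : ℝ) 1,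
    ∀ b ∈ Set.Ioo (0 : ℝ) 1, ∀ c ∈ Set.Ioo (0 : ℝ) 1,
    e4u θ A a b c ≤ A + θ * ((3 + 1 + 1 + 1) / 2) := by
  intro a ha b hb c hc
  have h2 := e4_sq ha
  have h3 := e4_sq hb
  have h4 := e4_sq hc
  unfold e4u
  gcongr

lemma e4_quad (p q : ℝ) : ∫ b in (0 : ℝ)..1, (p + q * b ^ 2) = p + q / 3 := by
  rw [intervalIntegral.integral_add (by simp) (by
    apply Continuous.intervalIntegrable; fun_prop), intervalIntegral.integral_const_mul]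
  simp only [intervalIntegral.integral_const, integral_pow]
  norm_num
  ring

lemma e4_uval (θ A : ℝ) : ∫ a in (0 : ℝ)..1, ∫ b in (0 : ℝ)..1, ∫ c in (0 : ℝ)..1,
    e4u θ A a b c = A + 2 * θ := by
  have i1 : ∀ a b : ℝ, ∫ c in (0 : ℝ)..1, e4u θ A a b c =
      (A + θ * (3 + a ^ 2 + 1 / 3) / 2) + θ / 2 * b ^ 2 := by
    intro a b
    have : ∀ c : ℝ, e4u θ A a b c = (A + θ * (3 + a ^ 2 + b ^ 2) / 2) + θ / 2 * c ^ 2 :=
      fun c => by unfold e4u; ring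
    simp only [this]
    rw [e4_quad]
    ring
  have i2 : ∀ a : ℝ, ∫ b in (0 : ℝ)..1, ∫ c in (0 : ℝ)..1, e4u θ A a b c =
      (A + θ * (3 + 2 / 3) / 2) + θ / 2 * a ^ 2 := by
    intro a
    simp only [i1]
    rw [e4_quad]
    ring
  simp only [i2]
  rw [e4_quad]
  ring

lemma e4_total {θ A : ℝ} (hθ : 0 < θ) (hA : 0 ≤ A) :
    ∫⁻ a in Set.Ioo (0 : ℝ) 1, ∫⁻ b in Set.Ioo (0 : ℝ) 1, ∫⁻ c in Set.Ioo (0 : ℝ) 1,
        ENNReal.ofReal (e4G θ A a b c) = ENNReal.ofReal (4 / 3 * θ ^ 3) *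
      (ENNReal.ofReal (A + 2 * θ) + ENNReal.ofReal (∫ a in (0 : ℝ)..1, ∫ b in (0 : ℝ)..1,
        ∫ c in (0 : ℝ)..1, e4v θ A a b c)) := by
  have hk : (0 : ℝ) ≤ 4 / 3 * θ ^ 3 := by positivity
  rw [← e4_iter (e4_meas θ A) (e4v_nonneg hθ hA) (e4v_le hθ hA), ← e4_uval,
    ← e4_iter (e4_measu θ A) (fun a _ b _ c _ => e4u_nonneg hθ hA a b c) (e4u_le hθ),
    ← e4_split (u := fun a b c => ENNReal.ofReal (e4u θ A a b c))
      (v := fun a b c => ENNReal.ofReal (e4v θ A a b c)) (e4_measu θ A).ennreal_ofReal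
      ENNReal.ofReal_ne_top]
  refine setLIntegral_congr_fun measurableSet_Ioo fun a ha => ?_
  refine setLIntegral_congr_fun measurableSet_Ioo fun b hb => ?_
  refine setLIntegral_congr_fun measurableSet_Ioo fun c hc => ?_
  change ENNReal.ofReal (e4G θ A a b c) = ENNReal.ofReal (4 / 3 * θ ^ 3) *
    (ENNReal.ofReal (e4u θ A a b c) + ENNReal.ofReal (e4v θ A a b c))
  rw [← ENNReal.ofReal_add (e4u_nonneg hθ hA a b c) (e4v_nonneg hθ hA a ha b hb c hc),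
    ← ENNReal.ofReal_mul hk]
  rfl

lemma e4_last {θ Q A : ℝ} (hθ : 0 < θ) (hA : 0 ≤ A) (hQ0 : 0 ≤ Q) :
    ENNReal.ofReal ((2 / Real.pi) ^ 3) * (ENNReal.ofReal (4 / 3 * θ ^ 3) *
      (ENNReal.ofReal (A + 2 * θ) + ENNReal.ofReal Q)) =
    ENNReal.ofReal (32 / 3 * (θ ^ 3 / Real.pi ^ 3) * ((A + 2 * θ) + Q)) := by
  have hk : (0 : ℝ) ≤ 4 / 3 * θ ^ 3 := by positivity
  rw [← ENNReal.ofReal_add (by positivity) hQ0, ← ENNReal.ofReal_mul hk,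
    ← ENNReal.ofReal_mul (by positivity)]
  congr 1
  have hpi : Real.pi ≠ 0 := Real.pi_ne_zero
  field_simp
  ring

theorem K6_le {θ A : ℝ} (hθ : 0 < θ) (hA : 0 ≤ A) : K6 θ A ≤
    ENNReal.ofReal (32 / 3 * (θ ^ 3 / Real.pi ^ 3) * ((A + 2 * θ) +
      ∫ a in (0 : ℝ)..1, ∫ b in (0 : ℝ)..1, ∫ c in (0 : ℝ)..1,
        q3 (tw a) (tw b) (tw c) * (A + θ + θ * ((3 + a ^ 2 + b ^ 2 + c ^ 2) / 2)))) := by
  rw [K6_eq]
  have hQ0 : 0 ≤ ∫ a in (0 : ℝ)..1, ∫ b in (0 : ℝ)..1, ∫ c in (0 : ℝ)..1, e4v θ A a b c :=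
    e4_int_nonneg fun a ha => e4_int_nonneg fun b hb =>
      e4_int_nonneg fun c hc => e4v_nonneg hθ hA a ha b hb c hc
  refine (mul_le_mul_right (e4_reduce hθ hA) _).trans ?_
  rw [e4_total hθ hA, e4_last hθ hA hQ0]
  exact le_of_eq rfl

end Pool.Agent.SixthMoment
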