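import Mathlib
import Pool.Agent.Lib_MP_112ba8_s.Defs

/-! Piece E5: an explicit bound for an integral over the cube. -/

namespace Pool.Agent.SixthMoment

open Filter Topology MeasureTheory

namespace E5

theorem tw_cont : Continuous tw := by
  unfold tw
  refine Continuous.div (by fun_prop) (by fun_prop) ?_
  intro x
  positivity

/-- moments of `tw` -/
theorem mom (p0 p1 p2 p3 q0 q1 q2 q3 : ℝ) :
    ∫ c in (0 : ℝ)..1, (p0 + p1 * c ^ 2 + p2 * c ^ 4 + p3 * c ^ 6 +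
      (q0 + q1 * c ^ 2 + q2 * c ^ 4 + q3 * c ^ 6) * tw c) =
    p0 + p1 / 3 + p2 / 5 + p3 / 7 + (q0 * (Real.pi / 2 - 1) + q1 * (5 / 3 - Real.pi / 2) +
      q2 * (Real.pi / 2 - 23 / 15) + q3 * (167 / 105 - Real.pi / 2)) := by
  have hd : ∀ x ∈ Set.uIcc (0 : ℝ) 1, HasDerivAt (fun c : ℝ =>
      (p0 - q0 + 2 * q1 - 2 * q2 + 2 * q3) * c + (p1 - q1 + 2 * q2 - 2 * q3) / 3 * c ^ 3 +
      (p2 - q2 + 2 * q3) / 5 * c ^ 5 + (p3 - q3) / 7 * c ^ 7 +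
      (2 * q0 - 2 * q1 + 2 * q2 - 2 * q3) * Real.arctan c)
      (p0 + p1 * x ^ 2 + p2 * x ^ 4 + p3 * x ^ 6 +
      (q0 + q1 * x ^ 2 + q2 * x ^ 4 + q3 * x ^ 6) * tw x) x := by
    intro x _
    have h1 : HasDerivAt (fun c : ℝ => c) 1 x := hasDerivAt_id x
    have h3 := (hasDerivAt_pow 3 x).const_mul ((p1 - q1 + 2 * q2 - 2 * q3) / 3)
    have h5 := (hasDerivAt_pow 5 x).const_mul ((p2 - q2 + 2 * q3) / 5)
    have h7 := (hasDerivAt_pow 7 x).const_mul ((p3 - q3) / 7)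
    have ha := (Real.hasDerivAt_arctan x).const_mul (2 * q0 - 2 * q1 + 2 * q2 - 2 * q3)
    have h := ((((h1.const_mul (p0 - q0 + 2 * q1 - 2 * q2 + 2 * q3)).add h3).add h5).add h7).add ha
    refine h.congr_deriv ?_
    unfold tw
    have hx : (1 : ℝ) + x ^ 2 ≠ 0 := by positivity
    field_simp
    ring
  rw [intervalIntegral.integral_eq_sub_of_hasDerivAt hd]
  · simp only [Real.arctan_one, Real.arctan_zero]
    ring
  · apply Continuous.intervalIntegrable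
    have := tw_cont
    fun_prop

/-- the bound from the Cauchy inequality -/
noncomputable def qb (a b c : ℝ) : ℝ :=
  (1 / 4 - (a ^ 2 + b ^ 2 + c ^ 2) / 8) ^ 2 +
  (1 / 4 + a ^ 2 / 2 - 3 / 16 * (b ^ 2 + c ^ 2)) ^ 2 * tw a +
  (1 / 4 + b ^ 2 / 2 - 3 / 16 * (a ^ 2 + c ^ 2)) ^ 2 * tw b +
  (1 / 4 + c ^ 2 / 2 - 3 / 16 * (a ^ 2 + b ^ 2)) ^ 2 * tw c

noncomputable def GG (A θ a b c : ℝ) : ℝ :=
  qb a b c * (A + θ + θ * ((3 + a ^ 2 + b ^ 2 + c ^ 2) / 2))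

theorem cauchy4 {s t u : ℝ} (hs : 0 ≤ s) (ht : 0 ≤ t) (hu : 0 ≤ u) (l0 l1 l2 l3 : ℝ)
    (hl : l0 + l1 + l2 + l3 = 1) :
    q3 s t u ≤ l0 ^ 2 + l1 ^ 2 * s + l2 ^ 2 * t + l3 ^ 2 * u := by
  unfold q3
  have hst := mul_nonneg hs ht
  have hsu := mul_nonneg hs hu
  have htu := mul_nonneg ht hu
  have hstu := mul_nonneg hst hu
  have hR : 0 ≤ l0 ^ 2 + l1 ^ 2 * s + l2 ^ 2 * t + l3 ^ 2 * u := by positivity
  rcases (show 0 ≤ s * t * u + s * t + s * u + t * u by positivity).eq_or_lt with h | h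
  · rw [← h, div_zero]
    exact hR
  · rw [div_le_iff₀ h]
    have e : (l0 ^ 2 + l1 ^ 2 * s + l2 ^ 2 * t + l3 ^ 2 * u) *
        (s * t * u + s * t + s * u + t * u) - (l0 + l1 + l2 + l3) ^ 2 * (s * t * u) =
        (l0 - l1 * s) ^ 2 * (t * u) + (l0 - l2 * t) ^ 2 * (s * u) + (l0 - l3 * u) ^ 2 * (s * t) +
        (l1 * s - l2 * t) ^ 2 * u + (l1 * s - l3 * u) ^ 2 * t + (l2 * t - l3 * u) ^ 2 * s := by
      ring
    rw [hl] at e
    have h2 : 0 ≤ (l0 - l1 * s) ^ 2 * (t * u) + (l0 - l2 * t) ^ 2 * (s * u) +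
        (l0 - l3 * u) ^ 2 * (s * t) +
        (l1 * s - l2 * t) ^ 2 * u + (l1 * s - l3 * u) ^ 2 * t + (l2 * t - l3 * u) ^ 2 * s := by
      positivity
    linarith

theorem tw_nonneg {w : ℝ} (h0 : 0 ≤ w) (h1 : w ≤ 1) : 0 ≤ tw w := by
  unfold tw
  have : w ^ 2 ≤ 1 := pow_le_one₀ h0 h1
  exact div_nonneg (by linarith) (by positivity)

theorem q3_nonneg {s t u : ℝ} (hs : 0 ≤ s) (ht : 0 ≤ t) (hu : 0 ≤ u) : 0 ≤ q3 s t u := by
  unfold q3
  positivity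

theorem GG_cont_c (A θ a b : ℝ) : Continuous (fun c => GG A θ a b c) := by
  unfold GG qb
  have := tw_cont
  fun_prop

/-- the integral over `c` -/
noncomputable def G1 (A θ a b : ℝ) : ℝ :=
  (29/280) * θ + (1/16) * θ * Real.pi + (1/64) * A + (1/32) * A * Real.pi + (667/6720) * tw b *
  θ + (49/1280) * tw b * A + (667/6720) * tw a * θ + (49/1280) * tw a * A + (-391/640) * b^2 * θ
  + (7/64) * b^2 * θ * Real.pi + (-13/48) * b^2 * A + (3/64) * b^2 * A * Real.pi + (3923/7680) *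
  b^2 * tw b * θ + (3/16) * b^2 * tw b * A + (-423/2560) * b^2 * tw a * θ + (-9/128) * b^2 * tw
  a * A + (-39/256) * b^4 * θ + (15/256) * b^4 * θ * Real.pi + (-5/256) * b^4 * A + (9/512) *
  b^4 * A * Real.pi + (73/96) * b^4 * tw b * θ + (1/4) * b^4 * tw b * A + (15/256) * b^4 * tw a
  * θ + (9/256) * b^4 * tw a * A + (-5/512) * b^6 * θ + (9/1024) * b^6 * θ * Real.pi + (1/8) *
  b^6 * tw b * θ + (9/512) * b^6 * tw a * θ + (-391/640) * a^2 * θ + (7/64) * a^2 * θ * Real.pi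
  + (-13/48) * a^2 * A + (3/64) * a^2 * A * Real.pi + (-423/2560) * a^2 * tw b * θ + (-9/128) *
  a^2 * tw b * A + (3923/7680) * a^2 * tw a * θ + (3/16) * a^2 * tw a * A + (-39/128) * a^2 *
  b^2 * θ + (15/128) * a^2 * b^2 * θ * Real.pi + (-5/128) * a^2 * b^2 * A + (9/256) * a^2 * b^2
  * A * Real.pi + (-113/256) * a^2 * b^2 * tw b * θ + (-3/16) * a^2 * b^2 * tw b * A +
  (-113/256) * a^2 * b^2 * tw a * θ + (-3/16) * a^2 * b^2 * tw a * A + (-15/512) * a^2 * b^4 * θ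
  + (27/1024) * a^2 * b^4 * θ * Real.pi + (1/32) * a^2 * b^4 * tw b * θ + (-39/512) * a^2 * b^4
  * tw a * θ + (-39/256) * a^4 * θ + (15/256) * a^4 * θ * Real.pi + (-5/256) * a^4 * A + (9/512)
  * a^4 * A * Real.pi + (15/256) * a^4 * tw b * θ + (9/256) * a^4 * tw b * A + (73/96) * a^4 *
  tw a * θ + (1/4) * a^4 * tw a * A + (-15/512) * a^4 * b^2 * θ + (27/1024) * a^4 * b^2 * θ *
  Real.pi + (-39/512) * a^4 * b^2 * tw b * θ + (1/32) * a^4 * b^2 * tw a * θ + (-5/512) * a^6 *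
  θ + (9/1024) * a^6 * θ * Real.pi + (9/512) * a^6 * tw b * θ + (1/8) * a^6 * tw a * θ

/-- the integral over `b` -/
noncomputable def G2 (A θ a : ℝ) : ℝ :=
  (-27983/80640) * θ + (2407/10752) * θ * Real.pi + (-1081/5760) * A + (129/1280) * A * Real.pi
  + (157/2688) * tw a * θ + (7/320) * tw a * A + (-1711/1280) * a^2 * θ + (787/2560) * a^2 * θ *
  Real.pi + (-101/192) * a^2 * A + (15/128) * a^2 * A * Real.pi + (223/640) * a^2 * tw a * θ +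
  (1/8) * a^2 * tw a * A + (-89/256) * a^4 * θ + (69/512) * a^4 * θ * Real.pi + (-7/128) * a^4 *
  A + (9/256) * a^4 * A * Real.pi + (37/48) * a^4 * tw a * θ + (1/4) * a^4 * tw a * A + (-7/256)
  * a^6 * θ + (9/512) * a^6 * θ * Real.pi + (1/8) * a^6 * tw a * θ

theorem G1_cont (A θ a : ℝ) : Continuous (fun b => G1 A θ a b) := by
  unfold G1
  have := tw_cont
  fun_prop

theorem G2_cont (A θ : ℝ) : Continuous (fun a => G2 A θ a) := by
  unfold G2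
  have := tw_cont
  fun_prop

theorem int_c (A θ a b : ℝ) : ∫ c in (0 : ℝ)..1, GG A θ a b c = G1 A θ a b := by
  have h := mom
      ((5/32) * θ + (1/16) * A + (5/32) * tw b * θ + (1/16) * tw b * A + (5/32) * tw a * θ +
      (1/16) * tw a * A + (-1/8) * b^2 * θ + (-1/16) * b^2 * A + (21/32) * b^2 * tw b * θ +
      (1/4) * b^2 * tw b * A + (-13/64) * b^2 * tw a * θ + (-3/32) * b^2 * tw a * A + (1/128) *
      b^4 * θ + (1/64) * b^4 * A + (3/4) * b^4 * tw b * θ + (1/4) * b^4 * tw b * A + (21/512) *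
      b^4 * tw a * θ + (9/256) * b^4 * tw a * A + (1/128) * b^6 * θ + (1/8) * b^6 * tw b * θ +
      (9/512) * b^6 * tw a * θ + (-1/8) * a^2 * θ + (-1/16) * a^2 * A + (-13/64) * a^2 * tw b *
      θ + (-3/32) * a^2 * tw b * A + (21/32) * a^2 * tw a * θ + (1/4) * a^2 * tw a * A + (1/64)
      * a^2 * b^2 * θ + (1/32) * a^2 * b^2 * A + (-25/64) * a^2 * b^2 * tw b * θ + (-3/16) * a^2
      * b^2 * tw b * A + (-25/64) * a^2 * b^2 * tw a * θ + (-3/16) * a^2 * b^2 * tw a * A +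
      (3/128) * a^2 * b^4 * θ + (1/32) * a^2 * b^4 * tw b * θ + (-39/512) * a^2 * b^4 * tw a * θ
      + (1/128) * a^4 * θ + (1/64) * a^4 * A + (21/512) * a^4 * tw b * θ + (9/256) * a^4 * tw b
      * A + (3/4) * a^4 * tw a * θ + (1/4) * a^4 * tw a * A + (3/128) * a^4 * b^2 * θ +
      (-39/512) * a^4 * b^2 * tw b * θ + (1/32) * a^4 * b^2 * tw a * θ + (1/128) * a^6 * θ +
      (9/512) * a^6 * tw b * θ + (1/8) * a^6 * tw a * θ) ((-1/8) * θ + (-1/16) * A + (-13/64) *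
      tw b * θ + (-3/32) * tw b * A + (-13/64) * tw a * θ + (-3/32) * tw a * A + (1/64) * b^2 *
      θ + (1/32) * b^2 * A + (-25/64) * b^2 * tw b * θ + (-3/16) * b^2 * tw b * A + (21/256) *
      b^2 * tw a * θ + (9/128) * b^2 * tw a * A + (3/128) * b^4 * θ + (1/32) * b^4 * tw b * θ +
      (27/512) * b^4 * tw a * θ + (1/64) * a^2 * θ + (1/32) * a^2 * A + (21/256) * a^2 * tw b *
      θ + (9/128) * a^2 * tw b * A + (-25/64) * a^2 * tw a * θ + (-3/16) * a^2 * tw a * A +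
      (3/64) * a^2 * b^2 * θ + (-39/256) * a^2 * b^2 * tw b * θ + (-39/256) * a^2 * b^2 * tw a *
      θ + (3/128) * a^4 * θ + (27/512) * a^4 * tw b * θ + (1/32) * a^4 * tw a * θ) ((1/128) * θ
      + (1/64) * A + (21/512) * tw b * θ + (9/256) * tw b * A + (21/512) * tw a * θ + (9/256) *
      tw a * A + (3/128) * b^2 * θ + (-39/512) * b^2 * tw b * θ + (27/512) * b^2 * tw a * θ +
      (3/128) * a^2 * θ + (27/512) * a^2 * tw b * θ + (-39/512) * a^2 * tw a * θ) ((1/128) * θ +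
      (9/512) * tw b * θ + (9/512) * tw a * θ) ((5/32) * θ + (1/16) * A + (-13/64) * b^2 * θ +
      (-3/32) * b^2 * A + (21/512) * b^4 * θ + (9/256) * b^4 * A + (9/512) * b^6 * θ + (-13/64)
      * a^2 * θ + (-3/32) * a^2 * A + (21/256) * a^2 * b^2 * θ + (9/128) * a^2 * b^2 * A +
      (27/512) * a^2 * b^4 * θ + (21/512) * a^4 * θ + (9/256) * a^4 * A + (27/512) * a^4 * b^2 *
      θ + (9/512) * a^6 * θ) ((21/32) * θ + (1/4) * A + (-25/64) * b^2 * θ + (-3/16) * b^2 * A +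
      (-39/512) * b^4 * θ + (-25/64) * a^2 * θ + (-3/16) * a^2 * A + (-39/256) * a^2 * b^2 * θ +
      (-39/512) * a^4 * θ) ((3/4) * θ + (1/4) * A + (1/32) * b^2 * θ + (1/32) * a^2 * θ) ((1/8)
      * θ)
  rw [show (fun c : ℝ => GG A θ a b c) = _ from ?_, h]
  · unfold G1
    ring
  · funext c
    unfold GG qb
    ring

theorem int_b (A θ a : ℝ) : ∫ b in (0 : ℝ)..1, G1 A θ a b = G2 A θ a := by
  have h := mom
      ((29/280) * θ + (1/16) * θ * Real.pi + (1/64) * A + (1/32) * A * Real.pi + (667/6720) * tw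
      a * θ + (49/1280) * tw a * A + (-391/640) * a^2 * θ + (7/64) * a^2 * θ * Real.pi +
      (-13/48) * a^2 * A + (3/64) * a^2 * A * Real.pi + (3923/7680) * a^2 * tw a * θ + (3/16) *
      a^2 * tw a * A + (-39/256) * a^4 * θ + (15/256) * a^4 * θ * Real.pi + (-5/256) * a^4 * A +
      (9/512) * a^4 * A * Real.pi + (73/96) * a^4 * tw a * θ + (1/4) * a^4 * tw a * A + (-5/512)
      * a^6 * θ + (9/1024) * a^6 * θ * Real.pi + (1/8) * a^6 * tw a * θ) ((-391/640) * θ +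
      (7/64) * θ * Real.pi + (-13/48) * A + (3/64) * A * Real.pi + (-423/2560) * tw a * θ +
      (-9/128) * tw a * A + (-39/128) * a^2 * θ + (15/128) * a^2 * θ * Real.pi + (-5/128) * a^2
      * A + (9/256) * a^2 * A * Real.pi + (-113/256) * a^2 * tw a * θ + (-3/16) * a^2 * tw a * A
      + (-15/512) * a^4 * θ + (27/1024) * a^4 * θ * Real.pi + (1/32) * a^4 * tw a * θ)
      ((-39/256) * θ + (15/256) * θ * Real.pi + (-5/256) * A + (9/512) * A * Real.pi + (15/256)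
      * tw a * θ + (9/256) * tw a * A + (-15/512) * a^2 * θ + (27/1024) * a^2 * θ * Real.pi +
      (-39/512) * a^2 * tw a * θ) ((-5/512) * θ + (9/1024) * θ * Real.pi + (9/512) * tw a * θ)
      ((667/6720) * θ + (49/1280) * A + (-423/2560) * a^2 * θ + (-9/128) * a^2 * A + (15/256) *
      a^4 * θ + (9/256) * a^4 * A + (9/512) * a^6 * θ) ((3923/7680) * θ + (3/16) * A +
      (-113/256) * a^2 * θ + (-3/16) * a^2 * A + (-39/512) * a^4 * θ) ((73/96) * θ + (1/4) * A +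
      (1/32) * a^2 * θ) ((1/8) * θ)
  rw [show (fun b : ℝ => G1 A θ a b) = _ from ?_, h]
  · unfold G2
    ring
  · funext b
    unfold G1
    ring

theorem int_a (A θ : ℝ) : ∫ a in (0 : ℝ)..1, G2 A θ a =
      (-26749/20160) * θ + (2391/4480) * θ * Real.pi + (-137/240) * A + (141/640) * A * Real.pi := by
  have h := mom
      ((-27983/80640) * θ + (2407/10752) * θ * Real.pi + (-1081/5760) * A + (129/1280) * A *
      Real.pi) ((-1711/1280) * θ + (787/2560) * θ * Real.pi + (-101/192) * A + (15/128) * A *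
      Real.pi) ((-89/256) * θ + (69/512) * θ * Real.pi + (-7/128) * A + (9/256) * A * Real.pi)
      ((-7/256) * θ + (9/512) * θ * Real.pi) ((157/2688) * θ + (7/320) * A) ((223/640) * θ +
      (1/8) * A) ((37/48) * θ + (1/4) * A) ((1/8) * θ)
  rw [show (fun a : ℝ => G2 A θ a) = _ from ?_, h]
  · ring
  · funext a
    unfold G2
    ring

theorem mono01 {f g : ℝ → ℝ} (hf : ∀ x, 0 ≤ x → x ≤ 1 → 0 ≤ f x) (hg : Continuous g)
    (h : ∀ x, 0 ≤ x → x ≤ 1 → f x ≤ g x) :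
    ∫ x in (0 : ℝ)..1, f x ≤ ∫ x in (0 : ℝ)..1, g x := by
  rw [intervalIntegral.integral_of_le zero_le_one, intervalIntegral.integral_of_le zero_le_one]
  refine MeasureTheory.integral_mono_of_nonneg ?_ hg.integrableOn_Ioc ?_
  · exact (ae_restrict_iff' measurableSet_Ioc).2 (ae_of_all _ fun x hx => hf x hx.1.le hx.2)
  · exact (ae_restrict_iff' measurableSet_Ioc).2 (ae_of_all _ fun x hx => h x hx.1.le hx.2)

end E5

theorem int_q3_le {A θ : ℝ} (hA : 0 ≤ A) (hθ : 0 ≤ θ) :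
    ∫ a in (0 : ℝ)..1, ∫ b in (0 : ℝ)..1, ∫ c in (0 : ℝ)..1,
        q3 (tw a) (tw b) (tw c) * (A + θ + θ * ((3 + a ^ 2 + b ^ 2 + c ^ 2) / 2)) ≤
      (A + θ) * (1213 / 10000) + θ * (2286 / 10000) := by
  have hW : ∀ a b c : ℝ, 0 ≤ A + θ + θ * ((3 + a ^ 2 + b ^ 2 + c ^ 2) / 2) := by
    intro a b c
    positivity
  have hF0 : ∀ a b c : ℝ, 0 ≤ a → a ≤ 1 → 0 ≤ b → b ≤ 1 → 0 ≤ c → c ≤ 1 →
      0 ≤ q3 (tw a) (tw b) (tw c) * (A + θ + θ * ((3 + a ^ 2 + b ^ 2 + c ^ 2) / 2)) := by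
    intro a b c ha0 ha1 hb0 hb1 hc0 hc1
    exact mul_nonneg (E5.q3_nonneg (E5.tw_nonneg ha0 ha1) (E5.tw_nonneg hb0 hb1)
      (E5.tw_nonneg hc0 hc1)) (hW a b c)
  have hFG : ∀ a b c : ℝ, 0 ≤ a → a ≤ 1 → 0 ≤ b → b ≤ 1 → 0 ≤ c → c ≤ 1 →
      q3 (tw a) (tw b) (tw c) * (A + θ + θ * ((3 + a ^ 2 + b ^ 2 + c ^ 2) / 2)) ≤
        E5.GG A θ a b c := by
    intro a b c ha0 ha1 hb0 hb1 hc0 hc1
    unfold E5.GG
    refine mul_le_mul_of_nonneg_right ?_ (hW a b c)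
    have h := E5.cauchy4 (E5.tw_nonneg ha0 ha1) (E5.tw_nonneg hb0 hb1) (E5.tw_nonneg hc0 hc1)
      (1 / 4 - (a ^ 2 + b ^ 2 + c ^ 2) / 8) (1 / 4 + a ^ 2 / 2 - 3 / 16 * (b ^ 2 + c ^ 2))
      (1 / 4 + b ^ 2 / 2 - 3 / 16 * (a ^ 2 + c ^ 2)) (1 / 4 + c ^ 2 / 2 - 3 / 16 * (a ^ 2 + b ^ 2))
      (by ring)
    exact h
  have h1 : ∀ a b : ℝ, 0 ≤ a → a ≤ 1 → 0 ≤ b → b ≤ 1 → ∫ c in (0 : ℝ)..1,
      q3 (tw a) (tw b) (tw c) * (A + θ + θ * ((3 + a ^ 2 + b ^ 2 + c ^ 2) / 2)) ≤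
        E5.G1 A θ a b := by
    intro a b ha0 ha1 hb0 hb1
    rw [← E5.int_c]
    exact E5.mono01 (fun c hc0 hc1 => hF0 a b c ha0 ha1 hb0 hb1 hc0 hc1) (E5.GG_cont_c A θ a b)
      (fun c hc0 hc1 => hFG a b c ha0 ha1 hb0 hb1 hc0 hc1)
  have h10 : ∀ a b : ℝ, 0 ≤ a → a ≤ 1 → 0 ≤ b → b ≤ 1 → 0 ≤ ∫ c in (0 : ℝ)..1,
      q3 (tw a) (tw b) (tw c) * (A + θ + θ * ((3 + a ^ 2 + b ^ 2 + c ^ 2) / 2)) := by
    intro a b ha0 ha1 hb0 hb1
    exact intervalIntegral.integral_nonneg zero_le_one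
      (fun c hc => hF0 a b c ha0 ha1 hb0 hb1 hc.1 hc.2)
  have h2 : ∀ a : ℝ, 0 ≤ a → a ≤ 1 → ∫ b in (0 : ℝ)..1, ∫ c in (0 : ℝ)..1,
      q3 (tw a) (tw b) (tw c) * (A + θ + θ * ((3 + a ^ 2 + b ^ 2 + c ^ 2) / 2)) ≤
        E5.G2 A θ a := by
    intro a ha0 ha1
    rw [← E5.int_b]
    exact E5.mono01 (fun b hb0 hb1 => h10 a b ha0 ha1 hb0 hb1) (E5.G1_cont A θ a)
      (fun b hb0 hb1 => h1 a b ha0 ha1 hb0 hb1)
  have h20 : ∀ a : ℝ, 0 ≤ a → a ≤ 1 → 0 ≤ ∫ b in (0 : ℝ)..1, ∫ c in (0 : ℝ)..1,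
      q3 (tw a) (tw b) (tw c) * (A + θ + θ * ((3 + a ^ 2 + b ^ 2 + c ^ 2) / 2)) := by
    intro a ha0 ha1
    exact intervalIntegral.integral_nonneg zero_le_one
      (fun b hb => h10 a b ha0 ha1 hb.1 hb.2)
  refine (E5.mono01 h20 (E5.G2_cont A θ) h2).trans ?_
  rw [E5.int_a]
  have hpi := Real.pi_lt_d6
  nlinarith [mul_le_mul_of_nonneg_left hpi.le hA, mul_le_mul_of_nonneg_left hpi.le hθ]

end Pool.Agent.SixthMoment
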