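import Pool.Agent.Lib_MP_112ba8_s.Defs
import Pool.Agent.Lib_MP_112ba8_s.Coef
import Pool.Agent.Lib_MP_112ba8_s.Ident
import Pool.Agent.Lib_MP_112ba8_s.Limit
import Pool.Agent.Lib_MP_112ba8.Final

/-!
Piece A8: the exponents and the arithmetic constants.
-/

namespace Pool.Agent.SixthMoment

open Filter Topology MeasureTheory
open Pool.Agent.EvenMoment (cl Wgt Adm Ed cut hat)
open Pool.Agent.ZetaMoment (C0 Dr Dr_summable aG aG_hasProd)

/-- twice the exponent of a vertex -/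
def a8n (b : Bool) : ℕ := if b then 1 else 2

lemma a8_al (b : Bool) : al b = (a8n b : ℝ) / 2 := by
  cases b <;> norm_num [al, a8n]

lemma a8_sum {r : ℕ} (h : Fin r → Bool) : ∑ i, al (h i) = ((∑ i, a8n (h i) : ℕ) : ℝ) / 2 := by
  rw [Nat.cast_sum, Finset.sum_div]
  exact Finset.sum_congr rfl fun i _ => a8_al _

lemma a8_kk {r : ℕ} (h : Fin r → Bool) :
    kk h = ((∑ e : Ed r, a8n (h e.1.1) * a8n (h e.1.2) : ℕ) : ℝ) / 2 := by
  unfold kk
  rw [Nat.cast_sum, Finset.sum_div]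
  refine Finset.sum_congr rfl fun e _ => ?_
  unfold ke
  rw [a8_al, a8_al, Nat.cast_mul]
  ring

theorem kk_P : kk hP = 7 := by
  rw [a8_kk]
  have : (∑ e : Ed 5, a8n (hP e.1.1) * a8n (hP e.1.2)) = 14 := by decide
  rw [this]
  norm_num

theorem kk_Z : kk hZ = 13 / 2 := by
  rw [a8_kk]
  have : (∑ e : Ed 4, a8n (hZ e.1.1) * a8n (hZ e.1.2)) = 13 := by decide
  rw [this]
  norm_num

lemma a8_summable {r m : ℕ} (h : Fin r → Bool) (S : Fin m → Finset (Fin r)) :
    Summable fun p : Nat.Primes =>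
      Real.log (F0 h p) + kk h * Real.log (1 - 1 / ((p : ℕ) : ℝ)) := by
  have hC : Summable fun p : Nat.Primes =>
      (Real.log (1 - 1 / ((p : ℕ) : ℝ)) + 1 / ((p : ℕ) : ℝ)) := by
    refine (Dr_summable (s := 0) le_rfl).congr fun p => ?_
    rw [add_zero, Real.rpow_neg_one, one_div]
  refine ((a6I_summable h S).add (hC.mul_left (kk h))).congr fun p => ?_
  rw [a6I]
  ring

lemma a8_hasProd {r m : ℕ} (h : Fin r → Bool) (S : Fin m → Finset (Fin r)) :
    HasProd (Real.exp ∘ fun p : Nat.Primes =>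
      Real.log (F0 h p) + kk h * Real.log (1 - 1 / ((p : ℕ) : ℝ))) (AR h) :=
  (a8_summable h S).hasSum.rexp

lemma a8_hasProd_sq {r m : ℕ} (h : Fin r → Bool) (S : Fin m → Finset (Fin r)) :
    HasProd (Real.exp ∘ fun p : Nat.Primes => 2 *
      (Real.log (F0 h p) + kk h * Real.log (1 - 1 / ((p : ℕ) : ℝ)))) (AR h ^ 2) := by
  have h1 := ((a8_summable h S).hasSum.mul_left 2).rexp
  have h2 : AR h ^ 2 = Real.exp (2 * ∑' p : Nat.Primes,
      (Real.log (F0 h p) + kk h * Real.log (1 - 1 / ((p : ℕ) : ℝ)))) := by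
    rw [AR, ← Real.exp_nat_mul]
    norm_num
  rw [h2]
  exact h1

lemma a8_local {p : ℕ} (hp : p.Prime) :
    F0 hZ p ^ 2 = (1 - 1 / (p : ℝ)) ^ 3 * F0 hP p *
      ∑' m : ℕ, ((m + 2).choose m : ℝ) ^ 2 / (p : ℝ) ^ m := by
  have hu : 0 < uu p 0 := uu_pos hp.two_le 0
  have hp1 : (1 : ℝ) < p := by exact_mod_cast hp.one_lt
  have hq : 0 < 1 - 1 / (p : ℝ) := by
    rw [sub_pos, div_lt_one (by linarith)]
    exact hp1
  have eZ := local_identity hZ (by
    rw [a8_sum]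
    have : (∑ i, a8n (hZ i)) = 6 := by decide
    rw [this]
    norm_num) hp
  have eP := local_identity hP (by
    rw [a8_sum]
    have : (∑ i, a8n (hP i)) = 6 := by decide
    rw [this]
    norm_num) hp
  rw [Fin.prod_univ_four] at eZ
  rw [Fin.prod_univ_five] at eP
  set D := ∑' m : ℕ, ((m + 2).choose m : ℝ) ^ 2 / (p : ℝ) ^ m with hD
  set q := 1 - 1 / (p : ℝ) with hqd
  have eZ' : F0 hZ p * (1 / q * uu p 0 * (1 / q) * uu p 0) = D := by
    rw [← eZ]
    simp [hZ]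
  have eP' : F0 hP p * (1 / q * uu p 0 * uu p 0 * uu p 0 * uu p 0) = D := by
    rw [← eP]
    simp [hP]
  have hu0 : uu p 0 ≠ 0 := hu.ne'
  have hq0 : q ≠ 0 := hq.ne'
  have e1 : F0 hZ p = D * q ^ 2 / uu p 0 ^ 2 := by
    rw [← eZ']
    field_simp
  have e2 : F0 hP p = D * q / uu p 0 ^ 4 := by
    rw [← eP']
    field_simp
  rw [e1, e2]
  field_simp

theorem AR_identity : AR hZ ^ 2 = Pool.Agent.EvenMoment.ar 3 * AR hP := by
  have h1 := a8_hasProd_sq hZ SZ
  have h2 := (aG_hasProd 3).mul (a8_hasProd hP SP)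
  refine h1.unique ?_
  have h3 : (Real.exp ∘ fun p : Nat.Primes => 2 *
      (Real.log (F0 hZ p) + kk hZ * Real.log (1 - 1 / ((p : ℕ) : ℝ)))) =
      fun p : Nat.Primes => ((1 - 1 / ((p : ℕ) : ℝ)) ^ (3 ^ 2) *
        ∑' m : ℕ, ((m + 3 - 1).choose m : ℝ) ^ 2 / ((p : ℕ) : ℝ) ^ m) *
        (Real.exp ∘ fun p : Nat.Primes =>
          Real.log (F0 hP p) + kk hP * Real.log (1 - 1 / ((p : ℕ) : ℝ))) p := by
    funext p
    have hp := p.2
    have hp1 : (1 : ℝ) < ((p : ℕ) : ℝ) := by exact_mod_cast hp.one_lt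
    have hq : 0 < 1 - 1 / ((p : ℕ) : ℝ) := by
      rw [sub_pos, div_lt_one (by linarith)]
      exact hp1
    have hZ0 : 0 < F0 hZ p := one_pos.trans_le (a6_F0_pos hZ SZ hp)
    have hP0 : 0 < F0 hP p := one_pos.trans_le (a6_F0_pos hP SP hp)
    have hloc := a8_local hp
    have e0 : ∀ m : ℕ, m + 3 - 1 = m + 2 := fun m => rfl
    simp only [Function.comp_apply, e0]
    rw [kk_P, kk_Z]
    set q := 1 - 1 / ((p : ℕ) : ℝ) with hqd
    have e1 : Real.exp (2 * (Real.log (F0 hZ p) + 13 / 2 * Real.log q)) =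
        F0 hZ p ^ 2 * q ^ 13 := by
      have : 2 * (Real.log (F0 hZ p) + 13 / 2 * Real.log q) =
          ((2 : ℕ) : ℝ) * Real.log (F0 hZ p) + ((13 : ℕ) : ℝ) * Real.log q := by
        push_cast
        ring
      rw [this, Real.exp_add, Real.exp_nat_mul, Real.exp_nat_mul, Real.exp_log hZ0,
        Real.exp_log hq]
    have e2 : Real.exp (Real.log (F0 hP p) + 7 * Real.log q) = F0 hP p * q ^ 7 := by
      have : Real.log (F0 hP p) + 7 * Real.log q =
          Real.log (F0 hP p) + ((7 : ℕ) : ℝ) * Real.log q := by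
        push_cast
        ring
      rw [this, Real.exp_add, Real.exp_nat_mul, Real.exp_log hP0, Real.exp_log hq]
    rw [e1, e2, hloc]
    ring
  rw [h3]
  exact h2

end Pool.Agent.SixthMoment
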