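import Pool.Agent.Lib_MP_112ba8_s.Defs

/-!
Sixth moment, piece C3: the finite sum over triples is the discrete functional over `TT 4`.
-/

namespace Pool.Agent.SixthMoment

open Filter Topology MeasureTheory
open Pool.Agent.EvenMoment (cl Wgt Adm Ed cut hat)

theorem c3_ln_neg (q : QQ) : ln (-q) = ln q := by
  unfold ln Finsupp.sum
  rw [Finsupp.support_neg]
  refine Finset.sum_congr rfl fun p _ => ?_
  change |(((-q) p : ℤ) : ℝ)| * Real.log ((p : ℕ) : ℝ) = |((q p : ℤ) : ℝ)| * Real.log ((p : ℕ) : ℝ)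
  rw [Finsupp.neg_apply, Int.cast_neg, abs_neg]

theorem c3_CC_neg (q : QQ) : CC (-q) = CC q := by
  unfold CC Finsupp.prod
  rw [Finsupp.support_neg]
  refine Finset.prod_congr rfl fun p _ => ?_
  change cc (p : ℕ) ((-q) p).natAbs = cc (p : ℕ) (q p).natAbs
  rw [Finsupp.neg_apply, Int.natAbs_neg]

/-- the bijection between triples and `4`-tuples with sum zero -/
noncomputable def c3_equiv : QQ × QQ × QQ ≃ TT 4 where
  toFun x := ⟨![x.1 - x.2.1, x.2.1, x.2.2 - x.1, -x.2.2], by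
    rw [Fin.sum_univ_four]
    simp⟩
  invFun f := (f.1 0 + f.1 1, f.1 1, -f.1 3)
  left_inv := by
    rintro ⟨e, v, v'⟩
    simp
  right_inv := by
    rintro ⟨f, hf⟩
    rw [Fin.sum_univ_four] at hf
    apply Subtype.ext
    funext i
    fin_cases i
    · simp
    · simp
    · have : f 2 = -f 3 - (f 0 + f 1) := by
        rw [eq_sub_iff_add_eq, eq_neg_iff_add_eq_zero, ← hf]
        abel
      simp [this]
    · simp

theorem c3_term {ω χ φ ψ : ℝ → ℝ} {L : ℝ} (x : QQ × QQ × QQ) :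
      wt hZ (c3_equiv x) * GZ φ ψ ω χ (fun κ => ob SZ (c3_equiv x) κ / L) =
      χ (ln x.1 / L) * ((Vc ω L x.2.1 * (Real.exp (-(ln (x.1 - x.2.1) / 2)) *
        φ (ln (x.1 - x.2.1) / L))) * (Vc ω L x.2.2 * (Real.exp (-(ln (x.1 - x.2.2) / 2)) *
        ψ (ln (x.1 - x.2.2) / L)))) := by
  obtain ⟨e, v, v'⟩ := x
  have h0 : (c3_equiv (e, v, v')).1 0 = e - v := rfl
  have h1 : (c3_equiv (e, v, v')).1 1 = v := rfl
  have h2 : (c3_equiv (e, v, v')).1 2 = v' - e := rfl
  have h3 : (c3_equiv (e, v, v')).1 3 = -v' := rfl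
  have o0 : ob SZ (c3_equiv (e, v, v')) 0 = ln (e - v) := by
    unfold ob
    have : SZ 0 = {0} := rfl
    rw [this, Finset.sum_singleton, h0]
  have o1 : ob SZ (c3_equiv (e, v, v')) 1 = ln v := by
    unfold ob
    have : SZ 1 = {1} := rfl
    rw [this, Finset.sum_singleton, h1]
  have o2 : ob SZ (c3_equiv (e, v, v')) 2 = ln (e - v') := by
    unfold ob
    have : SZ 2 = {2} := rfl
    rw [this, Finset.sum_singleton, h2, ← c3_ln_neg (e - v'), neg_sub]
  have o3 : ob SZ (c3_equiv (e, v, v')) 3 = ln v' := by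
    unfold ob
    have : SZ 3 = {3} := rfl
    rw [this, Finset.sum_singleton, h3, c3_ln_neg]
  have o4 : ob SZ (c3_equiv (e, v, v')) 4 = ln e := by
    unfold ob
    have : SZ 4 = {0, 1} := rfl
    rw [this, Finset.sum_pair (by decide), h0, h1, sub_add_cancel]
  have hw : wt hZ (c3_equiv (e, v, v')) = (CC v * CC v') *
      (Real.exp (-(ln v / 2)) * Real.exp (-(ln v' / 2)) * Real.exp (-(ln (e - v) / 2)) *
        Real.exp (-(ln (e - v') / 2))) := by
    unfold wt
    rw [Fin.prod_univ_four, Fin.sum_univ_four, h0, h1, h2, h3, ← Real.exp_add, ← Real.exp_add,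
      ← Real.exp_add]
    have e1 : ln (v' - e) = ln (e - v') := by rw [← c3_ln_neg (e - v'), neg_sub]
    have e2 : vw (hZ 0) (e - v) = 1 := rfl
    have e3 : vw (hZ 1) v = CC v := rfl
    have e4 : vw (hZ 2) (v' - e) = 1 := rfl
    have e5 : vw (hZ 3) (-v') = CC v' := by
      have : vw (hZ 3) (-v') = CC (-v') := rfl
      rw [this, c3_CC_neg]
    rw [e1, e2, e3, e4, e5, c3_ln_neg, one_mul, mul_one]
    congr 2
    ring
  rw [hw]
  unfold GZ Vc
  simp only [o0, o1, o2, o3, o4]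
  ring

theorem sumZ {ω χ φ ψ : ℝ → ℝ} {θ ρ L : ℝ} (hω : Adm ω θ) (hχ : Adm χ ρ) (hL : 0 < L) :
    ∑ e ∈ QS (ρ * L), χ (ln e / L) * (cv ω φ θ L e * cv ω ψ θ L e) =
      DS hZ SZ (GZ φ ψ ω χ) L := by
  unfold DS
  rw [← c3_equiv.tsum_eq]
  simp_rw [c3_term]
  have hχ0 : ∀ e : QQ, e ∉ QS (ρ * L) → χ (ln e / L) = 0 := by
    intro e he
    apply hχ.supp
    rw [mem_QS] at he
    push Not at he
    rw [le_div_iff₀ hL]
    exact he.le
  have hω0 : ∀ v : QQ, v ∉ QS (θ * L) → Vc ω L v = 0 := by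
    intro v hv
    have : ω (ln v / L) = 0 := by
      apply hω.supp
      rw [mem_QS] at hv
      push Not at hv
      rw [le_div_iff₀ hL]
      exact hv.le
    unfold Vc
    rw [this]
    ring
  rw [tsum_eq_sum (s := (QS (ρ * L)) ×ˢ ((QS (θ * L)) ×ˢ (QS (θ * L))))]
  · rw [Finset.sum_product]
    refine Finset.sum_congr rfl fun e _ => ?_
    rw [Finset.sum_product]
    unfold cv
    rw [Finset.sum_mul_sum, Finset.mul_sum]
    refine Finset.sum_congr rfl fun v _ => ?_
    rw [Finset.mul_sum]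
  · rintro ⟨e, v, v'⟩ hx
    rw [Finset.mem_product, Finset.mem_product, not_and_or, not_and_or] at hx
    rcases hx with h | h | h
    · simp only at h ⊢
      rw [hχ0 e h]
      ring
    · simp only at h ⊢
      rw [hω0 v h]
      ring
    · simp only at h ⊢
      rw [hω0 v' h]
      ring

end Pool.Agent.SixthMoment
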