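import Mathlib
import Pool.Agent.Lib_MP_112ba8_s.QBasic
import Pool.Agent.Lib_MP_112ba8_s.Coef
import Pool.Agent.Lib_MP_112ba8_s.Osc
import Pool.Agent.Lib_MP_112ba8_s.SumZ
import Pool.Agent.Lib_MP_112ba8_s.Real

/-!
Piece C7: mean value of `R ^ 2`.
-/

namespace Pool.Agent.SixthMoment

open Filter Topology MeasureTheory
open Pool.Agent.EvenMoment (cl Wgt Adm Ed cut hat)

theorem c7_cut_one {s : ℝ} (hs : s ≤ 1) : cut s = 1 := by
  unfold cut
  rw [min_eq_left (by linarith), max_eq_right zero_le_one]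

/-- coefficient of `R` -/
noncomputable def c7r (ω χ : ℝ → ℝ) (θ L : ℝ) (e : QQ) : ℝ :=
  χ (ln e / L) * (L * cv ω (fun s => 1 - s) θ L e)

theorem c7_RR (ω χ : ℝ → ℝ) (θ ρ L t : ℝ) :
    RR ω χ θ ρ L t = ∑ e ∈ QS (ρ * L), ((c7r ω χ θ L e : ℝ) : ℂ) * osc e t := rfl

theorem c7_r_neg (ω χ : ℝ → ℝ) (θ L : ℝ) (e : QQ) : c7r ω χ θ L (-e) = c7r ω χ θ L e := by
  unfold c7r
  rw [ln_neg, cv_neg]

theorem c7_neg_mem {B : ℝ} {q : QQ} (hq : q ∈ QS B) : -q ∈ QS B := by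
  rw [mem_QS] at hq ⊢
  rwa [ln_neg]

/-- in the relevant range the cut off is one -/
theorem c7_cv_fc {ω : ℝ → ℝ} {θ ρ L : ℝ} (hρθ : ρ + θ < 1) (hL : 0 < L) {e : QQ}
    (he : e ∈ QS (ρ * L)) : cv ω (fun s => 1 - s) θ L e = cv ω fc θ L e := by
  unfold cv
  refine Finset.sum_congr rfl fun v hv => ?_
  rw [mem_QS] at he hv
  have h1 : ln (e - v) ≤ L := by
    have h2 := ln_add_le e (-v)
    rw [ln_neg, ← sub_eq_add_neg] at h2
    nlinarith
  have h3 : ln (e - v) / L ≤ 1 := by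
    rw [div_le_one hL]
    exact h1
  have h4 : fc (ln (e - v) / L) = 1 - ln (e - v) / L := by
    unfold fc
    rw [c7_cut_one h3, mul_one]
  rw [h4]

/-- integrability of the oscillating terms -/
theorem c7_int {w : ℝ → ℝ} (hw : Wgt w) {T : ℝ} (hT : 0 < T) (q : QQ) :
    Integrable fun t : ℝ => (w (t / T) : ℂ) * osc q t := by
  have hwc : Continuous w := hw.smooth.continuous
  have hcont : Continuous fun t : ℝ => (w (t / T) : ℂ) * osc q t :=
    (Complex.continuous_ofReal.comp (hwc.comp (by fun_prop))).mul (osc_cont q)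
  refine hcont.integrable_of_hasCompactSupport ?_
  obtain ⟨a, ha0, ha1, ha⟩ := hw.supp
  refine HasCompactSupport.intro (isCompact_Icc : IsCompact (Set.Icc (0 : ℝ) T)) ?_
  intro t ht
  have h1 : w (t / T) = 0 := by
    apply ha
    rw [Set.mem_Icc, not_and_or, not_le, not_le] at ht
    rcases ht with h | h
    · left
      exact (div_neg_of_neg_of_pos h hT).trans ha0
    · right
      rw [lt_div_iff₀ hT, one_mul]
      exact h
  rw [h1]
  simp

theorem c7_expand {w : ℝ → ℝ} (hw : Wgt w) {T : ℝ} (hT : 0 < T) (ω χ : ℝ → ℝ) (θ ρ L : ℝ) :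
    (((1 / T) * (∫ t : ℝ, w (t / T) * (RR ω χ θ ρ L t).re ^ 2) : ℝ) : ℂ) =
      ∑ e ∈ QS (ρ * L), ∑ e' ∈ QS (ρ * L), ((c7r ω χ θ L e * c7r ω χ θ L e' : ℝ) : ℂ) *
        ((1 / T : ℂ) * ∫ t : ℝ, (w (t / T) : ℂ) * osc (e + e') t) := by
  have h2 : ∀ t, (((RR ω χ θ ρ L t).re : ℝ) : ℂ) = RR ω χ θ ρ L t := by
    intro t
    apply Complex.ext
    · simp
    · simp [RR_real]
  have h1 : ∀ t : ℝ, ((w (t / T) * (RR ω χ θ ρ L t).re ^ 2 : ℝ) : ℂ) =
      ∑ e ∈ QS (ρ * L), ∑ e' ∈ QS (ρ * L), ((c7r ω χ θ L e * c7r ω χ θ L e' : ℝ) : ℂ) *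
        ((w (t / T) : ℂ) * osc (e + e') t) := by
    intro t
    push_cast
    rw [h2, c7_RR, pow_two, Finset.sum_mul_sum, Finset.mul_sum]
    refine Finset.sum_congr rfl fun e _ => ?_
    rw [Finset.mul_sum]
    refine Finset.sum_congr rfl fun e' _ => ?_
    rw [osc_add]
    ring
  push_cast
  rw [← integral_complex_ofReal]
  simp_rw [h1]
  rw [integral_finsetSum]
  · rw [Finset.mul_sum]
    refine Finset.sum_congr rfl fun e _ => ?_
    rw [integral_finsetSum]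
    · rw [Finset.mul_sum]
      refine Finset.sum_congr rfl fun e' _ => ?_
      rw [integral_const_mul]
      push_cast
      ring
    · intro e' _
      exact (c7_int hw hT _).const_mul _
  · intro e _
    exact integrable_finsetSum _ fun e' _ => (c7_int hw hT _).const_mul _

theorem mean_RR {w : ℝ → ℝ} (hw : Wgt w) {θ ρ : ℝ} (hθ : 0 < θ) (hρ : 0 < ρ) (hρθ : ρ + θ < 1)
    {ω χ : ℝ → ℝ} (hω : Adm ω θ) (hχ : Adm χ ρ) (hχ0 : ∀ s, 0 ≤ χ s) (hχ1 : ∀ s, χ s ≤ 1) :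
    ∃ C T₀ : ℝ, ∀ T : ℝ, T₀ ≤ T →
    (1 / T) * (∫ t : ℝ, w (t / T) * (RR ω χ θ ρ (Real.log T) t).re ^ 2) ≤
      (∫ x, w x) * (Real.log T ^ 2 * DS hZ SZ (GZ fc fc ω χ) (Real.log T)) + C := by
  classical
  obtain ⟨C₀, T₀, hC₀, hT₀, hosc⟩ := osc_small hw (ε := 2 - 2 * ρ) (by linarith) 12
  -- a bound for `ω`
  obtain ⟨W, hW0, hW⟩ : ∃ W : ℝ, 0 ≤ W ∧ ∀ s, 0 ≤ s → |ω s| ≤ W := by
    obtain ⟨W, hW⟩ := (isCompact_Icc : IsCompact (Set.Icc (0 : ℝ) θ)).exists_bound_of_continuousOn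
      hω.cont.continuousOn
    refine ⟨max W 0, le_max_right _ _, fun s hs => ?_⟩
    by_cases h : s ≤ θ
    · exact (hW s ⟨hs, h⟩).trans (le_max_left _ _)
    · rw [hω.supp s (by linarith), abs_zero]
      exact le_max_right _ _
  refine ⟨W ^ 2 * C₀, max T₀ (Real.exp 1), fun T hT => ?_⟩
  have hT1 : T₀ ≤ T := (le_max_left _ _).trans hT
  have hT2 : Real.exp 1 ≤ T := (le_max_right _ _).trans hT
  have hTge : 1 ≤ T := hT₀.trans hT1
  have hTpos : 0 < T := by linarith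
  set L := Real.log T with hL
  have hL1 : 1 ≤ L := by rw [hL, Real.le_log_iff_exp_le hTpos]; exact hT2
  have hLpos : 0 < L := by linarith
  have hLT : L ≤ T := by
    have := Real.log_le_sub_one_of_pos hTpos
    linarith
  have hexpL : Real.exp L = T := Real.exp_log hTpos
  set S := QS (ρ * L) with hS
  set r := c7r ω χ θ L with hr
  set I₀ : ℝ := ∫ x, w x with hI₀
  have hI₀0 : 0 ≤ I₀ := integral_nonneg hw.nonneg
  -- size of the coefficients
  have hrle : ∀ e ∈ S, |r e| ≤ W * T ^ 3 := by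
    intro e he
    have h1 := cv_le hθ hρ hρθ hW hLpos he
    rw [hr, c7r, abs_mul, abs_mul, abs_of_nonneg (hχ0 _), abs_of_pos hLpos]
    have h2 : Real.exp (2 * L) = T ^ 2 := by
      rw [two_mul, Real.exp_add, hexpL]
      ring
    rw [h2] at h1
    have h3 : 0 ≤ |cv ω (fun s => 1 - s) θ L e| := abs_nonneg _
    calc χ (ln e / L) * (L * |cv ω (fun s => 1 - s) θ L e|)
        ≤ 1 * (T * (W * T ^ 2)) := by
          gcongr
          · exact hχ1 _
      _ = W * T ^ 3 := by ring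
  have hcard : ((S.card : ℕ) : ℝ) ≤ T ^ 2 := by
    refine (card_QS_le (by positivity)).trans ?_
    have h2 : Real.exp (2 * L) = T ^ 2 := by
      rw [two_mul, Real.exp_add, hexpL]
      ring
    rw [← h2, Real.exp_le_exp]
    nlinarith
  -- the diagonal
  let M : QQ → QQ → ℂ := fun e e' => if e' = -e then (I₀ : ℂ) else 0
  have hdiag : ∑ e ∈ S, ∑ e' ∈ S, ((r e * r e' : ℝ) : ℂ) * M e e' =
      ((I₀ * ∑ e ∈ S, r e ^ 2 : ℝ) : ℂ) := by
    rw [Finset.mul_sum]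
    push_cast
    refine Finset.sum_congr rfl fun e he => ?_
    simp only [M, mul_ite, mul_zero]
    rw [Finset.sum_ite_eq' S (-e), if_pos (c7_neg_mem he)]
    rw [hr, c7_r_neg]
    ring
  -- the difference
  have hdiff : ‖∑ e ∈ S, ∑ e' ∈ S, ((r e * r e' : ℝ) : ℂ) *
      ((1 / T : ℂ) * ∫ t : ℝ, (w (t / T) : ℂ) * osc (e + e') t) -
      ∑ e ∈ S, ∑ e' ∈ S, ((r e * r e' : ℝ) : ℂ) * M e e'‖ ≤ W ^ 2 * C₀ := by
    rw [← Finset.sum_sub_distrib]
    simp_rw [← Finset.sum_sub_distrib, ← mul_sub]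
    have hterm : ∀ e ∈ S, ∀ e' ∈ S, ‖((r e * r e' : ℝ) : ℂ) *
        ((1 / T : ℂ) * (∫ t : ℝ, (w (t / T) : ℂ) * osc (e + e') t) - M e e')‖ ≤
        (W * T ^ 3) * (W * T ^ 3) * (C₀ / T ^ 12) := by
      intro e he e' he'
      rw [norm_mul, Complex.norm_real, Real.norm_eq_abs, abs_mul]
      refine mul_le_mul (mul_le_mul (hrle e he) (hrle e' he') (abs_nonneg _) (by positivity)) ?_
        (norm_nonneg _) (by positivity)
      by_cases h : e' = -e
      · simp only [M, h, if_true, add_neg_cancel]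
        rw [osc_one hw hTpos, sub_self, norm_zero]
        positivity
      · simp only [M, h, if_false, sub_zero]
        refine hosc T hT1 _ (fun h0 => h (by rw [eq_neg_iff_add_eq_zero, add_comm]; exact h0)) ?_
        have h5 := ln_add_le e e'
        rw [hS, mem_QS] at he he'
        linarith
    refine (norm_sum_le _ _).trans ?_
    have h6 : ∀ e ∈ S, ‖∑ e' ∈ S, ((r e * r e' : ℝ) : ℂ) *
        ((1 / T : ℂ) * (∫ t : ℝ, (w (t / T) : ℂ) * osc (e + e') t) - M e e')‖ ≤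
        (S.card : ℝ) * ((W * T ^ 3) * (W * T ^ 3) * (C₀ / T ^ 12)) := by
      intro e he
      refine (norm_sum_le _ _).trans ?_
      rw [← nsmul_eq_mul]
      exact Finset.sum_le_card_nsmul _ _ _ fun e' he' => hterm e he e' he'
    refine (Finset.sum_le_card_nsmul _ _ _ h6).trans ?_
    rw [nsmul_eq_mul]
    calc (S.card : ℝ) * ((S.card : ℝ) * ((W * T ^ 3) * (W * T ^ 3) * (C₀ / T ^ 12)))
        ≤ T ^ 2 * (T ^ 2 * ((W * T ^ 3) * (W * T ^ 3) * (C₀ / T ^ 12))) := by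
          gcongr
      _ = W ^ 2 * C₀ * (1 / T ^ 2) := by
          field_simp
      _ ≤ W ^ 2 * C₀ * 1 := by
          gcongr
          rw [div_le_one (by positivity)]
          exact one_le_pow₀ hTge
      _ = W ^ 2 * C₀ := mul_one _
  rw [← c7_expand hw hTpos, hdiag, ← Complex.ofReal_sub, Complex.norm_real, Real.norm_eq_abs]
    at hdiff
  -- the main term
  have hmain : ∑ e ∈ S, r e ^ 2 ≤ L ^ 2 * DS hZ SZ (GZ fc fc ω χ) L := by
    rw [← sumZ hω hχ hLpos, Finset.mul_sum]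
    refine Finset.sum_le_sum fun e he => ?_
    rw [hr, c7r, c7_cv_fc hρθ hLpos he]
    have h7 := hχ0 (ln e / L)
    have h8 := hχ1 (ln e / L)
    have h9 : 0 ≤ L ^ 2 * (cv ω fc θ L e * cv ω fc θ L e) := by
      have := mul_self_nonneg (cv ω fc θ L e)
      positivity
    calc (χ (ln e / L) * (L * cv ω fc θ L e)) ^ 2
        = χ (ln e / L) * (χ (ln e / L) * (L ^ 2 * (cv ω fc θ L e * cv ω fc θ L e))) := by ring
      _ ≤ 1 * (χ (ln e / L) * (L ^ 2 * (cv ω fc θ L e * cv ω fc θ L e))) := by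
          gcongr
      _ = L ^ 2 * (χ (ln e / L) * (cv ω fc θ L e * cv ω fc θ L e)) := by ring
  have h10 := (abs_le.1 hdiff).2
  have h11 : I₀ * ∑ e ∈ S, r e ^ 2 ≤ I₀ * (L ^ 2 * DS hZ SZ (GZ fc fc ω χ) L) :=
    mul_le_mul_of_nonneg_left hmain hI₀0
  linarith

end Pool.Agent.SixthMoment
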