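import Mathlib
import Pool.Agent.Lib_MP_112ba8_s.MeanRR
import Pool.Agent.Lib_MP_112ba8_s.DSlim
import Pool.Agent.Lib_MP_112ba8_s.Const
import Pool.Agent.Lib_MP_112ba8_e.Mixed

/-!
Piece C6: mean value of `|ζ| ^ 2 R V`.
-/

namespace Pool.Agent.SixthMoment

open Filter Topology MeasureTheory
open Pool.Agent.EvenMoment (cl Wgt Adm Ed cut hat)

/-- integrability of the oscillating terms with zeta -/
theorem c6_int {w : ℝ → ℝ} (hw : Wgt w) {T : ℝ} (hT : 0 < T) (q : QQ) :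
    Integrable fun t : ℝ => ((w (t / T) * ‖riemannZeta (cl t)‖ ^ 2 : ℝ) : ℂ) * osc q t :=
  Pool.Agent.EvenMoment.mx_int hw hT (fr q)

theorem c6_expand {w : ℝ → ℝ} (hw : Wgt w) {T : ℝ} (hT : 0 < T) (ω χ : ℝ → ℝ) (θ ρ L : ℝ) :
    (((1 / T) * (∫ t : ℝ, w (t / T) * (‖riemannZeta (cl t)‖ ^ 2 *
        ((RR ω χ θ ρ L t).re * (VV ω θ L t).re))) : ℝ) : ℂ) =
      ∑ e ∈ QS (ρ * L), ∑ v ∈ QS (θ * L), ((c7r ω χ θ L e * Vc ω L v : ℝ) : ℂ) *
        ((1 / T : ℂ) * ∫ t : ℝ, ((w (t / T) * ‖riemannZeta (cl t)‖ ^ 2 : ℝ) : ℂ) *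
          osc (e + v) t) := by
  have h2 : ∀ t, (((RR ω χ θ ρ L t).re : ℝ) : ℂ) = RR ω χ θ ρ L t := by
    intro t
    apply Complex.ext
    · simp
    · simp [RR_real]
  have h3 : ∀ t, (((VV ω θ L t).re : ℝ) : ℂ) = VV ω θ L t := by
    intro t
    apply Complex.ext
    · simp
    · simp [VV_real]
  have h1 : ∀ t : ℝ, ((w (t / T) * (‖riemannZeta (cl t)‖ ^ 2 *
        ((RR ω χ θ ρ L t).re * (VV ω θ L t).re)) : ℝ) : ℂ) =
      ∑ e ∈ QS (ρ * L), ∑ v ∈ QS (θ * L), ((c7r ω χ θ L e * Vc ω L v : ℝ) : ℂ) *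
        (((w (t / T) * ‖riemannZeta (cl t)‖ ^ 2 : ℝ) : ℂ) * osc (e + v) t) := by
    intro t
    have h4 : ((w (t / T) * (‖riemannZeta (cl t)‖ ^ 2 *
        ((RR ω χ θ ρ L t).re * (VV ω θ L t).re)) : ℝ) : ℂ) =
        ((w (t / T) * ‖riemannZeta (cl t)‖ ^ 2 : ℝ) : ℂ) *
          (RR ω χ θ ρ L t * VV ω θ L t) := by
      rw [← h2, ← h3]
      push_cast
      simp only [Complex.ofReal_re]
      ring
    rw [h4, c7_RR, VV, Finset.sum_mul_sum, Finset.mul_sum]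
    refine Finset.sum_congr rfl fun e _ => ?_
    rw [Finset.mul_sum]
    refine Finset.sum_congr rfl fun v _ => ?_
    rw [osc_add]
    push_cast
    ring
  rw [Complex.ofReal_mul, ← integral_complex_ofReal]
  simp_rw [h1]
  rw [integral_finsetSum]
  · rw [Finset.mul_sum]
    refine Finset.sum_congr rfl fun e _ => ?_
    rw [integral_finsetSum]
    · rw [Finset.mul_sum]
      refine Finset.sum_congr rfl fun v _ => ?_
      rw [integral_const_mul]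
      push_cast
      ring
    · intro v _
      exact (c6_int hw hT _).const_mul _
  · intro e _
    exact integrable_finsetSum _ fun v _ => (c6_int hw hT _).const_mul _

theorem c6_Vc_neg (ω : ℝ → ℝ) (L : ℝ) (q : QQ) : Vc ω L (-q) = Vc ω L q := by
  unfold Vc
  rw [CC_neg, ln_neg]

/-- the inner sum over `v` -/
theorem c6_inner (ω φ : ℝ → ℝ) (θ L : ℝ) (e : QQ) :
    ∑ v ∈ QS (θ * L), Vc ω L v * (Real.exp (-(ln (e + v) / 2)) * φ (ln (e + v) / L)) =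
      cv ω φ θ L e := by
  unfold cv
  refine Finset.sum_bij' (fun v _ => -v) (fun v _ => -v) (fun v hv => c7_neg_mem hv)
    (fun v hv => c7_neg_mem hv) (fun v _ => neg_neg v) (fun v _ => neg_neg v) fun v _ => ?_
  rw [c6_Vc_neg, sub_neg_eq_add]

theorem c6_ln_le {θ ρ L : ℝ} {e v : QQ} (he : e ∈ QS (ρ * L)) (hv : v ∈ QS (θ * L)) :
    ln (e + v) ≤ (ρ + θ) * L := by
  rw [mem_QS] at he hv
  have := ln_add_le e v
  linarith

/-- boundedness of the discrete functional -/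
theorem c6_bound {θ ρ : ℝ} {ω χ : ℝ → ℝ} (hω : Adm ω θ) (hχ : Adm χ ρ) :
    ∃ C L₀ : ℝ, ∀ L : ℝ, L₀ ≤ L →
      |DS hZ SZ (GZ fc cut ω χ) L| ≤ C * L ^ (13 / 2 : ℝ) := by
  have hcut : Continuous cut := Pool.Agent.EvenMoment.mx_cut_cont
  have hfc : Continuous fc := by
    unfold fc
    exact (continuous_const.sub continuous_id).mul hcut
  have hG : Continuous (GZ fc cut ω χ) := by
    unfold GZ
    have := hω.cont
    have := hχ.cont
    fun_prop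
  have hB : ∀ s : Fin 5 → ℝ, (∃ κ, max 2 (max θ ρ) ≤ s κ) → GZ fc cut ω χ s = 0 := by
    rintro s ⟨κ, hκ⟩
    rw [max_le_iff, max_le_iff] at hκ
    unfold GZ fc
    fin_cases κ
    · have : cut (s 0) = 0 := Pool.Agent.EvenMoment.mx_cut_zero hκ.1
      rw [this]
      ring
    · have : ω (s 1) = 0 := hω.supp _ hκ.2.1
      rw [this]
      ring
    · have : cut (s 2) = 0 := Pool.Agent.EvenMoment.mx_cut_zero hκ.1
      rw [this]
      ring
    · have : ω (s 3) = 0 := hω.supp _ hκ.2.1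
      rw [this]
      ring
    · have : χ (s 4) = 0 := hχ.supp _ hκ.2.2
      rw [this]
      ring
  have hS : ∀ e : Ed 4, ∃ κ, sepa (SZ κ) e := by
    decide
  have h1 := DS_tendsto hZ SZ (by norm_num) hS hG (max 2 (max θ ρ)) hB
  rw [kk_Z] at h1
  have h2 := h1.abs.isBoundedUnder_le
  obtain ⟨C, hC⟩ := h2
  rw [eventually_map] at hC
  obtain ⟨L₀, hL₀⟩ := eventually_atTop.1 (hC.and (eventually_gt_atTop (0 : ℝ)))
  refine ⟨C, L₀, fun L hL => ?_⟩
  obtain ⟨h3, h4⟩ := hL₀ L hL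
  have h5 : 0 < L ^ (13 / 2 : ℝ) := Real.rpow_pos_of_pos h4 _
  rw [abs_div, abs_of_pos h5, div_le_iff₀ h5] at h3
  exact h3

theorem mean_RV {w : ℝ → ℝ} (hw : Wgt w) {θ ρ : ℝ} (hθ : 0 < θ) (hρ : 0 < ρ) (hρθ : ρ + θ < 1)
    {ω χ : ℝ → ℝ} (hω : Adm ω θ) (hω0 : ∀ s, 0 ≤ ω s) (hχ : Adm χ ρ) (hχ0 : ∀ s, 0 ≤ χ s) :
    ∃ C T₀ : ℝ, ∀ T : ℝ, T₀ ≤ T →
    |(1 / T) * (∫ t : ℝ, w (t / T) * (‖riemannZeta (cl t)‖ ^ 2 *
        ((RR ω χ θ ρ (Real.log T) t).re * (VV ω θ (Real.log T) t).re))) -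
      (∫ x, w x) * (Real.log T ^ 2 * DS hZ SZ (GZ fc fc ω χ) (Real.log T))| ≤
      C * Real.log T ^ (15 / 2 : ℝ) := by
  classical
  obtain ⟨C₀, T₀, hC₀, hT₀, hz⟩ := zeta_osc hw (ε := 1 - (ρ + θ)) (by linarith) (by linarith)
  obtain ⟨C₁, L₁, hDS⟩ := c6_bound hω hχ
  refine ⟨C₀ * C₁, max T₀ (max (Real.exp L₁) (Real.exp 1)), fun T hT => ?_⟩
  have hT1 : T₀ ≤ T := (le_max_left _ _).trans hT
  have hT2 : Real.exp L₁ ≤ T := ((le_max_left _ _).trans (le_max_right _ _)).trans hT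
  have hT3 : Real.exp 1 ≤ T := ((le_max_right _ _).trans (le_max_right _ _)).trans hT
  have hTpos : 0 < T := lt_of_lt_of_le (by linarith) hT1
  set L := Real.log T with hL
  have hL1 : 1 ≤ L := by rw [hL, Real.le_log_iff_exp_le hTpos]; exact hT3
  have hL2 : L₁ ≤ L := by rw [hL, Real.le_log_iff_exp_le hTpos]; exact hT2
  have hLpos : 0 < L := by linarith
  set S := QS (ρ * L) with hS
  set S' := QS (θ * L) with hS'
  set r := c7r ω χ θ L with hr
  set I₀ : ℝ := ∫ x, w x with hI₀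
  have hln : ∀ e ∈ S, ∀ v ∈ S', ln (e + v) ≤ (ρ + θ) * L := fun e he v hv => c6_ln_le he hv
  have hVc0 : ∀ v, 0 ≤ Vc ω L v := by
    intro v
    unfold Vc
    exact mul_nonneg (CC_nonneg v) (mul_nonneg (hω0 _) (Real.exp_pos _).le)
  -- the convolutions
  have hcv1 : ∀ e ∈ S, ∑ v ∈ S', Vc ω L v * ((L - ln (e + v)) * Real.exp (-(ln (e + v) / 2))) =
      L * cv ω fc θ L e := by
    intro e he
    rw [← c7_cv_fc hρθ hLpos he, ← c6_inner, Finset.mul_sum]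
    refine Finset.sum_congr rfl fun v _ => ?_
    field_simp
  have hcv2 : ∀ e ∈ S, ∑ v ∈ S', Vc ω L v * Real.exp (-(ln (e + v) / 2)) =
      cv ω cut θ L e := by
    intro e he
    rw [← c6_inner]
    refine Finset.sum_congr rfl fun v hv => ?_
    have h1 : ln (e + v) / L ≤ 1 := by
      rw [div_le_one hLpos]
      have := hln e he v hv
      nlinarith
    rw [c7_cut_one h1, mul_one]
  have hcv0 : ∀ e ∈ S, 0 ≤ cv ω fc θ L e := by
    intro e he
    rw [← c6_inner]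
    refine Finset.sum_nonneg fun v hv => mul_nonneg (hVc0 v) (mul_nonneg (Real.exp_pos _).le ?_)
    have h1 : ln (e + v) / L ≤ 1 := by
      rw [div_le_one hLpos]
      have := hln e he v hv
      nlinarith
    unfold fc
    rw [c7_cut_one h1, mul_one]
    linarith
  have hr' : ∀ e ∈ S, r e = χ (ln e / L) * (L * cv ω fc θ L e) := by
    intro e he
    rw [hr, c7r, c7_cv_fc hρθ hLpos he]
  have hr0 : ∀ e ∈ S, 0 ≤ r e := by
    intro e he
    rw [hr' e he]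
    exact mul_nonneg (hχ0 _) (mul_nonneg hLpos.le (hcv0 e he))
  -- main term
  have hmain : ∑ e ∈ S, ∑ v ∈ S', ((r e * Vc ω L v : ℝ) : ℂ) *
      ((I₀ * ((L - ln (e + v)) * Real.exp (-(ln (e + v) / 2))) : ℝ) : ℂ) =
      ((I₀ * (L ^ 2 * DS hZ SZ (GZ fc fc ω χ) L) : ℝ) : ℂ) := by
    rw [← sumZ hω hχ hLpos, Finset.mul_sum, Finset.mul_sum, Complex.ofReal_sum]
    refine Finset.sum_congr rfl fun e he => ?_
    simp_rw [← Complex.ofReal_mul]
    rw [← Complex.ofReal_sum]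
    have h1 : ∑ v ∈ S', (r e * Vc ω L v) *
        (I₀ * ((L - ln (e + v)) * Real.exp (-(ln (e + v) / 2)))) =
        I₀ * (L ^ 2 * (χ (ln e / L) * (cv ω fc θ L e * cv ω fc θ L e))) := by
      have h2 : ∑ v ∈ S', (r e * Vc ω L v) *
          (I₀ * ((L - ln (e + v)) * Real.exp (-(ln (e + v) / 2)))) =
          r e * I₀ * ∑ v ∈ S', Vc ω L v *
            ((L - ln (e + v)) * Real.exp (-(ln (e + v) / 2))) := by
        rw [Finset.mul_sum]
        refine Finset.sum_congr rfl fun v _ => ?_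
        ring
      rw [h2, hcv1 e he, hr' e he]
      ring
    exact congrArg (fun x : ℝ => (x : ℂ)) h1
  -- the error
  have herr : ‖∑ e ∈ S, ∑ v ∈ S', ((r e * Vc ω L v : ℝ) : ℂ) *
      ((1 / T : ℂ) * ∫ t : ℝ, ((w (t / T) * ‖riemannZeta (cl t)‖ ^ 2 : ℝ) : ℂ) *
          osc (e + v) t) - ∑ e ∈ S, ∑ v ∈ S', ((r e * Vc ω L v : ℝ) : ℂ) *
      ((I₀ * ((L - ln (e + v)) * Real.exp (-(ln (e + v) / 2))) : ℝ) : ℂ)‖ ≤
      C₀ * (L * DS hZ SZ (GZ fc cut ω χ) L) := by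
    rw [← Finset.sum_sub_distrib]
    simp_rw [← Finset.sum_sub_distrib, ← mul_sub]
    refine (norm_sum_le _ _).trans ?_
    rw [← sumZ hω hχ hLpos, Finset.mul_sum, Finset.mul_sum]
    refine Finset.sum_le_sum fun e he => ?_
    refine (norm_sum_le _ _).trans ?_
    have h1 : ∀ v ∈ S', ‖((r e * Vc ω L v : ℝ) : ℂ) *
        ((1 / T : ℂ) * (∫ t : ℝ, ((w (t / T) * ‖riemannZeta (cl t)‖ ^ 2 : ℝ) : ℂ) *
          osc (e + v) t) -
          ((I₀ * ((L - ln (e + v)) * Real.exp (-(ln (e + v) / 2))) : ℝ) : ℂ))‖ ≤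
        (r e * Vc ω L v) * (C₀ * Real.exp (-(ln (e + v) / 2))) := by
      intro v hv
      rw [norm_mul, Complex.norm_real, Real.norm_eq_abs,
        abs_of_nonneg (mul_nonneg (hr0 e he) (hVc0 v))]
      refine mul_le_mul_of_nonneg_left ?_ (mul_nonneg (hr0 e he) (hVc0 v))
      refine hz T hT1 (e + v) ?_
      have := hln e he v hv
      linarith
    refine (Finset.sum_le_sum h1).trans (le_of_eq ?_)
    have h2 : ∑ v ∈ S', (r e * Vc ω L v) * (C₀ * Real.exp (-(ln (e + v) / 2))) =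
        r e * C₀ * ∑ v ∈ S', Vc ω L v * Real.exp (-(ln (e + v) / 2)) := by
      rw [Finset.mul_sum]
      refine Finset.sum_congr rfl fun v _ => ?_
      ring
    rw [h2, hcv2 e he, hr' e he]
    ring
  rw [← c6_expand hw hTpos, hmain, ← Complex.ofReal_sub, Complex.norm_real, Real.norm_eq_abs]
    at herr
  refine herr.trans ?_
  have h3 := (le_abs_self _).trans (hDS L hL2)
  have h4 : L ^ (15 / 2 : ℝ) = L * L ^ (13 / 2 : ℝ) := by
    rw [show (15 / 2 : ℝ) = 1 + 13 / 2 by norm_num, Real.rpow_add hLpos, Real.rpow_one]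
  rw [h4]
  calc C₀ * (L * DS hZ SZ (GZ fc cut ω χ) L)
      ≤ C₀ * (L * (C₁ * L ^ (13 / 2 : ℝ))) := by
        gcongr
    _ = C₀ * C₁ * (L * L ^ (13 / 2 : ℝ)) := by ring

end Pool.Agent.SixthMoment
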