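import Pool.Agent.Lib_MP_112ba8_s.Defs

/-!
Piece C2: the finite sum over 4-tuples of fractions is a sum over 5-tuples with sum zero.
-/

namespace Pool.Agent.SixthMoment

open Filter Topology MeasureTheory
open Pool.Agent.EvenMoment (cl Wgt Adm Ed cut hat)

theorem c2_ln_neg (q : QQ) : ln (-q) = ln q := by
  unfold ln
  rw [Finsupp.sum_neg_index (fun p => by simp)]
  refine Finsupp.sum_congr fun p _ => ?_
  rw [Int.cast_neg, abs_neg]

/-- 4-tuples are 5-tuples with sum zero -/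
noncomputable def c2_equiv : (Fin 4 → QQ) ≃ TT 5 where
  toFun v := ⟨Fin.cons (-∑ i, v i) v, by
    rw [Fin.sum_univ_succ]
    simp only [Fin.cons_zero, Fin.cons_succ]
    exact neg_add_cancel _⟩
  invFun f := fun i => f.1 i.succ
  left_inv v := by
    funext i
    rfl
  right_inv f := by
    refine Subtype.ext (funext fun i => ?_)
    refine Fin.cases ?_ (fun j => ?_) i
    · have h := f.2
      rw [Fin.sum_univ_succ] at h
      change -∑ i : Fin 4, f.1 i.succ = f.1 0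
      exact (eq_neg_of_add_eq_zero_left h).symm
    · rfl

theorem c2_term (ω φ : ℝ → ℝ) (L : ℝ) (v : Fin 4 → QQ) :
    wt hP (c2_equiv v) * GP φ ω (fun κ => ob SP (c2_equiv v) κ / L) =
      (∏ i, Vc ω L (v i)) *
        (Real.exp (-(ln (∑ i, v i) / 2)) * φ (ln (∑ i, v i) / L)) := by
  have hob : ∀ κ : Fin 5, ob SP (c2_equiv v) κ = ln ((c2_equiv v).1 κ) := by
    intro κ
    unfold ob SP
    rw [Finset.sum_singleton]
  have h0 : (c2_equiv v).1 0 = -∑ i, v i := rfl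
  have h1 : (c2_equiv v).1 1 = v 0 := rfl
  have h2 : (c2_equiv v).1 2 = v 1 := rfl
  have h3 : (c2_equiv v).1 3 = v 2 := rfl
  have h4 : (c2_equiv v).1 4 = v 3 := rfl
  have hv0 : vw (hP 0) (-∑ i, v i) = 1 := by simp [vw, hP]
  have hv1 : ∀ q, vw (hP 1) q = CC q := fun q => by simp [vw, hP]
  have hv2 : ∀ q, vw (hP 2) q = CC q := fun q => by simp [vw, hP]
  have hv3 : ∀ q, vw (hP 3) q = CC q := fun q => by simp [vw, hP]
  have hv4 : ∀ q, vw (hP 4) q = CC q := fun q => by simp [vw, hP]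
  unfold GP wt
  simp only [hob]
  rw [Fin.prod_univ_five, Fin.sum_univ_five, h0, h1, h2, h3, h4, hv0, hv1, hv2, hv3, hv4,
    c2_ln_neg, Fin.prod_univ_four]
  set s := ln (∑ i, v i) with hs
  unfold Vc
  have hexp : Real.exp (-((s + ln (v 0) + ln (v 1) + ln (v 2) + ln (v 3)) / 2)) =
      Real.exp (-(s / 2)) * Real.exp (-(ln (v 0) / 2)) * Real.exp (-(ln (v 1) / 2)) *
        Real.exp (-(ln (v 2) / 2)) * Real.exp (-(ln (v 3) / 2)) := by
    rw [← Real.exp_add, ← Real.exp_add, ← Real.exp_add, ← Real.exp_add]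
    congr 1
    ring
  rw [hexp]
  ring

theorem sumP {ω φ : ℝ → ℝ} {θ L : ℝ} (hω : Adm ω θ) (hL : 0 < L) :
    ∑ v ∈ Fintype.piFinset (fun _ : Fin 4 => QS (θ * L)), (∏ i, Vc ω L (v i)) *
      (Real.exp (-(ln (∑ i, v i) / 2)) * φ (ln (∑ i, v i) / L)) = DS hP SP (GP φ ω) L := by
  unfold DS
  rw [← c2_equiv.tsum_eq]
  rw [tsum_congr (c2_term ω φ L)]
  symm
  refine tsum_eq_sum fun v hv => ?_
  rw [Fintype.mem_piFinset] at hv
  push Not at hv
  obtain ⟨i, hi⟩ := hv
  rw [mem_QS, not_le] at hi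
  have hz : Vc ω L (v i) = 0 := by
    unfold Vc
    rw [hω.supp _ ((le_div_iff₀ hL).2 hi.le), zero_mul, mul_zero]
  rw [Finset.prod_eq_zero (Finset.mem_univ i) hz, zero_mul]

end Pool.Agent.SixthMoment
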