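import Pool.Agent.Lib_MP_112ba8_s.Osc
import Pool.Agent.Lib_MP_112ba8_s.Coef
import Pool.Agent.Lib_MP_112ba8_s.SumP
import Pool.Agent.Lib_MP_112ba8_s.Real
import Pool.Agent.Lib_MP_112ba8_s.DSlim
import Pool.Agent.Lib_MP_112ba8_s.Const
import Pool.Agent.Lib_MP_112ba8_e.Mixed

/-!
# Piece C5: mean value of `|zeta|^2 V^4`
-/

namespace Pool.Agent.SixthMoment

open Filter Topology MeasureTheory
open Pool.Agent.EvenMoment (cl Wgt Adm Ed cut hat)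

lemma v4_sepa (e : Ed 5) : ∃ κ, sepa (SP κ) e := by
  refine ⟨e.1.1, ?_⟩
  unfold sepa SP
  have h := e.2
  intro h1
  have h2 : e.1.1 ∈ ({e.1.1} : Finset (Fin 5)) := Finset.mem_singleton_self _
  have h3 := Finset.mem_singleton.mp (h1.mp h2)
  exact absurd h3.symm (ne_of_lt h)

lemma v4_GP_cont {φ ω : ℝ → ℝ} (hφ : Continuous φ) (hω : Continuous ω) :
    Continuous (GP φ ω) := by
  unfold GP
  fun_prop

lemma v4_GP_zero {ω : ℝ → ℝ} {θ : ℝ} (hω : Adm ω θ) (s : Fin 5 → ℝ)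
    (hs : ∃ κ, max θ 2 ≤ s κ) : GP cut ω s = 0 := by
  obtain ⟨κ, hκ⟩ := hs
  unfold GP
  have h1 : θ ≤ s κ := (le_max_left _ _).trans hκ
  have h2 : 2 ≤ s κ := (le_max_right _ _).trans hκ
  have h3 := hω.supp _ h1
  have h4 := Pool.Agent.EvenMoment.mx_cut_zero h2
  fin_cases κ
  · change cut (s 0) = 0 at h4
    rw [h4, zero_mul]
  · change ω (s 1) = 0 at h3
    rw [h3]; ring
  · change ω (s 2) = 0 at h3
    rw [h3]; ring
  · change ω (s 3) = 0 at h3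
    rw [h3]; ring
  · change ω (s 4) = 0 at h3
    rw [h3]; ring

lemma v4_bound {θ : ℝ} {ω : ℝ → ℝ} (hω : Adm ω θ) :
    ∃ C L₀ : ℝ, ∀ L : ℝ, L₀ ≤ L → DS hP SP (GP cut ω) L ≤ C * L ^ 7 := by
  have h1 := DS_tendsto hP SP (by norm_num) v4_sepa
    (v4_GP_cont Pool.Agent.EvenMoment.mx_cut_cont hω.cont) (max θ 2) (v4_GP_zero hω)
  set c := AR hP * LS hP SP (GP cut ω) with hc
  have h2 := (h1.eventually_le_const (lt_add_one c)).and (eventually_gt_atTop (0 : ℝ))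
  obtain ⟨L₀, hL₀⟩ := eventually_atTop.mp h2
  refine ⟨c + 1, L₀, fun L hL => ?_⟩
  obtain ⟨h3, h4⟩ := hL₀ L hL
  rw [kk_P, div_le_iff₀ (by positivity)] at h3
  have h5 : L ^ (7 : ℝ) = L ^ 7 := by
    rw [← Real.rpow_natCast]
    norm_num
  rwa [h5] at h3

lemma v4_osc_sum (v : Fin 4 → QQ) (t : ℝ) : ∏ i, osc (v i) t = osc (∑ i, v i) t := by
  simp only [Fin.prod_univ_four, Fin.sum_univ_four, osc_add]

lemma v4_pow (ω : ℝ → ℝ) (θ L t : ℝ) :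
    VV ω θ L t ^ 4 = ∑ v ∈ Fintype.piFinset (fun _ : Fin 4 => QS (θ * L)),
      (((∏ i, Vc ω L (v i) : ℝ)) : ℂ) * osc (∑ i, v i) t := by
  have h1 : VV ω θ L t ^ 4 = ∏ _i : Fin 4, VV ω θ L t := by
    rw [Finset.prod_const, Finset.card_univ, Fintype.card_fin]
  rw [h1]
  unfold VV
  rw [Finset.prod_univ_sum]
  refine Finset.sum_congr rfl fun v _ => ?_
  rw [Finset.prod_mul_distrib, v4_osc_sum]
  push_cast
  rfl

lemma v4_int {w : ℝ → ℝ} (hw : Wgt w) {T : ℝ} (hT : 0 < T) (q : QQ) :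
    Integrable fun t : ℝ => ((w (t / T) * ‖riemannZeta (cl t)‖ ^ 2 : ℝ) : ℂ) * osc q t :=
  Pool.Agent.EvenMoment.mx_int hw hT (fr q)

lemma v4_expand {w : ℝ → ℝ} (hw : Wgt w) {T : ℝ} (hT : 0 < T) (ω : ℝ → ℝ) (θ : ℝ) :
    ((∫ t : ℝ, w (t / T) * (‖riemannZeta (cl t)‖ ^ 2 * (VV ω θ (Real.log T) t).re ^ 4) : ℝ) : ℂ) =
      ∑ v ∈ Fintype.piFinset (fun _ : Fin 4 => QS (θ * Real.log T)),
        (((∏ i, Vc ω (Real.log T) (v i) : ℝ)) : ℂ) *
        ∫ t : ℝ, ((w (t / T) * ‖riemannZeta (cl t)‖ ^ 2 : ℝ) : ℂ) * osc (∑ i, v i) t := by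
  rw [← integral_complex_ofReal]
  have h1 : ∀ t : ℝ, ((w (t / T) * (‖riemannZeta (cl t)‖ ^ 2 *
      (VV ω θ (Real.log T) t).re ^ 4) : ℝ) : ℂ) =
      ∑ v ∈ Fintype.piFinset (fun _ : Fin 4 => QS (θ * Real.log T)),
        (((∏ i, Vc ω (Real.log T) (v i) : ℝ)) : ℂ) *
        (((w (t / T) * ‖riemannZeta (cl t)‖ ^ 2 : ℝ) : ℂ) * osc (∑ i, v i) t) := by
    intro t
    have h2 : (((VV ω θ (Real.log T) t).re : ℝ) : ℂ) = VV ω θ (Real.log T) t := by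
      apply Complex.ext
      · simp
      · simp [VV_real]
    have h3 : ((w (t / T) * (‖riemannZeta (cl t)‖ ^ 2 *
      (VV ω θ (Real.log T) t).re ^ 4) : ℝ) : ℂ) =
      ((w (t / T) * ‖riemannZeta (cl t)‖ ^ 2 : ℝ) : ℂ) * VV ω θ (Real.log T) t ^ 4 := by
      rw [← h2]
      push_cast
      simp only [Complex.ofReal_re]
      ring
    rw [h3, v4_pow, Finset.mul_sum]
    refine Finset.sum_congr rfl fun q _ => ?_
    ring
  simp_rw [h1]
  rw [integral_finsetSum]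
  · refine Finset.sum_congr rfl fun q _ => ?_
    rw [integral_const_mul]
  · intro q _
    exact (v4_int hw hT _).const_mul _

theorem mean_V4 {w : ℝ → ℝ} (hw : Wgt w) {θ : ℝ} (hθ : 0 < θ) (hθ1 : 4 * θ < 1) {ω : ℝ → ℝ}
    (hω : Adm ω θ) (hω0 : ∀ s, 0 ≤ ω s) : ∃ C T₀ : ℝ, ∀ T : ℝ, T₀ ≤ T →
    |(1 / T) * (∫ t : ℝ, w (t / T) *
        (‖riemannZeta (cl t)‖ ^ 2 * (VV ω θ (Real.log T) t).re ^ 4)) -
      (∫ x, w x) * (Real.log T * DS hP SP (GP fc ω) (Real.log T))| ≤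
      C * Real.log T ^ 7 := by
  set ε : ℝ := 1 - 4 * θ with hε
  have hε0 : 0 < ε := by linarith
  have hε1 : ε < 1 := by linarith
  obtain ⟨C, T₀, hC, hT₀, htw⟩ := zeta_osc hw hε0 hε1
  obtain ⟨C', L₀, hbd⟩ := v4_bound hω
  refine ⟨C * C', max T₀ (max (Real.exp L₀) (Real.exp 1)), fun T hT => ?_⟩
  have hT1 : T₀ ≤ T := (le_max_left _ _).trans hT
  have hT2 : Real.exp L₀ ≤ T := ((le_max_left _ _).trans (le_max_right _ _)).trans hT
  have hT3 : Real.exp 1 ≤ T := ((le_max_right _ _).trans (le_max_right _ _)).trans hT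
  have hTpos : 0 < T := lt_of_lt_of_le (by linarith) hT1
  set L := Real.log T with hL
  have hL1 : 1 ≤ L := by rw [hL, Real.le_log_iff_exp_le hTpos]; exact hT3
  have hL2 : L₀ ≤ L := by rw [hL, Real.le_log_iff_exp_le hTpos]; exact hT2
  have hLpos : 0 < L := by linarith
  set S := Fintype.piFinset (fun _ : Fin 4 => QS (θ * L)) with hS
  have hlast : ∀ v ∈ S, ln (∑ i, v i) ≤ 4 * θ * L := by
    intro v hv
    rw [hS, Fintype.mem_piFinset] at hv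
    have h0 := mem_QS.mp (hv 0)
    have h1 := mem_QS.mp (hv 1)
    have h2 := mem_QS.mp (hv 2)
    have h3 := mem_QS.mp (hv 3)
    rw [Fin.sum_univ_four]
    have h4 := ln_add_le (v 0 + v 1 + v 2) (v 3)
    have h5 := ln_add_le (v 0 + v 1) (v 2)
    have h6 := ln_add_le (v 0) (v 1)
    linarith
  have hcut : ∀ v ∈ S, cut (ln (∑ i, v i) / L) = 1 := by
    intro v hv
    apply Pool.Agent.EvenMoment.mx_cut_one
    rw [div_le_one hLpos]
    refine (hlast v hv).trans ?_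
    nlinarith
  have hVc : ∀ q, 0 ≤ Vc ω L q := by
    intro q
    unfold Vc
    exact mul_nonneg (CC_nonneg q) (mul_nonneg (hω0 _) (Real.exp_pos _).le)
  have hprod : ∀ v : Fin 4 → QQ, 0 ≤ ∏ i, Vc ω L (v i) :=
    fun v => Finset.prod_nonneg fun i _ => hVc _
  -- the main term
  have hmain : L * DS hP SP (GP fc ω) L = ∑ v ∈ S, (∏ i, Vc ω L (v i)) *
      ((L - ln (∑ i, v i)) * Real.exp (-(ln (∑ i, v i) / 2))) := by
    rw [← sumP hω hLpos, Finset.mul_sum]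
    refine Finset.sum_congr rfl fun v hv => ?_
    unfold fc
    rw [hcut v hv]
    field_simp
  have herr : DS hP SP (GP cut ω) L =
      ∑ v ∈ S, (∏ i, Vc ω L (v i)) * Real.exp (-(ln (∑ i, v i) / 2)) := by
    rw [← sumP hω hLpos]
    refine Finset.sum_congr rfl fun v hv => ?_
    rw [hcut v hv, mul_one]
  -- comparison, term by term
  have hterm : ∀ v ∈ S, ‖(((1 / T : ℝ) : ℂ) * ((((∏ i, Vc ω L (v i) : ℝ)) : ℂ) *
      ∫ t : ℝ, ((w (t / T) * ‖riemannZeta (cl t)‖ ^ 2 : ℝ) : ℂ) * osc (∑ i, v i) t)) -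
      (((∫ x, w x) * ((∏ i, Vc ω L (v i)) *
      ((L - ln (∑ i, v i)) * Real.exp (-(ln (∑ i, v i) / 2)))) : ℝ) : ℂ)‖ ≤
      C * ((∏ i, Vc ω L (v i)) * Real.exp (-(ln (∑ i, v i) / 2))) := by
    intro v hv
    have hle : ln (∑ i, v i) ≤ (1 - ε) * L := by
      refine (hlast v hv).trans (le_of_eq ?_)
      rw [hε]; ring
    have h1 := htw T hT1 (∑ i, v i) hle
    rw [← hL] at h1
    set I := ∫ t : ℝ, ((w (t / T) * ‖riemannZeta (cl t)‖ ^ 2 : ℝ) : ℂ) * osc (∑ i, v i) t with hI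
    set P := ∏ i, Vc ω L (v i) with hP'
    have hP0 : 0 ≤ P := hprod v
    have h2 : (((1 / T : ℝ) : ℂ) * ((P : ℂ) * I)) -
      (((∫ x, w x) * (P * ((L - ln (∑ i, v i)) * Real.exp (-(ln (∑ i, v i) / 2)))) : ℝ) : ℂ) =
      (P : ℂ) * ((1 / T : ℂ) * I - (((∫ x, w x) * ((L - ln (∑ i, v i)) *
        Real.exp (-(ln (∑ i, v i) / 2))) : ℝ) : ℂ)) := by
      push_cast
      ring
    rw [h2, norm_mul, Complex.norm_real, Real.norm_of_nonneg hP0]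
    calc P * ‖(1 / T : ℂ) * I - (((∫ x, w x) * ((L - ln (∑ i, v i)) *
        Real.exp (-(ln (∑ i, v i) / 2))) : ℝ) : ℂ)‖
        ≤ P * (C * Real.exp (-(ln (∑ i, v i) / 2))) := mul_le_mul_of_nonneg_left h1 hP0
      _ = C * (P * Real.exp (-(ln (∑ i, v i) / 2))) := by ring
  -- conclusion
  have hfin : (((1 / T) * (∫ t : ℝ, w (t / T) * (‖riemannZeta (cl t)‖ ^ 2 *
      (VV ω θ L t).re ^ 4)) - (∫ x, w x) * (L * DS hP SP (GP fc ω) L) : ℝ) : ℂ) =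
      ∑ v ∈ S, ((((1 / T : ℝ) : ℂ) * ((((∏ i, Vc ω L (v i) : ℝ)) : ℂ) *
      ∫ t : ℝ, ((w (t / T) * ‖riemannZeta (cl t)‖ ^ 2 : ℝ) : ℂ) * osc (∑ i, v i) t)) -
      (((∫ x, w x) * ((∏ i, Vc ω L (v i)) *
      ((L - ln (∑ i, v i)) * Real.exp (-(ln (∑ i, v i) / 2)))) : ℝ) : ℂ)) := by
    have h1 := v4_expand hw hTpos ω θ
    rw [← hL] at h1
    rw [Finset.sum_sub_distrib, ← Finset.mul_sum, Complex.ofReal_sub, Complex.ofReal_mul, h1,
      hmain, ← Complex.ofReal_sum, Finset.mul_sum S _ (∫ x, w x)]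
  rw [← Real.norm_eq_abs, ← Complex.norm_real, hfin]
  refine (norm_sum_le _ _).trans ?_
  refine (Finset.sum_le_sum hterm).trans ?_
  rw [← Finset.mul_sum, ← herr, mul_assoc]
  exact mul_le_mul_of_nonneg_left (hbd L hL2) hC.le

end Pool.Agent.SixthMoment
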