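import Mathlib
import Pool.Agent.Lib_MP_112ba8_s.Defs
import Pool.Agent.Lib_MP_112ba8_s.DSlim
import Pool.Agent.Lib_MP_112ba8_s.Const
import Pool.Agent.Lib_MP_112ba8_s.Real
import Pool.Agent.Lib_MP_112ba8_s.MeanV
import Pool.Agent.Lib_MP_112ba8_s.MeanRV
import Pool.Agent.Lib_MP_112ba8_s.MeanRR
import Pool.Agent.Lib_MP_112ba8_e.Even

/-!
Lower bound for the sixth moment of zeta in terms of the limit functionals.
-/

namespace Pool.Agent.SixthMoment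

open Filter Topology MeasureTheory
open Pool.Agent.EvenMoment (cl Wgt Adm Ed cut hat cut_cont cut_zero zeta_cl_cont integrable_wt
  weight_le wK wK_wgt wK_mass)

/-! ### D0 -/

lemma pointwise6 {x ν : ℝ} (hx : 0 ≤ x) (hν : 0 ≤ ν) (R V : ℝ) :
    4 * ν * (x * (R * V)) - 2 * ν * R ^ 2 - ν ^ 2 * (x * V ^ 4) ≤ x ^ 3 := by
  have h : x ^ 3 - (4 * ν * (x * (R * V)) - 2 * ν * R ^ 2 - ν ^ 2 * (x * V ^ 4)) =
      x * (x - ν * V ^ 2) ^ 2 + 2 * ν * (x * V - R) ^ 2 := by ring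
  have h2 : 0 ≤ x * (x - ν * V ^ 2) ^ 2 + 2 * ν * (x * V - R) ^ 2 := by positivity
  linarith

lemma fc_cont : Continuous fc := by
  unfold fc
  exact (continuous_const.sub continuous_id).mul cut_cont

lemma fc_zero {s : ℝ} (h : 2 ≤ s) : fc s = 0 := by unfold fc; rw [cut_zero h, mul_zero]

lemma GP_cont {φ ω : ℝ → ℝ} (hφ : Continuous φ) (hω : Continuous ω) : Continuous (GP φ ω) := by
  unfold GP
  fun_prop

lemma GZ_cont {φ ψ ω χ : ℝ → ℝ} (hφ : Continuous φ) (hψ : Continuous ψ) (hω : Continuous ω)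
    (hχ : Continuous χ) : Continuous (GZ φ ψ ω χ) := by
  unfold GZ
  fun_prop

lemma GP_zero {φ ω : ℝ → ℝ} {θ B : ℝ} (hω : Adm ω θ) (hφ : ∀ s, B ≤ s → φ s = 0)
    (s : Fin 5 → ℝ) (h : ∃ i, max θ B ≤ s i) : GP φ ω s = 0 := by
  obtain ⟨i, hi⟩ := h
  have h1 : θ ≤ s i := (le_max_left _ _).trans hi
  have h2 : B ≤ s i := (le_max_right _ _).trans hi
  unfold GP
  have hi5 : i = 0 ∨ i = 1 ∨ i = 2 ∨ i = 3 ∨ i = 4 := by omega
  rcases hi5 with rfl | rfl | rfl | rfl | rfl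
  · rw [hφ _ h2, zero_mul]
  · rw [hω.supp _ h1]; ring
  · rw [hω.supp (s 2) h1]; ring
  · rw [hω.supp (s 3) h1]; ring
  · rw [hω.supp (s 4) h1]; ring

lemma GZ_zero {φ ψ ω χ : ℝ → ℝ} {θ ρ B : ℝ} (hω : Adm ω θ) (hχ : Adm χ ρ)
    (hφ : ∀ s, B ≤ s → φ s = 0) (hψ : ∀ s, B ≤ s → ψ s = 0)
    (s : Fin 5 → ℝ) (h : ∃ i, max (max θ ρ) B ≤ s i) : GZ φ ψ ω χ s = 0 := by
  obtain ⟨i, hi⟩ := h
  have h1 : θ ≤ s i := ((le_max_left _ _).trans (le_max_left _ _)).trans hi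
  have h2 : B ≤ s i := (le_max_right _ _).trans hi
  have h3 : ρ ≤ s i := ((le_max_right _ _).trans (le_max_left _ _)).trans hi
  unfold GZ
  have hi5 : i = 0 ∨ i = 1 ∨ i = 2 ∨ i = 3 ∨ i = 4 := by omega
  rcases hi5 with rfl | rfl | rfl | rfl | rfl
  · rw [hφ _ h2]; ring
  · rw [hω.supp (s 1) h1]; ring
  · rw [hψ _ h2]; ring
  · rw [hω.supp (s 3) h1]; ring
  · rw [hχ.supp _ h3]; ring

lemma sepa_P (e : Ed 5) : ∃ κ, sepa (SP κ) e := by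
  refine ⟨e.1.1, ?_⟩
  unfold sepa SP
  have := e.2.ne'
  simp [this]

lemma sepa_Z (e : Ed 4) : ∃ κ, sepa (SZ κ) e := by
  revert e
  decide

lemma DZ_tendsto {θ ρ : ℝ} {ω χ φ ψ : ℝ → ℝ} (hω : Adm ω θ) (hχ : Adm χ ρ) {B : ℝ}
    (hφc : Continuous φ) (hψc : Continuous ψ)
    (hφ : ∀ s, B ≤ s → φ s = 0) (hψ : ∀ s, B ≤ s → ψ s = 0) :
    Tendsto (fun T : ℝ => DS hZ SZ (GZ φ ψ ω χ) (Real.log T) / Real.log T ^ (13 / 2 : ℝ)) atTop
      (𝓝 (AR hZ * LS hZ SZ (GZ φ ψ ω χ))) := by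
  have := (DS_tendsto hZ SZ (by norm_num) sepa_Z (GZ_cont hφc hψc hω.cont hχ.cont) _
    (GZ_zero hω hχ hφ hψ)).comp Real.tendsto_log_atTop
  rw [kk_Z] at this
  exact this

lemma DP_tendsto {θ : ℝ} {ω φ : ℝ → ℝ} (hω : Adm ω θ) {B : ℝ}
    (hφc : Continuous φ) (hφ : ∀ s, B ≤ s → φ s = 0) :
    Tendsto (fun T : ℝ => DS hP SP (GP φ ω) (Real.log T) / Real.log T ^ 7) atTop
      (𝓝 (AR hP * LS hP SP (GP φ ω))) := by
  have := (DS_tendsto hP SP (by norm_num) sepa_P (GP_cont hφc hω.cont) _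
    (GP_zero hω hφ)).comp Real.tendsto_log_atTop
  rw [kk_P] at this
  refine this.congr fun T => ?_
  simp only [Function.comp_apply]
  norm_cast

lemma sixth_weight {θ ρ : ℝ} (hθ : 0 < θ) (hθ1 : 4 * θ < 1) (hρ : 0 < ρ) (hρθ : ρ + θ < 1)
    {ω χ : ℝ → ℝ} (hω : Adm ω θ) (hω0 : ∀ s, 0 ≤ ω s) (hχ : Adm χ ρ) (hχ0 : ∀ s, 0 ≤ χ s)
    (hχ1 : ∀ s, χ s ≤ 1) {μ : ℝ} (hμ : 0 ≤ μ) {w : ℝ → ℝ} (hw : Wgt w) {A : ℝ}
    (hA : A < (∫ x, w x) * (2 * μ * (AR hZ * LS hZ SZ (GZ fc fc ω χ)) -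
      μ ^ 2 * (AR hP * LS hP SP (GP fc ω)))) :
    ∀ᶠ T : ℝ in atTop, A * Real.log T ^ 9 ≤
      (1 / T) * ∫ t : ℝ, w (t / T) * ‖riemannZeta (cl t)‖ ^ 6 := by
  set I := ∫ x, w x with hI
  set Zt := AR hZ * LS hZ SZ (GZ fc fc ω χ) with hZt
  set Pt := AR hP * LS hP SP (GP fc ω) with hPt
  have hlog : Tendsto Real.log atTop atTop := Real.tendsto_log_atTop
  have hfc2 : ∀ s : ℝ, 2 ≤ s → fc s = 0 := fun s hs => fc_zero hs
  have t1 := DZ_tendsto hω hχ fc_cont fc_cont hfc2 hfc2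
  have t2 := DP_tendsto hω fc_cont hfc2
  rw [← hZt] at t1
  rw [← hPt] at t2
  set DZ : ℝ → ℝ := fun T => DS hZ SZ (GZ fc fc ω χ) (Real.log T) with hDZ
  set DP : ℝ → ℝ := fun T => DS hP SP (GP fc ω) (Real.log T) with hDP
  set E1 : ℝ → ℝ := fun T => (1 / T) * (∫ t : ℝ, w (t / T) * (‖riemannZeta (cl t)‖ ^ 2 *
        ((RR ω χ θ ρ (Real.log T) t).re * (VV ω θ (Real.log T) t).re))) with hE1
  set E2 : ℝ → ℝ := fun T => (1 / T) * (∫ t : ℝ, w (t / T) * (RR ω χ θ ρ (Real.log T) t).re ^ 2)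
    with hE2
  set E3 : ℝ → ℝ := fun T => (1 / T) * (∫ t : ℝ, w (t / T) *
        (‖riemannZeta (cl t)‖ ^ 2 * (VV ω θ (Real.log T) t).re ^ 4)) with hE3
  obtain ⟨C1, T1, hC1⟩ := mean_RV hw hθ hρ hρθ hω hω0 hχ hχ0
  obtain ⟨C2, T2, hC2⟩ := mean_RR hw hθ hρ hρθ hω hχ hχ0 hχ1
  obtain ⟨C3, T3, hC3⟩ := mean_V4 hw hθ hθ1 hω hω0
  have hLpos : ∀ᶠ T : ℝ in atTop, 1 ≤ Real.log T := hlog.eventually_ge_atTop 1
  -- lower bound
  have hI0 : 0 ≤ I := integral_nonneg fun x => hw.nonneg x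
  have t3 : Tendsto (fun T : ℝ => I * (2 * μ * (DZ T / Real.log T ^ (13 / 2 : ℝ)) -
      μ ^ 2 * (DP T / Real.log T ^ 7)) -
      (4 * μ * |C1| + 2 * μ * |C2| + μ ^ 2 * |C3|) * (Real.log T)⁻¹) atTop
      (𝓝 (I * (2 * μ * Zt - μ ^ 2 * Pt))) := by
    have h1 := (((t1.const_mul (2 * μ)).sub (t2.const_mul (μ ^ 2))).const_mul I).sub
      ((tendsto_inv_atTop_zero.comp hlog).const_mul (4 * μ * |C1| + 2 * μ * |C2| + μ ^ 2 * |C3|))
    rw [mul_zero, sub_zero] at h1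
    exact h1
  filter_upwards [t3.eventually_const_lt hA, hLpos, eventually_gt_atTop (0 : ℝ),
    eventually_ge_atTop T1, eventually_ge_atTop T2, eventually_ge_atTop T3] with T h1 hL hT hT1 hT2 hT3
  have hL0 : 0 < Real.log T := by linarith
  set L := Real.log T with hLdef
  have hc1 : Continuous fun t : ℝ => (VV ω θ L t).re :=
    Complex.continuous_re.comp (VV_cont ω θ _)
  have hc2 : Continuous fun t : ℝ => (RR ω χ θ ρ L t).re :=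
    Complex.continuous_re.comp (RR_cont ω χ θ ρ _)
  have hzc : Continuous fun t : ℝ => ‖riemannZeta (cl t)‖ := zeta_cl_cont.norm
  set ν : ℝ := μ * L ^ (1 / 2 : ℝ) with hν
  have hs : (0 : ℝ) < L ^ (1 / 2 : ℝ) := Real.rpow_pos_of_pos hL0 _
  have hν0 : 0 ≤ ν := by positivity
  have hpt : ∀ t : ℝ, w (t / T) * (4 * ν * (‖riemannZeta (cl t)‖ ^ 2 *
        ((RR ω χ θ ρ L t).re * (VV ω θ L t).re)) - 2 * ν * (RR ω χ θ ρ L t).re ^ 2 -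
      ν ^ 2 * (‖riemannZeta (cl t)‖ ^ 2 * (VV ω θ L t).re ^ 4)) ≤
      w (t / T) * ‖riemannZeta (cl t)‖ ^ 6 := by
    intro t
    refine mul_le_mul_of_nonneg_left ?_ (hw.nonneg _)
    have := pointwise6 (x := ‖riemannZeta (cl t)‖ ^ 2) (by positivity) hν0
      (RR ω χ θ ρ L t).re (VV ω θ L t).re
    refine this.trans (le_of_eq ?_)
    ring
  have hi1 := integrable_wt hw hT (f := fun t => ‖riemannZeta (cl t)‖ ^ 2 *
        ((RR ω χ θ ρ L t).re * (VV ω θ L t).re)) ((hzc.pow 2).mul (hc2.mul hc1))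
  have hi2 := integrable_wt hw hT (f := fun t => (RR ω χ θ ρ L t).re ^ 2) (hc2.pow _)
  have hi3 := integrable_wt hw hT (f := fun t => ‖riemannZeta (cl t)‖ ^ 2 *
        (VV ω θ L t).re ^ 4) ((hzc.pow 2).mul (hc1.pow _))
  have hint : ∫ t : ℝ, w (t / T) * (4 * ν * (‖riemannZeta (cl t)‖ ^ 2 *
        ((RR ω χ θ ρ L t).re * (VV ω θ L t).re)) - 2 * ν * (RR ω χ θ ρ L t).re ^ 2 -
      ν ^ 2 * (‖riemannZeta (cl t)‖ ^ 2 * (VV ω θ L t).re ^ 4)) =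
      4 * ν * (∫ t : ℝ, w (t / T) * (‖riemannZeta (cl t)‖ ^ 2 *
        ((RR ω χ θ ρ L t).re * (VV ω θ L t).re))) -
      2 * ν * (∫ t : ℝ, w (t / T) * (RR ω χ θ ρ L t).re ^ 2) -
      ν ^ 2 * ∫ t : ℝ, w (t / T) * (‖riemannZeta (cl t)‖ ^ 2 * (VV ω θ L t).re ^ 4) := by
    have hi12 : Integrable fun t => 4 * ν * (w (t / T) * (‖riemannZeta (cl t)‖ ^ 2 *
        ((RR ω χ θ ρ L t).re * (VV ω θ L t).re))) -
        2 * ν * (w (t / T) * (RR ω χ θ ρ L t).re ^ 2) := (hi1.const_mul _).sub (hi2.const_mul _)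
    rw [← integral_const_mul, ← integral_const_mul, ← integral_const_mul,
      ← integral_sub (hi1.const_mul _) (hi2.const_mul _), ← integral_sub hi12 (hi3.const_mul _)]
    refine integral_congr_ae (ae_of_all _ fun t => ?_)
    simp only
    ring
  have hfin : (1 / T) * (∫ t : ℝ, w (t / T) * (4 * ν * (‖riemannZeta (cl t)‖ ^ 2 *
        ((RR ω χ θ ρ L t).re * (VV ω θ L t).re)) - 2 * ν * (RR ω χ θ ρ L t).re ^ 2 -
      ν ^ 2 * (‖riemannZeta (cl t)‖ ^ 2 * (VV ω θ L t).re ^ 4))) ≤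
      (1 / T) * ∫ t : ℝ, w (t / T) * ‖riemannZeta (cl t)‖ ^ 6 := by
    refine mul_le_mul_of_nonneg_left ?_ (by positivity)
    refine integral_mono ?_ (integrable_wt hw hT (hzc.pow _)) hpt
    exact integrable_wt hw hT (f := fun t => 4 * ν * (‖riemannZeta (cl t)‖ ^ 2 *
        ((RR ω χ θ ρ L t).re * (VV ω θ L t).re)) - 2 * ν * (RR ω χ θ ρ L t).re ^ 2 -
      ν ^ 2 * (‖riemannZeta (cl t)‖ ^ 2 * (VV ω θ L t).re ^ 4))
      (((continuous_const.mul ((hzc.pow 2).mul (hc2.mul hc1))).sub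
        (continuous_const.mul (hc2.pow _))).sub (continuous_const.mul ((hzc.pow 2).mul (hc1.pow _))))
  refine le_trans ?_ hfin
  rw [hint]
  have e2 : (1 / T) * (4 * ν * (∫ t : ℝ, w (t / T) * (‖riemannZeta (cl t)‖ ^ 2 *
        ((RR ω χ θ ρ L t).re * (VV ω θ L t).re))) -
      2 * ν * (∫ t : ℝ, w (t / T) * (RR ω χ θ ρ L t).re ^ 2) -
      ν ^ 2 * ∫ t : ℝ, w (t / T) * (‖riemannZeta (cl t)‖ ^ 2 * (VV ω θ L t).re ^ 4)) =
      4 * ν * E1 T - 2 * ν * E2 T - ν ^ 2 * E3 T := by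
    simp only [hE1, hE2, hE3, ← hLdef]; ring
  rw [e2]
  -- estimates of the three means
  have b1 : I * (L ^ 2 * DZ T) - |C1| * L ^ (15 / 2 : ℝ) ≤ E1 T := by
    have := (abs_le.mp (hC1 T hT1)).1
    have h9 : C1 * L ^ (15 / 2 : ℝ) ≤ |C1| * L ^ (15 / 2 : ℝ) :=
      mul_le_mul_of_nonneg_right (le_abs_self _) (Real.rpow_nonneg hL0.le _)
    simp only [hE1, hDZ, ← hLdef] at this ⊢
    linarith
  have b2 : E2 T ≤ I * (L ^ 2 * DZ T) + |C2| := by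
    have := hC2 T hT2
    have h9 := le_abs_self C2
    simp only [hE2, hDZ, ← hLdef] at this ⊢
    linarith
  have b3 : E3 T ≤ I * (L * DP T) + |C3| * L ^ 7 := by
    have := (abs_le.mp (hC3 T hT3)).2
    have h9 : C3 * L ^ 7 ≤ |C3| * L ^ 7 :=
      mul_le_mul_of_nonneg_right (le_abs_self _) (by positivity)
    simp only [hE3, hDP, ← hLdef] at this ⊢
    linarith
  -- powers of L in terms of s = L^(1/2)
  set s := L ^ (1 / 2 : ℝ) with hsdef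
  have hs2 : s ^ 2 = L := by
    rw [hsdef, ← Real.rpow_natCast, ← Real.rpow_mul hL0.le]; norm_num
  have hp13 : L ^ (13 / 2 : ℝ) = s ^ 13 := by
    rw [hsdef, ← Real.rpow_natCast, ← Real.rpow_mul hL0.le]; norm_num
  have hp15 : L ^ (15 / 2 : ℝ) = s ^ 15 := by
    rw [hsdef, ← Real.rpow_natCast, ← Real.rpow_mul hL0.le]; norm_num
  have hs1 : 1 ≤ s := by
    by_contra hcon
    have hcon' := not_le.mp hcon
    have : s ^ 2 < 1 := by nlinarith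
    rw [hs2] at this
    linarith
  rw [hp15] at b1
  have h1' : A < I * (2 * μ * (DZ T / s ^ 13) - μ ^ 2 * (DP T / L ^ 7)) -
      (4 * μ * |C1| + 2 * μ * |C2| + μ ^ 2 * |C3|) * L⁻¹ := by
    have := h1
    rw [hp13] at this
    exact this
  have hν' : ν = μ * s := rfl
  have key : A * L ^ 9 ≤ (I * (2 * μ * (DZ T / s ^ 13) - μ ^ 2 * (DP T / L ^ 7)) -
      (4 * μ * |C1| + 2 * μ * |C2| + μ ^ 2 * |C3|) * L⁻¹) * L ^ 9 :=
    mul_le_mul_of_nonneg_right h1'.le (by positivity)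
  refine key.trans ?_
  have e3 : (I * (2 * μ * (DZ T / s ^ 13) - μ ^ 2 * (DP T / L ^ 7)) -
      (4 * μ * |C1| + 2 * μ * |C2| + μ ^ 2 * |C3|) * L⁻¹) * L ^ 9 =
      2 * ν * (I * (L ^ 2 * DZ T)) - ν ^ 2 * (I * (L * DP T)) -
      (4 * μ * |C1| + 2 * μ * |C2| + μ ^ 2 * |C3|) * L ^ 8 := by
    have hLne : L ≠ 0 := hL0.ne'
    have hsne : s ≠ 0 := hs.ne'
    rw [hν']
    have g1 : DZ T / s ^ 13 * L ^ 9 = s * (L ^ 2 * DZ T) := by
      rw [← hs2]; field_simp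
    have g2 : DP T / L ^ 7 * L ^ 9 = s ^ 2 * (L * DP T) := by
      rw [hs2]; field_simp
    have g3 : L⁻¹ * L ^ 9 = L ^ 8 := by field_simp
    calc _ = 2 * μ * I * (DZ T / s ^ 13 * L ^ 9) - μ ^ 2 * I * (DP T / L ^ 7 * L ^ 9) -
          (4 * μ * |C1| + 2 * μ * |C2| + μ ^ 2 * |C3|) * (L⁻¹ * L ^ 9) := by ring
      _ = _ := by rw [g1, g2, g3]; ring
  rw [e3]
  have hL8 : L ^ 8 = s ^ 16 := by rw [← hs2]; ring
  have c1 : 4 * ν * (|C1| * s ^ 15) = 4 * μ * |C1| * L ^ 8 := by rw [hν', hL8]; ring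
  have c2 : 2 * ν * |C2| ≤ 2 * μ * |C2| * L ^ 8 := by
    rw [hν', hL8]
    have : s ≤ s ^ 16 := by
      calc s = s ^ 1 := (pow_one s).symm
        _ ≤ s ^ 16 := pow_le_pow_right₀ hs1 (by norm_num)
    have h0 : 0 ≤ 2 * μ * |C2| := by positivity
    nlinarith [mul_le_mul_of_nonneg_left this h0]
  have c3 : ν ^ 2 * (|C3| * L ^ 7) = μ ^ 2 * |C3| * L ^ 8 := by
    have : ν ^ 2 = μ ^ 2 * L := by rw [hν', mul_pow, hs2]
    rw [this]; ring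
  have d1 : 4 * ν * (I * (L ^ 2 * DZ T) - |C1| * s ^ 15) ≤ 4 * ν * E1 T :=
    mul_le_mul_of_nonneg_left b1 (by positivity)
  have d2 : 2 * ν * E2 T ≤ 2 * ν * (I * (L ^ 2 * DZ T) + |C2|) :=
    mul_le_mul_of_nonneg_left b2 (by positivity)
  have d3 : ν ^ 2 * E3 T ≤ ν ^ 2 * (I * (L * DP T) + |C3| * L ^ 7) :=
    mul_le_mul_of_nonneg_left b3 (by positivity)
  have d1' : 4 * ν * (I * (L ^ 2 * DZ T) - |C1| * s ^ 15) =
      4 * ν * (I * (L ^ 2 * DZ T)) - 4 * ν * (|C1| * s ^ 15) := by ring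
  have d2' : 2 * ν * (I * (L ^ 2 * DZ T) + |C2|) = 2 * ν * (I * (L ^ 2 * DZ T)) + 2 * ν * |C2| := by
    ring
  have d3' : ν ^ 2 * (I * (L * DP T) + |C3| * L ^ 7) =
      ν ^ 2 * (I * (L * DP T)) + ν ^ 2 * (|C3| * L ^ 7) := by ring
  rw [d1', c1] at d1
  rw [d2'] at d2
  rw [d3', c3] at d3
  have hexp : (4 * μ * |C1| + 2 * μ * |C2| + μ ^ 2 * |C3|) * L ^ 8 =
      4 * μ * |C1| * L ^ 8 + 2 * μ * |C2| * L ^ 8 + μ ^ 2 * |C3| * L ^ 8 := by ring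
  rw [hexp]
  linarith

theorem sixth_moment {θ ρ : ℝ} (hθ : 0 < θ) (hθ1 : 4 * θ < 1) (hρ : 0 < ρ) (hρθ : ρ + θ < 1)
    {ω χ : ℝ → ℝ} (hω : Adm ω θ) (hω0 : ∀ s, 0 ≤ ω s) (hχ : Adm χ ρ) (hχ0 : ∀ s, 0 ≤ χ s)
    (hχ1 : ∀ s, χ s ≤ 1) {z P : ℝ} (hz : 0 ≤ z) (hP0 : 0 < P)
    (hzl : z ≤ LS hZ SZ (GZ fc fc ω χ)) (hPl : LS hP SP (GP fc ω) ≤ P) {A : ℝ}
    (hA : A < Pool.Agent.EvenMoment.ar 3 * (z ^ 2 / P)) :
    ∀ᶠ T : ℝ in atTop, A * Real.log T ^ 9 ≤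
      (1 / T) * ∫ t in (0 : ℝ)..T, ‖riemannZeta (cl t)‖ ^ 6 := by
  set X := Pool.Agent.EvenMoment.ar 3 * (z ^ 2 / P) with hX
  have har : 0 < Pool.Agent.EvenMoment.ar 3 := Real.exp_pos _
  have hX0 : 0 ≤ X := by positivity
  have hAZ : 0 < AR hZ := Real.exp_pos _
  have hAP : 0 < AR hP := Real.exp_pos _
  -- choose κ
  obtain ⟨κ, hκ0, hκ1, hκ2⟩ : ∃ κ : ℝ, 0 < κ ∧ κ < 1 / 2 ∧ A < (1 - 2 * κ) * X := by
    refine ⟨min (1 / 4) ((X - A) / (4 * (X + 1))), ?_, ?_, ?_⟩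
    · have : 0 < (X - A) / (4 * (X + 1)) := by
        apply div_pos <;> linarith
      positivity
    · exact lt_of_le_of_lt (min_le_left _ _) (by norm_num)
    · have h1 : min (1 / 4) ((X - A) / (4 * (X + 1))) ≤ (X - A) / (4 * (X + 1)) := min_le_right _ _
      have h2 : (X - A) / (4 * (X + 1)) * (X + 1) = (X - A) / 4 := by field_simp
      have h3 : 0 ≤ min (1 / 4) ((X - A) / (4 * (X + 1))) := by
        have : 0 < (X - A) / (4 * (X + 1)) := by apply div_pos <;> linarith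
        positivity
      nlinarith
  have hw := wK_wgt κ ⟨hκ0, hκ1⟩
  have hmass := wK_mass κ ⟨hκ0, hκ1⟩
  set μ := AR hZ * z / (AR hP * P) with hμ
  have hμ0 : 0 ≤ μ := by positivity
  set Zt := AR hZ * LS hZ SZ (GZ fc fc ω χ) with hZt
  set Pt := AR hP * LS hP SP (GP fc ω) with hPt
  have hval : X ≤ 2 * μ * Zt - μ ^ 2 * Pt := by
    have h1 : AR hZ * z ≤ Zt := mul_le_mul_of_nonneg_left hzl hAZ.le
    have h2 : Pt ≤ AR hP * P := mul_le_mul_of_nonneg_left hPl hAP.le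
    have h3 : X = 2 * μ * (AR hZ * z) - μ ^ 2 * (AR hP * P) := by
      have h4 : 2 * μ * (AR hZ * z) - μ ^ 2 * (AR hP * P) = AR hZ ^ 2 * z ^ 2 / (AR hP * P) := by
        rw [hμ]; field_simp; ring
      rw [h4, AR_identity, hX]
      field_simp
    rw [h3]
    have h5 := mul_le_mul_of_nonneg_left h1 (show 0 ≤ 2 * μ by positivity)
    have h6 := mul_le_mul_of_nonneg_left h2 (sq_nonneg μ)
    linarith
  have hA' : A < (∫ x, wK κ ⟨hκ0, hκ1⟩ x) * (2 * μ * Zt - μ ^ 2 * Pt) := by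
    refine lt_of_lt_of_le hκ2 ?_
    have h7 : 0 ≤ 1 - 2 * κ := by linarith
    calc (1 - 2 * κ) * X ≤ (∫ x, wK κ ⟨hκ0, hκ1⟩ x) * X :=
          mul_le_mul_of_nonneg_right hmass hX0
      _ ≤ _ := mul_le_mul_of_nonneg_left hval (h7.trans hmass)
  have h1 := sixth_weight hθ hθ1 hρ hρθ hω hω0 hχ hχ0 hχ1 hμ0 hw hA'
  filter_upwards [h1, eventually_gt_atTop (0 : ℝ)] with T h2 hT
  refine h2.trans ?_
  refine mul_le_mul_of_nonneg_left ?_ (by positivity)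
  exact weight_le hw (fun x => (wK κ ⟨hκ0, hκ1⟩).le_one) hT (zeta_cl_cont.norm.pow _)
    (fun t => by positivity)

end Pool.Agent.SixthMoment
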