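import Pool.Agent.Lib_MP_112ba8_s.Defs

/-!
Evaluation of the explicit integral `Zn` by polynomial integration.
-/

namespace Pool.Agent.SixthMoment

open Filter Topology MeasureTheory

lemma e7_int4 (a0 a1 a2 a3 a4 m : ℝ) :
    ∫ t in (0 : ℝ)..m, (a0 + a1 * t + a2 * t ^ 2 + a3 * t ^ 3 + a4 * t ^ 4) =
      a0 * m + a1 * m ^ 2 / 2 + a2 * m ^ 3 / 3 + a3 * m ^ 4 / 4 + a4 * m ^ 5 / 5 := by
  have h : ∀ t ∈ Set.uIcc (0 : ℝ) m, HasDerivAt
      (fun t : ℝ => a0 * t + a1 * (t ^ 2 / 2) + a2 * (t ^ 3 / 3) + a3 * (t ^ 4 / 4) +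
        a4 * (t ^ 5 / 5))
      (a0 + a1 * t + a2 * t ^ 2 + a3 * t ^ 3 + a4 * t ^ 4) t := by
    intro t _
    have h1 := (hasDerivAt_id t).const_mul a0
    have h2 := ((hasDerivAt_pow 2 t).div_const 2).const_mul a1
    have h3 := ((hasDerivAt_pow 3 t).div_const 3).const_mul a2
    have h4 := ((hasDerivAt_pow 4 t).div_const 4).const_mul a3
    have h5 := ((hasDerivAt_pow 5 t).div_const 5).const_mul a4
    refine ((((h1.add h2).add h3).add h4).add h5).congr_deriv ?_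
    push_cast
    ring
  rw [intervalIntegral.integral_eq_sub_of_hasDerivAt h
    (Continuous.intervalIntegrable (by fun_prop) _ _)]
  ring

/-- integral over `y` -/
lemma e7_y (s R b t : ℝ) :
    ∫ y in (0 : ℝ)..(R - b - t), y * ((s + b - t - y) * (s + t - b - y)) =
      (s ^ 2 - (b - t) ^ 2) * (R - b - t) ^ 2 / 2 - 2 * s * (R - b - t) ^ 3 / 3 +
        (R - b - t) ^ 4 / 4 := by
  have : (fun y : ℝ => y * ((s + b - t - y) * (s + t - b - y))) = fun y : ℝ =>
      (0 + (s ^ 2 - (b - t) ^ 2) * y + (- (2 * s)) * y ^ 2 + 1 * y ^ 3 + 0 * y ^ 4) := by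
    funext y; ring
  rw [this, e7_int4]
  ring

/-- integral over `t` -/
lemma e7_t (s R b m : ℝ) :
    ∫ t in (0 : ℝ)..m, ((s ^ 2 - (b - t) ^ 2) * (R - b - t) ^ 2 / 2 -
      2 * s * (R - b - t) ^ 3 / 3 + (R - b - t) ^ 4 / 4) =
      ((1/2) * s^2 * R^2 * m + (-1/2) * s^2 * R * m^2 + (1/6) * s^2 * m^3 + (-2/3) * s * R^3 * m + (1) * s * R^2 * m^2 + (-2/3) * s * R * m^3 + (1/6) * s * m^4 + (1/4) * R^4 * m + (-1/2) * R^3 * m^2 + (1/3) * R^2 * m^3 + (-1/20) * m^5) +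
      ((-1) * s^2 * R * m + (1/2) * s^2 * m^2 + (2) * s * R^2 * m + (-2) * s * R * m^2 + (2/3) * s * m^3 + (-1) * R^3 * m + (2) * R^2 * m^2 + (-4/3) * R * m^3 + (1/4) * m^4) * b +
      ((1/2) * s^2 * m + (-2) * s * R * m + (1) * s * m^2 + (1) * R^2 * m + (-2) * R * m^2 + (5/6) * m^3) * b ^ 2 +
      ((2/3) * s * m + (1/2) * m^2) * b ^ 3 + ((-1/4) * m) * b ^ 4 := by
  have : (fun t : ℝ => ((s ^ 2 - (b - t) ^ 2) * (R - b - t) ^ 2 / 2 -
      2 * s * (R - b - t) ^ 3 / 3 + (R - b - t) ^ 4 / 4)) = fun t : ℝ =>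
      ((1/2) * s^2 * R^2 + (-1) * s^2 * R * b + (1/2) * s^2 * b^2 + (-2/3) * s * R^3 + (2) * s * R^2 * b + (-2) * s * R * b^2 + (2/3) * s * b^3 + (1/4) * R^4 + (-1) * R^3 * b + (1) * R^2 * b^2 + (-1/4) * b^4) +
      ((-1) * s^2 * R + (1) * s^2 * b + (2) * s * R^2 + (-4) * s * R * b + (2) * s * b^2 + (-1) * R^3 + (4) * R^2 * b + (-4) * R * b^2 + (1) * b^3) * t +
      ((1/2) * s^2 + (-2) * s * R + (2) * s * b + (1) * R^2 + (-4) * R * b + (5/2) * b^2) * t ^ 2 +
      ((2/3) * s + (1) * b) * t ^ 3 + (-1/4) * t ^ 4 := by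
    funext t; ring
  rw [this, e7_int4]
  ring

/-- the inner triple integral -/
lemma e7_inner (s R m : ℝ) :
    ∫ b in (0 : ℝ)..m, ∫ t in (0 : ℝ)..m, ∫ y in (0 : ℝ)..(R - b - t),
      y * ((s + b - t - y) * (s + t - b - y)) =
    (1/2) * s^2 * R^2 * m^2 + (-1) * s^2 * R * m^3 + (7/12) * s^2 * m^4 + (-2/3) * s * R^3 * m^2 + (2) * s * R^2 * m^3 + (-7/3) * s * R * m^4 + (1) * s * m^5 + (1/4) * R^4 * m^2 + (-1) * R^3 * m^3 + (5/3) * R^2 * m^4 + (-4/3) * R * m^5 + (77/180) * m^6 := by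
  simp only [e7_y, e7_t]
  rw [e7_int4]
  ring

/-- coefficients of the outer polynomial -/
noncomputable def e7_P : ℕ → ℝ
  | 0 => 231935637009011718518377855952112857/180000000000000000000000000000000000000
  | 1 => -143780048443983584648715949277/30000000000000000000000000000000
  | 2 => -8770980222485593491791/300000000000000000000000
  | 3 => 33171029291085923/450000000000000000
  | 4 => 588907241843/3000000000000
  | 5 => -1084933/7500000
  | 6 => 17/180
  | _ => 0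

lemma e7_poly (c : ℝ) :
    ∫ b in (0 : ℝ)..(219961 / 1000000 - c), ∫ b' in (0 : ℝ)..(219961 / 1000000 - c),
      ∫ y in (0 : ℝ)..(78 / 100 - b - b' - c),
        y * ((1 - (219962 / 1000000 - c - b + b' + y)) *
          (1 - (219962 / 1000000 - c - b' + b + y))) =
      ∑ k ∈ Finset.range 7, e7_P k * c ^ k := by
  have h1 := e7_inner (1 - 219962 / 1000000 + c) (78 / 100 - c) (219961 / 1000000 - c)
  have h2 : ∀ b b' : ℝ, (∫ y in (0 : ℝ)..(78 / 100 - b - b' - c),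
        y * ((1 - (219962 / 1000000 - c - b + b' + y)) *
          (1 - (219962 / 1000000 - c - b' + b + y)))) =
      ∫ y in (0 : ℝ)..((78 / 100 - c) - b - b'),
        y * (((1 - 219962 / 1000000 + c) + b - b' - y) *
          ((1 - 219962 / 1000000 + c) + b' - b - y)) := by
    intro b b'
    rw [show (78 / 100 - b - b' - c : ℝ) = (78 / 100 - c) - b - b' by ring]
    congr 1
    funext y
    ring
  simp only [h2]
  rw [h1]
  simp only [Finset.sum_range_succ, Finset.sum_range_zero, e7_P]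
  ring

lemma e7_half (k : ℕ) {c : ℝ} (hc : 0 < c) :
    (1 / Real.sqrt (Real.pi * c)) * c ^ k =
      (1 / Real.sqrt Real.pi) * c ^ ((k : ℝ) - 1 / 2) := by
  rw [Real.sqrt_mul Real.pi_pos.le, Real.rpow_sub hc, Real.rpow_natCast, ← Real.sqrt_eq_rpow]
  have h1 : Real.sqrt c ≠ 0 := (Real.sqrt_pos.mpr hc).ne'
  have h2 : Real.sqrt Real.pi ≠ 0 := (Real.sqrt_pos.mpr Real.pi_pos).ne'
  field_simp

lemma e7_sqrt : Real.sqrt (219961 / 1000000 : ℝ) = 469 / 1000 := by
  rw [show (219961 / 1000000 : ℝ) = (469 / 1000) ^ 2 by norm_num]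
  exact Real.sqrt_sq (by norm_num)

lemma e7_term (k : ℕ) :
    ∫ c in (0 : ℝ)..(219961 / 1000000), c ^ ((k : ℝ) - 1 / 2) =
      (219961 / 1000000) ^ k * (469 / 1000) / ((k : ℝ) + 1 / 2) := by
  have hk : (0 : ℝ) ≤ k := Nat.cast_nonneg k
  rw [integral_rpow (Or.inl (by linarith))]
  rw [show (k : ℝ) - 1 / 2 + 1 = k + 1 / 2 by ring]
  rw [Real.zero_rpow (by linarith), Real.rpow_add (by norm_num), Real.rpow_natCast,
    ← Real.sqrt_eq_rpow, e7_sqrt]
  ring

lemma e7_eq : Zn (219962 / 1000000) (219961 / 1000000) (78 / 100) =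
    (1 / Real.sqrt Real.pi) * ∑ k ∈ Finset.range 7,
      e7_P k * ((219961 / 1000000) ^ k * (469 / 1000) / ((k : ℝ) + 1 / 2)) := by
  unfold Zn
  simp only [e7_poly]
  have h1 : ∫ c in (0 : ℝ)..(219961 / 1000000),
      (1 / Real.sqrt (Real.pi * c)) * ∑ k ∈ Finset.range 7, e7_P k * c ^ k =
      ∫ c in (0 : ℝ)..(219961 / 1000000), ∑ k ∈ Finset.range 7,
        (1 / Real.sqrt Real.pi * e7_P k) * c ^ ((k : ℝ) - 1 / 2) := by
    refine intervalIntegral.integral_congr_ae (Filter.Eventually.of_forall ?_)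
    intro c hc
    rw [Set.uIoc_of_le (by norm_num)] at hc
    rw [Finset.mul_sum]
    refine Finset.sum_congr rfl fun k _ => ?_
    have := e7_half k hc.1
    calc (1 / Real.sqrt (Real.pi * c)) * (e7_P k * c ^ k)
        = e7_P k * ((1 / Real.sqrt (Real.pi * c)) * c ^ k) := by ring
      _ = e7_P k * ((1 / Real.sqrt Real.pi) * c ^ ((k : ℝ) - 1 / 2)) := by rw [this]
      _ = _ := by ring
  rw [h1, intervalIntegral.integral_finsetSum]
  · rw [Finset.mul_sum]
    refine Finset.sum_congr rfl fun k _ => ?_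
    rw [intervalIntegral.integral_const_mul, e7_term]
    ring
  · intro k _
    have hk : (0 : ℝ) ≤ k := Nat.cast_nonneg k
    exact (intervalIntegral.intervalIntegrable_rpow' (by linarith)).const_mul _

theorem Zn_ge : 761 / 1000000 / Real.sqrt Real.pi ≤
    Zn (219962 / 1000000) (219961 / 1000000) (78 / 100) := by
  rw [e7_eq, div_eq_mul_one_div, mul_comm]
  refine mul_le_mul_of_nonneg_left ?_ (by positivity)
  simp only [Finset.sum_range_succ, Finset.sum_range_zero, e7_P]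
  norm_num

end Pool.Agent.SixthMoment
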