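import Mathlib
import Pool.Agent.Lib_MP_112ba8_s.Defs
import Pool.Agent.Lib_MP_112ba8_s.Sixth
import Pool.Agent.Lib_MP_112ba8_s.ShellP
import Pool.Agent.Lib_MP_112ba8_s.Angles
import Pool.Agent.Lib_MP_112ba8_s.Qbound
import Pool.Agent.Lib_MP_112ba8_s.ShellZ
import Pool.Agent.Lib_MP_112ba8_s.Zint

/-!
The numerical constant for the sixth moment.
-/

namespace Pool.Agent.SixthMoment

open Filter Topology MeasureTheory
open Pool.Agent.EvenMoment (cl Wgt Adm Ed cut hat)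

/-! ### D1 -/

lemma d1_hat_adm {θ δ : ℝ} (hδ : 0 < δ) : Adm (hat θ δ) θ := by
  constructor
  · unfold hat; fun_prop
  · intro s hs
    unfold hat
    apply max_eq_left
    have h1 : 0 ≤ 2 * (s - θ) / δ := by
      apply div_nonneg _ hδ.le
      linarith
    have h2 : 1 ≤ |2 * (s - θ) / δ + 1| := by
      rw [abs_of_nonneg (by linarith)]; linarith
    linarith

lemma d1_hat_nonneg (θ δ s : ℝ) : 0 ≤ hat θ δ s := le_max_left _ _

lemma d1_chi_adm {ρ η : ℝ} (hη : 0 < η) : Adm (chi ρ η) ρ := by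
  constructor
  · unfold chi; fun_prop
  · intro s hs
    unfold chi
    apply max_eq_left
    refine (min_le_right _ _).trans ?_
    exact div_nonpos_of_nonpos_of_nonneg (by linarith) hη.le

lemma d1_chi_nonneg (ρ η s : ℝ) : 0 ≤ chi ρ η s := le_max_left _ _

lemma d1_chi_le_one (ρ η s : ℝ) : chi ρ η s ≤ 1 := max_le zero_le_one (min_le_left _ _)

theorem const6 {A : ℝ} (hA : A < 28) : ∀ᶠ T : ℝ in atTop,
    A * (Pool.Agent.EvenMoment.ar 3 / (Nat.factorial 9)) * Real.log T ^ 9 ≤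
      (1 / T) * ∫ t in (0 : ℝ)..T, ‖riemannZeta (cl t)‖ ^ 6 := by
  set θ : ℝ := 219962 / 1000000 with hθ
  set δ : ℝ := 1 / 1000000 with hδ
  set ρ : ℝ := 78001 / 100000 with hρ
  set η : ℝ := 1 / 100000 with hη
  have har : 0 < Pool.Agent.EvenMoment.ar 3 := Real.exp_pos _
  have hδ0 : 0 < δ := by norm_num [hδ]
  have hη0 : 0 < η := by norm_num [hη]
  have hpi := Real.pi_gt_d6
  have hpi0 := Real.pi_pos
  set Z := Zn θ (θ - δ) (ρ - η) with hZ'
  have e1 : θ - δ = 219961 / 1000000 := by norm_num [hθ, hδ]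
  have e2 : ρ - η = 78 / 100 := by norm_num [hρ, hη]
  have hZ1 : 761 / 1000000 / Real.sqrt Real.pi ≤ Z := by
    rw [hZ', e1, e2]; exact Zn_ge
  set B : ℝ := 1 - 4 * (θ - δ) with hB
  have hB0 : 0 ≤ B := by rw [hB, e1]; norm_num
  set X : ℝ := (B + 2 * θ) + ((B + θ) * (1213 / 10000) + θ * (2286 / 10000)) with hX
  have hX0 : 0 < X := by
    have : 0 < θ := by norm_num [hθ]
    positivity
  set K : ℝ := 32 / 3 * (θ ^ 3 / Real.pi ^ 3) * X with hK
  have hθ0 : 0 < θ := by norm_num [hθ]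
  have hK0 : 0 < K := by positivity
  have hPle : LS hP SP (GP fc (hat θ δ)) ≤ (δ / 2) ^ 4 * K := by
    have h1 := LS_P_le_K6 (θ := θ) hδ0 (by norm_num [hθ, hδ]) (by norm_num [hθ])
    have h2 := K6_le (θ := θ) (A := B) hθ0 hB0
    have h3 := int_q3_le (A := B) (θ := θ) hB0 hθ0.le
    have h4 : K6 θ B ≤ ENNReal.ofReal K := by
      refine h2.trans (ENNReal.ofReal_le_ofReal ?_)
      rw [hK, hX]
      gcongr
    have h5 := h1.trans (mul_le_mul_right h4 _)
    rw [← ENNReal.ofReal_mul (by positivity)] at h5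
    exact (ENNReal.ofReal_le_ofReal_iff (by positivity)).mp h5
  have hZle := LS_Z_ge (θ := θ) (δ := δ) (ρ := ρ) (η := η) hδ0 (by norm_num [hθ, hδ]) hη0
    (by norm_num [hθ, hρ]) (by norm_num [hθ, hρ, hη])
  have hsq : (761 / 1000000 : ℝ) ^ 2 / Real.pi ≤ Z ^ 2 := by
    have h1 : (0 : ℝ) ≤ 761 / 1000000 / Real.sqrt Real.pi := by positivity
    have h2 := pow_le_pow_left₀ h1 hZ1 2
    rwa [div_pow, Real.sq_sqrt hpi0.le] at h2
  have hZ0 : 0 ≤ Z := le_trans (by positivity) hZ1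
  have hnum : 28 / (Nat.factorial 9 : ℝ) ≤ Z ^ 2 / K := by
    rw [le_div_iff₀ hK0]
    refine le_trans ?_ hsq
    rw [le_div_iff₀ hpi0, hK, hX, hB, e1, hθ]
    have hf : (Nat.factorial 9 : ℝ) = 362880 := by norm_num [Nat.factorial]
    rw [hf]
    have hp2 : (3.141592 : ℝ) ^ 2 ≤ Real.pi ^ 2 := by gcongr
    have e3 : 28 / (362880 : ℝ) * (32 / 3 * ((219962 / 1000000) ^ 3 / Real.pi ^ 3) *
        ((1 - 4 * (219961 / 1000000) + 2 * (219962 / 1000000)) +
        ((1 - 4 * (219961 / 1000000) + 219962 / 1000000) * (1213 / 10000) +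
        219962 / 1000000 * (2286 / 10000)))) * Real.pi =
        28 / 362880 * (32 / 3 * (219962 / 1000000) ^ 3 *
        ((1 - 4 * (219961 / 1000000) + 2 * (219962 / 1000000)) +
        ((1 - 4 * (219961 / 1000000) + 219962 / 1000000) * (1213 / 10000) +
        219962 / 1000000 * (2286 / 10000)))) / Real.pi ^ 2 := by
      field_simp
    rw [e3, div_le_iff₀ (by positivity)]
    refine le_trans ?_ (mul_le_mul_of_nonneg_left hp2 (by positivity))
    norm_num
  refine (sixth_moment (θ := θ) (ρ := ρ) hθ0 (by norm_num [hθ]) (by norm_num [hρ])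
    (by norm_num [hθ, hρ]) (d1_hat_adm hδ0) (d1_hat_nonneg θ δ) (d1_chi_adm hη0) (d1_chi_nonneg ρ η)
    (d1_chi_le_one ρ η) (z := (δ / 2) ^ 2 * Z) (P := (δ / 2) ^ 4 * K) (by positivity) (by positivity)
    hZle hPle ?_)
  have e4 : ((δ / 2) ^ 2 * Z) ^ 2 / ((δ / 2) ^ 4 * K) = Z ^ 2 / K := by
    field_simp
  rw [e4]
  have hf0 : (0 : ℝ) < (Nat.factorial 9 : ℝ) := by positivity
  calc A * (Pool.Agent.EvenMoment.ar 3 / (Nat.factorial 9)) =
        Pool.Agent.EvenMoment.ar 3 * (A / (Nat.factorial 9)) := by ring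
    _ < Pool.Agent.EvenMoment.ar 3 * (28 / (Nat.factorial 9)) := by gcongr
    _ ≤ _ := mul_le_mul_of_nonneg_left hnum har.le

end Pool.Agent.SixthMoment
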